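import Pool.Agent.Work.MP_ca0f09_nt.D5

set_option autoImplicit false
open Filter Topology Finset

namespace Pool.Agent.Work.MP_ca0f09_nt

theorem special_mass {x M : ℕ} (hx : 2 ≤ x) (hl : 48 ≤ Real.log x) (hM : 1 ≤ M) :
    Real.log M - 1 ≤ ∑ p ∈ (Ioc x (x ^ M)).filter Nat.Prime, 1 / (p : ℝ) ∧
    ∑ p ∈ (Ioc x (x ^ M)).filter Nat.Prime, 1 / (p : ℝ) ≤ M := by
  have h := abs_le.1 (Lib.ANT.abs_sum_inv_prime_Ioc_sub_le x (x ^ M) hx
    (Nat.le_self_pow (by omega) x))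
  have M0 : (0 : ℝ) < M := by exact_mod_cast hM
  simp only [← one_div] at h
  rw [Nat.cast_pow, Real.log_pow, Real.log_mul M0.ne' (by linarith)] at h
  have h1 : 48 / Real.log x ≤ 1 := by rw [div_le_one (by linarith)]; exact hl
  have := Real.log_le_sub_one_of_pos M0
  constructor <;> linarith [h.1, h.2]

/-- (D) helper86.  `C` may depend on `h, W, ε` but not on `Q₀`. -/
theorem exists_sys (h W : ℕ) (hh : 1 ≤ h) (hW : 1 ≤ W) (ε : ℝ) (hε : 0 < ε) (hε1 : ε ≤ 1) :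
    ∃ C : ℝ, 0 < C ∧ ∀ Q₀ : ℝ, Nonempty (Sys h W ε C Q₀) := by
  obtain ⟨δ, hδ⟩ : ∃ δ : ℝ, δ = ε ^ 2 / 48 := ⟨_, rfl⟩
  have δ0 : 0 < δ := by rw [hδ]; positivity
  have δ1 : δ ≤ 1 := by rw [hδ]; nlinarith
  obtain ⟨K, hK⟩ : ∃ K : ℝ, K = 24482 / δ := ⟨_, rfl⟩
  have K1 : 1 ≤ K := by rw [hK, le_div_iff₀ δ0]; linarith
  have W1 : (1 : ℝ) ≤ W := by exact_mod_cast hW
  obtain ⟨R, hR⟩ : ∃ R : ℝ, R = 1022 * W * K / δ := ⟨_, rfl⟩
  have R1 : 1 ≤ R := by rw [hR, le_div_iff₀ δ0]; nlinarith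
  obtain ⟨M, hM⟩ := exists_nat_ge (Real.exp (R ^ 2 + 1))
  have M1 : (1 : ℝ) ≤ M := (Real.one_le_exp (by positivity)).trans hM
  have M1' : 1 ≤ M := by exact_mod_cast M1
  have hM' : R ^ 2 + 1 ≤ Real.log M := (Real.le_log_iff_exp_le (by linarith)).2 hM
  refine ⟨ε / 3 * (2 * M * W) / δ, by positivity, fun Q₀ => ?_⟩
  have ev : ∀ c : ℝ, ∀ᶠ n : ℕ in atTop, c ≤ n := fun c =>
    tendsto_natCast_atTop_atTop.eventually_ge_atTop c
  obtain ⟨n, n1, n2, n3, n4, n5, n6, n7, n8, n9⟩ := ((ev h).and ((ev W).and ((ev 10000).and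
    ((ev (2 * Q₀)).and ((ev (21600 * (16393 * M) ^ 3)).and ((ev (2592 * (16393 * M) / ε ^ 2)).and
    ((ev ((2 * h + 1) * 768 / ε)).and ((ev (2097152 * M / δ)).and (ev (1023 / ε)))))))))).exists
  have n0 : (0 : ℝ) < n := by linarith
  have n3' : 10000 ≤ n := by exact_mod_cast n3
  obtain ⟨u, hu⟩ : ∃ u : ℕ, u = n ^ 4 := ⟨_, rfl⟩
  have hu' : (u : ℝ) = n ^ 4 := by rw [hu]; push_cast; rfl
  have nu : n ≤ u := by rw [hu]; exact Nat.le_self_pow (by norm_num) n
  have u1 : (1 : ℝ) ≤ u := by exact_mod_cast (by omega : 1 ≤ u)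
  obtain ⟨x, hx⟩ : ∃ x : ℕ, x = n * u ^ 4098 := ⟨_, rfl⟩
  have xu : n * u ≤ x := by
    rw [hx]; exact Nat.mul_le_mul_left _ (Nat.le_self_pow (by norm_num) u)
  have xn : n ≤ x := (Nat.le_mul_of_pos_right _ (by omega)).trans xu
  have xn' : (n : ℝ) ≤ x := by exact_mod_cast xn
  have lx : Real.log x = 16393 * Real.log n := by
    rw [hx, Nat.cast_mul, Nat.cast_pow, Real.log_mul n0.ne' (by positivity), Real.log_pow, hu',
      Real.log_pow]
    push_cast; ring
  have hx2 : ∀ t : ℝ, n * t * u ^ 4098 = t * x := fun t => by rw [hx]; push_cast; ring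
  clear hx
  have l2 := Real.log_two_gt_d9
  have l2' := Real.log_two_lt_d9
  have ln1 : Real.log 2 ≤ Real.log n := Real.log_le_log two_pos (by clear * - n n3 l2 l2'; linarith)
  have ln2 : Real.log n ≤ n := by linarith [Real.log_le_sub_one_of_pos n0]
  have a8 : 48 ≤ Real.log x := by clear * - x n lx l2 l2' ln1; linarith
  obtain ⟨hL1, hL2⟩ := special_mass (x := x) (by omega) a8 M1'
  obtain ⟨y, hy⟩ : ∃ y : ℕ, y = x ^ M := ⟨_, rfl⟩
  have a6 : x ≤ y := by rw [hy]; exact Nat.le_self_pow (by omega) x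
  have ly : Real.log y = M * Real.log x := by rw [hy, Nat.cast_pow, Real.log_pow]
  rw [← hy] at hL1 hL2
  have ly1 : 48 ≤ Real.log y := by
    clear * - y M x ly a8 n lx l2 l2' ln1 M1
    rw [ly]; exact a8.trans (le_mul_of_one_le_left (by linarith) M1)
  have ly2 : Real.log y ≤ 16393 * M * n := by
    rw [ly, lx, mul_left_comm, mul_assoc]; gcongr
  obtain ⟨z, hz⟩ : ∃ z : ℕ, z = 2 ^ u := ⟨_, rfl⟩
  have lz : Real.log z = u * Real.log 2 := by rw [hz, Nat.cast_pow, Real.log_pow]; norm_num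
  have lz1 : (u : ℝ) / 2 ≤ Real.log z := by
    clear * - u z lz l2 l2' u1
    rw [lz, div_eq_mul_inv]; gcongr; linarith
  have lz2 : Real.log z ≤ u := by
    clear * - z u lz u1 l2 l2'
    rw [lz]; exact mul_le_of_le_one_right (by linarith) (by linarith)
  have zn : (n : ℝ) ≤ z := by
    have : u < z := by rw [hz]; exact Nat.lt_two_pow_self
    exact_mod_cast (by omega : n ≤ z)
  have hd : 10800 * Real.log y ^ 3 ≤ Real.log z :=
    calc _ ≤ 10800 * (16393 * M * (n : ℝ)) ^ 3 := by clear * - y M n ly1 ly2 hu' lz1; gcongr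
      _ = 21600 * (16393 * M) ^ 3 * n ^ 3 / 2 := by ring
      _ ≤ n * n ^ 3 / 2 := by gcongr
      _ ≤ _ := by rw [← pow_succ', ← hu']; exact lz1
  have a7 : y ≤ z := by
    clear * - y z l2 l2' ly1 hd h W M n n3' u x xn hy a6 n3 zn
    have h1 : Real.log y ≤ Real.log z := by
      have : Real.log y ^ 1 ≤ Real.log y ^ 3 := pow_le_pow_right₀ (by linarith) (by norm_num)
      rw [pow_one] at this
      linarith
    have := (Real.log_le_log_iff (by exact_mod_cast (by omega : 0 < y)) (by linarith)).1 h1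
    exact_mod_cast this
  obtain ⟨m1, m2⟩ := mertens_exp (y := y) (z := z) (by omega) ly1 a7
  have pe := prod_le_exp ((Ioc y z).filter Nat.Prime) (x := 4096) (by norm_num)
  refine sys_of h W hW hε hε1 (K := K) (Y := 4 * n) (M := M) (x := x) (y := y) (z := z)
    (r := 4600 * u) rfl (by positivity) ((by exact_mod_cast n1 : h ≤ n).trans xn)
    ((by exact_mod_cast n2 : W ≤ n).trans xn) (le_trans (by
      rw [← mul_assoc]; exact Nat.mul_le_mul_right _ (by omega)) xu) (by omega) (by omega) a6 a7 a8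
    (n4.trans xn') hd K1 ?_ (by clear * - x y R M hM' hL1 R1 K1 hd ly n n4 xn'; linarith [one_le_pow₀ (n := 2) R1]) ?_ (by positivity) ?_ ?_ ?_ ?_ ?_ ly.le ?_
  · rw [← hδ, hK]; exact le_of_eq (by field_simp)
  · rw [← hδ, ← div_le_iff₀' δ0, ← hR]
    exact Real.le_sqrt_of_sq_le (by clear * - R x y M hM' hL1; linarith)
  · calc _ ≤ 4 * ((4600 * u : ℕ) : ℝ) * u := by clear * - u z lz2 hu' n; gcongr
      _ = 18400 * n ^ 8 := by push_cast; rw [hu']; ring
      _ ≤ _ := by rw [mul_pow]; gcongr; norm_num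
  · generalize ∑ q ∈ (Ioc y z).filter Nat.Prime, 1 / (q : ℝ) = σ at m1 ⊢
    refine le_of_pow_le_pow_left₀ two_ne_zero (by positivity) ?_
    have e1 : Real.exp ((1 - σ) / 2) ^ 2 * Real.exp σ = Real.exp 1 := by
      rw [sq, ← Real.exp_add, ← Real.exp_add]; congr 1; ring
    have e3 : Real.exp 1 ≤ 3 := by clear * - l2 l2'; have := Real.exp_one_lt_d9; linarith
    have e4 : Real.exp ((1 - σ) / 2) ^ 2 * (n ^ 4 / 2) ≤ 9 * (16393 * M * n) :=
      calc _ ≤ Real.exp ((1 - σ) / 2) ^ 2 * (3 * (16393 * M * n) * Real.exp σ) := by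
            clear * - σ n M u hu' z lz1 y m1 ly2
            gcongr
            rw [← hu']
            refine lz1.trans (m1.trans ?_)
            gcongr
        _ = 3 * (16393 * M * n) * Real.exp 1 := by rw [← e1]; ring
        _ ≤ 3 * (16393 * M * n) * 3 := by gcongr
        _ = _ := by ring
    rw [div_le_iff₀ (by positivity)] at n6
    refine le_of_mul_le_mul_right ?_ (show (0 : ℝ) < n ^ 2 by positivity)
    calc _ = 32 * (Real.exp ((1 - σ) / 2) ^ 2 * (n ^ 4 / 2)) := by ring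
      _ ≤ 32 * (9 * (16393 * M * n)) := by gcongr
      _ = 2592 * (16393 * M) * n / 9 := by ring
      _ ≤ n * ε ^ 2 * n / 9 := by gcongr
      _ = _ := by ring
  · have e : (4 : ℝ) ^ (4600 * u) = (z : ℝ) ^ 9200 := by
      rw [hz, show (4 : ℝ) = 2 ^ 2 by norm_num, Nat.cast_pow, Nat.cast_ofNat, ← pow_mul, ← pow_mul]
      congr 1; ring
    rw [e, Nat.cast_pow]
    rw [div_le_iff₀ hε] at n7
    have z1 : (1 : ℝ) ≤ z := by clear * - z n n3 l2 l2' zn; linarith
    calc _ = (2 * h + 1) * 768 * (z : ℝ) ^ 9189 := by ring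
      _ ≤ z * ε * (z : ℝ) ^ 9199 :=
          mul_le_mul (n7.trans (by gcongr)) (pow_le_pow_right₀ z1 (by norm_num)) (by positivity)
            (by positivity)
      _ = _ := by ring
  · rw [← hδ]
    generalize ∑ q ∈ (Ioc y z).filter Nat.Prime, 1 / (q : ℝ) = σ at m2 pe
    have e1 : Real.exp σ ≤ u := by
      clear * - σ u z y u1 l2 l2' lz2 m2 ly1
      linarith [mul_le_mul_of_nonneg_right ly1 (Real.exp_pos σ).le]
    have e2 : Real.exp (4096 * σ) ≤ (u : ℝ) ^ 4096 := by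
      clear * - σ u e1
      rw [show (4096 : ℝ) * σ = (4096 : ℕ) * σ by norm_num, Real.exp_nat_mul]
      gcongr
    rw [div_le_iff₀ δ0] at n8
    rw [← mul_div_assoc, div_le_iff₀ (by clear * - x n n3 xn' l2 l2'; linarith)]
    calc _ ≤ 2 * (262144 * (2 * (u : ℝ)) ^ 2 * u ^ 4096 * M) := by
          clear * - z y x u M u1 lz2 σ pe e2 hL2
          gcongr
          · linarith
          · exact pe.trans e2
      _ = 2097152 * M * u ^ 4098 := by ring
      _ ≤ n * δ * u ^ 4098 := by gcongr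
      _ = _ := hx2 δ
  · intro k hk
    rw [hz, ← pow_mul, ← pow_succ', pow_le_pow_iff_right₀ (by norm_num)] at hk
    have h1 : (k : ℝ) ≤ u * 1021 + 1 := by exact_mod_cast hk
    have h2 : (n : ℝ) * u ≤ x := by exact_mod_cast xu
    rw [div_le_iff₀ hε] at n9
    calc _ ≤ 1023 * (u : ℝ) := by clear * - k u u1 h1 n ε; linarith
      _ ≤ n * ε * u := by clear * - u n ε n9 u1; gcongr
      _ = ε * (n * u) := by ring
      _ ≤ _ := by gcongr
  · rw [← hδ]; exact le_of_eq (by field_simp)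

end Pool.Agent.Work.MP_ca0f09_nt
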