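import Pool.Agent.Work.MP_ca0f09_nt.Defs
import Pool.Agent.Lib.MR.Final

/-!
Short interval Fourier uniformity of the Moebius function holds unconditionally.
-/

set_option autoImplicit false

namespace Pool.Agent.Work.MP_ca0f09_nt

theorem unif : Unif := by
  intro ε hε
  simpa only [mu, Complex.ofReal_intCast] using Pool.Agent.Lib.MR.unif_moebius ε hε

end Pool.Agent.Work.MP_ca0f09_nt
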