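import Pool.Agent.Work.MP_ca0f09_nt.FreeU

/-!
# The free term for a family of bounded functions
-/

open Finset Real Filter Topology

namespace Pool.Agent.Work.MP_ca0f09_nt

open Pool.Agent.Lib.LargeSieve

/-- Deterministic form of the circle method step, for an arbitrary bounded function. -/
theorem free_det (h : ℕ) (hh : 1 ≤ h) (ε : ℝ) (hε : 0 < ε) :
    ∃ δ : ℝ, 0 < δ ∧ ∀ Q : ℝ, 2 ≤ Q → ∃ H X₀ : ℕ, Q ≤ H ∧ ∀ T : Finset ℕ,
      (∀ p ∈ T, p.Prime ∧ Q ≤ (p : ℝ) ∧ (p : ℝ) ≤ 2 * Q) → ∀ c : ℕ → ℝ, (∀ p, |c p| ≤ 1) →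
      ∀ g : ℕ → ℝ, (∀ n, |g n| ≤ 1) → ∀ X : ℕ, X₀ ≤ X →
      (∀ a ∈ range (4 * H), ∑ x ∈ range X,
        ‖∑ j ∈ range (2 * H), (g (x + j) : ℂ) * ee ((a : ℝ) / (4 * H : ℕ) * j)‖
          ≤ δ * (2 * H : ℕ) * X) →
      ∑ m ∈ range X, |∑ p ∈ T, c p * g (m + h * p)| ≤ ε * X * Q / log Q := by
  classical
  have hhr : (1 : ℝ) ≤ h := by exact_mod_cast hh
  set C : ℝ := 21000 * h with hC
  have hC0 : 0 < C := by positivity
  set η : ℝ := ε ^ 2 / 16 with hη
  have hη0 : 0 < η := by positivity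
  refine ⟨ε ^ 2 * η ^ 2 / (8 * C ^ 3), by positivity, fun Q hQ2 => ?_⟩
  have hlQ : 0 < log Q := log_pos (by linarith)
  set Y := ⌊2 * Q⌋₊ with hY
  have hYQ : (Y : ℝ) ≤ 2 * Q := Nat.floor_le (by linarith)
  have hQY : Q ≤ Y := by have := Nat.lt_floor_add_one (2 * Q); linarith
  have hY2 : 2 ≤ Y := by exact_mod_cast hQ2.trans hQY
  set H := Y * h with hH
  have hYH : Y ≤ H := Nat.le_mul_of_pos_right _ hh
  refine ⟨H, ⌈(H : ℝ) * Y * (2 * log Q) / (ε * Q)⌉₊, hQY.trans (by exact_mod_cast hYH),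
    fun T hT c hc g hg X hX2 hX => ?_⟩
  have hTY : ∀ p ∈ T, p ≤ Y := fun p hp => Nat.le_floor (hT p hp).2.2
  have hTc : (#T : ℝ) ≤ Y := by
    have : #T ≤ Y := by
      refine le_trans (card_le_card (t := Ioc 0 Y) fun p hp => ?_) (by simp)
      exact mem_Ioc.2 ⟨(hT p hp).1.pos, hTY p hp⟩
    exact_mod_cast this
  have hH0 : 0 < H := by omega
  have hHr : (0 : ℝ) < H := by exact_mod_cast hH0
  have hTH : ∀ p ∈ T, p * h ≤ H := fun p hp => by
    have := hTY p hp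
    rw [hH]; gcongr
  set b : ℝ := (Q / log Q) ^ 2 with hb
  have hb0 : 0 < b := by positivity
  set B : ℕ → ℝ := fun a => ‖fB H h T c a‖ ^ 2 with hB
  have hB0 : ∀ a, 0 ≤ B a := fun a => sq_nonneg _
  have hB4 : ∑ a ∈ range (4 * H), B a ^ 2 ≤ (C * b) ^ 2 := by
    clear * - H B C b T c h hH0 hh hTH Y hY2 Q hT hTY hc hQ2 hQY hlQ hH hhr hYQ hC hb
    rw [sum_fB_eq H h hH0 hh T c hTH]
    have h1 := energy_le T Y hY2 (fun p hp => ⟨(hT p hp).1, hTY p hp⟩) c 1 (fun p _ => hc p)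
    have h2 : log Q ≤ log (Y : ℝ) := log_le_log (by linarith) hQY
    calc ((4 * H : ℕ) : ℝ) * energy T c
        ≤ (4 * H : ℕ) * (1 ^ 4 * (6720256 * (Y : ℝ) ^ 3 / log Q ^ 4)) := by
          refine mul_le_mul_of_nonneg_left (h1.trans ?_) (by positivity)
          gcongr
      _ = (4 * 6720256 * h * (Y : ℝ) ^ 4) / log Q ^ 4 := by
          rw [hH]; push_cast; field_simp
      _ ≤ (27562500 * h ^ 2 * (2 * Q) ^ 4) / log Q ^ 4 := by
          gcongr ?_ * ?_ / _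
          · nlinarith
          · gcongr
      _ = _ := by rw [hC, hb]; ring
  have hBle : ∀ a ∈ range (4 * H), B a ≤ C * b := by
    intro a ha
    refine (pow_le_pow_iff_left₀ (hB0 a) (by positivity) two_ne_zero).1 (le_trans ?_ hB4)
    exact single_le_sum (f := fun a => B a ^ 2) (fun _ _ => sq_nonneg _) ha
  set L := (range (4 * H)).filter fun a => η * b < B a with hL
  have hLcard : (#L : ℝ) ≤ C ^ 2 / η ^ 2 := by
    have h1 : ∀ a ∈ L, (η * b) ^ 2 ≤ B a ^ 2 := fun a ha =>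
      pow_le_pow_left₀ (by positivity) (mem_filter.1 ha).2.le 2
    have h2 := (card_nsmul_le_sum _ _ _ h1).trans
      ((sum_le_sum_of_subset_of_nonneg (filter_subset _ _) fun _ _ _ => sq_nonneg _).trans hB4)
    rw [nsmul_eq_mul, mul_pow, mul_pow, ← mul_assoc] at h2
    rw [le_div_iff₀ (by positivity)]
    exact le_of_mul_le_mul_right h2 (by positivity)
  set G : ℕ → ℝ := fun m => ∑ p ∈ T, c p * g (m + h * p) with hG
  set A : ℕ → ℕ → ℂ := fun x a => fA H (fun m => g (x + m)) a with hA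
  have hAX : ∀ a ∈ range (4 * H), ∑ x ∈ range X, ‖A x a‖
      ≤ ε ^ 2 * η ^ 2 / (8 * C ^ 3) * (2 * H) * X := by
    intro a ha
    refine le_trans (le_of_eq ?_) ((hX a ha).trans (le_of_eq (by push_cast; ring)))
    refine sum_congr rfl fun x _ => ?_
    simp only [hA, fA]
    congr 1
    refine sum_congr rfl fun m _ => ?_
    congr 2
    push_cast; ring
  have hblock : ∀ x, ∑ t ∈ range H, G (x + t) ^ 2
      ≤ η * b * (2 * H) + C * b / 2 * ∑ a ∈ L, ‖A x a‖ := by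
    clear * - H T c g h hH0 hTH hg A B η b C L hL hBle Y hY2 hh ε hε Q hQ2 hlQ G hG
    intro x
    have h1 := block_parseval H h hH0 (fun m => g (x + m)) T c hTH
    have h2 := sum_fA_le H hH0 (fun m => g (x + m)) fun m => hg _
    have h3 : ∑ a ∈ range (4 * H), ‖A x a‖ ^ 2 * B a
        ≤ η * b * ∑ a ∈ range (4 * H), ‖A x a‖ ^ 2 + (2 * H) * (C * b) * ∑ a ∈ L, ‖A x a‖ := by
      rw [hL, sum_filter, mul_sum, mul_sum, ← sum_add_distrib]
      refine sum_le_sum fun a ha => ?_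
      have hn := norm_nonneg (A x a)
      split_ifs with hab
      · have a1 : ‖A x a‖ ≤ 2 * H := norm_fA_le H _ (fun m => hg _) a
        have a2 := hBle a ha
        have : ‖A x a‖ ^ 2 * B a ≤ (2 * H) * (C * b) * ‖A x a‖ := by
          calc ‖A x a‖ ^ 2 * B a = ‖A x a‖ * B a * ‖A x a‖ := by ring
            _ ≤ _ := by gcongr
        have : 0 ≤ η * b * ‖A x a‖ ^ 2 := by positivity
        linarith
      · rw [mul_zero, add_zero, mul_comm]
        gcongr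
        exact not_lt.1 hab
    have e : ∑ t ∈ range H, G (x + t) ^ 2
        = ∑ t ∈ range H, (∑ p ∈ T, c p * g (x + (t + p * h))) ^ 2 := by
      simp only [hG, add_assoc, mul_comm h]
    rw [e]
    refine h1.trans ?_
    rw [div_le_iff₀ (by positivity)]
    refine h3.trans ?_
    have : η * b * ∑ a ∈ range (4 * H), ‖A x a‖ ^ 2 ≤ η * b * ((4 * H : ℕ) * (2 * H)) := by
      gcongr
    refine (add_le_add this le_rfl).trans (le_of_eq ?_)
    push_cast; ring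
  have hsq : ∑ m ∈ Ico H X, G m ^ 2 ≤ ε ^ 2 / 4 * b * X := by
    clear * - H X G ε b η C L A hblock B hAX hLcard hε h hh Y hY2 Q hQ2 hlQ hη hC0 hH0 hb0 hHr
    have h1 := sum_window_ge H X (fun m => G m ^ 2) fun m => sq_nonneg _
    have h2 : ∑ x ∈ range X, ∑ t ∈ range H, G (x + t) ^ 2 ≤ H * (ε ^ 2 / 4 * b * X) := by
      refine (sum_le_sum fun x _ => hblock x).trans ?_
      rw [sum_add_distrib, sum_const, card_range, nsmul_eq_mul, ← mul_sum, sum_comm]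
      have h3 : ∑ a ∈ L, ∑ x ∈ range X, ‖A x a‖
          ≤ C ^ 2 / η ^ 2 * (ε ^ 2 * η ^ 2 / (8 * C ^ 3) * (2 * H) * X) := by
        refine (sum_le_card_nsmul _ _ _ fun a ha => hAX a (mem_filter.1 ha).1).trans ?_
        rw [nsmul_eq_mul]
        gcongr
      refine (add_le_add le_rfl (mul_le_mul_of_nonneg_left h3 (by positivity))).trans
        (le_of_eq ?_)
      rw [hη]; field_simp; ring
    exact le_of_mul_le_mul_left (h1.trans h2) hHr
  have hmain : ∑ m ∈ Ico H X, |G m| ≤ ε * X * Q / log Q / 2 := by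
    clear * - H X G ε Q hε hQ2 hlQ b hsq hb
    refine (pow_le_pow_iff_left₀ (sum_nonneg fun _ _ => abs_nonneg _) (by positivity)
      two_ne_zero).1 ?_
    calc (∑ m ∈ Ico H X, |G m|) ^ 2 ≤ #(Ico H X) * ∑ m ∈ Ico H X, |G m| ^ 2 :=
          sq_sum_le_card_mul_sum_sq
      _ ≤ X * (ε ^ 2 / 4 * b * X) := by
          simp only [sq_abs]
          gcongr
          rw [Nat.card_Ico]
          exact_mod_cast Nat.sub_le X H
      _ = _ := by rw [hb]; field_simp; ring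
  have hinit : ∑ m ∈ range H, |G m| ≤ ε * X * Q / log Q / 2 := by
    clear * - H G Y T c g h hc hg hTc ε X Q hX2 hlQ hε hQ2
    have h1 : ∀ m ∈ range H, |G m| ≤ Y := by
      intro m _
      refine (abs_sum_le_sum_abs _ _).trans (le_trans ?_ hTc)
      have : ∀ p ∈ T, |c p * g (m + h * p)| ≤ 1 := fun p _ => by
        rw [abs_mul]; exact mul_le_one₀ (hc p) (abs_nonneg _) (hg _)
      simpa using sum_le_card_nsmul _ _ _ this
    refine (sum_le_card_nsmul _ _ _ h1).trans ?_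
    rw [card_range, nsmul_eq_mul]
    have h2 : (H : ℝ) * Y * (2 * log Q) / (ε * Q) ≤ X :=
      (Nat.le_ceil _).trans (by exact_mod_cast hX2)
    rw [div_le_iff₀ (by positivity)] at h2
    rw [div_div, le_div_iff₀ (by positivity)]
    nlinarith
  have hsub : range X ⊆ range H ∪ Ico H X := fun m hm => by
    simp only [mem_union, mem_range, mem_Ico] at hm ⊢; omega
  refine (sum_le_sum_of_subset_of_nonneg hsub fun _ _ _ => abs_nonneg _).trans ?_
  rw [sum_union (by rw [range_eq_Ico]; exact Ico_disjoint_Ico_consecutive 0 H X)]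
  clear * - H T c g h X ε Q G hmain hinit
  linarith

/-- Short interval Fourier uniformity of a family `G N`, at all scales between `N` and `q N`. -/
def UnifFam (G : ℕ → ℕ → ℝ) : Prop :=
  ∀ ε : ℝ, 0 < ε → ∃ H₀ : ℕ, ∀ H : ℕ, H₀ ≤ H → ∀ α : ℝ, ∀ q : ℕ, ∀ᶠ N : ℕ in atTop,
    ∀ X : ℕ, N ≤ X → X ≤ q * N → ∑ x ∈ range X, ‖∑ j ∈ range H,
      ((G N (x + j) : ℝ) : ℂ) * Complex.exp (2 * Real.pi * Complex.I * α * j)‖ ≤ ε * H * X

/-- Averaged cancellation of a family `G N` along prime shifts. -/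
def FreeFam (G : ℕ → ℕ → ℝ) : Prop :=
  ∀ h : ℕ, 1 ≤ h → ∀ ε : ℝ, 0 < ε → ∃ Q₀ : ℝ, ∀ Q : ℝ, Q₀ ≤ Q → ∀ q : ℕ, ∀ᶠ N : ℕ in atTop,
    ∀ T : Finset ℕ, (∀ p ∈ T, p.Prime ∧ Q ≤ p ∧ (p : ℝ) ≤ 2 * Q) →
    ∀ c : ℕ → ℝ, (∀ p, |c p| ≤ 1) → ∀ X : ℕ, N ≤ X → X ≤ q * N →
      ∑ m ∈ range X, |∑ p ∈ T, c p * G N (m + h * p)| ≤ ε * X * Q / Real.log Q

theorem freeFam_of_unifFam (G : ℕ → ℕ → ℝ) (hG : ∀ N n, |G N n| ≤ 1) (hU : UnifFam G) :
    FreeFam G := by
  intro h hh ε hε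
  obtain ⟨δ, hδ, hdet⟩ := free_det h hh ε hε
  obtain ⟨H₀, hU⟩ := hU δ hδ
  refine ⟨max (H₀ : ℝ) 2, fun Q hQ q => ?_⟩
  obtain ⟨H, X₀, hQH, hdet⟩ := hdet Q (le_of_max_le_right hQ)
  have hH₀ : H₀ ≤ 2 * H := by
    have : (H₀ : ℝ) ≤ H := (le_of_max_le_left hQ).trans hQH
    have : H₀ ≤ H := by exact_mod_cast this
    omega
  have hev := (eventually_all_finset (range (4 * H))).2
    fun a _ => hU (2 * H) hH₀ ((a : ℝ) / (4 * H : ℕ)) q
  filter_upwards [hev, eventually_ge_atTop X₀] with N hN hN0 T hT c hc X hX1 hX2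
  refine hdet T hT c hc (G N) (hG N) X (hN0.trans hX1) fun a ha => ?_
  refine le_trans (le_of_eq ?_) (hN a ha X hX1 hX2)
  refine sum_congr rfl fun x _ => ?_
  congr 1
  refine sum_congr rfl fun j _ => ?_
  congr 1
  unfold ee
  congr 1
  push_cast; ring

/-- The Moebius function as a constant family. -/
theorem unifFam_mu (hU : Unif) : UnifFam fun _ => mu := by
  intro ε hε
  obtain ⟨H₀, h⟩ := hU ε hε
  refine ⟨H₀, fun H hH α q => ?_⟩
  obtain ⟨X₀, hX⟩ := eventually_atTop.1 (h H hH α)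
  filter_upwards [eventually_ge_atTop X₀] with N hN X h1 _
  exact hX X (hN.trans h1)

end Pool.Agent.Work.MP_ca0f09_nt
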