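import Pool.Agent.Work.MP_ca0f09_nt.Free
import Pool.Agent.Lib.ANT.Davenport

/-!
# From periodically weighted two-point correlations to tuples with at most two odd exponents
-/

open Finset Real Filter Topology

namespace Pool.Agent.Work.MP_ca0f09_nt

/-- two-point correlations with a periodic weight tend to zero -/
def TwoPt : Prop :=
  ∀ h : ℕ, 1 ≤ h → ∀ W : ℕ, 1 ≤ W → ∀ g : ℕ → ℝ, (∀ n, |g n| ≤ 1) → (∀ n, g (n + W) = g n) →
    Tendsto (fun N : ℕ => (1 / (N : ℝ)) * ∑ n ∈ range N, g n * mu n * mu (n + h)) atTop (𝓝 0)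

lemma periodic_mul {g : ℕ → ℝ} {W : ℕ} (hg : ∀ n, g (n + W) = g n) (n t : ℕ) :
    g (n + W * t) = g n := by
  induction t with
  | zero => simp
  | succ t ih => rw [Nat.mul_succ, ← add_assoc, hg, ih]

theorem one_point (W : ℕ) (hW : 1 ≤ W) (g : ℕ → ℝ) (hg : ∀ n, g (n + W) = g n) :
    Tendsto (fun N : ℕ => (1 / (N : ℝ)) * ∑ n ∈ range N, g n * mu n) atTop (𝓝 0) := by
  have h := Pool.Agent.Lib.ANT.tendsto_sum_periodic_moebius_nat hW (fun n => (g n : ℂ)) (by
    intro n
    have := periodic_mul hg (n % W) (n / W)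
    rw [Nat.mod_add_div] at this
    simp only [this])
  have h1 := (Complex.continuous_re.tendsto _).comp h
  simp only [Complex.zero_re] at h1
  have h2 : Tendsto (fun N : ℕ => (∑ n ∈ range (N + 1), g n * mu n) / N) atTop (𝓝 0) := by
    refine h1.congr fun N => ?_
    simp only [Function.comp]
    rw [← Complex.ofReal_natCast, Complex.div_ofReal_re, Complex.re_sum, range_eq_Ico,
      sum_eq_sum_Ico_succ_bot (Nat.succ_pos N)]
    simp only [mu, ArithmeticFunction.map_zero, Int.cast_zero, mul_zero, zero_add]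
    congr 1
    refine sum_congr rfl fun n _ => ?_
    rw [← Complex.ofReal_intCast, ← Complex.ofReal_mul, Complex.ofReal_re]
  rw [← tendsto_add_atTop_iff_nat 1]
  have h3 : Tendsto (fun N : ℕ => (N : ℝ) / (N + 1)) atTop (𝓝 1) := tendsto_natCast_div_add_atTop 1
  have h4 := h2.mul h3
  rw [zero_mul] at h4
  refine h4.congr' ?_
  filter_upwards [eventually_ge_atTop 1] with N hN
  have : (N : ℝ) ≠ 0 := by positivity
  push_cast
  field_simp

lemma tendsto_shift (u : ℕ → ℝ) (hu : ∀ n, |u n| ≤ 1) (c : ℕ)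
    (h : Tendsto (fun N : ℕ => (1 / (N : ℝ)) * ∑ n ∈ range N, u n) atTop (𝓝 0)) :
    Tendsto (fun N : ℕ => (1 / (N : ℝ)) * ∑ n ∈ range N, u (n + c)) atTop (𝓝 0) := by
  induction c with
  | zero => simpa using h
  | succ c ih =>
    have h1 : Tendsto (fun N : ℕ => (1 / (N : ℝ)) * (u (N + c) - u c)) atTop (𝓝 0) := by
      refine squeeze_zero_norm (a := fun N : ℕ => 2 / (N : ℝ)) (fun N => ?_)
        (tendsto_const_div_atTop_nhds_zero_nat 2)
      rw [norm_mul, Real.norm_eq_abs, Real.norm_eq_abs, abs_of_nonneg (by positivity)]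
      have : |u (N + c) - u c| ≤ 2 := by
        have := abs_sub (u (N + c)) (u c)
        linarith [hu (N + c), hu c]
      calc _ ≤ 1 / (N : ℝ) * 2 := by gcongr
        _ = _ := by ring
    have h2 := ih.add h1
    rw [add_zero] at h2
    refine h2.congr fun N => ?_
    rw [← mul_add]
    congr 1
    have a := sum_range_succ (fun n => u (n + c)) N
    have b := sum_range_succ' (fun n => u (n + c)) N
    simp only [zero_add] at b
    have e : ∀ n, n + (c + 1) = n + 1 + c := fun n => by ring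
    simp only [e]
    linarith

open Classical in
/-- indicator of integers not divisible by the square of a prime `≤ y` -/
noncomputable def sq0 (y m : ℕ) : ℝ := if ∀ p ≤ y, p.Prime → ¬ p ^ 2 ∣ m then 1 else 0

lemma sq0_periodic (y m : ℕ) : sq0 y (m + y.factorial ^ 2) = sq0 y m := by
  have : ∀ p ≤ y, p.Prime → (p ^ 2 ∣ m + y.factorial ^ 2 ↔ p ^ 2 ∣ m) := fun p hp hp' =>
    Nat.dvd_add_left (pow_dvd_pow_of_dvd (Nat.dvd_factorial hp'.pos hp) 2)
  unfold sq0
  congr 1
  exact propext (forall₃_congr fun p hp hp' => not_congr (this p hp hp'))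

lemma abs_sq0_le (y m : ℕ) : |sq0 y m| ≤ 1 := by
  unfold sq0; split_ifs <;> simp

lemma sum_abs_sq0_sub (y : ℕ) (hy : 1 ≤ y) (M : ℕ) :
    ∑ m ∈ range M, |mu m ^ 2 - sq0 y m| ≤ 1 + M / y := by
  classical
  have h1 : ∀ m ∈ range M, |mu m ^ 2 - sq0 y m|
      ≤ (if m = 0 then 1 else 0) + ∑ p ∈ Ioc y M, if p ^ 2 ∣ m ∧ m ≠ 0 then (1 : ℝ) else 0 := by
    intro m hm
    have hnn : 0 ≤ ∑ p ∈ Ioc y M, if p ^ 2 ∣ m ∧ m ≠ 0 then (1 : ℝ) else 0 :=
      sum_nonneg fun _ _ => by split_ifs <;> simp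
    by_cases h0 : m = 0
    · subst h0
      have := abs_sq0_le y 0
      simp only [mu, ArithmeticFunction.map_zero, Int.cast_zero, if_true] at *
      simpa using this
    rw [if_neg h0, zero_add]
    have hmu : mu m ^ 2 = if Squarefree m then 1 else 0 := by
      have := ArithmeticFunction.moebius_sq (n := m)
      simp only [mu]
      split_ifs at this ⊢ <;> exact_mod_cast this
    rw [hmu, sq0]
    by_cases hs : Squarefree m
    · rw [if_pos hs, if_pos, sub_self, abs_zero]
      · exact hnn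
      · intro p _ hp hd
        exact hp.not_isUnit (hs p (by rwa [← sq]))
    · rw [if_neg hs]
      split_ifs with h
      · obtain ⟨p, hp, hd⟩ : ∃ p, p.Prime ∧ p * p ∣ m := by
          rw [Nat.squarefree_iff_prime_squarefree] at hs
          push Not at hs
          exact hs
        have hpy : y < p := by
          by_contra hc
          exact h p (not_lt.1 hc) hp (by rwa [sq])
        have hpM : p ≤ M := by
          have a := Nat.le_of_dvd (Nat.pos_of_ne_zero h0) hd
          have b := mem_range.1 hm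
          nlinarith [hp.pos]
        have := single_le_sum (f := fun p => if p ^ 2 ∣ m ∧ m ≠ 0 then (1 : ℝ) else 0)
          (fun _ _ => by split_ifs <;> simp) (mem_Ioc.2 ⟨hpy, hpM⟩)
        simp only [sq, hd, ne_eq, h0, not_false_eq_true, and_self, if_true] at this
        simp [sq, h0] at this ⊢; exact this
      · simpa using hnn
  refine (sum_le_sum h1).trans ?_
  rw [sum_add_distrib]
  refine add_le_add ?_ ?_
  · rw [sum_ite_eq']; split_ifs <;> simp
  · rw [sum_comm]
    have h2 : ∀ p ∈ Ioc y M, (∑ m ∈ range M, if p ^ 2 ∣ m ∧ m ≠ 0 then (1 : ℝ) else 0)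
        ≤ M * (1 / ((p : ℝ) - 1) - 1 / p) := by
      intro p hp
      have hp2 : 2 ≤ p := by have := (mem_Ioc.1 hp).1; omega
      have hpr : (2 : ℝ) ≤ p := by exact_mod_cast hp2
      rw [← sum_filter, sum_const, nsmul_eq_mul, mul_one]
      have a : #{m ∈ range M | p ^ 2 ∣ m ∧ m ≠ 0} ≤ M / p ^ 2 := by
        rw [← Nat.Ioc_filter_dvd_card_eq_div]
        refine card_le_card fun m hm => ?_
        simp only [mem_filter, mem_range, mem_Ioc] at hm ⊢
        exact ⟨⟨Nat.pos_of_ne_zero hm.2.2, hm.1.le⟩, hm.2.1⟩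
      have b : ((M / p ^ 2 : ℕ) : ℝ) ≤ M / (p : ℝ) ^ 2 := by
        have := Nat.cast_div_le (α := ℝ) (m := M) (n := p ^ 2)
        simpa using this
      refine le_trans (by exact_mod_cast a) (b.trans ?_)
      have e : 1 / ((p : ℝ) - 1) - 1 / p = 1 / ((p - 1) * p) := by
        have : (p : ℝ) - 1 ≠ 0 := by linarith
        field_simp; ring
      rw [e, div_eq_mul_one_div]
      gcongr
      · have : 0 < (p : ℝ) - 1 := by linarith
        positivity
      · nlinarith
    refine (sum_le_sum h2).trans ?_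
    rw [← mul_sum, div_eq_mul_one_div (M : ℝ)]
    gcongr
    have h3 : ∀ L, y ≤ L → ∑ p ∈ Ioc y L, (1 / ((p : ℝ) - 1) - 1 / p) = 1 / y - 1 / L := by
      intro L hL
      induction L, hL using Nat.le_induction with
      | base => simp
      | succ L hL ih => rw [sum_Ioc_succ_top hL, ih]; push_cast; ring
    rcases le_total y M with h | h
    · rw [h3 M h]
      have : (0 : ℝ) ≤ 1 / M := by positivity
      linarith
    · rw [Ioc_eq_empty (not_lt.2 h), sum_empty]; positivity

lemma abs_prod_sub_prod_le {ι : Type*} (s : Finset ι) (u v : ι → ℝ) (hu : ∀ i, |u i| ≤ 1)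
    (hv : ∀ i, |v i| ≤ 1) : |∏ i ∈ s, u i - ∏ i ∈ s, v i| ≤ ∑ i ∈ s, |u i - v i| := by
  classical
  induction s using Finset.induction_on with
  | empty => simp
  | insert a s ha ih =>
    rw [prod_insert ha, prod_insert ha, sum_insert ha]
    have e : u a * ∏ i ∈ s, u i - v a * ∏ i ∈ s, v i
        = (u a - v a) * ∏ i ∈ s, u i + v a * (∏ i ∈ s, u i - ∏ i ∈ s, v i) := by ring
    have h1 : |∏ i ∈ s, u i| ≤ 1 := by
      rw [abs_prod]; exact prod_le_one (fun _ _ => abs_nonneg _) fun i _ => hu i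
    rw [e]
    refine (abs_add_le _ _).trans (add_le_add ?_ ?_)
    · rw [abs_mul]; exact mul_le_of_le_one_right (abs_nonneg _) h1
    · rw [abs_mul]; exact (mul_le_of_le_one_left (abs_nonneg _) (hv a)).trans ih

lemma odd_part (H2 : TwoPt) {k : ℕ} (h : Fin k → ℕ) (hinj : Function.Injective h)
    (O : Finset (Fin k)) (hO : O.Nonempty) (hO2 : #O ≤ 2) (W : ℕ) (hW : 1 ≤ W) (G : ℕ → ℝ)
    (hG : ∀ n, |G n| ≤ 1) (hGW : ∀ n, G (n + W) = G n) :
    Tendsto (fun N : ℕ => (1 / (N : ℝ)) * ∑ n ∈ range N, G n * ∏ i ∈ O, mu (n + h i))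
      atTop (𝓝 0) := by
  have shift : ∀ c n, G (n + c + (W * c - c)) = G n := fun c n => by
    have : c ≤ W * c := Nat.le_mul_of_pos_left _ hW
    rw [show n + c + (W * c - c) = n + W * c by omega, periodic_mul hGW]
  have per : ∀ c n, G (n + W + c) = G (n + c) := fun c n => by
    rw [add_right_comm, hGW]
  have two : ∀ i j : Fin k, h i < h j → Tendsto (fun N : ℕ => (1 / (N : ℝ)) *
      ∑ n ∈ range N, G n * (mu (n + h i) * mu (n + h j))) atTop (𝓝 0) := by
    intro i j hij
    have h1 := H2 (h j - h i) (by omega) W hW (fun n => G (n + (W * h i - h i)))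
      (fun n => hG _) (fun n => per _ n)
    have h2 := tendsto_shift _ (fun n => by
      rw [abs_mul, abs_mul]
      exact mul_le_one₀ (mul_le_one₀ (hG _) (abs_nonneg _) (abs_mu_le _)) (abs_nonneg _)
        (abs_mu_le _)) (h i) h1
    refine h2.congr fun N => ?_
    congr 1
    refine sum_congr rfl fun n _ => ?_
    rw [shift, mul_assoc, show n + h i + (h j - h i) = n + h j by omega]
  have hc : #O = 1 ∨ #O = 2 := by have := hO.card_pos; omega
  rcases hc with hc | hc
  · obtain ⟨i, rfl⟩ := card_eq_one.1 hc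
    have h1 := one_point W hW (fun n => G (n + (W * h i - h i))) (fun n => per _ n)
    have h2 := tendsto_shift _ (fun n => by
      rw [abs_mul]
      exact mul_le_one₀ (hG _) (abs_nonneg _) (abs_mu_le _)) (h i) h1
    refine h2.congr fun N => ?_
    congr 1
    refine sum_congr rfl fun n _ => ?_
    rw [shift, prod_singleton]
  · obtain ⟨i, j, hij, rfl⟩ := card_eq_two.1 hc
    simp only [prod_pair hij]
    rcases lt_or_gt_of_ne (hinj.ne hij) with hl | hl
    · exact two i j hl
    · simpa only [mul_comm (mu (_ + h i))] using two j i hl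

theorem chowla_le_two (H2 : TwoPt) (k : ℕ) (h : Fin k → ℕ) (a : Fin k → ℕ)
    (hinj : Function.Injective h) (ha : ∀ i, a i = 1 ∨ a i = 2) (hex : ∃ i, a i = 1)
    (hcard : #{i | a i = 1} ≤ 2) :
    Tendsto (fun N : ℕ => (1 / (N : ℝ)) * ∑ n ∈ range N,
      ∏ i, (((ArithmeticFunction.moebius (n + h i) : ℤ) : ℝ)) ^ (a i)) atTop (𝓝 0) := by
  classical
  set O : Finset (Fin k) := {i | a i = 1} with hO
  set E : Finset (Fin k) := {i | ¬ a i = 1} with hE
  have hsplit : ∀ n, ∏ i, mu (n + h i) ^ (a i)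
      = (∏ i ∈ E, mu (n + h i) ^ 2) * ∏ i ∈ O, mu (n + h i) := by
    intro n
    rw [← prod_filter_mul_prod_filter_not univ (fun i => a i = 1), mul_comm]
    congr 1
    · refine prod_congr rfl fun i hi => ?_
      rw [(ha i).resolve_left (mem_filter.1 hi).2]
    · refine prod_congr rfl fun i hi => ?_
      rw [(mem_filter.1 hi).2, pow_one]
  have hOne : O.Nonempty := by
    obtain ⟨i, hi⟩ := hex
    exact ⟨i, by simp [hO, hi]⟩
  rw [Metric.tendsto_atTop]
  intro ε hε
  obtain ⟨y, hy⟩ := exists_nat_gt (max 1 (8 * k / ε))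
  have hy1 : 1 ≤ y := by
    have : (1 : ℝ) < y := lt_of_le_of_lt (le_max_left _ _) hy
    exact_mod_cast this.le
  have hyr : (0 : ℝ) < y := by exact_mod_cast hy1
  have hyk : 8 * k < y * ε := by
    have := lt_of_le_of_lt (le_max_right _ _) hy
    rwa [div_lt_iff₀ hε] at this
  have h1 := odd_part H2 h hinj O hOne hcard (y.factorial ^ 2)
    (Nat.one_le_pow _ _ y.factorial_pos) (fun n => ∏ i ∈ E, sq0 y (n + h i))
    (fun n => by
      rw [abs_prod]; exact prod_le_one (fun _ _ => abs_nonneg _) fun i _ => abs_sq0_le _ _)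
    (fun n => prod_congr rfl fun i _ => by rw [add_right_comm, sq0_periodic])
  rw [Metric.tendsto_atTop] at h1
  obtain ⟨N₁, h1⟩ := h1 (ε / 2) (by linarith)
  refine ⟨max (max N₁ y) (∑ i, h i), fun N hN => ?_⟩
  have hN1 := h1 N (le_of_max_le_left (le_of_max_le_left hN))
  have hNy : y ≤ N := le_of_max_le_right (le_of_max_le_left hN)
  have hNh : ∀ i, h i ≤ N := fun i =>
    (single_le_sum (f := h) (fun _ _ => Nat.zero_le _) (mem_univ i)).trans (le_of_max_le_right hN)
  have hNyr : (y : ℝ) ≤ N := by exact_mod_cast hNy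
  have hNr : (0 : ℝ) < N := by linarith
  rw [Real.dist_eq, sub_zero] at hN1 ⊢
  have hdiff : |∑ n ∈ range N, ∏ i, mu (n + h i) ^ (a i)
      - ∑ n ∈ range N, (∏ i ∈ E, sq0 y (n + h i)) * ∏ i ∈ O, mu (n + h i)|
      ≤ k * (3 * N / y) := by
    rw [← sum_sub_distrib]
    refine (abs_sum_le_sum_abs _ _).trans ?_
    have b1 : ∀ n ∈ range N, |∏ i, mu (n + h i) ^ (a i)
        - (∏ i ∈ E, sq0 y (n + h i)) * ∏ i ∈ O, mu (n + h i)|
        ≤ ∑ i ∈ E, |mu (n + h i) ^ 2 - sq0 y (n + h i)| := by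
      intro n _
      rw [hsplit, ← sub_mul, abs_mul]
      refine (mul_le_of_le_one_right (abs_nonneg _) ?_).trans
        (abs_prod_sub_prod_le _ _ _ (fun i => ?_) fun i => abs_sq0_le _ _)
      · rw [abs_prod]; exact prod_le_one (fun _ _ => abs_nonneg _) fun i _ => abs_mu_le _
      · rw [abs_pow]; exact pow_le_one₀ (abs_nonneg _) (abs_mu_le _)
    refine (sum_le_sum b1).trans ?_
    rw [sum_comm]
    have b2 : ∀ i ∈ E, ∑ n ∈ range N, |mu (n + h i) ^ 2 - sq0 y (n + h i)| ≤ 3 * N / y := by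
      intro i _
      have c1 := sum_abs_sq0_sub y hy1 (h i + N)
      rw [sum_range_add] at c1
      have c2 : 0 ≤ ∑ m ∈ range (h i), |mu m ^ 2 - sq0 y m| := sum_nonneg fun _ _ => abs_nonneg _
      simp only [add_comm (h i)] at c1
      have c3 : (h i : ℝ) ≤ N := by exact_mod_cast hNh i
      have c4 : 1 + ((N + h i : ℕ) : ℝ) / y ≤ 3 * N / y := by
        rw [le_div_iff₀ hyr, add_mul, div_mul_cancel₀ _ hyr.ne']
        push_cast; linarith
      linarith
    refine (sum_le_card_nsmul _ _ _ b2).trans ?_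
    rw [nsmul_eq_mul]
    gcongr
    have := card_le_univ E
    rwa [Fintype.card_fin] at this
  have hk : (k : ℝ) * (3 * N / y) ≤ ε / 2 * N := by
    rw [← mul_div_assoc, div_le_iff₀ hyr]
    have : (0 : ℝ) ≤ k := by positivity
    nlinarith
  rw [abs_mul, abs_of_pos (by positivity : (0 : ℝ) < 1 / N), one_div, inv_mul_lt_iff₀ hNr] at hN1 ⊢
  have := abs_sub_abs_le_abs_sub (∑ n ∈ range N, ∏ i, mu (n + h i) ^ (a i))
    (∑ n ∈ range N, (∏ i ∈ E, sq0 y (n + h i)) * ∏ i ∈ O, mu (n + h i))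
  change |∑ n ∈ range N, ∏ i, mu (n + h i) ^ (a i)| < _
  linarith

end Pool.Agent.Work.MP_ca0f09_nt
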