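import Pool.Agent.Work.MP_ca0f09_nt.Transfer
import Pool.Agent.Work.MP_ca0f09_nt.FreeFam
import Pool.Agent.Work.MP_ca0f09_nt.Reduce

/-! Assembly: families, and the Moebius function. -/

set_option autoImplicit false
open Filter Topology Finset

namespace Pool.Agent.Work.MP_ca0f09_nt

lemma freeW_of_freeFam {G : ℕ → ℕ → ℝ} (hF : FreeFam G) : FreeW G := by
  intro h hh ε hε
  obtain ⟨Q₀, hQ⟩ := hF h hh ε hε
  refine ⟨Q₀, fun Q hQ' q T hT c hc => ?_⟩
  filter_upwards [hQ Q hQ' q] with N hN X h1 h2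
  exact hN T hT c hc X h1 h2

/-- Two-point correlations of nearly dilation invariant families, from short interval
Fourier uniformity of the second family. -/
theorem transfer_unif (hsys : SysExists) (h W : ℕ) (hh : 1 ≤ h) (hW : 1 ≤ W)
    (g F G : ℕ → ℕ → ℝ)
    (hg : ∀ N n, |g N n| ≤ 1) (hF : ∀ N n, |F N n| ≤ 1) (hG : ∀ N n, |G N n| ≤ 1)
    (hper : ∀ N n, g N (n + W) = g N n)
    (inv1 : ∀ d : ℕ, Squarefree d → ∀ᶠ N : ℕ in atTop, ∀ m k, Nat.Coprime d m →
      Nat.Coprime d k → F N (d * m) * G N (d * k) = F N m * G N k)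
    (inv2 : ∀ d : ℕ, Squarefree d → ∀ᶠ N : ℕ in atTop, ∃ c : ℝ, |c| ≤ 1 ∧
      ∀ m, Nat.Coprime d m → G N (d * m) = c * G N m)
    (hU : UnifFam G) :
    Tendsto (fun N : ℕ => (1 / (N : ℝ)) * ∑ n ∈ range N, g N n * F N n * G N (n + h))
      atTop (𝓝 0) :=
  transfer hsys h W hh hW g F G hg hF hG hper inv1 inv2
    (freeW_of_freeFam (freeFam_of_unifFam G hG hU))

theorem twoPt_of_free (hsys : SysExists) (hF : Free) : TwoPt :=
  fun h hh W hW g hg hper => transfer_mu hsys hF h hh W hW g hg hper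

end Pool.Agent.Work.MP_ca0f09_nt
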