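import Pool.Agent.Work.MP_ca0f09_nt.Centred

/-! The law of the set of filler primes dividing an integer; counting lemmas. -/

set_option autoImplicit false
open Filter Topology Finset

namespace Pool.Agent.Work.MP_ca0f09_nt

/-- The primes of `E` dividing `n`. -/
def dv (E : Finset ℕ) (n : ℤ) : Finset ℕ := E.filter fun q => (q : ℤ) ∣ n

lemma dv_subset (E : Finset ℕ) (n : ℤ) : dv E n ⊆ E := Finset.filter_subset _ _

lemma dep_dv (E : Finset ℕ) (Φ : Finset ℕ → ℝ) : Dep (pr E) (fun n => Φ (dv E n)) := by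
  intro x y h
  have : dv E x = dv E y := by
    refine Finset.filter_congr fun q hq => ?_
    have h1 : (q : ℤ) ∣ x - y :=
      (Int.natCast_dvd_natCast.2 (Finset.dvd_prod_of_mem _ hq)).trans h
    exact dvd_iff_dvd_of_dvd_sub h1
  simp only [this]

lemma prod_primes_pos {E : Finset ℕ} (hE : ∀ q ∈ E, q.Prime) : 0 < pr E :=
  Finset.prod_pos fun q hq => (hE q hq).pos

lemma coprime_prod_primes {E : Finset ℕ} (hE : ∀ q ∈ E, q.Prime) {p : ℕ} (hp : p.Prime) (h : p ∉ E) :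
    Nat.Coprime p (pr E) :=
  Nat.Coprime.prod_right fun q hq =>
    (Nat.coprime_primes hp (hE q hq)).2 fun e => h (e ▸ hq)

lemma mean_dv (E : Finset ℕ) (hE : ∀ q ∈ E, q.Prime) {N : ℕ} (hN : 0 < N) (hd : pr E ∣ N)
    (Φ : Finset ℕ → ℝ) :
    mean N (fun n => Φ (dv E n)) = ∑ S ∈ E.powerset, law E S * Φ S := by
  induction E using Finset.induction_on generalizing Φ with
  | empty => simp [dv, law, mean_const hN]
  | insert q E hq ih =>
    have hE' : ∀ q ∈ E, q.Prime := fun q' h => hE q' (Finset.mem_insert_of_mem h)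
    have hqp := hE q (Finset.mem_insert_self _ _)
    have hd1 : pr E ∣ N :=
      (Finset.prod_dvd_prod_of_subset _ _ _ (Finset.subset_insert _ _)).trans hd
    have hd2 : q ∣ N := (Finset.dvd_prod_of_mem _ (Finset.mem_insert_self _ _)).trans hd
    have e1 : (fun n => Φ (dv (insert q E) n)) = fun n =>
        Φ (insert q (dv E n)) * ind q (n + 0) + (Φ (dv E n) - Φ (dv E n) * ind q (n + 0)) := by
      ext n
      simp only [dv, Finset.filter_insert, ind, add_zero]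
      split_ifs <;> simp
    rw [e1, mean_add, mean_sub,
      mean_mul_ind hqp.pos (coprime_prod_primes hE' hqp hq) hd2 hd1
        (dep_dv E fun S => Φ (insert q S)) 0,
      mean_mul_ind hqp.pos (coprime_prod_primes hE' hqp hq) hd2 hd1 (dep_dv E Φ) 0,
      ih hE' hd1 fun S => Φ (insert q S), ih hE' hd1 Φ, Finset.sum_powerset_insert hq,
      Finset.sum_div, Finset.sum_div, ← Finset.sum_sub_distrib, add_comm]
    congr 1
    · refine Finset.sum_congr rfl fun S hS => ?_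
      have hS' := Finset.mem_powerset.1 hS
      have h1 : q ∉ S := fun h => hq (hS' h)
      unfold law
      rw [Finset.insert_sdiff_of_notMem _ h1, Finset.prod_insert (by simp [hq])]
      ring
    · refine Finset.sum_congr rfl fun S hS => ?_
      have hS' := Finset.mem_powerset.1 hS
      have h1 : q ∉ S := fun h => hq (hS' h)
      unfold law
      rw [Finset.insert_sdiff_insert, Finset.sdiff_insert_of_notMem hq, Finset.prod_insert h1]
      ring

lemma subset_dv_iff {E s : Finset ℕ} (hE : ∀ q ∈ E, q.Prime) (hs : s ⊆ E) (n : ℤ) :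
    s ⊆ dv E n ↔ (pr s : ℤ) ∣ n := by
  constructor
  · intro h
    unfold pr
    push_cast
    refine Finset.prod_dvd_of_coprime ?_ fun q hq => (Finset.mem_filter.1 (h hq)).2
    intro q hq q' hq' hne
    exact Nat.isCoprime_iff_coprime.2 ((Nat.coprime_primes (hE q (hs hq)) (hE q' (hs hq'))).2 hne)
  · intro h q hq
    exact Finset.mem_filter.2 ⟨hs hq,
      (Int.natCast_dvd_natCast.2 (Finset.dvd_prod_of_mem _ hq)).trans h⟩

lemma squarefree_pr {s : Finset ℕ} (hs : ∀ q ∈ s, q.Prime) : Squarefree (pr s) := by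
  induction s using Finset.induction_on with
  | empty => simp [pr]
  | insert q s hq ih =>
    have hs' : ∀ q ∈ s, q.Prime := fun q' h => hs q' (Finset.mem_insert_of_mem h)
    have hqp := hs q (Finset.mem_insert_self _ _)
    unfold pr
    rw [Finset.prod_insert hq]
    exact (Nat.squarefree_mul (coprime_prod_primes hs' hqp hq)).2 ⟨hqp.squarefree, ih hs'⟩

/-- Number of multiples of `d` below `M`. -/
def cd (M d : ℕ) : ℕ := (M + d - 1) / d

lemma lt_cd {M d m : ℕ} (hd : 0 < d) : m < cd M d ↔ d * m < M := by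
  unfold cd
  rw [Nat.lt_iff_add_one_le, Nat.le_div_iff_mul_le hd, add_mul, mul_comm m d]
  omega

lemma cd_le {M d : ℕ} (hd : 0 < d) : (cd M d : ℝ) ≤ M / d + 1 := by
  have hd' : (0 : ℝ) < d := by exact_mod_cast hd
  have h1 : cd M d * d ≤ M + d := (Nat.div_mul_le_self _ _).trans (Nat.sub_le _ _)
  have h2 : (cd M d : ℝ) * d ≤ M + d := by exact_mod_cast h1
  rw [div_add_one hd'.ne', le_div_iff₀ hd']; exact h2

lemma le_cd {M d : ℕ} (hd : 0 < d) : M ≤ d * cd M d := by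
  by_contra h
  exact lt_irrefl _ ((lt_cd hd).2 (not_le.1 h))

lemma sum_ind_mul {d : ℕ} (hd : 0 < d) (M : ℕ) (f : ℕ → ℝ) :
    ∑ n ∈ range M, ind d n * f n = ∑ m ∈ range (cd M d), f (d * m) := by
  have e : ∑ n ∈ range M, ind d n * f n = ∑ n ∈ (range M).filter (fun n => d ∣ n), f n := by
    rw [Finset.sum_filter]
    refine Finset.sum_congr rfl fun n _ => ?_
    simp only [ind, Int.natCast_dvd_natCast]
    split_ifs <;> simp
  rw [e]
  symm
  refine Finset.sum_bij (fun m _ => d * m) ?_ ?_ ?_ fun _ _ => rfl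
  · intro m hm
    exact Finset.mem_filter.2 ⟨Finset.mem_range.2 ((lt_cd hd).1 (Finset.mem_range.1 hm)),
      Dvd.intro _ rfl⟩
  · intro m _ m' _ h
    exact Nat.eq_of_mul_eq_mul_left hd h
  · intro n hn
    obtain ⟨h1, m, rfl⟩ := Finset.mem_filter.1 hn
    exact ⟨m, Finset.mem_range.2 ((lt_cd hd).2 (Finset.mem_range.1 h1)), rfl⟩

/-- Number of primes of `s` dividing `n`. -/
noncomputable def bad (s : Finset ℕ) (n : ℤ) : ℝ := ∑ q ∈ s, ind q n

lemma bad_nonneg (s : Finset ℕ) (n : ℤ) : 0 ≤ bad s n :=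
  Finset.sum_nonneg fun _ _ => ind_nonneg _ _

lemma one_le_bad {s : Finset ℕ} (hs : ∀ q ∈ s, q.Prime) {n : ℕ} (h : ¬ Nat.Coprime (pr s) n) :
    1 ≤ bad s n := by
  by_contra hlt
  apply h
  refine Nat.Coprime.prod_left fun q hq => (Nat.Prime.coprime_iff_not_dvd (hs q hq)).2 fun hd => ?_
  apply hlt
  refine le_trans (le_of_eq ?_) (Finset.single_le_sum (fun q _ => ind_nonneg q (n : ℤ)) hq)
  simp [ind, Int.natCast_dvd_natCast, hd]

lemma sum_bad_le {s : Finset ℕ} (hs : ∀ q ∈ s, q.Prime) (a : ℕ) :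
    ∃ C : ℝ, ∀ X : ℕ, ∑ m ∈ range X, bad s ((m + a : ℕ) : ℤ) ≤
      X * ∑ q ∈ s, (1 / (q : ℝ)) + C := by
  have hd : Dep (pr s) (fun n => bad s (n + a)) :=
    Dep.sum s fun q hq => dep_ind (Finset.dvd_prod_of_mem _ hq) _
  obtain ⟨C, hC⟩ := sum_sub_mean_le (prod_primes_pos hs) hd
  refine ⟨C, fun X => ?_⟩
  have e : mean (pr s) (fun n => bad s (n + a)) = ∑ q ∈ s, (1 / (q : ℝ)) := by
    unfold bad
    rw [mean_sum]
    refine Finset.sum_congr rfl fun q hq => ?_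
    have := mean_mul_ind (N := pr s) (hs q hq).pos (Nat.coprime_one_right q)
      (Finset.dvd_prod_of_mem _ hq) (one_dvd _) (Dep.const 1 1) a
    rw [mean_const (prod_primes_pos hs)] at this
    simpa using this
  have h1 := (abs_le.1 (hC X)).2
  rw [e] at h1
  push_cast
  linarith

namespace Sys
variable {h W : ℕ} {ε C Q₀ : ℝ} (σ : Sys h W ε C Q₀)

/-- total mass -/
noncomputable def tot : ℝ := ∑ τ ∈ σ.Ed, σ.w τ.2 / (τ.1 * pr τ.2)

lemma primeE : ∀ q ∈ σ.E, q.Prime := fun q hq => (σ.hE q hq).1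

lemma prime2 {τ : ℕ × Finset ℕ} (hτ : τ ∈ σ.Ed) : ∀ q ∈ τ.2, q.Prime :=
  fun q hq => σ.primeE q ((σ.hEd τ hτ).2.1 hq)

lemma prime1 {τ : ℕ × Finset ℕ} (hτ : τ ∈ σ.Ed) : τ.1.Prime := (σ.hP _ (σ.hEd τ hτ).1).1

lemma notMem2 {τ : ℕ × Finset ℕ} (hτ : τ ∈ σ.Ed) : τ.1 ∉ τ.2 := fun h =>
  Finset.disjoint_left.1 σ.hPE (σ.hEd τ hτ).1 ((σ.hEd τ hτ).2.1 h)

lemma Ed_nonempty : σ.Ed.Nonempty := by
  by_contra h
  have := σ.hTot
  rw [Finset.not_nonempty_iff_eq_empty.1 h] at this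
  simp at this

lemma mean_rho : mean (pr σ.E) (fun n => σ.ρ (dv σ.E n)) =
    ∑ S ∈ σ.E.powerset, law σ.E S * σ.ρ S :=
  mean_dv _ σ.primeE (prod_primes_pos σ.primeE) dvd_rfl _

/-- The centred data attached to a system. -/
noncomputable def toCD (hh : 1 ≤ h) (hε1 : ε ≤ 1) : CD (ℕ × Finset ℕ) where
  h := h
  D := σ.D
  Q := pr σ.E
  r := σ.r
  P := σ.P
  Ed := σ.Ed
  p := fun τ => τ.1
  e := fun τ => pr τ.2
  w := fun τ => σ.w τ.2
  u := fun n τ => σ.u (dv σ.E n) τ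
  ρ := fun n => σ.ρ (dv σ.E n)
  L := σ.L
  K := σ.K
  γ := σ.γ
  B := max σ.B 0
  hh := hh
  hD := σ.hD
  hQ := prod_primes_pos σ.primeE
  hP := fun q hq => ⟨(σ.hP q hq).1, (σ.hP q hq).2.1, (σ.hP q hq).2.2.2,
    coprime_prod_primes σ.primeE (σ.hP q hq).1 (Finset.disjoint_left.1 σ.hPE hq)⟩
  hEd := fun τ hτ => by
    obtain ⟨h1, -, h2, h3, -⟩ := σ.hEd τ hτ
    refine ⟨h1, h2, ?_, σ.hw _⟩
    have h4 : ((τ.1 * pr τ.2 : ℕ) : ℝ) ≤ 2 * σ.D :=
      h3.trans (mul_le_mul_of_nonneg_right (by linarith) (Nat.cast_nonneg _))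
    exact_mod_cast h4
  hu := fun n τ => σ.hu _ _
  huQ := fun τ => dep_dv σ.E fun S => σ.u S τ
  hρ := fun n => σ.hρ _
  hρQ := dep_dv σ.E σ.ρ
  hL := σ.hL
  hL1 := σ.hL1
  hK := σ.hK
  hγ0 := by
    obtain ⟨τ, hτ⟩ := σ.Ed_nonempty
    have h1 := σ.K2 ∅ (Finset.empty_subset _) _ (σ.hEd τ hτ).1 _ (σ.hEd τ hτ).1 0
    have h2 := (Finset.sum_nonneg fun τ _ => mul_nonneg (σ.hw τ.2) (σ.hu ∅ τ).1).trans h1
    exact nonneg_of_mul_nonneg_left h2 (σ.hρ ∅)
  hB0 := le_max_right _ _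
  K1 := fun n q hq => σ.K1 _ (dv_subset _ _) q hq
  K2 := fun n q hq q' hq' b => σ.K2 _ (dv_subset _ _) q hq q' hq' b
  hB := fun n τ hτ hu => (σ.hu' _ (dv_subset _ _) τ hτ hu).2.trans (le_max_left _ _)
  hr := σ.hr
  hγ := σ.hγ
  hBig := by
    rcases le_total σ.B 0 with h0 | h0
    · rw [max_eq_right h0, mul_zero]
      exact mul_nonneg (by positivity) (mean_nonneg _ fun n => (σ.hρ _).le)
    · rw [max_eq_left h0, σ.mean_rho]; exact σ.hB

end Sys

end Pool.Agent.Work.MP_ca0f09_nt
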