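import Pool.Agent.Work.MP_ca0f09_nt.Defs

/-! Means of periodic functions on the integers. -/

set_option autoImplicit false
open Filter Topology Finset

namespace Pool.Agent.Work.MP_ca0f09_nt

/-- Mean over one period. -/
noncomputable def mean (N : ℕ) (F : ℤ → ℝ) : ℝ := (∑ x ∈ range N, F x) / N

/-- `F` depends only on the class modulo `c`. -/
def Dep (c : ℕ) (F : ℤ → ℝ) : Prop := ∀ x y : ℤ, (c : ℤ) ∣ x - y → F x = F y

/-- Indicator of divisibility. -/
noncomputable def ind (p : ℕ) (n : ℤ) : ℝ := if (p : ℤ) ∣ n then 1 else 0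

lemma ind_nonneg (p : ℕ) (n : ℤ) : 0 ≤ ind p n := by unfold ind; split_ifs <;> norm_num

lemma ind_le_one (p : ℕ) (n : ℤ) : ind p n ≤ 1 := by unfold ind; split_ifs <;> norm_num

lemma ind_congr {p : ℕ} {n n' : ℤ} (h : (p : ℤ) ∣ n - n') : ind p n = ind p n' := by
  unfold ind
  have : (p : ℤ) ∣ n ↔ (p : ℤ) ∣ n' := by
    constructor
    · intro h1
      have := dvd_sub h1 h
      simpa using this
    · intro h1
      have := dvd_add h h1
      simpa using this
  simp [this]

lemma Dep.mono {c d : ℕ} {F : ℤ → ℝ} (hF : Dep c F) (h : c ∣ d) : Dep d F :=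
  fun x y hxy => hF x y ((Int.natCast_dvd_natCast.2 h).trans hxy)

lemma Dep.const (c : ℕ) (a : ℝ) : Dep c (fun _ => a) := fun _ _ _ => rfl

lemma Dep.mul {c : ℕ} {F G : ℤ → ℝ} (hF : Dep c F) (hG : Dep c G) :
    Dep c (fun x => F x * G x) := fun x y h => by simp only [hF x y h, hG x y h]

lemma Dep.add {c : ℕ} {F G : ℤ → ℝ} (hF : Dep c F) (hG : Dep c G) :
    Dep c (fun x => F x + G x) := fun x y h => by simp only [hF x y h, hG x y h]

lemma Dep.sub {c : ℕ} {F G : ℤ → ℝ} (hF : Dep c F) (hG : Dep c G) :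
    Dep c (fun x => F x - G x) := fun x y h => by simp only [hF x y h, hG x y h]

lemma Dep.div {c : ℕ} {F G : ℤ → ℝ} (hF : Dep c F) (hG : Dep c G) :
    Dep c (fun x => F x / G x) := fun x y h => by simp only [hF x y h, hG x y h]

lemma Dep.sum {c : ℕ} {κ : Type*} (s : Finset κ) {F : κ → ℤ → ℝ} (hF : ∀ k ∈ s, Dep c (F k)) :
    Dep c (fun x => ∑ k ∈ s, F k x) :=
  fun x y h => Finset.sum_congr rfl fun k hk => hF k hk x y h

lemma Dep.shift {c : ℕ} {F : ℤ → ℝ} (hF : Dep c F) (a : ℤ) : Dep c (fun x => F (x + a)) :=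
  fun x y h => hF _ _ (by simpa using h)

lemma dep_ind {c p : ℕ} (h : p ∣ c) (a : ℤ) : Dep c (fun x => ind p (x + a)) :=
  fun x y hxy => ind_congr (by simpa using (Int.natCast_dvd_natCast.2 h).trans hxy)

lemma mean_add (N : ℕ) (F G : ℤ → ℝ) : mean N (fun x => F x + G x) = mean N F + mean N G := by
  simp [mean, Finset.sum_add_distrib, add_div]

lemma mean_sub (N : ℕ) (F G : ℤ → ℝ) : mean N (fun x => F x - G x) = mean N F - mean N G := by
  simp [mean, Finset.sum_sub_distrib, sub_div]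

lemma mean_const_mul (N : ℕ) (c : ℝ) (F : ℤ → ℝ) :
    mean N (fun x => c * F x) = c * mean N F := by
  simp [mean, ← Finset.mul_sum, mul_div_assoc]

lemma mean_mul_const (N : ℕ) (c : ℝ) (F : ℤ → ℝ) :
    mean N (fun x => F x * c) = mean N F * c := by
  rw [mul_comm, ← mean_const_mul]; simp [mul_comm]

lemma mean_sum (N : ℕ) {κ : Type*} (s : Finset κ) (F : κ → ℤ → ℝ) :
    mean N (fun x => ∑ k ∈ s, F k x) = ∑ k ∈ s, mean N (F k) := by
  simp only [mean]
  rw [Finset.sum_comm, Finset.sum_div]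

lemma mean_mono (N : ℕ) {F G : ℤ → ℝ} (h : ∀ x, F x ≤ G x) : mean N F ≤ mean N G :=
  div_le_div_of_nonneg_right (Finset.sum_le_sum fun x _ => h x) (Nat.cast_nonneg N)

lemma mean_nonneg (N : ℕ) {F : ℤ → ℝ} (h : ∀ x, 0 ≤ F x) : 0 ≤ mean N F :=
  div_nonneg (Finset.sum_nonneg fun x _ => h x) (Nat.cast_nonneg N)

lemma mean_const {N : ℕ} (hN : 0 < N) (c : ℝ) : mean N (fun _ => c) = c := by
  have : (N : ℝ) ≠ 0 := by positivity
  simp [mean]; field_simp

lemma mean_pos {N : ℕ} (hN : 0 < N) {F : ℤ → ℝ} (h : ∀ x, 0 < F x) : 0 < mean N F :=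
  div_pos (Finset.sum_pos (fun x _ => h x) ⟨0, Finset.mem_range.2 hN⟩) (by positivity)

lemma mean_shift_one {N : ℕ} {F : ℤ → ℝ} (hF : Dep N F) :
    mean N (fun x => F (x + 1)) = mean N F := by
  unfold mean
  congr 1
  have h1 := Finset.sum_range_succ (fun x : ℕ => F x) N
  have h2 := Finset.sum_range_succ' (fun x : ℕ => F x) N
  have h3 : F (N : ℕ) = F ((0 : ℕ) : ℤ) := hF _ _ (by simp)
  push_cast at h1 h2 h3 ⊢
  linarith

lemma mean_shift {N : ℕ} {F : ℤ → ℝ} (hF : Dep N F) (a : ℤ) :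
    mean N (fun x => F (x + a)) = mean N F := by
  induction a using Int.induction_on with
  | zero => simp
  | succ n ih =>
    rw [← ih, ← mean_shift_one (hF.shift n)]
    congr 1; ext x; congr 1; ring
  | pred n ih =>
    rw [← ih, ← mean_shift_one (hF.shift (-(n : ℤ) - 1))]
    congr 1; ext x; congr 1; ring

lemma sum_ind_coprime {p c : ℕ} (hp : 0 < p) (hc : Nat.Coprime p c) (n : ℤ) :
    ∑ k ∈ range p, ind p (n + k * c) = 1 := by
  have : NeZero p := ⟨hp.ne'⟩
  have hu : IsUnit (c : ZMod p) := (ZMod.isUnit_iff_coprime c p).2 hc.symm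
  obtain ⟨v, hv⟩ := hu
  have key : ∀ k : ℕ, ind p (n + k * c) =
      if (k : ZMod p) = -(n : ZMod p) * ((v⁻¹ : (ZMod p)ˣ) : ZMod p) then 1 else 0 := by
    intro k
    unfold ind
    refine if_congr ?_ rfl rfl
    rw [← ZMod.intCast_zmod_eq_zero_iff_dvd]
    push_cast
    rw [← hv]
    constructor
    · intro h
      have : (k : ZMod p) * v = -(n : ZMod p) := by linear_combination h
      rw [← this, mul_assoc, Units.mul_inv, mul_one]
    · intro h
      rw [h, mul_assoc, Units.inv_mul]; ring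
  simp_rw [key]
  set z : ZMod p := -(n : ZMod p) * ((v⁻¹ : (ZMod p)ˣ) : ZMod p)
  rw [Finset.sum_eq_single_of_mem z.val (Finset.mem_range.2 (ZMod.val_lt z))]
  · simp
  · intro k hk hne
    rw [if_neg]
    intro h
    apply hne
    rw [← h, ZMod.val_natCast, Nat.mod_eq_of_lt (Finset.mem_range.1 hk)]

/-- Chinese remainder theorem for means. -/
lemma mean_mul_ind {N c p : ℕ} (hp : 0 < p) (hc : Nat.Coprime p c) (hpN : p ∣ N) (hcN : c ∣ N)
    {Φ : ℤ → ℝ} (hΦ : Dep c Φ) (a : ℤ) :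
    mean N (fun x => Φ x * ind p (x + a)) = mean N Φ / p := by
  have h1 : ∀ k : ℕ, mean N (fun x => Φ x * ind p (x + a + k * c)) =
      mean N (fun x => Φ x * ind p (x + a)) := by
    intro k
    rw [← mean_shift ((hΦ.mono hcN).mul (dep_ind hpN a)) ((k : ℤ) * c)]
    congr 1; ext x
    rw [hΦ (x + k * c) x (by simp)]
    congr 2; ring
  have h2 : mean N Φ = ∑ k ∈ range p, mean N (fun x => Φ x * ind p (x + a + k * c)) := by
    rw [← mean_sum]
    congr 1; ext x
    rw [← Finset.mul_sum, sum_ind_coprime hp hc, mul_one]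
  rw [h2]
  simp only [h1, Finset.sum_const, Finset.card_range, nsmul_eq_mul]
  have : (p : ℝ) ≠ 0 := by positivity
  field_simp

lemma mean_mul_period {c : ℕ} (k : ℕ) (hk : 0 < k) (hc : 0 < c) {F : ℤ → ℝ} (hF : Dep c F) :
    mean (c * k) F = mean c F := by
  have key : ∀ j : ℕ, ∑ x ∈ range (c * j), F x = j * ∑ x ∈ range c, F x := by
    intro j
    induction j with
    | zero => simp
    | succ j ih =>
      rw [Nat.mul_succ, Finset.sum_range_add, ih]
      have : ∑ x ∈ range c, F ((c * j + x : ℕ) : ℤ) = ∑ x ∈ range c, F x :=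
        Finset.sum_congr rfl fun x _ => hF _ _ (by push_cast; simp)
      rw [this]; push_cast; ring
  unfold mean
  rw [key]
  have h1 : (k : ℝ) ≠ 0 := by positivity
  have h2 : (c : ℝ) ≠ 0 := by positivity
  push_cast; field_simp

/-- Partial sums of a periodic function. -/
lemma sum_sub_mean_le {N : ℕ} (hN : 0 < N) {F : ℤ → ℝ} (hF : Dep N F) :
    ∃ C : ℝ, ∀ M : ℕ, |∑ x ∈ range M, F x - M * mean N F| ≤ C := by
  refine ⟨∑ x ∈ range N, |F x - mean N F|, fun M => ?_⟩
  set G : ℤ → ℝ := fun x => F x - mean N F with hG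
  have hGd : Dep N G := hF.sub (Dep.const _ _)
  have h0 : ∑ x ∈ range N, G x = 0 := by
    have : mean N G = 0 := by rw [hG, mean_sub, mean_const hN]; simp
    unfold mean at this
    have hN' : (N : ℝ) ≠ 0 := by positivity
    exact (div_eq_zero_iff.1 this).resolve_right hN'
  have key : ∀ j : ℕ, ∑ x ∈ range (N * j), G x = 0 := by
    intro j
    induction j with
    | zero => simp
    | succ j ih =>
      rw [Nat.mul_succ, Finset.sum_range_add, ih]
      have : ∑ x ∈ range N, G ((N * j + x : ℕ) : ℤ) = ∑ x ∈ range N, G x :=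
        Finset.sum_congr rfl fun x _ => hGd _ _ (by push_cast; simp)
      rw [this, h0]; simp
  have h1 : ∑ x ∈ range M, F x - M * mean N F = ∑ x ∈ range M, G x := by
    simp [hG, Finset.sum_sub_distrib]
  rw [h1]
  conv_lhs => rw [← Nat.div_add_mod M N]
  rw [Finset.sum_range_add, key, zero_add]
  have h2 : ∑ x ∈ range (M % N), G ((N * (M / N) + x : ℕ) : ℤ) = ∑ x ∈ range (M % N), G x :=
    Finset.sum_congr rfl fun x _ => hGd _ _ (by push_cast; simp)
  rw [h2]
  refine (Finset.abs_sum_le_sum_abs _ _).trans ?_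
  exact Finset.sum_le_sum_of_subset_of_nonneg
    (Finset.range_subset_range.2 (Nat.mod_lt M hN).le) fun _ _ _ => abs_nonneg _

end Pool.Agent.Work.MP_ca0f09_nt
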