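import Pool.Agent.Work.MP_ca0f09_nt.CWalk

/-! The moment bound for the centred kernel. -/

set_option autoImplicit false
open Filter Topology Finset

namespace Pool.Agent.Work.MP_ca0f09_nt

namespace CD
variable {ι : Type} (c : CD ι)

noncomputable def lam1 (hist : Finset (ℕ × ℤ)) (q : ℕ) : ℝ :=
  if q ∈ hist.image Prod.fst then Real.sqrt c.L else 1 / Real.sqrt c.L

noncomputable def lam : Finset (ℕ × ℤ) → ℤ → List (Bool × ι) → ℝ
  | _, _, [] => 1
  | hist, i, t :: l => c.lam1 hist (c.p t.2) * lam (insert (c.p t.2, i) hist) (i + c.disp t) l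

lemma one_le_sqrt : 1 ≤ Real.sqrt c.L := Real.one_le_sqrt.2 c.hL1

lemma lam1_nonneg (hist : Finset (ℕ × ℤ)) (q : ℕ) : 0 ≤ c.lam1 hist q := by
  unfold lam1; split_ifs <;> positivity

lemma lam_eq (hist : Finset (ℕ × ℤ)) (i : ℤ) (l : List (Bool × ι)) :
    c.lam hist i l * Real.sqrt c.L ^
      (2 * ((l.map fun t => c.p t.2).toFinset \ hist.image Prod.fst).card) =
      Real.sqrt c.L ^ l.length := by
  induction l generalizing hist i with
  | nil => simp [lam]
  | cons t l ih =>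
    have ih1 := ih (insert (c.p t.2, i) hist) (i + c.disp t)
    rw [Finset.image_insert] at ih1
    simp only [lam, lam1, List.map_cons, List.toFinset_cons, List.length_cons] at ih1 ⊢
    have hs : Real.sqrt c.L ≠ 0 := by have := c.one_le_sqrt; positivity
    split_ifs with hq
    · rw [Finset.insert_eq_of_mem hq] at ih1
      rw [Finset.insert_sdiff_of_mem _ hq, pow_succ, ← ih1]; ring
    · have e1 : insert (c.p t.2) (l.map fun t => c.p t.2).toFinset \ hist.image Prod.fst =
          insert (c.p t.2) ((l.map fun t => c.p t.2).toFinset \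
            insert (c.p t.2) (hist.image Prod.fst)) := by
        ext q
        simp only [Finset.mem_sdiff, Finset.mem_insert]
        by_cases h : q = c.p t.2
        · subst h; simp [hq]
        · simp [h]
      rw [e1, Finset.card_insert_of_notMem (by simp), pow_succ, ← ih1]
      field_simp
      ring

lemma one_le_lam (i : ℤ) (l : List (Bool × ι))
    (h : ∀ q, (l.map fun t => c.p t.2).count q ≠ 1) : 1 ≤ c.lam ∅ i l := by
  have h1 := c.lam_eq ∅ i l
  simp only [Finset.image_empty, Finset.sdiff_empty] at h1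
  have h2 : 2 * (l.map fun t => c.p t.2).toFinset.card ≤ l.length := by
    have h3 := List.sum_toFinset_count_eq_length (l.map fun t => c.p t.2)
    rw [List.length_map] at h3
    rw [← h3, mul_comm, ← smul_eq_mul, ← Finset.sum_const]
    refine Finset.sum_le_sum fun q hq => ?_
    have h4 := List.count_pos_iff.2 (List.mem_toFinset.1 hq)
    have h5 := h q
    omega
  have h3 := pow_le_pow_right₀ c.one_le_sqrt h2
  rw [← h1] at h3
  have h4 : 0 < Real.sqrt c.L ^ (2 * (l.map fun t => c.p t.2).toFinset.card) := by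
    have := c.one_le_sqrt; positivity
  by_contra hlt
  push Not at hlt
  nlinarith

noncomputable def g (hist : Finset (ℕ × ℤ)) (i : ℤ) (q : ℕ) : ℝ :=
  (2 / q + J hist i q) * c.lam1 hist q

lemma g_nonneg (hist : Finset (ℕ × ℤ)) (i : ℤ) (q : ℕ) : 0 ≤ c.g hist i q :=
  mul_nonneg (add_nonneg (by positivity) (J_nonneg _ _ _)) (c.lam1_nonneg _ _)

noncomputable def psi (x : ℤ) : Finset (ℕ × ℤ) → ℤ → List (Bool × ι) → ℝ
  | _, _, [] => 1
  | hist, i, t :: l =>
    c.phi1 x i t * c.g hist i (c.p t.2) * psi x (insert (c.p t.2, i) hist) (i + c.disp t) l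

lemma psi_eq (x : ℤ) (hist : Finset (ℕ × ℤ)) (i : ℤ) (l : List (Bool × ι)) :
    c.psi x hist i l = c.phi x i l * (c.G hist i l * c.lam hist i l) := by
  induction l generalizing hist i with
  | nil => simp [psi, phi, G, lam]
  | cons t l ih => simp only [psi, phi, G, lam, g, ih]; ring

noncomputable def TT (hist : Finset (ℕ × ℤ)) (i : ℤ) : ℝ := ∑ q ∈ c.P, J hist i q

lemma TT_nonneg (hist : Finset (ℕ × ℤ)) (i : ℤ) : 0 ≤ c.TT hist i :=
  Finset.sum_nonneg fun _ _ => J_nonneg _ _ _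

lemma sum_g_le (hist : Finset (ℕ × ℤ)) (i : ℤ) (hc : hist.card ≤ 2 * c.r) :
    ∑ q ∈ c.P, c.g hist i q ≤ 4 * Real.sqrt c.L * (1 + c.TT hist i) := by
  have hs := c.one_le_sqrt
  have hs0 : 0 < Real.sqrt c.L := by linarith
  have hr : (1 : ℝ) ≤ c.r := by exact_mod_cast c.hr
  have h1 : ∀ q ∈ c.P, c.g hist i q ≤ (2 / Real.sqrt c.L) * (1 / q) +
      (if q ∈ hist.image Prod.fst then Real.sqrt c.L / c.r else 0) +
        Real.sqrt c.L * J hist i q := by
    intro q hq
    have hq2 : (2 * c.r : ℝ) ≤ q := by exact_mod_cast (c.hP q hq).2.2.1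
    have hq0 : (0 : ℝ) < q := by linarith
    unfold g lam1
    split_ifs with h
    · have h2 : 2 / (q : ℝ) ≤ 1 / c.r := by
        rw [div_le_div_iff₀ hq0 (by linarith)]; linarith
      have h3 : 0 ≤ (2 / Real.sqrt c.L) * (1 / q) := by positivity
      have h4 := mul_le_mul_of_nonneg_right h2 hs0.le
      have e : Real.sqrt c.L / c.r = 1 / c.r * Real.sqrt c.L := by ring
      rw [e]; nlinarith
    · have hJ : J hist i q = 0 := by
        unfold J
        rw [if_neg]
        rintro ⟨a, ha, h1, -⟩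
        exact h (Finset.mem_image.2 ⟨a, ha, h1⟩)
      rw [hJ]
      apply le_of_eq; ring
  refine (Finset.sum_le_sum h1).trans ?_
  rw [Finset.sum_add_distrib, Finset.sum_add_distrib, ← Finset.mul_sum, ← Finset.mul_sum,
    ← Finset.sum_filter, Finset.sum_const, nsmul_eq_mul]
  have h2 : 2 / Real.sqrt c.L * ∑ q ∈ c.P, (1 / (q : ℝ)) ≤ 2 * Real.sqrt c.L := by
    calc _ ≤ 2 / Real.sqrt c.L * c.L := mul_le_mul_of_nonneg_left c.hL (by positivity)
      _ = 2 / Real.sqrt c.L * (Real.sqrt c.L * Real.sqrt c.L) := by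
        rw [Real.mul_self_sqrt (by linarith [c.hL1])]
      _ = _ := by field_simp
  have h3 : ((c.P.filter fun q => q ∈ hist.image Prod.fst).card : ℝ) ≤ 2 * c.r := by
    have : (c.P.filter fun q => q ∈ hist.image Prod.fst).card ≤ 2 * c.r :=
      (Finset.card_le_card fun q hq => (Finset.mem_filter.1 hq).2).trans
        (Finset.card_image_le.trans hc)
    exact_mod_cast this
  have h4 : ((c.P.filter fun q => q ∈ hist.image Prod.fst).card : ℝ) * (Real.sqrt c.L / c.r)
      ≤ 2 * Real.sqrt c.L := by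
    calc _ ≤ (2 * c.r) * (Real.sqrt c.L / c.r) := mul_le_mul_of_nonneg_right h3 (by positivity)
      _ = _ := by field_simp
  have h5 := c.TT_nonneg hist i
  unfold TT at h5 ⊢
  nlinarith

lemma sum_step_le (x i : ℤ) (g0 : ℕ → ℝ) (hg : ∀ q, 0 ≤ g0 q) (A : Bool × ι → Prop)
    [DecidablePred A] (β : ℝ)
    (h : ∀ σ : Bool, ∀ q ∈ c.P, ∑ τ ∈ c.Ed.filter (fun τ => c.p τ = q ∧ A (σ, τ)),
      c.w τ * c.u (x + i) τ ≤ β * c.ρ (x + i)) :
    ∑ t ∈ c.St, c.phi1 x i t * g0 (c.p t.2) * (if A t then 1 else 0) ≤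
      2 * β * ∑ q ∈ c.P, g0 q := by
  have hρ := c.hρ (x + i)
  have h1 : ∀ σ : Bool, ∑ τ ∈ c.Ed, c.phi1 x i (σ, τ) * g0 (c.p τ) * (if A (σ, τ) then 1 else 0)
      ≤ β * ∑ q ∈ c.P, g0 q := by
    intro σ
    rw [← Finset.sum_fiberwise_of_maps_to (g := c.p) (t := c.P) (fun τ hτ => (c.hEd τ hτ).1),
      Finset.mul_sum]
    refine Finset.sum_le_sum fun q hq => ?_
    have h2 := h σ q hq
    rw [← Finset.filter_filter, Finset.sum_filter] at h2
    have h3 : ∑ τ ∈ c.Ed.filter (fun τ => c.p τ = q),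
        c.phi1 x i (σ, τ) * g0 (c.p τ) * (if A (σ, τ) then 1 else 0) ≤
        ∑ τ ∈ c.Ed.filter (fun τ => c.p τ = q),
          (g0 q / c.ρ (x + i)) * (if A (σ, τ) then c.w τ * c.u (x + i) τ else 0) := by
      refine Finset.sum_le_sum fun τ hτ => ?_
      obtain ⟨hτ1, hτ2⟩ := Finset.mem_filter.1 hτ
      rw [hτ2]
      split_ifs
      · unfold phi1
        have h4 := (c.hEd τ hτ1).2.2.2
        have h5 := c.hu (x + i) τ
        have h6 := c.hu (x + (i + c.disp (σ, τ))) τ
        have h7 : c.w τ * c.u (x + i) τ * c.u (x + (i + c.disp (σ, τ))) τ ≤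
            c.w τ * c.u (x + i) τ := mul_le_of_le_one_right (mul_nonneg h4 h5.1) h6.2
        have h8 := mul_le_mul_of_nonneg_left h7 (div_nonneg (hg q) hρ.le)
        refine le_trans (le_of_eq ?_) h8
        ring
      · simp
    refine h3.trans ?_
    rw [← Finset.mul_sum]
    calc _ ≤ g0 q / c.ρ (x + i) * (β * c.ρ (x + i)) :=
          mul_le_mul_of_nonneg_left h2 (div_nonneg (hg q) hρ.le)
      _ = _ := by field_simp
  unfold St
  rw [Finset.sum_product, Fintype.sum_bool]
  have := h1 true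
  have := h1 false
  simp only at *
  linarith

lemma class_le (n i : ℤ) (a : ℕ × ℤ) (ha : a.1 ∈ c.P) (σ : Bool) (q : ℕ) (hq : q ∈ c.P) :
    ∑ τ ∈ c.Ed.filter (fun τ => c.p τ = q ∧
      (a.1 ≠ c.p τ ∧ (a.1 : ℤ) ∣ a.2 - (i + c.disp (σ, τ)))), c.w τ * c.u n τ ≤
      c.γ * c.ρ n := by
  rcases (c.Ed.filter (fun τ => c.p τ = q ∧
      (a.1 ≠ c.p τ ∧ (a.1 : ℤ) ∣ a.2 - (i + c.disp (σ, τ))))).eq_empty_or_nonempty with
    he | ⟨τ₀, h0⟩
  · rw [he, Finset.sum_empty]; exact mul_nonneg c.hγ0 (c.hρ n).le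
  refine le_trans (Finset.sum_le_sum_of_subset_of_nonneg ?_ ?_) (c.K2 n q hq a.1 ha (c.e τ₀))
  · intro τ hτ
    obtain ⟨h1, h2, h3, h4⟩ := Finset.mem_filter.1 hτ
    obtain ⟨-, h5, -, h6⟩ := Finset.mem_filter.1 h0
    refine Finset.mem_filter.2 ⟨h1, h2, ?_⟩
    have hp := (c.hP _ ha).1
    have h7 : (a.1 : ℤ) ∣ (c.h : ℤ) * (q * ((c.e τ₀ : ℤ) - c.e τ)) := by
      have h8 := dvd_sub h4 h6
      simp only [disp, lag, h2, h5] at h8
      push_cast at h8
      cases σ
      · simp only [Bool.false_eq_true, if_false] at h8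
        have := h8.neg_right
        exact (dvd_iff_dvd_of_dvd_sub (by ring_nf; simp)).1 this
      · simp only [if_true] at h8
        exact (dvd_iff_dvd_of_dvd_sub (by ring_nf; simp)).1 h8
    have hpz : Prime (a.1 : ℤ) := Nat.prime_iff_prime_int.1 hp
    rcases hpz.dvd_or_dvd h7 with h9 | h9
    · have h10 := Nat.le_of_dvd c.hh (Int.natCast_dvd_natCast.1 h9)
      have := (c.hP _ ha).2.1
      omega
    rcases hpz.dvd_or_dvd h9 with h10 | h10
    · exact absurd ((Nat.prime_dvd_prime_iff_eq hp (c.hP _ hq).1).1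
        (Int.natCast_dvd_natCast.1 h10)) (h2 ▸ h3)
    · exact (Nat.modEq_iff_dvd).2 h10
  · intro τ hτ _
    exact mul_nonneg (c.hEd τ (Finset.mem_filter.1 hτ).1).2.2.2 (c.hu _ _).1

lemma TT_insert_le (hist : Finset (ℕ × ℤ)) (q : ℕ) (i i' : ℤ) :
    c.TT (insert (q, i) hist) i' ≤
      1 + ∑ a ∈ hist, (if a.1 ≠ q ∧ (a.1 : ℤ) ∣ a.2 - i' then 1 else 0) := by
  have h1 : ∀ q' ∈ c.P, J (insert (q, i) hist) i' q' ≤ (if q' = q then 1 else 0) +
      ∑ a ∈ hist, (if a.1 = q' then
        (if a.1 ≠ q ∧ (a.1 : ℤ) ∣ a.2 - i' then (1 : ℝ) else 0) else 0) := by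
    intro q' _
    have h0 : ∀ a ∈ hist, (0 : ℝ) ≤ (if a.1 = q' then
        (if a.1 ≠ q ∧ (a.1 : ℤ) ∣ a.2 - i' then (1 : ℝ) else 0) else 0) := by
      intro a _; split_ifs <;> norm_num
    by_cases hq : q' = q
    · rw [if_pos hq]
      have := J_le_one (insert (q, i) hist) i' q'
      have := Finset.sum_nonneg h0
      linarith
    · rw [if_neg hq, zero_add]
      unfold J
      split_ifs with h
      · obtain ⟨a, ha, h1, h2⟩ := h
        rcases Finset.mem_insert.1 ha with rfl | ha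
        · exact absurd h1.symm hq
        · refine le_trans (le_of_eq ?_) (Finset.single_le_sum h0 ha)
          rw [if_pos h1, if_pos ⟨h1 ▸ hq, h1 ▸ h2⟩]
      · exact Finset.sum_nonneg h0
  refine (Finset.sum_le_sum h1).trans ?_
  rw [Finset.sum_add_distrib, Finset.sum_comm]
  refine add_le_add ?_ (Finset.sum_le_sum fun a _ => ?_)
  · rw [Finset.sum_ite_eq']; split_ifs <;> norm_num
  · rw [Finset.sum_ite_eq]; split_ifs <;> norm_num

lemma pot (x : ℤ) (k : ℕ) (hist : Finset (ℕ × ℤ)) (i : ℤ) (hP : ∀ a ∈ hist, a.1 ∈ c.P)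
    (hc : hist.card + k ≤ 2 * c.r) :
    sumL c.St k (c.psi x hist i) ≤ (24 * Real.sqrt c.L * c.K) ^ k * (1 + c.TT hist i) := by
  induction k generalizing hist i with
  | zero =>
    have := c.TT_nonneg hist i
    simp only [sumL, psi, pow_zero]; linarith
  | succ k ih =>
    have hK := c.hK
    have hC : 0 ≤ (24 * Real.sqrt c.L * c.K) ^ k := by positivity
    have h1 : ∀ t ∈ c.St, sumL c.St k (fun l => c.psi x hist i (t :: l)) ≤
        (24 * Real.sqrt c.L * c.K) ^ k *
          (2 * (c.phi1 x i t * c.g hist i (c.p t.2) * (if True then 1 else 0)) +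
            ∑ a ∈ hist, c.phi1 x i t * c.g hist i (c.p t.2) *
              (if a.1 ≠ c.p t.2 ∧ (a.1 : ℤ) ∣ a.2 - (i + c.disp t) then 1 else 0)) := by
      intro t ht
      simp only [psi]
      rw [sumL_const_mul]
      have h2 := ih (insert (c.p t.2, i) hist) (i + c.disp t) (by
        intro a ha
        rcases Finset.mem_insert.1 ha with rfl | ha
        · exact (c.hEd _ (c.mem_St.1 ht)).1
        · exact hP a ha) (by
          have := Finset.card_insert_le (c.p t.2, i) hist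
          omega)
      have h3 := c.TT_insert_le hist (c.p t.2) i (i + c.disp t)
      have h4 := mul_nonneg (c.phi1_nonneg x i ht) (c.g_nonneg hist i (c.p t.2))
      rw [← Finset.mul_sum]
      refine (mul_le_mul_of_nonneg_left (h2.trans (mul_le_mul_of_nonneg_left
        (add_le_add_right h3 1) hC)) h4).trans (le_of_eq ?_)
      simp only [if_true]
      ring
    simp only [sumL]
    refine (Finset.sum_le_sum h1).trans ?_
    rw [← Finset.mul_sum, Finset.sum_add_distrib, ← Finset.mul_sum, Finset.sum_comm]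
    have h2 := c.sum_step_le x i (c.g hist i) (c.g_nonneg hist i) (fun _ => True) c.K
      (fun σ q hq => by simpa using c.K1 (x + i) q hq)
    have h3 : ∀ a ∈ hist, ∑ t ∈ c.St, c.phi1 x i t * c.g hist i (c.p t.2) *
        (if a.1 ≠ c.p t.2 ∧ (a.1 : ℤ) ∣ a.2 - (i + c.disp t) then 1 else 0) ≤
        2 * c.γ * ∑ q ∈ c.P, c.g hist i q := fun a ha =>
      c.sum_step_le x i (c.g hist i) (c.g_nonneg hist i)
        (fun t => a.1 ≠ c.p t.2 ∧ (a.1 : ℤ) ∣ a.2 - (i + c.disp t)) c.γ
        (fun σ q hq => c.class_le (x + i) i a (hP a ha) σ q hq)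
    have h4 := Finset.sum_le_card_nsmul _ _ _ h3
    rw [nsmul_eq_mul] at h4
    have h5 := c.sum_g_le hist i (by omega)
    have h6 : 0 ≤ ∑ q ∈ c.P, c.g hist i q := Finset.sum_nonneg fun q _ => c.g_nonneg _ _ _
    have h7 : (hist.card : ℝ) * c.γ ≤ c.K := by
      have h8 : (hist.card : ℝ) ≤ 2 * c.r := by exact_mod_cast (by omega : hist.card ≤ 2 * c.r)
      exact (mul_le_mul_of_nonneg_right h8 c.hγ0).trans c.hγ
    have h8 := mul_le_mul_of_nonneg_right h7 h6
    have h9 := mul_le_mul_of_nonneg_left h5 hK.le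
    rw [pow_succ, mul_assoc ((24 * Real.sqrt c.L * c.K) ^ k)]
    refine mul_le_mul_of_nonneg_left ?_ hC
    nlinarith

theorem moment : mean c.N (fun x => ∑ i, (c.Tm x ^ (2 * c.r)) i i) ≤
    c.R * (24 * Real.sqrt c.L * c.K) ^ (2 * c.r) := by
  rw [mean_sum]
  refine (Finset.sum_le_card_nsmul _ _ ((24 * Real.sqrt c.L * c.K) ^ (2 * c.r))
    fun i _ => ?_).trans (by simp)
  simp only [c.pow_eq]
  rw [mean_sumL]
  have h1 : sumL c.St (2 * c.r) (fun l => mean c.N fun x =>
      if c.endp (i : ℕ) l = (i : ℕ) then c.wt x (i : ℕ) l else 0) ≤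
      sumL c.St (2 * c.r) (fun l => mean c.N fun x => c.psi x ∅ (i : ℕ) l) := by
    refine sumL_mono _ _ fun l _ hl => ?_
    have hG := c.G_nonneg ∅ (i : ℕ) l
    have hlam : 0 ≤ c.lam ∅ (i : ℕ) l := by
      have h2 := c.lam_eq ∅ (i : ℕ) l
      have hs := c.one_le_sqrt
      have h3 : 0 < Real.sqrt c.L ^ l.length := by positivity
      rw [← h2] at h3
      exact ((mul_pos_iff_of_pos_right (by positivity)).1 h3).le
    have h0 : 0 ≤ mean c.N fun x => c.psi x ∅ (i : ℕ) l := mean_nonneg _ fun x => by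
      rw [psi_eq]; exact mul_nonneg (c.phi_nonneg _ _ hl) (mul_nonneg hG hlam)
    split_ifs with he
    swap
    · rw [mean_const c.N_pos]; exact h0
    simp only [wt]
    rw [mean_const_mul]
    by_cases hq : ∃ q, (l.map fun t => c.p t.2).count q = 1
    · obtain ⟨q, hq⟩ := hq
      rw [c.lone _ l hl hq ((c.dep_phi _ l).mono (Dvd.intro _ rfl)), mul_zero]
      exact h0
    · push Not at hq
      have h2 := c.one_le_lam (i : ℕ) l hq
      have h3 := c.mean_acen_le l hl ∅ (i : ℕ) ∅ (Finset.empty_subset _)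
        (fun x => c.phi x (i : ℕ) l) (fun x => c.phi_nonneg _ _ hl)
        ((c.dep_phi _ l).mono (Dvd.intro _ rfl)) (by simp)
      have h4 : mean c.N (fun x => c.phi x (i : ℕ) l * c.cen x (i : ℕ) l) ≤
          mean c.N (fun x => c.phi x (i : ℕ) l * c.acen x (i : ℕ) l) :=
        mean_mono _ fun x => mul_le_mul_of_nonneg_left
          ((le_abs_self _).trans (c.abs_cen_le _ _ _)) (c.phi_nonneg _ _ hl)
      have h5 : 0 ≤ mean c.N (fun x => c.phi x (i : ℕ) l) :=
        mean_nonneg _ fun x => c.phi_nonneg _ _ hl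
      have h6 := c.inw_mem (i : ℕ) l
      simp only [psi_eq]
      rw [mean_mul_const]
      have h7 := mul_nonneg h5 hG
      have h8 := mul_le_mul_of_nonneg_left (h4.trans h3) h6.1
      have h9 := mul_le_mul_of_nonneg_right h6.2 h7
      have h10 := mul_le_mul_of_nonneg_left h2 h7
      nlinarith
  refine h1.trans ?_
  rw [← mean_sumL]
  refine (mean_mono _ fun x => c.pot x (2 * c.r) ∅ (i : ℕ) (by simp) (by simp)).trans ?_
  rw [mean_const c.N_pos]
  simp [TT, J]

end CD

end Pool.Agent.Work.MP_ca0f09_nt
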