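import Mathlib

/-! The trace method: a bilinear form of a reversible kernel is bounded through a trace. -/

set_option autoImplicit false
open Finset Matrix

namespace Pool.Agent.Work.MP_ca0f09_nt

section
variable {V : Type*} [Fintype V] [DecidableEq V]

omit [DecidableEq V] in
lemma wcs (ρ : V → ℝ) (hρ : ∀ i, 0 < ρ i) (f g : V → ℝ) :
    (∑ i, ρ i * f i * g i) ^ 2 ≤ (∑ i, ρ i * f i ^ 2) * (∑ i, ρ i * g i ^ 2) := by
  refine Finset.sum_sq_le_sum_mul_sum_of_sq_le_mul _ (fun i _ => ?_) (fun i _ => ?_)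
    (fun i _ => ?_)
  · exact mul_nonneg (hρ i).le (sq_nonneg _)
  · exact mul_nonneg (hρ i).le (sq_nonneg _)
  · exact le_of_eq (by ring)

lemma pow_rev (T : Matrix V V ℝ) (ρ : V → ℝ) (hs : ∀ i j, ρ i * T i j = ρ j * T j i)
    (r : ℕ) (i j : V) : ρ i * (T ^ r) i j = ρ j * (T ^ r) j i := by
  have h1 : SemiconjBy (Matrix.diagonal ρ) T Tᵀ := by
    unfold SemiconjBy
    ext i j
    rw [Matrix.diagonal_mul, Matrix.mul_diagonal, Matrix.transpose_apply, hs, mul_comm]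
  have h2 := h1.pow_right r
  unfold SemiconjBy at h2
  have h3 := congrFun (congrFun h2 i) j
  rw [Matrix.diagonal_mul, Matrix.mul_diagonal, ← Matrix.transpose_pow,
    Matrix.transpose_apply] at h3
  rw [h3, mul_comm]

omit [DecidableEq V] in
lemma adj (T : Matrix V V ℝ) (ρ : V → ℝ) (hs : ∀ i j, ρ i * T i j = ρ j * T j i)
    (f g : V → ℝ) : ∑ i, ρ i * f i * (T *ᵥ g) i = ∑ i, ρ i * (T *ᵥ f) i * g i := by
  simp only [Matrix.mulVec, dotProduct, Finset.mul_sum, Finset.sum_mul]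
  rw [Finset.sum_comm]
  refine Finset.sum_congr rfl fun i _ => Finset.sum_congr rfl fun j _ => ?_
  have := hs i j
  calc ρ j * f j * (T j i * g i) = (ρ j * T j i) * f j * g i := by ring
    _ = (ρ i * T i j) * f j * g i := by rw [this]
    _ = _ := by ring

lemma logconv (s : ℕ → ℝ) (h0 : ∀ k, 0 ≤ s k) (h : ∀ k, s (k + 1) ^ 2 ≤ s k * s (k + 2))
    (k : ℕ) : s 1 ^ (k + 1) ≤ s 0 ^ k * s (k + 1) := by
  have h1 : ∀ k, s 1 * s k ≤ s 0 * s (k + 1) := by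
    intro k
    induction k with
    | zero => simp [mul_comm]
    | succ k ih =>
      rcases (h0 (k + 1)).eq_or_lt with hz | hpos
      · rw [← hz, mul_zero]; exact mul_nonneg (h0 _) (h0 _)
      · have h2 := h k
        have h3 : s 1 * s (k + 1) * s (k + 1) ≤ s 0 * s (k + 2) * s (k + 1) := by
          calc s 1 * s (k + 1) * s (k + 1) = s 1 * s (k + 1) ^ 2 := by ring
            _ ≤ s 1 * (s k * s (k + 2)) := mul_le_mul_of_nonneg_left h2 (h0 _)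
            _ = (s 1 * s k) * s (k + 2) := by ring
            _ ≤ (s 0 * s (k + 1)) * s (k + 2) := mul_le_mul_of_nonneg_right ih (h0 _)
            _ = _ := by ring
        exact le_of_mul_le_mul_right h3 hpos
  induction k with
  | zero => simp
  | succ k ih =>
    calc s 1 ^ (k + 1 + 1) = s 1 ^ (k + 1) * s 1 := by ring
      _ ≤ s 0 ^ k * s (k + 1) * s 1 := mul_le_mul_of_nonneg_right ih (h0 _)
      _ = s 0 ^ k * (s 1 * s (k + 1)) := by ring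
      _ ≤ s 0 ^ k * (s 0 * s (k + 1 + 1)) :=
        mul_le_mul_of_nonneg_left (h1 _) (pow_nonneg (h0 _) _)
      _ = _ := by ring

lemma trace_eq (T : Matrix V V ℝ) (ρ : V → ℝ) (hρ : ∀ i, 0 < ρ i)
    (hs : ∀ i j, ρ i * T i j = ρ j * T j i) (r : ℕ) :
    ∑ i, (T ^ (2 * r)) i i = ∑ i, ∑ j, ρ i * (T ^ r) i j ^ 2 / ρ j := by
  refine Finset.sum_congr rfl fun i _ => ?_
  rw [two_mul, pow_add, Matrix.mul_apply]
  refine Finset.sum_congr rfl fun j _ => ?_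
  have h1 := pow_rev T ρ hs r i j
  have h2 := (hρ j).ne'
  rw [eq_div_iff h2]
  linear_combination (-((T ^ r) i j)) * h1

lemma trace_nonneg (T : Matrix V V ℝ) (ρ : V → ℝ) (hρ : ∀ i, 0 < ρ i)
    (hs : ∀ i j, ρ i * T i j = ρ j * T j i) (r : ℕ) : 0 ≤ ∑ i, (T ^ (2 * r)) i i := by
  rw [trace_eq T ρ hρ hs]
  exact Finset.sum_nonneg fun i _ => Finset.sum_nonneg fun j _ =>
    div_nonneg (mul_nonneg (hρ i).le (sq_nonneg _)) (hρ j).le

theorem bilin_pow_le (T : Matrix V V ℝ) (ρ : V → ℝ) (hρ : ∀ i, 0 < ρ i)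
    (hs : ∀ i j, ρ i * T i j = ρ j * T j i) (a b : V → ℝ) (r : ℕ) (hr : 1 ≤ r) :
    (∑ i, ρ i * a i * (T *ᵥ b) i) ^ (2 * r) ≤
      (∑ i, (T ^ (2 * r)) i i) * ((∑ i, ρ i * a i ^ 2) ^ r * (∑ i, ρ i * b i ^ 2) ^ r) := by
  set s : ℕ → ℝ := fun k => ∑ i, ρ i * ((T ^ k) *ᵥ b) i ^ 2 with hsdef
  have h0 : ∀ k, 0 ≤ s k := fun k =>
    Finset.sum_nonneg fun i _ => mul_nonneg (hρ i).le (sq_nonneg _)
  have hconv : ∀ k, s (k + 1) ^ 2 ≤ s k * s (k + 2) := by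
    intro k
    have e1 : s (k + 1) = ∑ i, ρ i * ((T ^ k) *ᵥ b) i * ((T ^ (k + 2)) *ᵥ b) i := by
      have : (T ^ (k + 2)) *ᵥ b = T *ᵥ ((T ^ (k + 1)) *ᵥ b) := by
        rw [Matrix.mulVec_mulVec, ← pow_succ']
      rw [this, adj T ρ hs, Matrix.mulVec_mulVec, ← pow_succ']
      exact Finset.sum_congr rfl fun i _ => by ring
    rw [e1]
    exact wcs ρ hρ _ _
  obtain ⟨k, rfl⟩ : ∃ k, r = k + 1 := ⟨r - 1, by omega⟩
  have h1 := logconv s h0 hconv k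
  have hs0 : s 0 = ∑ i, ρ i * b i ^ 2 := by simp [hsdef]
  have hs1 : s 1 = ∑ i, ρ i * (T *ᵥ b) i ^ 2 := by simp [hsdef]
  have h2 : s (k + 1) ≤ (∑ i, (T ^ (2 * (k + 1))) i i) * s 0 := by
    rw [trace_eq T ρ hρ hs, Finset.sum_mul]
    refine Finset.sum_le_sum fun i _ => ?_
    have h3 := wcs ρ hρ (fun j => (T ^ (k + 1)) i j / ρ j) b
    have e2 : ∑ j, ρ j * ((T ^ (k + 1)) i j / ρ j) * b j = ((T ^ (k + 1)) *ᵥ b) i := by
      simp only [Matrix.mulVec, dotProduct]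
      refine Finset.sum_congr rfl fun j _ => ?_
      have := (hρ j).ne'
      field_simp
    have e3 : ∑ j, ρ i * (T ^ (k + 1)) i j ^ 2 / ρ j =
        ρ i * ∑ j, ρ j * ((T ^ (k + 1)) i j / ρ j) ^ 2 := by
      rw [Finset.mul_sum]
      refine Finset.sum_congr rfl fun j _ => ?_
      have := (hρ j).ne'
      field_simp
    rw [e2, ← hs0] at h3
    rw [e3, mul_assoc]
    exact mul_le_mul_of_nonneg_left h3 (hρ i).le
  have h4 := wcs ρ hρ a (T *ᵥ b)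
  rw [← hs1] at h4
  have ha : 0 ≤ ∑ i, ρ i * a i ^ 2 :=
    Finset.sum_nonneg fun i _ => mul_nonneg (hρ i).le (sq_nonneg _)
  rw [pow_mul, ← hs0]
  calc ((∑ i, ρ i * a i * (T *ᵥ b) i) ^ 2) ^ (k + 1)
      ≤ ((∑ i, ρ i * a i ^ 2) * s 1) ^ (k + 1) := pow_le_pow_left₀ (sq_nonneg _) h4 _
    _ = (∑ i, ρ i * a i ^ 2) ^ (k + 1) * s 1 ^ (k + 1) := mul_pow _ _ _
    _ ≤ (∑ i, ρ i * a i ^ 2) ^ (k + 1) *
          (s 0 ^ k * ((∑ i, (T ^ (2 * (k + 1))) i i) * s 0)) :=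
        mul_le_mul_of_nonneg_left (h1.trans
          (mul_le_mul_of_nonneg_left h2 (pow_nonneg (h0 _) _))) (pow_nonneg ha _)
    _ = _ := by ring

end

lemma abs_le_of_pow_le {F t Y Λ : ℝ} {r : ℕ} (hr : 1 ≤ r) (ht : 0 ≤ t) (hY : 0 ≤ Y) (hΛ : 0 < Λ)
    (h : F ^ (2 * r) ≤ t * Y ^ (2 * r)) : |F| ≤ Λ * Y + Y * (Λ * (t / Λ ^ (2 * r))) := by
  have h2 : 0 ≤ Y * (Λ * (t / Λ ^ (2 * r))) := by positivity
  by_cases h1 : |F| ≤ Λ * Y
  · linarith
  push Not at h1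
  have h3 : |F| ^ (2 * r) ≤ t * Y ^ (2 * r) := by
    rwa [← abs_pow, abs_of_nonneg (by rw [pow_mul]; positivity)]
  rcases hY.eq_or_lt with hz | hpos
  · rw [← hz] at h3 h1
    have : 0 < |F| ^ (2 * r) := pow_pos (by simpa using h1) _
    rw [zero_pow (by omega), mul_zero] at h3
    linarith
  · obtain ⟨k, hk⟩ : ∃ k, 2 * r = k + 1 := ⟨2 * r - 1, by omega⟩
    rw [hk] at h3 ⊢
    have h4 : (Λ * Y) ^ k ≤ |F| ^ k := pow_le_pow_left₀ (by positivity) h1.le _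
    have h5 : |F| * (Λ * Y) ^ k ≤ t * Y ^ (k + 1) := by
      calc |F| * (Λ * Y) ^ k ≤ |F| * |F| ^ k := mul_le_mul_of_nonneg_left h4 (abs_nonneg _)
        _ = |F| ^ (k + 1) := by ring
        _ ≤ _ := h3
    have h6 : |F| ≤ Y * (Λ * (t / Λ ^ (k + 1))) := by
      have hp : 0 < (Λ * Y) ^ k := by positivity
      rw [← le_div_iff₀ hp] at h5
      refine h5.trans (le_of_eq ?_)
      field_simp
      ring
    have : 0 ≤ Λ * Y := by positivity
    linarith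

end Pool.Agent.Work.MP_ca0f09_nt
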