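import Pool.Agent.Work.MP_ca0f09_nt.CMean

/-! Walk expansion of the centred kernel and elimination of the special primes. -/

set_option autoImplicit false
open Filter Topology Finset

namespace Pool.Agent.Work.MP_ca0f09_nt

/-- Sum over all lists of given length with entries in `s`. -/
noncomputable def sumL {α : Type} (s : Finset α) : ℕ → (List α → ℝ) → ℝ
  | 0, F => F []
  | r + 1, F => ∑ t ∈ s, sumL s r (fun l => F (t :: l))

lemma sumL_mono {α : Type} (s : Finset α) (r : ℕ) {F G : List α → ℝ}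
    (h : ∀ l : List α, l.length = r → (∀ t ∈ l, t ∈ s) → F l ≤ G l) :
    sumL s r F ≤ sumL s r G := by
  induction r generalizing F G with
  | zero => exact h [] rfl (by simp)
  | succ r ih =>
    refine Finset.sum_le_sum fun t ht => ih fun l hl hs => h _ (by simp [hl]) ?_
    intro t' ht'
    rcases List.mem_cons.1 ht' with rfl | h'
    · exact ht
    · exact hs _ h'

lemma sumL_const_mul {α : Type} (s : Finset α) (r : ℕ) (c : ℝ) (F : List α → ℝ) :
    sumL s r (fun l => c * F l) = c * sumL s r F := by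
  induction r generalizing F with
  | zero => rfl
  | succ r ih => simp only [sumL, ih, Finset.mul_sum]

lemma sumL_zero {α : Type} (s : Finset α) (r : ℕ) : sumL s r (fun _ => 0) = 0 := by
  have := sumL_const_mul s r 0 (fun _ => 0)
  simpa using this

lemma mean_sumL {α : Type} (s : Finset α) (N r : ℕ) (F : ℤ → List α → ℝ) :
    mean N (fun x => sumL s r (F x)) = sumL s r (fun l => mean N (fun x => F x l)) := by
  induction r generalizing F with
  | zero => rfl
  | succ r ih =>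
    simp only [sumL]
    rw [mean_sum]
    exact Finset.sum_congr rfl fun t _ => ih _

/-- Data for the centred term. -/
structure CD (ι : Type) where
  h : ℕ
  D : ℕ
  Q : ℕ
  r : ℕ
  P : Finset ℕ
  Ed : Finset ι
  p : ι → ℕ
  e : ι → ℕ
  w : ι → ℝ
  u : ℤ → ι → ℝ
  ρ : ℤ → ℝ
  L : ℝ
  K : ℝ
  γ : ℝ
  B : ℝ
  hh : 1 ≤ h
  hD : 1 ≤ D
  hQ : 0 < Q
  hP : ∀ q ∈ P, q.Prime ∧ h < q ∧ 2 * r ≤ q ∧ q.Coprime Q
  hEd : ∀ τ ∈ Ed, p τ ∈ P ∧ D ≤ p τ * e τ ∧ p τ * e τ ≤ 2 * D ∧ 0 ≤ w τ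
  hu : ∀ n τ, 0 ≤ u n τ ∧ u n τ ≤ 1
  huQ : ∀ τ, Dep Q (fun n => u n τ)
  hρ : ∀ n, 0 < ρ n
  hρQ : Dep Q ρ
  hL : ∑ q ∈ P, (1 / (q : ℝ)) ≤ L
  hL1 : 1 ≤ L
  hK : 0 < K
  hγ0 : 0 ≤ γ
  hB0 : 0 ≤ B
  K1 : ∀ n, ∀ q ∈ P, ∑ τ ∈ Ed.filter (fun τ => p τ = q), w τ * u n τ ≤ K * ρ n
  K2 : ∀ n, ∀ q ∈ P, ∀ q' ∈ P, ∀ b : ℕ,
    ∑ τ ∈ Ed.filter (fun τ => p τ = q ∧ e τ ≡ b [MOD q']), w τ * u n τ ≤ γ * ρ n
  hB : ∀ n, ∀ τ ∈ Ed, u n τ ≠ 0 → ρ n ≤ B
  hr : 1 ≤ r
  hγ : 2 * r * γ ≤ K
  hBig : (2 * h + 1) * D * B ≤ 4 ^ r * mean Q ρ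

namespace CD
variable {ι : Type} (c : CD ι)

/-- signed edges -/
def St : Finset (Bool × ι) := Finset.univ ×ˢ c.Ed
/-- length of an edge -/
def lag (τ : ι) : ℕ := c.h * (c.p τ * c.e τ)
/-- displacement of a step -/
def disp (t : Bool × ι) : ℤ := if t.1 then (c.lag t.2 : ℤ) else -(c.lag t.2 : ℤ)
/-- window length -/
def R : ℕ := (2 * c.h + 1) * c.D
/-- full period -/
def N : ℕ := c.Q * ∏ q ∈ c.P, q

noncomputable def phi1 (x i : ℤ) (t : Bool × ι) : ℝ :=
  c.w t.2 * c.u (x + i) t.2 * c.u (x + (i + c.disp t)) t.2 / c.ρ (x + i)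

noncomputable def cw (x i : ℤ) (t : Bool × ι) : ℝ :=
  c.phi1 x i t * (ind (c.p t.2) (x + i) - 1 / c.p t.2)

noncomputable def Tm (x : ℤ) : Matrix (Fin c.R) (Fin c.R) ℝ :=
  fun i j => ∑ t ∈ c.St, if ((j : ℕ) : ℤ) = (i : ℕ) + c.disp t then c.cw x (i : ℕ) t else 0

def endp : ℤ → List (Bool × ι) → ℤ
  | i, [] => i
  | i, t :: l => endp (i + c.disp t) l

noncomputable def inw : ℤ → List (Bool × ι) → ℝ
  | _, [] => 1
  | i, t :: l => if 0 ≤ i + c.disp t ∧ i + c.disp t < c.R then inw (i + c.disp t) l else 0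

noncomputable def phi (x : ℤ) : ℤ → List (Bool × ι) → ℝ
  | _, [] => 1
  | i, t :: l => c.phi1 x i t * phi x (i + c.disp t) l

noncomputable def cen (x : ℤ) : ℤ → List (Bool × ι) → ℝ
  | _, [] => 1
  | i, t :: l => (ind (c.p t.2) (x + i) - 1 / c.p t.2) * cen x (i + c.disp t) l

noncomputable def acen (x : ℤ) : ℤ → List (Bool × ι) → ℝ
  | _, [] => 1
  | i, t :: l => (ind (c.p t.2) (x + i) + 1 / c.p t.2) * acen x (i + c.disp t) l

noncomputable def wt (x i : ℤ) (l : List (Bool × ι)) : ℝ :=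
  c.inw i l * (c.phi x i l * c.cen x i l)

lemma mem_St {t : Bool × ι} : t ∈ c.St ↔ t.2 ∈ c.Ed := by simp [St]

lemma N_pos : 0 < c.N :=
  Nat.mul_pos c.hQ (Finset.prod_pos fun q hq => (c.hP q hq).1.pos)

lemma Q_dvd_N : c.Q ∣ c.N := Dvd.intro _ rfl

lemma sub_dvd_N {Z : Finset ℕ} (hZ : Z ⊆ c.P) : c.Q * ∏ q ∈ Z, q ∣ c.N :=
  Nat.mul_dvd_mul_left _ (Finset.prod_dvd_prod_of_subset _ _ _ hZ)

lemma p_dvd_N {q : ℕ} (hq : q ∈ c.P) : q ∣ c.N :=
  Dvd.dvd.mul_left (Finset.dvd_prod_of_mem _ hq) _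

lemma coprime_sub {Z : Finset ℕ} (hZ : Z ⊆ c.P) {q : ℕ} (hq : q ∈ c.P) (hqZ : q ∉ Z) :
    Nat.Coprime q (c.Q * ∏ q ∈ Z, q) := by
  refine Nat.Coprime.mul_right (c.hP q hq).2.2.2 (Nat.Coprime.prod_right fun q' hq' => ?_)
  exact (Nat.coprime_primes (c.hP q hq).1 (c.hP q' (hZ hq')).1).2 fun h => hqZ (h ▸ hq')

lemma p_dvd_disp (t : Bool × ι) : (c.p t.2 : ℤ) ∣ c.disp t := by
  have : (c.p t.2 : ℤ) ∣ (c.lag t.2 : ℤ) := by
    unfold lag; push_cast; exact Dvd.dvd.mul_left (Dvd.intro _ rfl) _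
  unfold disp; split_ifs
  · exact this
  · exact this.neg_right

lemma sum_fin_ite (k : ℤ) (F : ℤ → ℝ) :
    ∑ j : Fin c.R, (if ((j : ℕ) : ℤ) = k then F (j : ℕ) else 0) =
      if 0 ≤ k ∧ k < c.R then F k else 0 := by
  split_ifs with hk
  · have h1 : k.toNat < c.R := by omega
    rw [Finset.sum_eq_single (⟨k.toNat, h1⟩ : Fin c.R)]
    · have : ((k.toNat : ℕ) : ℤ) = k := by omega
      simp [this]
    · intro j _ hj
      rw [if_neg]
      intro h
      apply hj
      ext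
      simp only
      omega
    · simp
  · refine Finset.sum_eq_zero fun j _ => if_neg fun h => hk ?_
    have := j.2
    omega

lemma pow_eq (x : ℤ) (k : ℕ) (i j : Fin c.R) :
    (c.Tm x ^ k) i j = sumL c.St k
      (fun l => if c.endp (i : ℕ) l = (j : ℕ) then c.wt x (i : ℕ) l else 0) := by
  induction k generalizing i with
  | zero =>
    simp only [pow_zero, sumL, endp, wt, inw, phi, cen, Matrix.one_apply, Nat.cast_inj, mul_one]
    exact if_congr Fin.ext_iff rfl rfl
  | succ k ih =>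
    rw [pow_succ', Matrix.mul_apply]
    simp only [ih, sumL, Tm, Finset.sum_mul]
    rw [Finset.sum_comm]
    refine Finset.sum_congr rfl fun t _ => ?_
    have h1 := c.sum_fin_ite ((i : ℕ) + c.disp t) (fun z => c.cw x (i : ℕ) t *
      sumL c.St k (fun l => if c.endp z l = (j : ℕ) then c.wt x z l else 0))
    simp only [ite_mul, zero_mul]
    rw [h1]
    split_ifs with hw
    · rw [← sumL_const_mul]
      congr 1; ext l
      simp only [endp, wt, inw, phi, cen, cw, if_pos hw]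
      split_ifs <;> ring
    · refine (sumL_zero c.St k).symm.trans ?_
      congr 1; ext l
      simp only [endp, wt, inw, if_neg hw]
      simp

lemma Tm_rev (x : ℤ) (i j : Fin c.R) :
    c.ρ (x + (i : ℕ)) * c.Tm x i j = c.ρ (x + (j : ℕ)) * c.Tm x j i := by
  simp only [Tm, Finset.mul_sum]
  refine Finset.sum_bij' (fun t _ => (!t.1, t.2)) (fun t _ => (!t.1, t.2)) ?_ ?_ ?_ ?_ ?_
  · intro t ht; exact c.mem_St.2 ((c.mem_St (t := t)).1 ht)
  · intro t ht; exact c.mem_St.2 ((c.mem_St (t := t)).1 ht)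
  · intro t _; simp
  · intro t _; simp
  · intro t _
    have hd : c.disp (!t.1, t.2) = -c.disp t := by
      unfold disp; cases t.1 <;> simp
    rw [hd]
    by_cases h : ((j : ℕ) : ℤ) = (i : ℕ) + c.disp t
    · have h' : ((i : ℕ) : ℤ) = (j : ℕ) + -c.disp t := by omega
      rw [if_pos h, if_pos h']
      simp only [cw, phi1, hd]
      rw [← h, ← h']
      have e1 : ind (c.p t.2) (x + (j : ℕ)) = ind (c.p t.2) (x + (i : ℕ)) := by
        apply ind_congr
        have := c.p_dvd_disp t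
        rw [h]; simpa using this
      rw [e1]
      have h1 := (c.hρ (x + (i : ℕ))).ne'
      have h2 := (c.hρ (x + (j : ℕ))).ne'
      field_simp
    · have h' : ¬ ((i : ℕ) : ℤ) = (j : ℕ) + -c.disp t := by omega
      rw [if_neg h, if_neg h']; simp

lemma dep_phi1 (i : ℤ) (t : Bool × ι) : Dep c.Q (fun x => c.phi1 x i t) :=
  (((Dep.const _ _).mul ((c.huQ t.2).shift i)).mul ((c.huQ t.2).shift _)).div (c.hρQ.shift i)

lemma dep_phi (i : ℤ) (l : List (Bool × ι)) : Dep c.Q (fun x => c.phi x i l) := by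
  induction l generalizing i with
  | nil => exact Dep.const _ _
  | cons t l ih => exact (c.dep_phi1 i t).mul (ih _)

lemma Tm_dep {x y : ℤ} (h : (c.N : ℤ) ∣ x - y) : c.Tm x = c.Tm y := by
  ext i j
  refine Finset.sum_congr rfl fun t ht => ?_
  have h1 : Dep c.N (fun x => c.cw x (i : ℕ) t) :=
    ((c.dep_phi1 _ t).mono c.Q_dvd_N).mul
      ((dep_ind (c.p_dvd_N (c.hEd _ (c.mem_St.1 ht)).1) _).sub (Dep.const _ _))
  have h2 : c.cw x (i : ℕ) t = c.cw y (i : ℕ) t := h1 x y h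
  rw [h2]

lemma phi1_nonneg (x i : ℤ) {t : Bool × ι} (ht : t ∈ c.St) : 0 ≤ c.phi1 x i t :=
  div_nonneg (mul_nonneg (mul_nonneg (c.hEd _ (c.mem_St.1 ht)).2.2.2 (c.hu _ _).1) (c.hu _ _).1)
    (c.hρ _).le

lemma phi_nonneg (x i : ℤ) {l : List (Bool × ι)} (hl : ∀ t ∈ l, t ∈ c.St) :
    0 ≤ c.phi x i l := by
  induction l generalizing i with
  | nil => exact zero_le_one
  | cons t l ih =>
    exact mul_nonneg (c.phi1_nonneg x i (hl t (by simp)))
      (ih _ fun t' ht' => hl t' (by simp [ht']))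

lemma inw_mem (i : ℤ) (l : List (Bool × ι)) : 0 ≤ c.inw i l ∧ c.inw i l ≤ 1 := by
  induction l generalizing i with
  | nil => simp [inw]
  | cons t l ih =>
    simp only [inw]
    split_ifs
    · exact ih _
    · simp

lemma acen_nonneg (x i : ℤ) (l : List (Bool × ι)) : 0 ≤ c.acen x i l := by
  induction l generalizing i with
  | nil => exact zero_le_one
  | cons t l ih => exact mul_nonneg (add_nonneg (ind_nonneg _ _) (by positivity)) (ih _)

lemma abs_cen_le (x i : ℤ) (l : List (Bool × ι)) : |c.cen x i l| ≤ c.acen x i l := by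
  induction l generalizing i with
  | nil => simp [cen, acen]
  | cons t l ih =>
    simp only [cen, acen, abs_mul]
    refine mul_le_mul ?_ (ih _) (abs_nonneg _) (add_nonneg (ind_nonneg _ _) (by positivity))
    have h1 := ind_nonneg (c.p t.2) (x + i)
    have h2 : (0 : ℝ) ≤ 1 / c.p t.2 := by positivity
    rw [abs_le]; constructor <;> linarith

lemma dep_cen {q : ℕ} (i : ℤ) (l : List (Bool × ι)) (hl : ∀ t ∈ l, t ∈ c.St)
    (hq : ∀ t ∈ l, c.p t.2 ≠ q) :
    Dep (c.Q * ∏ q' ∈ c.P.erase q, q') (fun x => c.cen x i l) := by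
  induction l generalizing i with
  | nil => exact Dep.const _ _
  | cons t l ih =>
    refine Dep.mul ((dep_ind ?_ _).sub (Dep.const _ _))
      (ih _ (fun t' ht' => hl t' (by simp [ht'])) (fun t' ht' => hq t' (by simp [ht'])))
    exact Dvd.dvd.mul_left (Finset.dvd_prod_of_mem _ (Finset.mem_erase.2
      ⟨hq t (by simp), (c.hEd _ (c.mem_St.1 (hl t (by simp)))).1⟩)) _

/-- A special prime that occurs exactly once kills the mean. -/
lemma lone {q : ℕ} (i : ℤ) (l : List (Bool × ι)) (hl : ∀ t ∈ l, t ∈ c.St)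
    (hq : (l.map fun t => c.p t.2).count q = 1) {Φ : ℤ → ℝ}
    (hΦ : Dep (c.Q * ∏ q' ∈ c.P.erase q, q') Φ) :
    mean c.N (fun x => Φ x * c.cen x i l) = 0 := by
  induction l generalizing i Φ with
  | nil => simp at hq
  | cons t l ih =>
    have hl' : ∀ t ∈ l, t ∈ c.St := fun t' ht' => hl t' (by simp [ht'])
    have htP := (c.hEd _ (c.mem_St.1 (hl t (by simp)))).1
    by_cases h : c.p t.2 = q
    · have h0 : (l.map fun t => c.p t.2).count q = 0 := by
        simp only [List.map_cons, h, List.count_cons_self] at hq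
        omega
      have h1 : ∀ t ∈ l, c.p t.2 ≠ q := by
        intro t' ht' he
        exact List.count_eq_zero.1 h0 (List.mem_map.2 ⟨t', ht', he⟩)
      have h2 := hΦ.mul (c.dep_cen (i + c.disp t) l hl' h1)
      have hqP : q ∈ c.P := h ▸ htP
      have h3 := mean_mul_ind (c.hP q hqP).1.pos
        (c.coprime_sub (Finset.erase_subset q c.P) hqP (Finset.notMem_erase q c.P))
        (c.p_dvd_N hqP) (c.sub_dvd_N (Finset.erase_subset q c.P)) h2 i
      have h4 : (fun x => Φ x * c.cen x i (t :: l)) = fun x =>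
          Φ x * c.cen x (i + c.disp t) l * ind q (x + i) -
            Φ x * c.cen x (i + c.disp t) l * (1 / q) := by
        ext x; simp only [cen, h]; ring
      rw [h4, mean_sub, h3, mean_mul_const]; ring
    · have h0 : (l.map fun t => c.p t.2).count q = 1 := by
        rwa [List.map_cons, List.count_cons_of_ne h] at hq
      have h2 : Dep (c.Q * ∏ q' ∈ c.P.erase q, q')
          (fun x => Φ x * (ind (c.p t.2) (x + i) - 1 / c.p t.2)) := by
        refine hΦ.mul ((dep_ind ?_ _).sub (Dep.const _ _))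
        exact Dvd.dvd.mul_left (Finset.dvd_prod_of_mem _ (Finset.mem_erase.2 ⟨h, htP⟩)) _
      rw [← ih (i + c.disp t) hl' h0 h2]
      congr 1; ext x; simp only [cen]; ring

end CD

/-- An earlier step used the prime `q` at a congruent position. -/
noncomputable def J (hist : Finset (ℕ × ℤ)) (i : ℤ) (q : ℕ) : ℝ :=
  if ∃ a ∈ hist, a.1 = q ∧ (q : ℤ) ∣ a.2 - i then 1 else 0

lemma J_nonneg (hist : Finset (ℕ × ℤ)) (i : ℤ) (q : ℕ) : 0 ≤ J hist i q := by
  unfold J; split_ifs <;> norm_num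

lemma J_le_one (hist : Finset (ℕ × ℤ)) (i : ℤ) (q : ℕ) : J hist i q ≤ 1 := by
  unfold J; split_ifs <;> norm_num

namespace CD
variable {ι : Type} (c : CD ι)

noncomputable def G : Finset (ℕ × ℤ) → ℤ → List (Bool × ι) → ℝ
  | _, _, [] => 1
  | hist, i, t :: l =>
    (2 / c.p t.2 + J hist i (c.p t.2)) * G (insert (c.p t.2, i) hist) (i + c.disp t) l

lemma G_nonneg (hist : Finset (ℕ × ℤ)) (i : ℤ) (l : List (Bool × ι)) : 0 ≤ c.G hist i l := by
  induction l generalizing hist i with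
  | nil => exact zero_le_one
  | cons t l ih => exact mul_nonneg (add_nonneg (by positivity) (J_nonneg _ _ _)) (ih _ _)

/-- Elimination of the special primes. -/
lemma mean_acen_le (l : List (Bool × ι)) (hl : ∀ t ∈ l, t ∈ c.St) (hist : Finset (ℕ × ℤ))
    (i : ℤ) (Z : Finset ℕ) (hZ : Z ⊆ c.P) (Φ : ℤ → ℝ) (h0 : ∀ x, 0 ≤ Φ x)
    (hΦ : Dep (c.Q * ∏ q ∈ Z, q) Φ)
    (hh : ∀ x, Φ x ≠ 0 → ∀ q ∈ Z, ∃ a ∈ hist, a.1 = q ∧ (q : ℤ) ∣ x + a.2) :
    mean c.N (fun x => Φ x * c.acen x i l) ≤ mean c.N Φ * c.G hist i l := by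
  induction l generalizing hist i Z Φ with
  | nil => simp [acen, G]
  | cons t l ih =>
    have hl' : ∀ t ∈ l, t ∈ c.St := fun t' ht' => hl t' (by simp [ht'])
    have htP := (c.hEd _ (c.mem_St.1 (hl t (by simp)))).1
    have hm0 : 0 ≤ mean c.N Φ := mean_nonneg _ h0
    have hG0 := c.G_nonneg (insert (c.p t.2, i) hist) (i + c.disp t) l
    have ih1 := ih hl' (insert (c.p t.2, i) hist) (i + c.disp t) Z hZ Φ h0 hΦ (by
      intro x hx q hq
      obtain ⟨a, ha, h1⟩ := hh x hx q hq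
      exact ⟨a, Finset.mem_insert_of_mem ha, h1⟩)
    have hp0 : (0 : ℝ) ≤ 1 / c.p t.2 := by positivity
    have e2 : (2 : ℝ) / c.p t.2 = 1 / c.p t.2 + 1 / c.p t.2 := by ring
    by_cases hq : c.p t.2 ∈ Z
    · have h1 : ∀ x, Φ x * c.acen x i (t :: l) ≤
          (2 / c.p t.2 + J hist i (c.p t.2)) * (Φ x * c.acen x (i + c.disp t) l) := by
        intro x
        by_cases hx : Φ x = 0
        · simp [hx]
        have h2 : ind (c.p t.2) (x + i) ≤ J hist i (c.p t.2) := by
          unfold ind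
          split_ifs with hd
          · obtain ⟨a, ha, h1, h2⟩ := hh x hx _ hq
            unfold J
            rw [if_pos ⟨a, ha, h1, by simpa using dvd_sub h2 hd⟩]
          · exact J_nonneg _ _ _
        have h3 := mul_nonneg (h0 x) (c.acen_nonneg x (i + c.disp t) l)
        simp only [acen]
        nlinarith
      refine (mean_mono _ h1).trans ?_
      rw [mean_const_mul]
      simp only [G]
      have h4 : 0 ≤ 2 / (c.p t.2 : ℝ) + J hist i (c.p t.2) :=
        add_nonneg (by positivity) (J_nonneg _ _ _)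
      calc _ ≤ (2 / (c.p t.2 : ℝ) + J hist i (c.p t.2)) * (mean c.N Φ *
            c.G (insert (c.p t.2, i) hist) (i + c.disp t) l) :=
            mul_le_mul_of_nonneg_left ih1 h4
        _ = _ := by ring
    · have hZ' : insert (c.p t.2) Z ⊆ c.P := Finset.insert_subset htP hZ
      have ih2 := ih hl' (insert (c.p t.2, i) hist) (i + c.disp t) (insert (c.p t.2) Z) hZ'
        (fun x => Φ x * ind (c.p t.2) (x + i))
        (fun x => mul_nonneg (h0 x) (ind_nonneg _ _))
        ((hΦ.mono (Nat.mul_dvd_mul_left _ (Finset.prod_dvd_prod_of_subset _ _ _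
          (Finset.subset_insert _ _)))).mul (dep_ind (Dvd.dvd.mul_left
            (Finset.dvd_prod_of_mem _ (Finset.mem_insert_self _ _)) _) _))
        (by
          intro x hx q hq'
          rcases Finset.mem_insert.1 hq' with rfl | hq'
          · refine ⟨(c.p t.2, i), Finset.mem_insert_self _ _, rfl, ?_⟩
            by_contra hd
            apply hx
            simp only [ind]
            rw [if_neg hd, mul_zero]
          · obtain ⟨a, ha, h1⟩ := hh x (left_ne_zero_of_mul hx) q hq'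
            exact ⟨a, Finset.mem_insert_of_mem ha, h1⟩)
      rw [mean_mul_ind (c.hP _ htP).1.pos (c.coprime_sub hZ htP hq) (c.p_dvd_N htP)
        (c.sub_dvd_N hZ) hΦ i] at ih2
      have h4 : (fun x => Φ x * c.acen x i (t :: l)) = fun x =>
          Φ x * ind (c.p t.2) (x + i) * c.acen x (i + c.disp t) l +
            (1 / c.p t.2) * (Φ x * c.acen x (i + c.disp t) l) := by
        ext x; simp only [acen]; ring
      rw [h4, mean_add, mean_const_mul]
      simp only [G]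
      have h5 := mul_le_mul_of_nonneg_left ih1 hp0
      have h6 := mul_nonneg (J_nonneg hist i (c.p t.2)) (mul_nonneg hm0 hG0)
      rw [e2]
      have e3 : mean c.N Φ / (c.p t.2 : ℝ) = 1 / c.p t.2 * mean c.N Φ := by ring
      rw [e3] at ih2
      nlinarith

end CD

end Pool.Agent.Work.MP_ca0f09_nt
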