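import Pool.Agent.Work.MP_ca0f09_nt.CMoment
import Pool.Agent.Work.MP_ca0f09_nt.COp

/-! The bound for the centred term. -/

set_option autoImplicit false
open Filter Topology Finset Matrix

namespace Pool.Agent.Work.MP_ca0f09_nt

namespace CD
variable {ι : Type} (c : CD ι)

/-- The centred term at `n`. -/
noncomputable def tm (a b : ℤ → ℝ) (n : ℤ) : ℝ :=
  ∑ τ ∈ c.Ed, c.w τ * c.u n τ * c.u (n + c.lag τ) τ * (ind (c.p τ) n - 1 / c.p τ) *
    (a n * b (n + c.lag τ))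

lemma lag_bounds {τ : ι} (hτ : τ ∈ c.Ed) : c.h * c.D ≤ c.lag τ ∧ c.lag τ ≤ 2 * (c.h * c.D) := by
  obtain ⟨-, h1, h2, -⟩ := c.hEd τ hτ
  unfold lag
  constructor
  · exact Nat.mul_le_mul_left _ h1
  · calc c.h * (c.p τ * c.e τ) ≤ c.h * (2 * c.D) := Nat.mul_le_mul_left _ h2
      _ = _ := by ring

lemma R_eq : c.R = 2 * (c.h * c.D) + c.D := by unfold R; ring

lemma D_le : c.D ≤ c.h * c.D := Nat.le_mul_of_pos_left _ c.hh

lemma bilin_eq (a b : ℤ → ℝ) (x : ℤ) :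
    ∑ i : Fin c.R, c.ρ (x + (i : ℕ)) *
      (if (i : ℕ) < c.D ∧ c.ρ (x + (i : ℕ)) ≤ c.B then a (x + (i : ℕ)) else 0) *
      (c.Tm x *ᵥ fun j : Fin c.R => if ((c.h * c.D : ℕ) : ℤ) ≤ (j : ℕ) ∧
        c.ρ (x + (j : ℕ)) ≤ c.B then b (x + (j : ℕ)) else 0) i =
      ∑ i ∈ range c.D, c.tm a b (x + i) := by
  have hR := c.R_eq
  have hD := c.D_le
  have h1 : ∀ i : Fin c.R, c.ρ (x + (i : ℕ)) *
      (if (i : ℕ) < c.D ∧ c.ρ (x + (i : ℕ)) ≤ c.B then a (x + (i : ℕ)) else 0) *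
      (c.Tm x *ᵥ fun j : Fin c.R => if ((c.h * c.D : ℕ) : ℤ) ≤ (j : ℕ) ∧
        c.ρ (x + (j : ℕ)) ≤ c.B then b (x + (j : ℕ)) else 0) i =
      if (i : ℕ) < c.D then c.tm a b (x + (i : ℕ)) else 0 := by
    intro i
    by_cases hi : (i : ℕ) < c.D
    swap
    · simp [hi]
    rw [if_pos hi]
    simp only [Matrix.mulVec, dotProduct, Tm, Finset.sum_mul]
    rw [Finset.sum_comm, Finset.mul_sum]
    have h2 : ∀ t : Bool × ι, ∑ j : Fin c.R,
        (if ((j : ℕ) : ℤ) = (i : ℕ) + c.disp t then c.cw x (i : ℕ) t else 0) *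
          (if ((c.h * c.D : ℕ) : ℤ) ≤ (j : ℕ) ∧ c.ρ (x + (j : ℕ)) ≤ c.B
            then b (x + (j : ℕ)) else 0) =
        if 0 ≤ (i : ℕ) + c.disp t ∧ (i : ℕ) + c.disp t < c.R then c.cw x (i : ℕ) t *
          (if ((c.h * c.D : ℕ) : ℤ) ≤ (i : ℕ) + c.disp t ∧
            c.ρ (x + ((i : ℕ) + c.disp t)) ≤ c.B then b (x + ((i : ℕ) + c.disp t)) else 0)
          else 0 := by
      intro t
      rw [← c.sum_fin_ite ((i : ℕ) + c.disp t) (fun z => c.cw x (i : ℕ) t *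
        (if ((c.h * c.D : ℕ) : ℤ) ≤ z ∧ c.ρ (x + z) ≤ c.B then b (x + z) else 0))]
      simp only [ite_mul, zero_mul]
    simp only [h2]
    unfold St tm
    rw [Finset.sum_product, Fintype.sum_bool]
    have h3 : ∀ τ ∈ c.Ed, c.ρ (x + (i : ℕ)) *
        (if (i : ℕ) < c.D ∧ c.ρ (x + (i : ℕ)) ≤ c.B then a (x + (i : ℕ)) else 0) *
        (if 0 ≤ (i : ℕ) + c.disp (false, τ) ∧ (i : ℕ) + c.disp (false, τ) < c.R then
          c.cw x (i : ℕ) (false, τ) *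
          (if ((c.h * c.D : ℕ) : ℤ) ≤ (i : ℕ) + c.disp (false, τ) ∧
            c.ρ (x + ((i : ℕ) + c.disp (false, τ))) ≤ c.B
            then b (x + ((i : ℕ) + c.disp (false, τ))) else 0) else 0) = 0 := by
      intro τ _
      have h4 : ¬ (((c.h * c.D : ℕ) : ℤ) ≤ (i : ℕ) + c.disp (false, τ) ∧
            c.ρ (x + ((i : ℕ) + c.disp (false, τ))) ≤ c.B) := by
        rintro ⟨h5, -⟩
        simp only [disp, Bool.false_eq_true, if_false] at h5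
        omega
      rw [if_neg h4]; simp
    rw [Finset.sum_eq_zero h3, add_zero]
    refine Finset.sum_congr rfl fun τ hτ => ?_
    obtain ⟨h4, h5⟩ := c.lag_bounds hτ
    have hd : c.disp (true, τ) = c.lag τ := by simp [disp]
    have h6 : 0 ≤ ((i : ℕ) : ℤ) + c.lag τ ∧ ((i : ℕ) : ℤ) + c.lag τ < c.R := by omega
    have h7 : ((c.h * c.D : ℕ) : ℤ) ≤ (i : ℕ) + c.lag τ := by omega
    simp only [cw, phi1, hd, h6, h7, hi, and_self, true_and, if_true, ← add_assoc]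
    by_cases hu1 : c.u (x + (i : ℕ)) τ = 0
    · simp [hu1]
    by_cases hu2 : c.u (x + (i : ℕ) + c.lag τ) τ = 0
    · simp [hu2]
    rw [if_pos (c.hB _ τ hτ hu1), if_pos (c.hB _ τ hτ hu2)]
    have := (c.hρ (x + (i : ℕ))).ne'
    field_simp
  simp only [h1]
  rw [Fin.sum_univ_eq_sum_range (fun i => if i < c.D then c.tm a b (x + (i : ℕ)) else 0) c.R,
    ← Finset.sum_filter]
  congr 1
  ext i
  simp only [Finset.mem_filter, Finset.mem_range]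
  omega

/-- The window majorant. -/
noncomputable def maj (Λ : ℝ) (x : ℤ) : ℝ :=
  Λ * ∑ i : Fin c.R, c.ρ (x + (i : ℕ)) +
    c.R * c.B * (Λ * ((∑ i, (c.Tm x ^ (2 * c.r)) i i) / Λ ^ (2 * c.r)))

lemma window_le (a b : ℤ → ℝ) (ha : ∀ n, |a n| ≤ 1) (hb : ∀ n, |b n| ≤ 1) {Λ : ℝ} (hΛ : 0 < Λ)
    (x : ℤ) : |∑ i ∈ range c.D, c.tm a b (x + i)| ≤ c.maj Λ x := by
  rw [← c.bilin_eq]
  set Y := ∑ i : Fin c.R, (if c.ρ (x + (i : ℕ)) ≤ c.B then c.ρ (x + (i : ℕ)) else 0) with hY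
  have hρ : ∀ i : Fin c.R, 0 < c.ρ (x + (i : ℕ)) := fun i => c.hρ _
  have key : ∀ (A : Fin c.R → Prop) [DecidablePred A] (f : ℤ → ℝ), (∀ n, |f n| ≤ 1) →
      ∑ i : Fin c.R, c.ρ (x + (i : ℕ)) *
        (if A i ∧ c.ρ (x + (i : ℕ)) ≤ c.B then f (x + (i : ℕ)) else 0) ^ 2 ≤ Y := by
    intro A _ f hf
    refine Finset.sum_le_sum fun i _ => ?_
    by_cases h1 : c.ρ (x + (i : ℕ)) ≤ c.B
    · rw [if_pos h1]
      refine mul_le_of_le_one_right (hρ i).le ?_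
      split_ifs
      · exact (sq_le_one_iff_abs_le_one _).2 (hf _)
      · norm_num
    · simp [h1]
  have hY0 : 0 ≤ Y := Finset.sum_nonneg fun i _ => by
    split_ifs
    · exact (hρ i).le
    · exact le_rfl
  have hY1 : Y ≤ ∑ i : Fin c.R, c.ρ (x + (i : ℕ)) := Finset.sum_le_sum fun i _ => by
    split_ifs
    · exact le_rfl
    · exact (hρ i).le
  have hY2 : Y ≤ c.R * c.B := by
    refine (Finset.sum_le_card_nsmul _ _ c.B fun i _ => ?_).trans (by simp)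
    split_ifs with h
    · exact h
    · exact c.hB0
  have ht := trace_nonneg (c.Tm x) _ hρ (c.Tm_rev x) c.r
  have h1 := bilin_pow_le (c.Tm x) _ hρ (c.Tm_rev x)
    (fun i => if (i : ℕ) < c.D ∧ c.ρ (x + (i : ℕ)) ≤ c.B then a (x + (i : ℕ)) else 0)
    (fun j : Fin c.R => if ((c.h * c.D : ℕ) : ℤ) ≤ (j : ℕ) ∧
        c.ρ (x + (j : ℕ)) ≤ c.B then b (x + (j : ℕ)) else 0) c.r c.hr
  have h2 := key (fun i => (i : ℕ) < c.D) a ha
  have h3 := key (fun j => ((c.h * c.D : ℕ) : ℤ) ≤ (j : ℕ)) b hb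
  have h4 : ∀ f : Fin c.R → ℝ, 0 ≤ ∑ i : Fin c.R, c.ρ (x + (i : ℕ)) * f i ^ 2 := fun f =>
    Finset.sum_nonneg fun i _ => mul_nonneg (hρ i).le (sq_nonneg _)
  have h5 := mul_le_mul (pow_le_pow_left₀ (h4 _) h2 c.r) (pow_le_pow_left₀ (h4 _) h3 c.r)
    (pow_nonneg (h4 _) _) (pow_nonneg hY0 _)
  rw [← pow_add, ← two_mul] at h5
  refine (abs_le_of_pow_le c.hr ht hY0 hΛ
    (h1.trans (mul_le_mul_of_nonneg_left h5 ht))).trans ?_
  exact add_le_add (mul_le_mul_of_nonneg_left hY1 hΛ.le)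
    (mul_le_mul_of_nonneg_right hY2 (by positivity))

lemma dep_maj (Λ : ℝ) : Dep c.N (c.maj Λ) := by
  intro x y h
  unfold maj
  rw [c.Tm_dep h]
  congr 2
  exact Finset.sum_congr rfl fun i _ => ((c.hρQ.mono c.Q_dvd_N).shift _) x y h

lemma mean_maj_le : mean c.N (c.maj (48 * Real.sqrt c.L * c.K)) ≤
    2 * (48 * Real.sqrt c.L * c.K) * c.R * mean c.Q c.ρ := by
  have hs := c.one_le_sqrt
  have hK := c.hK
  have hB := c.hB0
  set Λ := 48 * Real.sqrt c.L * c.K with hΛ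
  have hΛ0 : 0 < Λ := by positivity
  have e1 : mean c.N c.ρ = mean c.Q c.ρ :=
    mean_mul_period _ (Finset.prod_pos fun q hq => (c.hP q hq).1.pos) c.hQ c.hρQ
  unfold maj
  rw [mean_add, mean_const_mul, mean_const_mul, mean_const_mul, mean_sum]
  simp only [mean_shift (c.hρQ.mono c.Q_dvd_N), e1, div_eq_mul_inv]
  rw [mean_mul_const, Finset.sum_const, Finset.card_univ, Fintype.card_fin, nsmul_eq_mul]
  have h1 := c.moment
  have h2 : Λ ^ (2 * c.r) = 4 ^ c.r * (24 * Real.sqrt c.L * c.K) ^ (2 * c.r) := by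
    rw [show (4 : ℝ) = 2 ^ 2 by norm_num, ← pow_mul, ← mul_pow, hΛ]; congr 1; ring
  have h3 : (mean c.N fun x => ∑ i, (c.Tm x ^ (2 * c.r)) i i) * (Λ ^ (2 * c.r))⁻¹ ≤
      c.R / 4 ^ c.r := by
    rw [← div_eq_mul_inv, div_le_div_iff₀ (by positivity) (by positivity), h2]
    have : (0 : ℝ) < 4 ^ c.r := by positivity
    nlinarith
  have h4 : (c.R : ℝ) * c.B / 4 ^ c.r ≤ mean c.Q c.ρ := by
    rw [div_le_iff₀ (by positivity)]
    have := c.hBig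
    unfold R; push_cast; linarith
  have h5 : (c.R : ℝ) * c.B * (Λ * ((mean c.N fun x => ∑ i, (c.Tm x ^ (2 * c.r)) i i) *
      (Λ ^ (2 * c.r))⁻¹)) ≤ c.R * c.B * (Λ * (c.R / 4 ^ c.r)) :=
    mul_le_mul_of_nonneg_left (mul_le_mul_of_nonneg_left h3 hΛ0.le) (by positivity)
  have h6 : c.R * c.B * (Λ * (c.R / 4 ^ c.r)) = Λ * c.R * (c.R * c.B / 4 ^ c.r) := by ring
  have h7 := mul_le_mul_of_nonneg_left h4 (by positivity : 0 ≤ Λ * c.R)
  nlinarith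

lemma abs_tm_le (a b : ℤ → ℝ) (ha : ∀ n, |a n| ≤ 1) (hb : ∀ n, |b n| ≤ 1) (n : ℤ) :
    |c.tm a b n| ≤ ∑ τ ∈ c.Ed, c.w τ := by
  refine (Finset.abs_sum_le_sum_abs _ _).trans (Finset.sum_le_sum fun τ hτ => ?_)
  obtain ⟨hp, -, -, hw⟩ := c.hEd τ hτ
  have h1 := c.hu n τ
  have h2 := c.hu (n + c.lag τ) τ
  have h3 : |ind (c.p τ) n - 1 / c.p τ| ≤ 1 := by
    have h4 := ind_nonneg (c.p τ) n
    have h5 := ind_le_one (c.p τ) n
    have h6 : (0 : ℝ) ≤ 1 / c.p τ := by positivity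
    have h7 : 1 / (c.p τ : ℝ) ≤ 1 := by
      rw [div_le_one (by exact_mod_cast (c.hP _ hp).1.pos)]
      exact_mod_cast (c.hP _ hp).1.one_le
    rw [abs_le]; constructor <;> linarith
  simp only [abs_mul, abs_of_nonneg hw, abs_of_nonneg h1.1, abs_of_nonneg h2.1, mul_assoc]
  refine mul_le_of_le_one_right hw ?_
  have h4 := h2.1
  exact mul_le_one₀ h1.2 (by positivity) (mul_le_one₀ h2.2 (by positivity)
    (mul_le_one₀ h3 (by positivity) (mul_le_one₀ (ha _) (abs_nonneg _) (hb _))))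

end CD

lemma shift_sum_le (f : ℤ → ℝ) (A : ℝ) (hf : ∀ n, |f n| ≤ A) (M i : ℕ) :
    |∑ x ∈ range M, f (x + i) - ∑ x ∈ range M, f x| ≤ 2 * i * A := by
  have h1 := Finset.sum_range_add (fun x : ℕ => f x) M i
  have h2 := Finset.sum_range_add (fun x : ℕ => f x) i M
  rw [add_comm i M, h1] at h2
  have h3 : ∑ x ∈ range M, f (x + i) = ∑ x ∈ range M, f ((i + x : ℕ) : ℤ) :=
    Finset.sum_congr rfl fun x _ => by push_cast; rw [add_comm]
  have h4 : ∀ g : ℕ → ℤ, |∑ x ∈ range i, f (g x)| ≤ i * A := fun g =>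
    (Finset.abs_sum_le_sum_abs _ _).trans
      ((Finset.sum_le_card_nsmul _ _ A fun x _ => hf _).trans (by simp))
  have h5 := abs_le.1 (h4 fun x => ((M + x : ℕ) : ℤ))
  have h6 := abs_le.1 (h4 fun x => (x : ℤ))
  rw [h3, abs_le]
  constructor <;> linarith [h5.1, h5.2, h6.1, h6.2]

theorem CD.centred {ι : Type} (c : CD ι) : ∃ C₀ : ℝ, ∀ a b : ℤ → ℝ, (∀ n, |a n| ≤ 1) →
    (∀ n, |b n| ≤ 1) → ∀ M : ℕ, |∑ n ∈ range M, c.tm a b n| ≤
      96 * (2 * c.h + 1) * (Real.sqrt c.L * c.K * mean c.Q c.ρ) * M + C₀ := by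
  have hs := c.one_le_sqrt
  have hK := c.hK
  set Λ := 48 * Real.sqrt c.L * c.K with hΛ
  have hΛ0 : 0 < Λ := by positivity
  obtain ⟨C₁, hC₁⟩ := sum_sub_mean_le c.N_pos (c.dep_maj Λ)
  set A := ∑ τ ∈ c.Ed, c.w τ
  refine ⟨C₁ / c.D + 2 * c.D * A, fun a b ha hb M => ?_⟩
  have hA : ∀ n, |c.tm a b n| ≤ A := c.abs_tm_le a b ha hb
  have hA0 : 0 ≤ A := (abs_nonneg _).trans (hA 0)
  have hD : (0 : ℝ) < c.D := by exact_mod_cast c.hD
  have h1 : |∑ x ∈ range M, ∑ i ∈ range c.D, c.tm a b (x + i)| ≤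
      M * (2 * Λ * c.R * mean c.Q c.ρ) + C₁ := by
    refine (Finset.abs_sum_le_sum_abs _ _).trans
      ((Finset.sum_le_sum fun (x : ℕ) _ => c.window_le a b ha hb hΛ0 x).trans ?_)
    have h2 := (abs_le.1 (hC₁ M)).2
    have h3 := mul_le_mul_of_nonneg_left c.mean_maj_le (Nat.cast_nonneg (α := ℝ) M)
    linarith
  have h2 : |∑ x ∈ range M, ∑ i ∈ range c.D, c.tm a b (x + i) -
      c.D * ∑ n ∈ range M, c.tm a b n| ≤ c.D * (2 * c.D * A) := by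
    rw [Finset.sum_comm]
    have e : (c.D : ℝ) * ∑ n ∈ range M, c.tm a b n =
        ∑ i ∈ range c.D, ∑ n ∈ range M, c.tm a b n := by simp
    rw [e, ← Finset.sum_sub_distrib]
    refine (Finset.abs_sum_le_sum_abs _ _).trans
      ((Finset.sum_le_card_nsmul _ _ (2 * c.D * A) fun i hi => ?_).trans (by simp))
    refine (shift_sum_le _ A hA M i).trans ?_
    have : (i : ℝ) ≤ c.D := by exact_mod_cast (Finset.mem_range.1 hi).le
    gcongr
  have h3 : c.D * |∑ n ∈ range M, c.tm a b n| ≤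
      M * (2 * Λ * c.R * mean c.Q c.ρ) + C₁ + c.D * (2 * c.D * A) := by
    rw [← abs_of_pos hD, ← abs_mul, abs_of_pos hD]
    have := abs_sub_abs_le_abs_sub (c.D * ∑ n ∈ range M, c.tm a b n)
      (∑ x ∈ range M, ∑ i ∈ range c.D, c.tm a b (x + i))
    rw [abs_sub_comm] at this
    linarith
  rw [← le_div_iff₀' hD] at h3
  refine h3.trans (le_of_eq ?_)
  rw [hΛ]; unfold CD.R; push_cast; field_simp; ring

end Pool.Agent.Work.MP_ca0f09_nt
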