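import Pool.Agent.Work.MP_ca0f09_nt.Defs
import Pool.Agent.Lib.ANT.Mertens

/-! Elementary sums used in the construction of the divisor system. -/

set_option autoImplicit false
open Filter Topology Finset

namespace Pool.Agent.Work.MP_ca0f09_nt

theorem pr_cast (s : Finset ℕ) : (pr s : ℝ) = ∏ q ∈ s, (q : ℝ) := by simp [pr]

theorem pr_pos {s : Finset ℕ} (hs : ∀ q ∈ s, q.Prime) : 0 < pr s :=
  Finset.prod_pos fun q hq => (hs q hq).pos

theorem pr_erase {s : Finset ℕ} {a : ℕ} (ha : a ∈ s) : a * pr (s.erase a) = pr s :=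
  Finset.mul_prod_erase s (fun q => q) ha

theorem two_pow_le_pr {s : Finset ℕ} (hs : ∀ q ∈ s, q.Prime) : 2 ^ s.card ≤ pr s :=
  Finset.pow_card_le_prod s (fun q => q) 2 fun q hq => (hs q hq).two_le

theorem one_sub_nonneg {q : ℕ} (hq : q.Prime) : 0 ≤ 1 - 1 / (q : ℝ) := by
  have : (1 : ℝ) ≤ q := by exact_mod_cast hq.pos
  rw [sub_nonneg, div_le_one (by linarith)]; exact this

theorem law_nonneg {E : Finset ℕ} (hE : ∀ q ∈ E, q.Prime) (S : Finset ℕ) : 0 ≤ law E S :=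
  mul_nonneg (Finset.prod_nonneg fun q _ => by positivity)
    (Finset.prod_nonneg fun q hq => one_sub_nonneg (hE q (Finset.mem_sdiff.1 hq).1))

theorem law_mul_le {E : Finset ℕ} (hE : ∀ q ∈ E, q.Prime) (S : Finset ℕ) {x : ℝ} (hx : 0 ≤ x) :
    law E S * x ^ S.card ≤ ∏ q ∈ S, x / q := by
  have h1 : ∏ q ∈ E \ S, (1 - 1 / (q : ℝ)) ≤ 1 :=
    Finset.prod_le_one (fun q hq => one_sub_nonneg (hE q (Finset.mem_sdiff.1 hq).1))
      fun q _ => by have : (0 : ℝ) ≤ 1 / q := by positivity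
                    linarith
  have h2 : ∏ q ∈ S, x / q = (∏ q ∈ S, (1 / (q : ℝ))) * x ^ S.card := by
    rw [← Finset.prod_const, ← Finset.prod_mul_distrib]
    exact Finset.prod_congr rfl fun q _ => by ring
  rw [h2, law]
  have h3 : 0 ≤ (∏ q ∈ S, (1 / (q : ℝ))) := Finset.prod_nonneg fun q _ => by positivity
  have h4 : 0 ≤ x ^ S.card := by positivity
  nlinarith [mul_nonneg h3 h4]

theorem sum_law_sup {E s : Finset ℕ} (hs : s ⊆ E) (x : ℝ) :
    ∑ S ∈ E.powerset.filter (fun S => s ⊆ S), law E S * x ^ S.card =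
      (∏ q ∈ s, x / q) * ∏ q ∈ E \ s, (1 - 1 / (q : ℝ) + x / q) := by
  classical
  have h := Finset.prod_add (fun q : ℕ => x / q)
    (fun q : ℕ => if q ∈ s then (0 : ℝ) else 1 - 1 / (q : ℝ)) E
  rw [← Finset.prod_sdiff hs] at h
  rw [Finset.sum_filter]
  have e1 : ∏ q ∈ E \ s, (x / q + if q ∈ s then (0 : ℝ) else 1 - 1 / (q : ℝ)) =
      ∏ q ∈ E \ s, (1 - 1 / (q : ℝ) + x / q) :=
    Finset.prod_congr rfl fun q hq => by rw [if_neg (Finset.mem_sdiff.1 hq).2]; ring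
  have e2 : ∏ q ∈ s, (x / q + if q ∈ s then (0 : ℝ) else 1 - 1 / (q : ℝ)) = ∏ q ∈ s, x / q :=
    Finset.prod_congr rfl fun q hq => by rw [if_pos hq, add_zero]
  rw [e1, e2, mul_comm] at h
  rw [h]
  refine Finset.sum_congr rfl fun S hS => ?_
  split_ifs with c
  · have : ∏ q ∈ E \ S, (if q ∈ s then (0 : ℝ) else 1 - 1 / (q : ℝ)) =
        ∏ q ∈ E \ S, (1 - 1 / (q : ℝ)) :=
      Finset.prod_congr rfl fun q hq => if_neg fun h => (Finset.mem_sdiff.1 hq).2 (c h)
    rw [this, law, mul_right_comm, ← Finset.prod_const, ← Finset.prod_mul_distrib]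
    congr 1
    exact Finset.prod_congr rfl fun q _ => by ring
  · obtain ⟨q, h1, h2⟩ := Finset.not_subset.1 c
    rw [Finset.prod_eq_zero (f := fun i : ℕ => if i ∈ s then (0 : ℝ) else 1 - 1 / (i : ℝ))
      (Finset.mem_sdiff.2 ⟨hs h1, h2⟩) (if_pos h1), mul_zero]

theorem sum_pow_div_pr (E : Finset ℕ) (x : ℝ) :
    ∑ s ∈ E.powerset, x ^ s.card / pr s = ∏ q ∈ E, (1 + x / q) := by
  rw [Finset.prod_one_add]
  refine Finset.sum_congr rfl fun s _ => ?_
  rw [Finset.prod_div_distrib, Finset.prod_const, pr_cast]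

theorem prod_div_eq (s : Finset ℕ) (x : ℝ) : ∏ q ∈ s, x / q = x ^ s.card / pr s := by
  rw [Finset.prod_div_distrib, Finset.prod_const, pr_cast]

theorem prod_le_exp (E : Finset ℕ) {x : ℝ} (hx : 0 ≤ x) :
    ∏ q ∈ E, (1 + x / q) ≤ Real.exp (x * ∑ q ∈ E, 1 / (q : ℝ)) := by
  rw [Finset.mul_sum, Real.exp_sum]
  refine Finset.prod_le_prod (fun q _ => by positivity) fun q _ => ?_
  have := Real.add_one_le_exp (x * (1 / (q : ℝ)))
  rw [mul_one_div] at this ⊢
  linarith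

theorem sum_le_of_inj {α β : Type*} {A : Finset α} {B : Finset β} (φ : α → β)
    (hm : ∀ a ∈ A, φ a ∈ B) (hi : Set.InjOn φ A) {f : α → ℝ} {g : β → ℝ}
    (hf : ∀ a ∈ A, f a ≤ g (φ a)) (hg : ∀ b ∈ B, 0 ≤ g b) : ∑ a ∈ A, f a ≤ ∑ b ∈ B, g b := by
  classical
  calc ∑ a ∈ A, f a ≤ ∑ a ∈ A, g (φ a) := Finset.sum_le_sum hf
    _ = ∑ b ∈ A.image φ, g b := (Finset.sum_image hi).symm
    _ ≤ _ := Finset.sum_le_sum_of_subset_of_nonneg
        (fun b hb => by obtain ⟨a, ha, rfl⟩ := Finset.mem_image.1 hb; exact hm a ha)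
        fun b hb _ => hg b hb

theorem harm_Ioc {a : ℕ} (ha : 1 ≤ a) {b : ℕ} (hb : a ≤ b) :
    ∑ D ∈ Ioc a b, 1 / (D : ℝ) ≤ Real.log b - Real.log a := by
  induction b, hb using Nat.le_induction with
  | base => simp
  | succ b hb ih =>
    rw [Finset.sum_Ioc_succ_top hb]
    have hb' : (0 : ℝ) < b := by exact_mod_cast (by omega : 0 < b)
    have := Real.log_le_sub_one_of_pos (x := b / (b + 1)) (by positivity)
    rw [Real.log_div hb'.ne' (by positivity)] at this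
    have e : (b : ℝ) / (b + 1) - 1 = -(1 / (b + 1)) := by field_simp; ring
    push_cast
    linarith

theorem harm_le (T : Finset ℕ) {x y : ℝ} (hx : 0 < x) (hxy : x ≤ y)
    (hT : ∀ D ∈ T, 1 ≤ D ∧ x ≤ D ∧ (D : ℝ) ≤ y) : ∑ D ∈ T, 1 / (D : ℝ) ≤ 1 + Real.log (y / x) := by
  have h0 : 0 ≤ Real.log (y / x) := Real.log_nonneg ((one_le_div hx).2 hxy)
  rcases T.eq_empty_or_nonempty with rfl | ne
  · simp; linarith
  obtain ⟨a1, a2, -⟩ := hT _ (T.min'_mem ne)
  obtain ⟨b1, -, b3⟩ := hT _ (T.max'_mem ne)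
  have le := T.min'_le_max' ne
  have hsub : T ⊆ insert (T.min' ne) (Ioc (T.min' ne) (T.max' ne)) := by
    intro D hD
    have := T.min'_le D hD
    have := T.le_max' D hD
    simp only [Finset.mem_insert, Finset.mem_Ioc]; omega
  have h1 := Finset.sum_le_sum_of_subset_of_nonneg (f := fun D : ℕ => 1 / (D : ℝ)) hsub
    fun _ _ _ => by positivity
  rw [Finset.sum_insert (by simp)] at h1
  have h2 := harm_Ioc a1 le
  have a1' : (1 : ℝ) ≤ T.min' ne := by exact_mod_cast a1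
  have b1' : (1 : ℝ) ≤ T.max' ne := by exact_mod_cast b1
  have h3 : 1 / (T.min' ne : ℝ) ≤ 1 := by rw [div_le_one (by linarith)]; exact a1'
  have h4 := Real.log_le_log hx a2
  have h5 := Real.log_le_log (by linarith) b3
  rw [Real.log_div (by linarith) hx.ne']
  linarith

theorem harm_ge {n Dm : ℕ} (hn : 1 ≤ n) (hm : n ≤ Dm) {ε : ℝ} (hε : 0 < ε) (hε1 : ε ≤ 1) :
    ε / 2 ≤ ∑ D ∈ (Icc 1 Dm).filter (fun D => D ≤ n ∧ (n : ℝ) ≤ (1 + ε) * D), 1 / (D : ℝ) := by
  have n0 : (0 : ℝ) < n := by exact_mod_cast hn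
  set c := ⌈(n : ℝ) / (1 + ε)⌉₊ with hc
  have c1 : (n : ℝ) / (1 + ε) ≤ c := Nat.le_ceil _
  have c2 : (c : ℝ) < n / (1 + ε) + 1 := Nat.ceil_lt_add_one (by positivity)
  have c3 : c ≤ n := Nat.ceil_le.2 (div_le_self n0.le (by linarith))
  have c4 : 1 ≤ c := Nat.one_le_iff_ne_zero.2 (Nat.ceil_pos.2 (by positivity)).ne'
  have hsub : Icc c n ⊆ (Icc 1 Dm).filter (fun D => D ≤ n ∧ (n : ℝ) ≤ (1 + ε) * D) := by
    intro D hD
    rw [Finset.mem_Icc] at hD
    refine Finset.mem_filter.2 ⟨Finset.mem_Icc.2 ⟨by omega, by omega⟩, hD.2, ?_⟩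
    have : (c : ℝ) ≤ D := by exact_mod_cast hD.1
    rw [div_le_iff₀ (by linarith)] at c1
    nlinarith
  refine le_trans ?_ (Finset.sum_le_sum_of_subset_of_nonneg hsub fun _ _ _ => by positivity)
  have h1 : ∑ D ∈ Icc c n, 1 / (n : ℝ) ≤ ∑ D ∈ Icc c n, 1 / (D : ℝ) :=
    Finset.sum_le_sum fun D hD => by
      rw [Finset.mem_Icc] at hD
      exact one_div_le_one_div_of_le (by exact_mod_cast (by omega : 0 < D))
        (by exact_mod_cast hD.2)
  refine le_trans ?_ h1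
  rw [Finset.sum_const, Nat.card_Icc, nsmul_eq_mul, Nat.cast_sub (by omega), mul_one_div,
    le_div_iff₀ n0]
  push_cast
  have : (n : ℝ) / (1 + ε) ≤ n - ε / 2 * n := by
    rw [div_le_iff₀ (by linarith)]
    nlinarith [mul_nonneg (mul_nonneg hε.le (sub_nonneg.2 hε1)) n0.le]
  linarith

/-- primes in a window -/
theorem window_le (T : Finset ℕ) {lo : ℕ} (h2 : 2 ≤ lo)
    (hT : ∀ q ∈ T, q.Prime ∧ lo ≤ q ∧ q ≤ 4 * lo) : ∑ q ∈ T, 1 / (q : ℝ) ≤ 51 / Real.log lo := by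
  have l1 : (1 : ℝ) < lo := by exact_mod_cast h2
  have l0 := Real.log_pos l1
  have hsub : T ⊆ insert lo ((Ioc lo (4 * lo)).filter Nat.Prime) := by
    intro q hq
    obtain ⟨a, b, c⟩ := hT q hq
    simp only [Finset.mem_insert, Finset.mem_filter, Finset.mem_Ioc, a, and_true]; omega
  have h1 := Finset.sum_le_sum_of_subset_of_nonneg (f := fun q : ℕ => 1 / (q : ℝ)) hsub
    fun _ _ _ => by positivity
  rw [Finset.sum_insert (by simp)] at h1
  have h3 := (abs_le.1 (Lib.ANT.abs_sum_inv_prime_Ioc_sub_le lo (4 * lo) h2 (by omega))).2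
  simp only [← one_div] at h3
  have h4 : Real.log ((4 * lo : ℕ) : ℝ) = Real.log 4 + Real.log lo := by
    push_cast; exact Real.log_mul (by norm_num) (by linarith)
  have h5 : Real.log 4 ≤ 2 := by
    have := Real.log_two_lt_d9
    rw [show (4 : ℝ) = 2 ^ 2 by norm_num, Real.log_pow]; push_cast; linarith
  have h50 : 0 ≤ Real.log 4 := Real.log_nonneg (by norm_num)
  have h6 := Real.log_le_sub_one_of_pos (x := (Real.log 4 + Real.log lo) / Real.log lo)
    (by positivity)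
  rw [Real.log_div (by positivity) l0.ne'] at h6
  have h7 : (Real.log 4 + Real.log lo) / Real.log lo - 1 ≤ 2 / Real.log lo := by
    rw [add_div, div_self l0.ne', add_sub_cancel_right]
    exact div_le_div_of_nonneg_right h5 l0.le
  have h8 : 1 / (lo : ℝ) ≤ 1 / Real.log lo :=
    one_div_le_one_div_of_le l0 (by have := Real.log_le_sub_one_of_pos (x := lo) (by linarith); linarith)
  rw [h4] at h3
  have : 51 / Real.log lo = 1 / Real.log lo + 2 / Real.log lo + 48 / Real.log lo := by ring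
  linarith

/-- two-sided Mertens estimate in exponential form -/
theorem mertens_exp {y z : ℕ} (hy : 2 ≤ y) (hl : 48 ≤ Real.log y) (hyz : y ≤ z) :
    Real.log z ≤ 3 * Real.log y * Real.exp (∑ q ∈ (Ioc y z).filter Nat.Prime, 1 / (q : ℝ)) ∧
    Real.log y * Real.exp (∑ q ∈ (Ioc y z).filter Nat.Prime, 1 / (q : ℝ)) ≤ 3 * Real.log z := by
  have h := abs_le.1 (Lib.ANT.abs_sum_inv_prime_Ioc_sub_le y z hy hyz)
  simp only [← one_div] at h
  set σ := ∑ q ∈ (Ioc y z).filter Nat.Prime, 1 / (q : ℝ)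
  have y0 : 0 < Real.log y := by linarith
  have z0 : 0 < Real.log z := Real.log_pos (by exact_mod_cast (by omega : 1 < z))
  have h1 : 48 / Real.log y ≤ 1 := by rw [div_le_one y0]; exact hl
  have e3 : Real.exp 1 ≤ 3 := by have := Real.exp_one_lt_d9; linarith
  constructor
  · have : Real.log (Real.log z) ≤ 1 + Real.log (Real.log y) + σ := by linarith [h.1]
    have := Real.exp_le_exp.2 this
    rw [Real.exp_log z0, Real.exp_add, Real.exp_add, Real.exp_log y0] at this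
    refine this.trans ?_
    gcongr
  · have : Real.log (Real.log y) + σ ≤ 1 + Real.log (Real.log z) := by linarith [h.2]
    have := Real.exp_le_exp.2 this
    rw [Real.exp_add, Real.exp_add, Real.exp_log y0, Real.exp_log z0] at this
    refine this.trans ?_
    gcongr

end Pool.Agent.Work.MP_ca0f09_nt
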