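import Pool.Agent.Work.MP_ca0f09_nt.D1

/-! Second moment of the number of weighted divisors in a window. -/

set_option autoImplicit false
open Filter Topology Finset

namespace Pool.Agent.Work.MP_ca0f09_nt

/-- local weight of a pair of fillers -/
noncomputable def om (q : ℕ) (b c : Prop) [Decidable b] [Decidable c] : ℝ :=
  if b then (if c then 255 ^ 2 / 256 / q else 255 / 256 / q)
  else (if c then 255 / 256 / q else 1 - 255 / 256 / q)

/-- weight of a pair of fillers -/
noncomputable def wt (E s t : Finset ℕ) : ℝ := ∏ q ∈ E, om q (q ∈ s) (q ∈ t)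

/-- mass of the primes above all primes where `s` and `t` differ -/
noncomputable def top (E s t : Finset ℕ) : ℝ :=
  ∑ q ∈ E.filter (fun q => ∀ q' ∈ E, ¬ (q' ∈ s ↔ q' ∈ t) → q' < q), 1 / (q : ℝ)

theorem om_nonneg {q : ℕ} (hq : 1 ≤ q) (b c : Prop) [Decidable b] [Decidable c] :
    0 ≤ om q b c := by
  have : (1 : ℝ) ≤ q := by exact_mod_cast hq
  have h : (255 : ℝ) / 256 / q ≤ 1 := by rw [div_le_one (by linarith)]; linarith
  unfold om
  split_ifs
  · positivity
  · positivity
  · positivity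
  · linarith

theorem wt_nonneg {E : Finset ℕ} (hE : ∀ q ∈ E, q.Prime) (s t : Finset ℕ) : 0 ≤ wt E s t :=
  Finset.prod_nonneg fun q hq => om_nonneg (hE q hq).pos _ _

theorem wt_comm (E s t : Finset ℕ) : wt E s t = wt E t s :=
  Finset.prod_congr rfl fun q _ => by unfold om; split_ifs <;> rfl

theorem wt_eq {E s t : Finset ℕ} (hs : s ⊆ E) (ht : t ⊆ E) :
    (255 : ℝ) ^ s.card * 255 ^ t.card *
      ∑ S ∈ E.powerset.filter (fun S => s ∪ t ⊆ S), law E S * (1 / 256) ^ S.card = wt E s t := by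
  have hu : s ∪ t ⊆ E := Finset.union_subset hs ht
  rw [sum_law_sup hu]
  have e : ∀ {s : Finset ℕ}, s ⊆ E → ∀ f g : ℕ → ℝ,
      (∏ q ∈ s, f q) * ∏ q ∈ E \ s, g q = ∏ q ∈ E, if q ∈ s then f q else g q := by
    intro s hs f g
    rw [← Finset.prod_sdiff hs, mul_comm]
    congr 1
    · exact Finset.prod_congr rfl fun q hq => (if_neg (Finset.mem_sdiff.1 hq).2).symm
    · exact Finset.prod_congr rfl fun q hq => (if_pos hq).symm
  have e' : ∀ {s : Finset ℕ}, s ⊆ E →
      (255 : ℝ) ^ s.card = ∏ q ∈ E, if q ∈ s then (255 : ℝ) else 1 := by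
    intro s hs
    rw [← e hs]; simp
  rw [e hu, e' hs, e' ht, ← Finset.prod_mul_distrib, ← Finset.prod_mul_distrib]
  refine Finset.prod_congr rfl fun q _ => ?_
  unfold om
  by_cases a : q ∈ s <;> by_cases b : q ∈ t <;> simp [a, b] <;> ring

theorem sum2_insert {E : Finset ℕ} {a : ℕ} (ha : a ∉ E) (f : Finset ℕ → Finset ℕ → ℝ) :
    ∑ s ∈ (insert a E).powerset, ∑ t ∈ (insert a E).powerset, f s t =
      ∑ s ∈ E.powerset, ∑ t ∈ E.powerset,
        (f s t + f s (insert a t) + (f (insert a s) t + f (insert a s) (insert a t))) := by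
  simp only [Finset.sum_powerset_insert ha, Finset.sum_add_distrib]

theorem wt_insert {E : Finset ℕ} {a : ℕ} (ha : a ∉ E) {s t s' t' : Finset ℕ}
    (h1 : ∀ q ∈ E, q ∈ s' ↔ q ∈ s) (h2 : ∀ q ∈ E, q ∈ t' ↔ q ∈ t) :
    wt (insert a E) s' t' = om a (a ∈ s') (a ∈ t') * wt E s t := by
  rw [wt, Finset.prod_insert ha]
  congr 1
  exact Finset.prod_congr rfl fun q hq => by simp only [om, h1 q hq, h2 q hq]

theorem top_same {E : Finset ℕ} {a : ℕ} (ha : ∀ q ∈ E, q < a) {s t s' t' : Finset ℕ}
    (h1 : ∀ q ∈ E, q ∈ s' ↔ q ∈ s) (h2 : ∀ q ∈ E, q ∈ t' ↔ q ∈ t) (h : a ∈ s' ↔ a ∈ t') :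
    top (insert a E) s' t' = 1 / a + top E s t := by
  have na : a ∉ E := fun c => lt_irrefl _ (ha a c)
  rw [top, Finset.filter_insert, if_pos, Finset.sum_insert (by simp [na]), top]
  · congr 1
    refine Finset.sum_congr (Finset.filter_congr fun q _ => ?_) fun _ _ => rfl
    simp only [Finset.forall_mem_insert, h, not_true, false_imp_iff, true_and]
    exact forall₂_congr fun q' hq' => by rw [h1 q' hq', h2 q' hq']
  · intro q' hq' c
    rcases Finset.mem_insert.1 hq' with rfl | hq'
    · exact absurd h c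
    · exact ha q' hq'

theorem top_diff {E : Finset ℕ} {a : ℕ} (ha : ∀ q ∈ E, q < a) {s' t' : Finset ℕ}
    (h : ¬ (a ∈ s' ↔ a ∈ t')) : top (insert a E) s' t' = 0 := by
  rw [top, Finset.filter_false_of_mem, Finset.sum_empty]
  intro q hq c
  have := c a (Finset.mem_insert_self _ _) h
  rcases Finset.mem_insert.1 hq with rfl | hq
  · exact lt_irrefl _ this
  · exact lt_asymm this (ha q hq)

theorem sum_wt_exp (E : Finset ℕ) (hE : ∀ q ∈ E, 10000 ≤ q) :
    ∑ s ∈ E.powerset, ∑ t ∈ E.powerset, wt E s t = ∏ q ∈ E, (1 + 255 / (q : ℝ)) ∧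
    ∑ s ∈ E.powerset, ∑ t ∈ E.powerset, wt E s t * Real.exp (3 / 2 * top E s t) ≤
      20 * ∏ q ∈ E, (1 + 255 / (q : ℝ)) := by
  induction E using Finset.induction_on_max with
  | empty => simp [wt, top]
  | insert a E ha ih =>
    obtain ⟨i1, i2⟩ := ih fun q hq => hE q (Finset.mem_insert_of_mem hq)
    have na : a ∉ E := fun c => lt_irrefl _ (ha a c)
    have a0 : (10000 : ℝ) ≤ a := by exact_mod_cast hE a (Finset.mem_insert_self _ _)
    have ins : ∀ s : Finset ℕ, ∀ q ∈ E, q ∈ insert a s ↔ q ∈ s := fun s q hq => by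
      simp [(ha q hq).ne]
    have rf : ∀ s : Finset ℕ, ∀ q ∈ E, q ∈ s ↔ q ∈ s := fun _ _ _ => Iff.rfl
    have nm : ∀ s ∈ E.powerset, a ∉ s := fun s hs c => na (Finset.mem_powerset.1 hs c)
    rw [sum2_insert na, sum2_insert na, Finset.prod_insert na]
    constructor
    · rw [← i1, Finset.mul_sum]
      refine Finset.sum_congr rfl fun s hs => ?_
      rw [Finset.mul_sum]
      refine Finset.sum_congr rfl fun t ht => ?_
      rw [wt_insert na (rf s) (rf t), wt_insert na (rf s) (ins t), wt_insert na (ins s) (rf t),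
        wt_insert na (ins s) (ins t)]
      simp only [om, nm s hs, nm t ht, Finset.mem_insert_self, if_true, if_false]
      ring
    · set Pi := ∏ q ∈ E, (1 + 255 / (q : ℝ))
      have P0 : 0 ≤ Pi := Finset.prod_nonneg fun q _ => by positivity
      have e : ∑ s ∈ E.powerset, ∑ t ∈ E.powerset,
          (wt (insert a E) s t * Real.exp (3 / 2 * top (insert a E) s t) +
            wt (insert a E) s (insert a t) * Real.exp (3 / 2 * top (insert a E) s (insert a t)) +
            (wt (insert a E) (insert a s) t * Real.exp (3 / 2 * top (insert a E) (insert a s) t) +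
              wt (insert a E) (insert a s) (insert a t) *
                Real.exp (3 / 2 * top (insert a E) (insert a s) (insert a t)))) =
          2 * (255 / 256 / a) * (∑ s ∈ E.powerset, ∑ t ∈ E.powerset, wt E s t) +
          (1 + (255 - 2 * (255 / 256)) / a) * Real.exp (3 / 2 * (1 / a)) *
            ∑ s ∈ E.powerset, ∑ t ∈ E.powerset, wt E s t * Real.exp (3 / 2 * top E s t) := by
        rw [Finset.mul_sum, Finset.mul_sum, ← Finset.sum_add_distrib]
        refine Finset.sum_congr rfl fun s hs => ?_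
        rw [Finset.mul_sum, Finset.mul_sum, ← Finset.sum_add_distrib]
        refine Finset.sum_congr rfl fun t ht => ?_
        rw [wt_insert na (rf s) (rf t), wt_insert na (rf s) (ins t), wt_insert na (ins s) (rf t),
          wt_insert na (ins s) (ins t), top_same ha (rf s) (rf t) (by simp [nm s hs, nm t ht]),
          top_same ha (ins s) (ins t) (by simp), top_diff ha (by simp [nm s hs]),
          top_diff ha (by simp [nm t ht])]
        simp only [om, nm s hs, nm t ht, Finset.mem_insert_self, if_true, if_false, mul_add,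
          Real.exp_add, mul_zero, Real.exp_zero]
        ring
      rw [e, i1]
      set x : ℝ := 1 / a with hx
      have x0 : 0 ≤ x := by positivity
      have x1 : x ≤ 1 / 10000 := one_div_le_one_div_of_le (by norm_num) a0
      have ex : Real.exp (3 / 2 * x) ≤ 1 + 3 / 2 * x + (3 / 2 * x) ^ 2 := by
        have := Real.abs_exp_sub_one_sub_id_le (x := 3 / 2 * x) (by
          rw [abs_of_nonneg (by positivity)]; linarith)
        linarith [(abs_le.1 this).2]
      have k : ∀ c : ℝ, c / a = c * x := fun c => by rw [hx]; ring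
      rw [k, k, k]
      have c1 : (1 + (255 - 2 * (255 / 256)) * x) * Real.exp (3 / 2 * x) ≤ 1 + (255 - 1 / 10) * x := by
        calc _ ≤ (1 + (255 - 2 * (255 / 256)) * x) * (1 + 3 / 2 * x + (3 / 2 * x) ^ 2) := by gcongr
          _ ≤ _ := by nlinarith [mul_nonneg x0 x0, mul_nonneg x0 (mul_nonneg x0 x0),
              mul_le_mul_of_nonneg_left x1 x0, mul_le_mul_of_nonneg_left x1 (mul_nonneg x0 x0)]
      calc _ ≤ 2 * (255 / 256 * x) * Pi + (1 + (255 - 1 / 10) * x) * (20 * Pi) := by
            gcongr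
            exact Finset.sum_nonneg fun s _ => Finset.sum_nonneg fun t _ => mul_nonneg
              (Finset.prod_nonneg fun q hq => om_nonneg
                (by have := hE q (Finset.mem_insert_of_mem hq); omega) _ _) (Real.exp_pos _).le
        _ ≤ _ := by nlinarith [mul_nonneg x0 P0]

theorem top_nonneg (E s t : Finset ℕ) : 0 ≤ top E s t :=
  Finset.sum_nonneg fun _ _ => by positivity

/-- one-sided off-diagonal contribution -/
theorem offdiag_le {y z : ℕ} (hy : 10000 ≤ y) (hl : 48 ≤ Real.log y) :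
    let E := (Ioc y z).filter Nat.Prime
    ∑ x ∈ (E.powerset ×ˢ E.powerset).filter (fun x => (pr x.1 ≤ 2 * pr x.2 ∧ pr x.2 ≤ 2 * pr x.1) ∧
        ∃ a ∈ x.1, a ∉ x.2 ∧ ∀ q ∈ E, ¬ (q ∈ x.1 ↔ q ∈ x.2) → q ≤ a), wt E x.1 x.2 ≤
      6120 * (∏ q ∈ E, (1 + 255 / (q : ℝ))) / Real.log z := by
  intro E
  classical
  have hE : ∀ q ∈ E, q.Prime ∧ y < q ∧ q ≤ z := fun q hq => by
    simpa [E, and_comm, and_assoc, and_left_comm] using hq
  set A := (E.powerset ×ˢ E.powerset).filter (fun x => (pr x.1 ≤ 2 * pr x.2 ∧ pr x.2 ≤ 2 * pr x.1) ∧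
        ∃ a ∈ x.1, a ∉ x.2 ∧ ∀ q ∈ E, ¬ (q ∈ x.1 ↔ q ∈ x.2) → q ≤ a) with hA
  have ex : ∀ x : Finset ℕ × Finset ℕ, ∃ a : ℕ, x ∈ A →
      a ∈ x.1 ∧ a ∉ x.2 ∧ ∀ q ∈ E, ¬ (q ∈ x.1 ↔ q ∈ x.2) → q ≤ a := by
    intro x
    by_cases hx : x ∈ A
    · obtain ⟨a, h1, h2⟩ := (Finset.mem_filter.1 hx).2.2
      exact ⟨a, fun _ => ⟨h1, h2⟩⟩
    · exact ⟨0, fun c => absurd c hx⟩
  choose al hal using ex
  let R : Finset ℕ × Finset ℕ → ℕ → Prop := fun x a =>
    (a * pr x.1 ≤ 2 * pr x.2 ∧ pr x.2 ≤ 2 * (a * pr x.1)) ∧ ∀ q ∈ E, ¬ (q ∈ x.1 ↔ q ∈ x.2) → q < a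
  have h1 : ∑ x ∈ A, wt E x.1 x.2 ≤
      ∑ u ∈ ((E.powerset ×ˢ E.powerset) ×ˢ E).filter (fun u => R u.1 u.2),
        wt E u.1.1 u.1.2 * (2 * (1 / (u.2 : ℝ))) := by
    refine sum_le_of_inj (fun x => ((x.1.erase (al x), x.2), al x)) ?_ ?_ ?_ ?_
    · intro x hx
      obtain ⟨a1, a2, a3⟩ := hal x hx
      obtain ⟨m, c, -⟩ := Finset.mem_filter.1 hx
      simp only [Finset.mem_product, Finset.mem_powerset] at m
      simp only [Finset.mem_filter, Finset.mem_product, Finset.mem_powerset, R, pr_erase a1]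
      refine ⟨⟨⟨(Finset.erase_subset _ _).trans m.1, m.2⟩, m.1 a1⟩, c, fun q hq c => ?_⟩
      have : q ≠ al x := by rintro rfl; simp [a2] at c
      exact lt_of_le_of_ne (a3 q hq (by simpa [this] using c)) this
    · intro x hx x' hx' e
      simp only [Prod.mk.injEq] at e
      obtain ⟨⟨e1, e2⟩, e3⟩ := e
      refine Prod.ext ?_ e2
      rw [← Finset.insert_erase (hal x hx).1, e1, e3, Finset.insert_erase (hal x' hx').1]
    · intro x hx
      obtain ⟨a1, a2, -⟩ := hal x hx
      have m : al x ∈ E :=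
        Finset.mem_powerset.1 (Finset.mem_product.1 (Finset.mem_filter.1 hx).1).1 a1
      have na : al x ∉ E.erase (al x) := Finset.notMem_erase _ _
      have e1 := wt_insert na (s := x.1) (t := x.2) (s' := x.1) (t' := x.2)
        (fun _ _ => Iff.rfl) (fun _ _ => Iff.rfl)
      have e2 := wt_insert na (s := x.1) (t := x.2) (s' := x.1.erase (al x)) (t' := x.2)
        (fun q hq => by simp [(Finset.mem_erase.1 hq).1]) (fun _ _ => Iff.rfl)
      rw [Finset.insert_erase m] at e1 e2
      simp only [e1, e2, om, a1, a2, Finset.notMem_erase, if_true, if_false]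
      have w0 := wt_nonneg (E := E.erase (al x))
        (fun q hq => (hE q (Finset.mem_of_mem_erase hq)).1) x.1 x.2
      have a0 : (10000 : ℝ) ≤ al x := by exact_mod_cast hy.trans (hE _ m).2.1.le
      have : (255 : ℝ) / 256 / al x ≤ 1 / 2 := by
        rw [div_le_iff₀ (by linarith)]; linarith
      have k : (255 : ℝ) / 256 / al x ≤ (1 - 255 / 256 / al x) * (2 * (1 / (al x : ℝ))) := by
        calc (255 : ℝ) / 256 / al x ≤ 1 / 2 * (2 * (1 / (al x : ℝ))) := by
              rw [← mul_assoc, mul_one_div (1 / 2 * 2 : ℝ)]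
              gcongr; norm_num
          _ ≤ _ := by gcongr; linarith
      nlinarith [mul_le_mul_of_nonneg_right k w0]
    · intro u _
      exact mul_nonneg (wt_nonneg (fun q hq => (hE q hq).1) _ _) (by positivity)
  refine h1.trans ?_
  rw [Finset.sum_filter, Finset.sum_product]
  have h2 : ∀ x ∈ E.powerset ×ˢ E.powerset,
      ∑ a ∈ E, (if R x a then wt E x.1 x.2 * (2 * (1 / (a : ℝ))) else 0) ≤
        306 / Real.log z * (wt E x.1 x.2 * Real.exp (3 / 2 * top E x.1 x.2)) := by
    intro x hx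
    have w0 := wt_nonneg (fun q hq => (hE q hq).1) x.1 x.2
    rw [← Finset.sum_filter, ← Finset.mul_sum, ← Finset.mul_sum]
    have lz : 0 ≤ Real.log z := Real.log_natCast_nonneg z
    rcases (E.filter (R x)).eq_empty_or_nonempty with e | ne
    · rw [e]; simp only [Finset.sum_empty, mul_zero]; positivity
    set lo := (E.filter (R x)).min' ne
    obtain ⟨m1, m2⟩ := Finset.mem_filter.1 ((E.filter (R x)).min'_mem ne)
    obtain ⟨p1, p2, p3⟩ := hE _ m1
    have pp : 0 < pr x.1 := pr_pos fun q hq =>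
      (hE q (Finset.mem_powerset.1 (Finset.mem_product.1 hx).1 hq)).1
    have k1 := window_le (E.filter (R x)) (lo := lo) p1.two_le fun q hq => by
      obtain ⟨n1, n2⟩ := Finset.mem_filter.1 hq
      refine ⟨(hE q n1).1, Finset.min'_le _ _ hq, Nat.le_of_mul_le_mul_right ?_ pp⟩
      have := n2.1.1
      have := m2.1.2
      nlinarith
    have l1 : Real.log y ≤ Real.log lo :=
      Real.log_le_log (by exact_mod_cast (by omega : 0 < y)) (by exact_mod_cast p2.le)
    have k2 := (mertens_exp p1.two_le (hl.trans l1) p3).1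
    have k3 : ∑ q ∈ (Ioc lo z).filter Nat.Prime, 1 / (q : ℝ) ≤ 3 / 2 * top E x.1 x.2 := by
      have : ∑ q ∈ (Ioc lo z).filter Nat.Prime, 1 / (q : ℝ) ≤ top E x.1 x.2 := by
        refine Finset.sum_le_sum_of_subset_of_nonneg (fun q hq => ?_) fun _ _ _ => by positivity
        simp only [Finset.mem_filter, Finset.mem_Ioc] at hq
        refine Finset.mem_filter.2 ⟨Finset.mem_filter.2 ⟨Finset.mem_Ioc.2 ⟨by omega, hq.1.2⟩, hq.2⟩,
          fun q' hq' c => (m2.2 q' hq' c).trans hq.1.1⟩
      linarith [top_nonneg E x.1 x.2]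
    have k4 := Real.exp_le_exp.2 k3
    have l0 : 0 < Real.log lo := by linarith
    have z0 : 0 < Real.log z := Real.log_pos (by exact_mod_cast (by omega : 1 < z))
    have k5 : 51 / Real.log lo ≤ 153 / Real.log z * Real.exp (3 / 2 * top E x.1 x.2) := by
      rw [div_mul_eq_mul_div, div_le_div_iff₀ l0 z0]
      nlinarith [mul_le_mul_of_nonneg_left k4 l0.le]
    calc _ ≤ wt E x.1 x.2 * (2 * (153 / Real.log z * Real.exp (3 / 2 * top E x.1 x.2))) := by
          gcongr; exact k1.trans k5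
      _ = _ := by ring
  refine (Finset.sum_le_sum h2).trans ?_
  rw [← Finset.mul_sum, Finset.sum_product]
  have := (sum_wt_exp E fun q hq => hy.trans (hE q hq).2.1.le).2
  calc _ ≤ 306 / Real.log z * (20 * ∏ q ∈ E, (1 + 255 / (q : ℝ))) := by
        gcongr
    _ = _ := by ring

/-- the second moment bound -/
theorem moment_two {y z : ℕ} (hy : 10000 ≤ y) (hl : 48 ≤ Real.log y) (hyz : y ≤ z)
    (hd : 10800 * Real.log y ^ 3 ≤ Real.log z) :
    let E := (Ioc y z).filter Nat.Prime
    ∑ s ∈ E.powerset, ∑ t ∈ E.powerset,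
      (if pr s ≤ 2 * pr t ∧ pr t ≤ 2 * pr s then wt E s t else 0) ≤
      12241 * (∏ q ∈ E, (1 + 255 / (q : ℝ))) / Real.log z := by
  intro E
  classical
  have hE : ∀ q ∈ E, q.Prime ∧ y < q ∧ q ≤ z := fun q hq => by
    simpa [E, and_comm, and_assoc, and_left_comm] using hq
  have w0 := wt_nonneg (fun q hq => (hE q hq).1)
  have o1 := offdiag_le (z := z) hy hl
  simp only at o1
  set Pi := ∏ q ∈ E, (1 + 255 / (q : ℝ))
  let R : Finset ℕ → Finset ℕ → Prop := fun s t => (pr s ≤ 2 * pr t ∧ pr t ≤ 2 * pr s) ∧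
    ∃ a ∈ s, a ∉ t ∧ ∀ q ∈ E, ¬ (q ∈ s ↔ q ∈ t) → q ≤ a
  have o2 : ∑ s ∈ E.powerset, ∑ t ∈ E.powerset, (if R s t then wt E s t else 0) ≤
      6120 * Pi / Real.log z := by
    rwa [Finset.sum_filter, Finset.sum_product] at o1
  have o3 : ∑ s ∈ E.powerset, ∑ t ∈ E.powerset, (if R t s then wt E s t else 0) ≤
      6120 * Pi / Real.log z := by
    rw [Finset.sum_comm]
    simpa only [wt_comm E _ _] using o2
  set σ := ∑ q ∈ E, 1 / (q : ℝ)
  have z0 : 0 < Real.log z := Real.log_pos (by exact_mod_cast (by omega : 1 < z))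
  have ex : 20 * Real.log z ≤ Real.exp (3 / 2 * σ) := by
    have m := (mertens_exp (by omega) hl hyz).1
    have y0 : 0 < Real.log y := by linarith
    refine le_of_sq_le_sq ?_ (Real.exp_pos _).le
    rw [← Real.exp_nat_mul, show ((2 : ℕ) : ℝ) * (3 / 2 * σ) = (3 : ℕ) * σ by push_cast; ring,
      Real.exp_nat_mul]
    have m3 := pow_le_pow_left₀ z0.le m 3
    have : 27 * Real.log y ^ 3 * (20 * Real.log z) ^ 2 ≤ 27 * Real.log y ^ 3 * Real.exp σ ^ 3 := by
      calc _ = 10800 * Real.log y ^ 3 * Real.log z ^ 2 := by ring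
        _ ≤ Real.log z * Real.log z ^ 2 := by gcongr
        _ = Real.log z ^ 3 := by ring
        _ ≤ _ := m3.trans (le_of_eq (by ring))
    exact le_of_mul_le_mul_left this (by positivity)
  have o4 : ∑ s ∈ E.powerset, ∑ t ∈ E.powerset, (if s = t then wt E s t else 0) ≤
      Pi / Real.log z := by
    have := (sum_wt_exp E fun q hq => hy.trans (hE q hq).2.1.le).2
    rw [le_div_iff₀ z0, Finset.sum_mul]
    refine le_of_mul_le_mul_left (le_trans ?_ this) (by norm_num : (0 : ℝ) < 20)
    rw [Finset.mul_sum]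
    refine Finset.sum_le_sum fun s _ => ?_
    rw [Finset.sum_mul, Finset.mul_sum]
    refine Finset.sum_le_sum fun t _ => ?_
    split_ifs with c
    · subst c
      have : top E s s = σ := by simp [top, σ]
      rw [this]
      nlinarith [mul_le_mul_of_nonneg_left ex (w0 s s)]
    · simp only [zero_mul, mul_zero]
      exact mul_nonneg (w0 s t) (Real.exp_pos _).le
  calc _ ≤ ∑ s ∈ E.powerset, ∑ t ∈ E.powerset, ((if R s t then wt E s t else 0) +
        (if R t s then wt E s t else 0) + (if s = t then wt E s t else 0)) := by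
        refine Finset.sum_le_sum fun s hs => Finset.sum_le_sum fun t ht => ?_
        have w := w0 s t
        by_cases c : pr s ≤ 2 * pr t ∧ pr t ≤ 2 * pr s
        · rw [if_pos c]
          by_cases e : s = t
          · rw [if_pos e]; split_ifs <;> linarith
          have ne : (E.filter fun q => ¬ (q ∈ s ↔ q ∈ t)).Nonempty := by
            by_contra hc
            rw [Finset.not_nonempty_iff_eq_empty, Finset.filter_eq_empty_iff] at hc
            refine e (Finset.ext fun q => ⟨fun h => ?_, fun h => ?_⟩)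
            · exact (not_not.1 (hc (Finset.mem_powerset.1 hs h))).1 h
            · exact (not_not.1 (hc (Finset.mem_powerset.1 ht h))).2 h
          obtain ⟨-, m2⟩ := Finset.mem_filter.1 (Finset.max'_mem _ ne)
          have mx : ∀ q ∈ E, ¬ (q ∈ s ↔ q ∈ t) → q ≤ Finset.max' _ ne := fun q hq c =>
            Finset.le_max' _ q (Finset.mem_filter.2 ⟨hq, c⟩)
          by_cases h1 : Finset.max' _ ne ∈ s
          · have : R s t := ⟨c, _, h1, by tauto, mx⟩
            rw [if_pos this]; split_ifs <;> linarith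
          · have : R t s := ⟨c.symm, _, by tauto, h1, fun q hq c => mx q hq (by tauto)⟩
            rw [if_pos this]; split_ifs <;> linarith
        · rw [if_neg c]; split_ifs <;> linarith
    _ ≤ _ := by
        simp only [Finset.sum_add_distrib]
        have : 12241 * Pi / Real.log z =
          6120 * Pi / Real.log z + 6120 * Pi / Real.log z + Pi / Real.log z := by ring
        linarith

end Pool.Agent.Work.MP_ca0f09_nt
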