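import Pool.Agent.Work.MP_ca0f09_nt.D1

/-! Three congruent divisors are rare. -/

set_option autoImplicit false
open Filter Topology Finset

namespace Pool.Agent.Work.MP_ca0f09_nt

/-- no three distinct fillers inside `S` are congruent modulo a special prime -/
def Good3 (P S : Finset ℕ) : Prop :=
  ∀ p ∈ P, ∀ s₁ ⊆ S, ∀ s₂ ⊆ S, ∀ s₃ ⊆ S, pr s₁ ≡ pr s₂ [MOD p] → pr s₁ ≡ pr s₃ [MOD p] →
    s₁ = s₂ ∨ s₁ = s₃ ∨ s₂ = s₃

theorem remove_le (E : Finset ℕ) {x : ℝ} (hx : 0 ≤ x) (A B : Finset (Finset ℕ))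
    (Cl : Finset ℕ → ℕ → Prop) [∀ S, DecidablePred (Cl S)]
    (hA : ∀ S ∈ A, ∃ a ∈ S, a ∈ E ∧ S.erase a ∈ B ∧ Cl (S.erase a) a) :
    ∑ S ∈ A, ∏ q ∈ S, x / q ≤
      ∑ S ∈ B, (∏ q ∈ S, x / q) * (x * ∑ a ∈ E.filter (Cl S), 1 / (a : ℝ)) := by
  classical
  have ex : ∀ S : Finset ℕ, ∃ a : ℕ, S ∈ A →
      a ∈ S ∧ a ∈ E ∧ S.erase a ∈ B ∧ Cl (S.erase a) a := by
    intro S
    by_cases hS : S ∈ A
    · obtain ⟨a, h1, h2⟩ := hA S hS
      exact ⟨a, fun _ => ⟨h1, h2⟩⟩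
    · exact ⟨0, fun c => absurd c hS⟩
  choose al hal using ex
  have h1 : ∑ S ∈ A, ∏ q ∈ S, x / q ≤
      ∑ u ∈ (B ×ˢ E).filter (fun u => Cl u.1 u.2), (∏ q ∈ u.1, x / q) * (x * (1 / (u.2 : ℝ))) := by
    refine sum_le_of_inj (fun S => (S.erase (al S), al S)) ?_ ?_ ?_ ?_
    · intro S hS
      obtain ⟨-, a2, a3, a4⟩ := hal S hS
      exact Finset.mem_filter.2 ⟨Finset.mem_product.2 ⟨a3, a2⟩, a4⟩
    · intro S hS S' hS' e
      simp only [Prod.mk.injEq] at e
      rw [← Finset.insert_erase (hal S hS).1, e.1, e.2, Finset.insert_erase (hal S' hS').1]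
    · intro S hS
      rw [← Finset.mul_prod_erase S _ (hal S hS).1, mul_one_div, mul_comm]
    · intro u _
      exact mul_nonneg (Finset.prod_nonneg fun _ _ => by positivity) (by positivity)
  refine h1.trans (le_of_eq ?_)
  rw [Finset.sum_filter, Finset.sum_product]
  refine Finset.sum_congr rfl fun S _ => ?_
  rw [Finset.sum_filter, Finset.mul_sum, Finset.mul_sum]
  exact Finset.sum_congr rfl fun a _ => by split_ifs <;> simp

theorem class_le (E : Finset ℕ) {p z u v : ℕ} (hp : 0 < p) (hz : 1 ≤ z)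
    (hE : ∀ q ∈ E, p ≤ q ∧ q ≤ z) (hu : Nat.Coprime p u) :
    ∑ a ∈ E.filter (fun a => a * u ≡ v [MOD p]), 1 / (a : ℝ) ≤ (1 + Real.log z) / p := by
  have p0 : (0 : ℝ) < p := by exact_mod_cast hp
  have h1 : ∑ a ∈ E.filter (fun a => a * u ≡ v [MOD p]), 1 / (a : ℝ) ≤
      ∑ k ∈ Icc 1 z, 1 / (k : ℝ) / p := by
    refine sum_le_of_inj (fun a => a / p) ?_ ?_ ?_ fun _ _ => by positivity
    · intro a ha
      obtain ⟨h1, h2⟩ := hE a (Finset.mem_filter.1 ha).1
      exact Finset.mem_Icc.2 ⟨Nat.div_pos h1 hp, (Nat.div_le_self _ _).trans h2⟩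
    · intro a ha b hb e
      have c : a ≡ b [MOD p] := Nat.ModEq.cancel_right_of_coprime hu
        ((Finset.mem_filter.1 ha).2.trans (Finset.mem_filter.1 hb).2.symm)
      simp only at e
      rw [← Nat.div_add_mod a p, ← Nat.div_add_mod b p, e, show a % p = b % p from c]
    · intro a ha
      obtain ⟨h1, -⟩ := hE a (Finset.mem_filter.1 ha).1
      have k : (0 : ℝ) < (a / p : ℕ) := by exact_mod_cast Nat.div_pos h1 hp
      rw [div_div]
      exact one_div_le_one_div_of_le (by positivity) (by exact_mod_cast Nat.div_mul_le_self a p)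
  refine h1.trans ?_
  rw [← Finset.sum_div]
  have := harm_le (Icc 1 z) (x := 1) (y := z) one_pos (by exact_mod_cast hz) fun D hD => by
    rw [Finset.mem_Icc] at hD
    exact ⟨hD.1, by exact_mod_cast hD.1, by exact_mod_cast hD.2⟩
  rw [div_one] at this
  gcongr

theorem coprime_pr {E s : Finset ℕ} {p : ℕ} (hp : p.Prime) (hE : ∀ q ∈ E, q.Prime ∧ p < q)
    (hs : s ⊆ E) : Nat.Coprime p (pr s) :=
  Nat.Coprime.prod_right fun q hq =>
    (Nat.coprime_primes hp (hE q (hs hq)).1).2 (hE q (hs hq)).2.ne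

open Classical in
theorem classes_le (E : Finset ℕ) {p z : ℕ} (hp : p.Prime) (hz : 1 ≤ z)
    (hE : ∀ q ∈ E, q.Prime ∧ p < q ∧ q ≤ z) {S : Finset ℕ} (hS : S ⊆ E) :
    ∑ a ∈ E.filter (fun a => ∃ t ⊆ S, ∃ t' ⊆ S, a * pr t ≡ pr t' [MOD p]), 1 / (a : ℝ) ≤
      4 ^ S.card * ((1 + Real.log z) / p) := by
  calc _ ≤ ∑ a ∈ E, ∑ x ∈ S.powerset ×ˢ S.powerset,
          (if a * pr x.1 ≡ pr x.2 [MOD p] then 1 / (a : ℝ) else 0) := by
        rw [Finset.sum_filter]
        refine Finset.sum_le_sum fun a _ => ?_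
        have nn : ∀ x ∈ S.powerset ×ˢ S.powerset,
            0 ≤ (if a * pr x.1 ≡ pr x.2 [MOD p] then 1 / (a : ℝ) else 0) := fun x _ => by
          split_ifs <;> positivity
        split_ifs with c
        · obtain ⟨t, ht, t', ht', e⟩ := c
          have := Finset.single_le_sum nn (a := (t, t')) (by simp [ht, ht'])
          rwa [if_pos e] at this
        · exact Finset.sum_nonneg nn
    _ ≤ ∑ x ∈ S.powerset ×ˢ S.powerset, (1 + Real.log z) / p := by
        rw [Finset.sum_comm]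
        refine Finset.sum_le_sum fun x hx => ?_
        rw [← Finset.sum_filter]
        exact class_le E hp.pos hz (fun q hq => ⟨(hE q hq).2.1.le, (hE q hq).2.2⟩)
          (coprime_pr hp (fun q hq => ⟨(hE q hq).1, (hE q hq).2.1⟩)
            ((Finset.mem_powerset.1 (Finset.mem_product.1 hx).1).trans hS))
    _ = _ := by
        rw [Finset.sum_const, Finset.card_product, Finset.card_powerset, nsmul_eq_mul]
        push_cast
        rw [← mul_pow]; norm_num

theorem prod_mul_four (S : Finset ℕ) (x : ℝ) :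
    (∏ q ∈ S, x / q) * 4 ^ S.card = ∏ q ∈ S, (4 * x) / q := by
  rw [prod_div_eq, prod_div_eq, mul_pow]; ring

open Classical in
theorem bad_one (E : Finset ℕ) {p z : ℕ} (hp : p.Prime) (hz : 1 ≤ z)
    (hE : ∀ q ∈ E, q.Prime ∧ p < q ∧ q ≤ z) :
    ∑ S ∈ E.powerset.filter (fun S => ¬ Good3 {p} S), ∏ q ∈ S, (256 : ℝ) / q ≤
      262144 * ((1 + Real.log z) / p) ^ 2 * ∏ q ∈ E, (1 + 4096 / (q : ℝ)) := by
  set η := (1 + Real.log z) / p
  have η0 : 0 ≤ η := div_nonneg (by have := Real.log_natCast_nonneg z; linarith) (by positivity)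
  let Cl : Finset ℕ → ℕ → Prop := fun S a => ∃ t ⊆ S, ∃ t' ⊆ S, a * pr t ≡ pr t' [MOD p]
  let B := E.powerset.filter (fun S => ∃ t ⊆ S, ∃ t' ⊆ S, t ≠ t' ∧ pr t ≡ pr t' [MOD p])
  have sub : ∀ {t S : Finset ℕ} {a : ℕ}, t ⊆ S → a ∉ t → t ⊆ S.erase a := fun h1 h2 =>
    Finset.subset_erase.2 ⟨h1, h2⟩
  have key : ∀ S ⊆ E, ∀ s₁ ⊆ S, ∀ s₂ ⊆ S, ∀ s₃ ⊆ S, pr s₁ ≡ pr s₂ [MOD p] →
      pr s₂ ≡ pr s₃ [MOD p] → s₂ ≠ s₃ → ∀ a, ¬ (a ∈ s₁ ↔ a ∈ s₂) → (a ∈ s₂ ↔ a ∈ s₃) →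
      a ∈ S ∧ a ∈ E ∧ S.erase a ∈ B ∧ Cl (S.erase a) a := by
    intro S hS s₁ h1 s₂ h2 s₃ h3 e1 e2 ne a c1 c2
    have mB : S.erase a ∈ E.powerset := Finset.mem_powerset.2 ((Finset.erase_subset _ _).trans hS)
    by_cases c : a ∈ s₁
    · have n2 : a ∉ s₂ := by tauto
      have n3 : a ∉ s₃ := by tauto
      exact ⟨h1 c, hS (h1 c), Finset.mem_filter.2 ⟨mB, s₂, sub h2 n2, s₃, sub h3 n3, ne, e2⟩,
        s₁.erase a, Finset.erase_subset_erase a h1, s₂, sub h2 n2, by rwa [pr_erase c]⟩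
    · have n2 : a ∈ s₂ := by tauto
      have n3 : a ∈ s₃ := by tauto
      refine ⟨h2 n2, hS (h2 n2), Finset.mem_filter.2 ⟨mB, s₂.erase a,
        Finset.erase_subset_erase a h2, s₃.erase a, Finset.erase_subset_erase a h3, ?_, ?_⟩,
        s₂.erase a, Finset.erase_subset_erase a h2, s₁, sub h1 c, by rw [pr_erase n2]; exact e1.symm⟩
      · intro e
        exact ne (by rw [← Finset.insert_erase n2, e, Finset.insert_erase n3])
      · rw [← pr_erase n2, ← pr_erase n3] at e2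
        obtain ⟨a1, a2, -⟩ := hE a (hS (h2 n2))
        exact Nat.ModEq.cancel_left_of_coprime ((Nat.coprime_primes hp a1).2 a2.ne) e2
  have s1 := remove_le E (x := 256) (by norm_num) (E.powerset.filter (fun S => ¬ Good3 {p} S)) B Cl
    (by
      intro S hS
      obtain ⟨m, c⟩ := Finset.mem_filter.1 hS
      rw [Finset.mem_powerset] at m
      simp only [Good3, Finset.mem_singleton, forall_eq, not_forall, not_or] at c
      obtain ⟨s₁, h1, s₂, h2, s₃, h3, e1, e2, n1, n2, n3⟩ := c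
      obtain ⟨a, ha⟩ : ∃ a, ¬ (a ∈ s₁ ↔ a ∈ s₂) := by
        by_contra c
        push Not at c
        exact n1 (Finset.ext c)
      by_cases c : a ∈ s₂ ↔ a ∈ s₃
      · obtain ⟨k1, k2⟩ := key S m s₁ h1 s₂ h2 s₃ h3 e1 (e1.symm.trans e2) n3 a ha c
        exact ⟨a, k1, k2⟩
      · obtain ⟨k1, k2⟩ := key S m s₂ h2 s₁ h1 s₃ h3 e1.symm e2 n2 a (by tauto) (by tauto)
        exact ⟨a, k1, k2⟩)
  have s2 := remove_le E (x := 1024) (by norm_num) B E.powerset Cl (by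
    intro S hS
    obtain ⟨m, t, h1, t', h2, ne, e⟩ := Finset.mem_filter.1 hS
    rw [Finset.mem_powerset] at m
    have mB : ∀ a, S.erase a ∈ E.powerset := fun a =>
      Finset.mem_powerset.2 ((Finset.erase_subset _ _).trans m)
    obtain ⟨a, ha⟩ : ∃ a, ¬ (a ∈ t ↔ a ∈ t') := by
      by_contra c
      push Not at c
      exact ne (Finset.ext c)
    by_cases c : a ∈ t
    · exact ⟨a, h1 c, m (h1 c), mB a, t.erase a, Finset.erase_subset_erase a h1, t',
        sub h2 (by tauto), by rwa [pr_erase c]⟩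
    · have c' : a ∈ t' := by tauto
      exact ⟨a, h2 c', m (h2 c'), mB a, t'.erase a, Finset.erase_subset_erase a h2, t,
        sub h1 c, by rw [pr_erase c']; exact e.symm⟩)
  have step : ∀ (x : ℝ) (T : Finset (Finset ℕ)), 0 ≤ x → T ⊆ E.powerset →
      ∑ S ∈ T, (∏ q ∈ S, x / q) * (x * ∑ a ∈ E.filter (Cl S), 1 / (a : ℝ)) ≤
        x * η * ∑ S ∈ T, ∏ q ∈ S, (4 * x) / q := by
    intro x T hx hT
    rw [Finset.mul_sum]
    refine Finset.sum_le_sum fun S hS => ?_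
    have := classes_le E hp hz hE (Finset.mem_powerset.1 (hT hS))
    have nn : 0 ≤ ∏ q ∈ S, x / q := Finset.prod_nonneg fun _ _ => by positivity
    calc _ ≤ (∏ q ∈ S, x / q) * (x * (4 ^ S.card * η)) := by gcongr
      _ = _ := by rw [← prod_mul_four]; ring
  have t1 := step 256 B (by norm_num) (Finset.filter_subset _ _)
  have t2 := step 1024 E.powerset (by norm_num) subset_rfl
  have t3 : ∑ S ∈ E.powerset, ∏ q ∈ S, (4 * 1024 : ℝ) / q = ∏ q ∈ E, (1 + 4096 / (q : ℝ)) := by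
    rw [Finset.prod_one_add]; norm_num
  rw [t3] at t2
  rw [show (4 * 256 : ℝ) = 1024 by norm_num] at t1
  calc _ ≤ 256 * η * (1024 * η * ∏ q ∈ E, (1 + 4096 / (q : ℝ))) := by
        refine s1.trans (t1.trans ?_)
        gcongr
        exact s2.trans t2
    _ = _ := by ring

open Classical in
theorem bad_le (P E : Finset ℕ) {x z : ℕ} (hx : 1 ≤ x) (hz : 1 ≤ z) (hP : ∀ p ∈ P, p.Prime ∧ x ≤ p)
    (hE : ∀ q ∈ E, q.Prime ∧ q ≤ z) (hPE : ∀ p ∈ P, ∀ q ∈ E, p < q) :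
    ∑ S ∈ E.powerset.filter (fun S => ¬ Good3 P S), law E S * 256 ^ S.card ≤
      262144 * (1 + Real.log z) ^ 2 * (∏ q ∈ E, (1 + 4096 / (q : ℝ))) *
        (∑ p ∈ P, 1 / (p : ℝ)) / x := by
  have nn : ∀ S : Finset ℕ, 0 ≤ ∏ q ∈ S, (256 : ℝ) / q := fun S =>
    Finset.prod_nonneg fun _ _ => by positivity
  calc _ ≤ ∑ S ∈ E.powerset, ∑ p ∈ P, (if ¬ Good3 {p} S then ∏ q ∈ S, (256 : ℝ) / q else 0) := by
        rw [Finset.sum_filter]
        refine Finset.sum_le_sum fun S _ => ?_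
        have n2 : ∀ p ∈ P, 0 ≤ (if ¬ Good3 {p} S then ∏ q ∈ S, (256 : ℝ) / q else 0) :=
          fun p _ => by split_ifs; exacts [le_rfl, nn S]
        split_ifs with c
        · exact Finset.sum_nonneg n2
        · obtain ⟨p, hp, e⟩ : ∃ p ∈ P, ¬ Good3 {p} S := by
            by_contra k
            push Not at k
            exact c fun p hp => k p hp p (Finset.mem_singleton_self p)
          have := Finset.single_le_sum n2 hp
          rw [if_pos e] at this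
          exact (law_mul_le (fun q hq => (hE q hq).1) S (by norm_num)).trans this
    _ ≤ ∑ p ∈ P, 262144 * (1 + Real.log z) ^ 2 * (∏ q ∈ E, (1 + 4096 / (q : ℝ))) *
          (1 / (p : ℝ)) / x := by
        rw [Finset.sum_comm]
        refine Finset.sum_le_sum fun p hp => ?_
        rw [← Finset.sum_filter]
        refine (bad_one E (hP p hp).1 hz fun q hq =>
          ⟨(hE q hq).1, hPE p hp q hq, (hE q hq).2⟩).trans ?_
        have x0 : (0 : ℝ) < x := by exact_mod_cast hx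
        have xp : (x : ℝ) ≤ p := by exact_mod_cast (hP p hp).2
        have p0 : (0 : ℝ) < p := by linarith
        have : 0 ≤ ∏ q ∈ E, (1 + 4096 / (q : ℝ)) := Finset.prod_nonneg fun _ _ => by positivity
        calc _ = 262144 * (1 + Real.log z) ^ 2 * (∏ q ∈ E, (1 + 4096 / (q : ℝ))) *
              (1 / (p : ℝ)) / p := by field_simp
          _ ≤ _ := by gcongr
    _ = _ := by rw [← Finset.sum_div, ← Finset.mul_sum]

end Pool.Agent.Work.MP_ca0f09_nt
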