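import Pool.Agent.Work.MP_ca0f09_nt.D2
import Pool.Agent.Work.MP_ca0f09_nt.D3

/-! The edge set, the cut-off and the averaging over the scale and the residue class. -/

set_option autoImplicit false
open Filter Topology Finset

namespace Pool.Agent.Work.MP_ca0f09_nt

/-- edges at scale `D` in the class `a` modulo `W` -/
noncomputable def edges (P E : Finset ℕ) (ε : ℝ) (W D a : ℕ) : Finset (ℕ × Finset ℕ) :=
  (P ×ˢ E.powerset).filter fun τ => D ≤ τ.1 * pr τ.2 ∧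
    ((τ.1 * pr τ.2 : ℕ) : ℝ) ≤ (1 + ε) * D ∧ τ.1 * pr τ.2 ≡ a [MOD W]

/-- weighted number of edges through the special prime `q` present at `S` -/
noncomputable def NN (Ed : Finset (ℕ × Finset ℕ)) (S : Finset ℕ) (q : ℕ) : ℝ :=
  ∑ τ ∈ Ed.filter (fun τ => τ.1 = q ∧ τ.2 ⊆ S), (255 : ℝ) ^ τ.2.card

open Classical in
/-- the cut-off -/
noncomputable def uu (P : Finset ℕ) (Ed : Finset (ℕ × Finset ℕ)) (lam K γ B : ℝ) (S : Finset ℕ)
    (τ : ℕ × Finset ℕ) : ℝ :=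
  if τ.2 ⊆ S ∧ NN Ed S τ.1 ≤ K * (256 ^ S.card / lam) ∧
    (255 : ℝ) ^ τ.2.card ≤ γ * (256 ^ S.card / lam) / 2 ∧ 256 ^ S.card / lam ≤ B ∧ Good3 P S
  then 1 else 0

theorem NN_nonneg (Ed : Finset (ℕ × Finset ℕ)) (S : Finset ℕ) (q : ℕ) : 0 ≤ NN Ed S q :=
  Finset.sum_nonneg fun _ _ => by positivity

theorem uu_K1 (P : Finset ℕ) (Ed : Finset (ℕ × Finset ℕ)) {lam K : ℝ} (γ B : ℝ) (hl : 0 < lam)
    (hK : 0 < K) (S : Finset ℕ) (q : ℕ) :
    ∑ τ ∈ Ed.filter (fun τ => τ.1 = q), (255 : ℝ) ^ τ.2.card * uu P Ed lam K γ B S τ ≤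
      K * (256 ^ S.card / lam) := by
  by_cases c : NN Ed S q ≤ K * (256 ^ S.card / lam)
  · refine le_trans ?_ c
    rw [NN, ← Finset.filter_filter, Finset.sum_filter (p := fun τ : ℕ × Finset ℕ => τ.2 ⊆ S)]
    refine Finset.sum_le_sum fun τ _ => ?_
    unfold uu
    split_ifs with a b b
    · simp
    · exact absurd a.1 b
    · simp
    · simp
  · rw [Finset.sum_eq_zero]
    · positivity
    intro τ hτ
    rw [uu, if_neg, mul_zero]
    rw [(Finset.mem_filter.1 hτ).2]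
    exact fun a => c a.2.1

theorem uu_K2 (P : Finset ℕ) (Ed : Finset (ℕ × Finset ℕ)) {lam γ : ℝ} (K B : ℝ) (hl : 0 < lam)
    (hγ : 0 ≤ γ) (S : Finset ℕ) (q : ℕ) {q' : ℕ} (hq : q' ∈ P) (b : ℕ) :
    ∑ τ ∈ Ed.filter (fun τ => τ.1 = q ∧ pr τ.2 ≡ b [MOD q']),
      (255 : ℝ) ^ τ.2.card * uu P Ed lam K γ B S τ ≤ γ * (256 ^ S.card / lam) := by
  classical
  set T := (Ed.filter (fun τ => τ.1 = q ∧ pr τ.2 ≡ b [MOD q'])).filter fun τ =>
    τ.2 ⊆ S ∧ NN Ed S τ.1 ≤ K * (256 ^ S.card / lam) ∧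
    (255 : ℝ) ^ τ.2.card ≤ γ * (256 ^ S.card / lam) / 2 ∧ 256 ^ S.card / lam ≤ B ∧ Good3 P S
    with hT
  have e : ∑ τ ∈ Ed.filter (fun τ => τ.1 = q ∧ pr τ.2 ≡ b [MOD q']),
      (255 : ℝ) ^ τ.2.card * uu P Ed lam K γ B S τ = ∑ τ ∈ T, (255 : ℝ) ^ τ.2.card := by
    rw [hT, Finset.sum_filter (s := Ed.filter _)]
    refine Finset.sum_congr rfl fun τ _ => ?_
    unfold uu
    split_ifs <;> simp
  have hc : T.card ≤ 2 := by
    by_contra c
    obtain ⟨x, y, z, hx, hy, hz, n1, n2, n3⟩ := Finset.two_lt_card_iff.1 (not_le.1 c)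
    simp only [hT, Finset.mem_filter] at hx hy hz
    rcases hx.2.2.2.2.2 q' hq _ hx.2.1 _ hy.2.1 _ hz.2.1 (hx.1.2.2.trans hy.1.2.2.symm)
      (hx.1.2.2.trans hz.1.2.2.symm) with k | k | k
    · exact n1 (Prod.ext (hx.1.2.1.trans hy.1.2.1.symm) k)
    · exact n2 (Prod.ext (hx.1.2.1.trans hz.1.2.1.symm) k)
    · exact n3 (Prod.ext (hy.1.2.1.trans hz.1.2.1.symm) k)
  rw [e]
  have h1 := Finset.sum_le_card_nsmul T (fun τ => (255 : ℝ) ^ τ.2.card)
    (γ * (256 ^ S.card / lam) / 2) fun τ hτ => (Finset.mem_filter.1 hτ).2.2.2.1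
  rw [nsmul_eq_mul] at h1
  have h2 : (T.card : ℝ) ≤ 2 := by exact_mod_cast hc
  have h3 : 0 ≤ γ * (256 ^ S.card / lam) / 2 := by positivity
  nlinarith

open Classical in
theorem one_sub_uu (P : Finset ℕ) (Ed : Finset (ℕ × Finset ℕ)) {lam K γ B Y : ℝ} (hl : 0 < lam)
    (hK : 0 < K) (hB : 0 < B) (hY : 0 ≤ Y) (hγ : 0 < γ) (hYγ : 2 * lam ≤ γ * Y ^ 8)
    {S : Finset ℕ} {τ : ℕ × Finset ℕ} (hS : τ.2 ⊆ S) :
    1 - uu P Ed lam K γ B S τ ≤ lam / K * NN Ed S τ.1 * (1 / 256) ^ S.card +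
      Y * 2 ^ τ.2.card * (1 / 2) ^ S.card + 1 / (lam * B) * 256 ^ S.card +
      (if ¬ Good3 P S then 1 else 0) := by
  have a1 : 0 ≤ lam / K * NN Ed S τ.1 * (1 / 256) ^ S.card := by
    have := NN_nonneg Ed S τ.1; positivity
  have a2 : 0 ≤ Y * 2 ^ τ.2.card * (1 / 2) ^ S.card := by positivity
  have a3 : 0 ≤ 1 / (lam * B) * 256 ^ S.card := by positivity
  have a4 : (0 : ℝ) ≤ (if ¬ Good3 P S then 1 else 0) := by split_ifs <;> norm_num
  have p0 : (0 : ℝ) < 256 ^ S.card := by positivity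
  unfold uu
  by_cases c1 : NN Ed S τ.1 ≤ K * (256 ^ S.card / lam)
  · by_cases c2 : (255 : ℝ) ^ τ.2.card ≤ γ * (256 ^ S.card / lam) / 2
    · by_cases c3 : 256 ^ S.card / lam ≤ B
      · by_cases c4 : Good3 P S
        · rw [if_pos ⟨hS, c1, c2, c3, c4⟩]; linarith
        · rw [if_neg fun a => c4 a.2.2.2.2, if_pos c4]; linarith
      · rw [if_neg fun a => c3 a.2.2.2.1]
        have : 1 ≤ 1 / (lam * B) * 256 ^ S.card := by
          rw [not_le, lt_div_iff₀ hl] at c3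
          rw [one_div_mul_eq_div, le_div_iff₀ (by positivity)]; linarith
        linarith
    · rw [if_neg fun a => c2 a.2.2.1]
      have : 1 ≤ Y * 2 ^ τ.2.card * (1 / 2) ^ S.card := by
        rw [one_div, inv_pow, ← div_eq_mul_inv, le_div_iff₀ (by positivity), one_mul]
        refine le_of_pow_le_pow_left₀ (n := 8) (by norm_num) (by positivity) ?_
        have e : ∀ k : ℕ, ((2 : ℝ) ^ k) ^ 8 = 256 ^ k := fun k => by
          rw [← pow_mul, mul_comm, pow_mul]; norm_num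
        rw [mul_pow, e, e]
        have h1 : (255 : ℝ) ^ τ.2.card ≤ 256 ^ τ.2.card := by gcongr; norm_num
        rw [not_le, ← mul_div_assoc, div_div, div_lt_iff₀ (by positivity)] at c2
        have h2 : γ * 256 ^ S.card ≤ γ * (Y ^ 8 * 256 ^ τ.2.card) :=
          calc _ ≤ 255 ^ τ.2.card * (lam * 2) := c2.le
            _ ≤ 256 ^ τ.2.card * (γ * Y ^ 8) :=
              mul_le_mul h1 (by linarith) (by positivity) (by positivity)
            _ = _ := by ring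
        exact le_of_mul_le_mul_left h2 hγ
      linarith
  · rw [if_neg fun a => c1 a.2.1]
    have : 1 ≤ lam / K * NN Ed S τ.1 * (1 / 256) ^ S.card := by
      calc (1 : ℝ) = lam / K * (K * (256 ^ S.card / lam)) * (1 / 256) ^ S.card := by
            rw [one_div, inv_pow]; field_simp
        _ ≤ _ := by gcongr; exact (not_le.1 c1).le
    linarith

theorem mem_edges {P E : Finset ℕ} {ε : ℝ} {W D a : ℕ} {τ : ℕ × Finset ℕ} :
    τ ∈ edges P E ε W D a ↔ τ.1 ∈ P ∧ τ.2 ⊆ E ∧ D ≤ τ.1 * pr τ.2 ∧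
    ((τ.1 * pr τ.2 : ℕ) : ℝ) ≤ (1 + ε) * D ∧ τ.1 * pr τ.2 ≡ a [MOD W] := by
  simp only [edges, Finset.mem_filter, Finset.mem_product, Finset.mem_powerset, and_assoc]

theorem edge_le {P E : Finset ℕ} {ε : ℝ} (hε : ε ≤ 1) {W D a : ℕ} {τ : ℕ × Finset ℕ}
    (h : τ ∈ edges P E ε W D a) : τ.1 * pr τ.2 ≤ 2 * D := by
  have := (mem_edges.1 h).2.2.2.1
  have h2 : ((τ.1 * pr τ.2 : ℕ) : ℝ) ≤ (2 * D : ℕ) := by
    refine this.trans ?_
    push_cast; gcongr; linarith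
  exact_mod_cast h2

/-- the second moment term of one edge -/
theorem edge_one {P E : Finset ℕ} (hP : ∀ q ∈ P, q.Prime) (hE : ∀ q ∈ E, q.Prime) {ε : ℝ}
    (hε : ε ≤ 1) {W D a : ℕ} {τ : ℕ × Finset ℕ} (h : τ ∈ edges P E ε W D a) :
    (255 : ℝ) ^ τ.2.card * ∑ S ∈ E.powerset.filter (fun S => τ.2 ⊆ S),
        law E S * (NN (edges P E ε W D a) S τ.1 * (1 / 256) ^ S.card) ≤
      ∑ t ∈ E.powerset, if pr τ.2 ≤ 2 * pr t ∧ pr t ≤ 2 * pr τ.2 then wt E τ.2 t else 0 := by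
  obtain ⟨p, s⟩ := τ
  have p0 : 0 < p := (hP p (mem_edges.1 h).1).pos
  have hN : ∀ S, NN (edges P E ε W D a) S p ≤ ∑ t ∈ E.powerset,
      if (pr s ≤ 2 * pr t ∧ pr t ≤ 2 * pr s) ∧ t ⊆ S then (255 : ℝ) ^ t.card else 0 := by
    intro S
    rw [← Finset.sum_filter]
    refine sum_le_of_inj Prod.snd ?_ ?_ (fun _ _ => le_rfl) fun _ _ => by positivity
    · intro τ hτ
      obtain ⟨m, e, k⟩ := Finset.mem_filter.1 hτ
      have a1 := edge_le hε m
      have a2 := edge_le hε h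
      have a3 := (mem_edges.1 m).2.2.1
      have a4 := (mem_edges.1 h).2.2.1
      rw [e] at a1 a3
      refine Finset.mem_filter.2 ⟨Finset.mem_powerset.2 (mem_edges.1 m).2.1, ⟨?_, ?_⟩, k⟩
      · refine Nat.le_of_mul_le_mul_left ?_ p0
        simp only at a2; nlinarith
      · refine Nat.le_of_mul_le_mul_left ?_ p0
        simp only at a4; nlinarith
    · intro τ hτ τ' hτ' e
      exact Prod.ext ((Finset.mem_filter.1 hτ).2.1.trans (Finset.mem_filter.1 hτ').2.1.symm) e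
  calc _ ≤ (255 : ℝ) ^ s.card * ∑ S ∈ E.powerset.filter (fun S => s ⊆ S),
        ∑ t ∈ E.powerset, law E S * ((if (pr s ≤ 2 * pr t ∧ pr t ≤ 2 * pr s) ∧ t ⊆ S then
          (255 : ℝ) ^ t.card else 0) * (1 / 256) ^ S.card) := by
        gcongr with S _
        rw [← Finset.mul_sum, ← Finset.sum_mul]
        have := law_nonneg hE S
        gcongr
        exact hN S
    _ = _ := by
        rw [Finset.sum_comm, Finset.mul_sum]
        refine Finset.sum_congr rfl fun t ht => ?_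
        split_ifs with c
        · rw [← wt_eq (mem_edges.1 h).2.1 (Finset.mem_powerset.1 ht), mul_assoc]
          congr 1
          rw [Finset.mul_sum, Finset.sum_filter, Finset.sum_filter]
          refine Finset.sum_congr rfl fun S _ => ?_
          simp only [c, true_and, Finset.union_subset_iff]
          by_cases c1 : s ⊆ S <;> by_cases c2 : t ⊆ S <;> simp [c1, c2]
          ring
        · simp [c]

theorem prod_half_le {E s : Finset ℕ} (hE : ∀ q ∈ E, q.Prime) (hs : s ⊆ E)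
    (h1 : ∑ q ∈ s, 1 / (q : ℝ) ≤ 1) :
    ∏ q ∈ E \ s, (1 - 1 / (q : ℝ) + 1 / 2 / q) ≤
      Real.exp ((1 - ∑ q ∈ E, 1 / (q : ℝ)) / 2) := by
  calc _ ≤ ∏ q ∈ E \ s, Real.exp (-(1 / (q : ℝ)) / 2) := by
        refine Finset.prod_le_prod (fun q hq => ?_) fun q _ => ?_
        · have := one_sub_nonneg (hE q (Finset.mem_sdiff.1 hq).1)
          positivity
        · have := Real.add_one_le_exp (-(1 / (q : ℝ)) / 2)
          have e : (1 : ℝ) / 2 / q = 1 / q / 2 := by ring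
          linarith
    _ ≤ _ := by
        rw [← Real.exp_sum, Real.exp_le_exp, ← Finset.sum_div, Finset.sum_neg_distrib,
          ← Finset.sum_sdiff hs]
        linarith

open Classical in
/-- removed mass of one edge -/
theorem edge_removed {P E : Finset ℕ} (hP : ∀ q ∈ P, q.Prime) (hE : ∀ q ∈ E, q.Prime) {ε : ℝ}
    (hε : ε ≤ 1) {W D a : ℕ} {lam K γ B Y η : ℝ} (hl : 0 < lam)
    (hK : 0 < K) (hB : 0 < B) (hY : 0 ≤ Y) (hγ : 0 < γ) (hYγ : 2 * lam ≤ γ * Y ^ 8)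
    (h2 : Y * Real.exp ((1 - ∑ q ∈ E, 1 / (q : ℝ)) / 2) ≤ η)
    (h3 : (2 * D) ^ 8 * ∏ q ∈ E, (1 + 255 / (q : ℝ)) ≤ η * (lam * B))
    {τ : ℕ × Finset ℕ} (h : τ ∈ edges P E ε W D a) (h1 : ∑ q ∈ τ.2, 1 / (q : ℝ) ≤ 1) :
    (255 : ℝ) ^ τ.2.card / τ.1 * ∑ S ∈ E.powerset.filter (fun S => τ.2 ⊆ S),
        law E S * (1 - uu P (edges P E ε W D a) lam K γ B S τ) ≤
      1 / τ.1 * (lam / K * (∑ t ∈ E.powerset,
        if pr τ.2 ≤ 2 * pr t ∧ pr t ≤ 2 * pr τ.2 then wt E τ.2 t else 0) +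
        (255 : ℝ) ^ τ.2.card * ∑ S ∈ E.powerset.filter (fun S => τ.2 ⊆ S),
          law E S * (if ¬ Good3 P S then 1 else 0)) +
      2 * η * (255 ^ τ.2.card / (τ.1 * pr τ.2)) := by
  have e1 := edge_one hP hE hε h
  obtain ⟨m1, m2, -⟩ := mem_edges.1 h
  have p0 : (0 : ℝ) < τ.1 := by exact_mod_cast (hP _ m1).pos
  have hs : ∀ q ∈ τ.2, q.Prime := fun q hq => hE q (m2 hq)
  have s0 : (0 : ℝ) < pr τ.2 := by exact_mod_cast pr_pos hs
  have e2 : ∑ S ∈ E.powerset.filter (fun S => τ.2 ⊆ S),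
      law E S * (Y * 2 ^ τ.2.card * (1 / 2) ^ S.card) ≤ η / pr τ.2 := by
    simp only [mul_left_comm (law E _)]
    rw [← Finset.mul_sum, sum_law_sup m2, prod_div_eq]
    calc _ ≤ Y * 2 ^ τ.2.card * ((1 / 2) ^ τ.2.card / pr τ.2 *
          Real.exp ((1 - ∑ q ∈ E, 1 / (q : ℝ)) / 2)) := by
          gcongr; exact prod_half_le hE m2 h1
      _ = Y * Real.exp ((1 - ∑ q ∈ E, 1 / (q : ℝ)) / 2) / pr τ.2 := by
          rw [one_div, inv_pow]; field_simp
      _ ≤ _ := by gcongr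
  have e3 : ∑ S ∈ E.powerset.filter (fun S => τ.2 ⊆ S),
      law E S * (1 / (lam * B) * 256 ^ S.card) ≤ η / pr τ.2 := by
    simp only [mul_left_comm (law E _)]
    rw [← Finset.mul_sum, sum_law_sup m2, prod_div_eq]
    have a1 : ∏ q ∈ E \ τ.2, (1 - 1 / (q : ℝ) + 256 / q) ≤ ∏ q ∈ E, (1 + 255 / (q : ℝ)) := by
      rw [Finset.prod_congr rfl (g := fun q : ℕ => 1 + 255 / (q : ℝ)) fun q _ => by ring]
      exact Finset.prod_le_prod_of_subset_of_one_le Finset.sdiff_subset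
        (fun _ _ => by positivity) fun q _ _ => by
          have : (0 : ℝ) ≤ 255 / q := by positivity
          linarith
    have a2 : (256 : ℝ) ^ τ.2.card ≤ (2 * D) ^ 8 := by
      have b1 := two_pow_le_pr hs
      have b2 := edge_le hε h
      have b3 : pr τ.2 ≤ τ.1 * pr τ.2 := Nat.le_mul_of_pos_left _ (hP _ m1).pos
      have b4 : (2 : ℝ) ^ τ.2.card ≤ 2 * D := by exact_mod_cast b1.trans (b3.trans b2)
      calc (256 : ℝ) ^ τ.2.card = (2 ^ τ.2.card) ^ 8 := by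
            rw [← pow_mul, mul_comm, pow_mul]; norm_num
        _ ≤ _ := by gcongr
    have a0 : 0 ≤ ∏ q ∈ E \ τ.2, (1 - 1 / (q : ℝ) + 256 / q) := Finset.prod_nonneg fun q hq => by
      have := one_sub_nonneg (hE q (Finset.mem_sdiff.1 hq).1)
      positivity
    calc _ ≤ 1 / (lam * B) * ((2 * D) ^ 8 / pr τ.2 * ∏ q ∈ E, (1 + 255 / (q : ℝ))) := by gcongr
      _ = 1 / (lam * B) * ((2 * D) ^ 8 * ∏ q ∈ E, (1 + 255 / (q : ℝ))) / pr τ.2 := by ring
      _ ≤ 1 / (lam * B) * (η * (lam * B)) / pr τ.2 := by gcongr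
      _ = _ := by field_simp
  have e4 := Finset.sum_le_sum (s := E.powerset.filter (fun S => τ.2 ⊆ S)) fun S hS =>
    mul_le_mul_of_nonneg_left (one_sub_uu P (edges P E ε W D a) hl hK hB hY hγ hYγ
      (Finset.mem_filter.1 hS).2) (law_nonneg hE S)
  simp only [mul_add, Finset.sum_add_distrib] at e4
  have e5 : ∑ S ∈ E.powerset.filter (fun S => τ.2 ⊆ S),
      law E S * (lam / K * NN (edges P E ε W D a) S τ.1 * (1 / 256) ^ S.card) =
      lam / K * ∑ S ∈ E.powerset.filter (fun S => τ.2 ⊆ S),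
        law E S * (NN (edges P E ε W D a) S τ.1 * (1 / 256) ^ S.card) := by
    rw [Finset.mul_sum]; exact Finset.sum_congr rfl fun _ _ => by ring
  rw [e5] at e4
  have e6 := mul_le_mul_of_nonneg_left e1 (div_pos hl hK).le
  have w0 : (0 : ℝ) < 255 ^ τ.2.card := by positivity
  set A := ∑ S ∈ E.powerset.filter (fun S => τ.2 ⊆ S),
    law E S * (NN (edges P E ε W D a) S τ.1 * (1 / 256) ^ S.card)
  set G := ∑ S ∈ E.powerset.filter (fun S => τ.2 ⊆ S), law E S * (if ¬ Good3 P S then 1 else 0)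
  calc _ ≤ (255 : ℝ) ^ τ.2.card / τ.1 * (lam / K * A + η / pr τ.2 + η / pr τ.2 + G) := by
        gcongr; linarith
    _ = 1 / τ.1 * (lam / K * (255 ^ τ.2.card * A) + 255 ^ τ.2.card * G) +
      2 * η * (255 ^ τ.2.card / (τ.1 * pr τ.2)) := by field_simp; ring
    _ ≤ _ := by gcongr

theorem avg_eq (P E : Finset ℕ) (ε : ℝ) {W : ℕ} (hW : 1 ≤ W) (Dm : ℕ) (g : ℕ × Finset ℕ → ℝ) :
    ∑ x ∈ Icc 1 Dm ×ˢ range W, 1 / (x.1 : ℝ) * ∑ τ ∈ edges P E ε W x.1 x.2, g τ =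
      ∑ τ ∈ P ×ˢ E.powerset, (∑ D ∈ (Icc 1 Dm).filter (fun D => D ≤ τ.1 * pr τ.2 ∧
        ((τ.1 * pr τ.2 : ℕ) : ℝ) ≤ (1 + ε) * D), 1 / (D : ℝ)) * g τ := by
  simp only [edges, Finset.sum_filter, Finset.mul_sum, Finset.sum_mul]
  rw [Finset.sum_comm]
  refine Finset.sum_congr rfl fun τ _ => ?_
  rw [Finset.sum_product]
  refine Finset.sum_congr rfl fun D _ => ?_
  rw [Finset.sum_eq_single (τ.1 * pr τ.2 % W)]
  · simp [(Nat.mod_modEq _ _).symm]
  · intro b hb ne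
    rw [if_neg, mul_zero]
    intro c
    exact ne (by rw [c.2.2, Nat.mod_eq_of_lt (Finset.mem_range.1 hb)])
  · intro c
    exact absurd (Finset.mem_range.2 (Nat.mod_lt _ hW)) c

theorem avg_le {P E : Finset ℕ} (hP : ∀ q ∈ P, q.Prime) (hE : ∀ q ∈ E, q.Prime) {ε : ℝ}
    (hε : ε ≤ 1) {W : ℕ} (hW : 1 ≤ W) (Dm : ℕ) {g : ℕ × Finset ℕ → ℝ}
    (hg : ∀ τ ∈ P ×ˢ E.powerset, 0 ≤ g τ) :
    ∑ x ∈ Icc 1 Dm ×ˢ range W, 1 / (x.1 : ℝ) * ∑ τ ∈ edges P E ε W x.1 x.2, g τ ≤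
      2 * ∑ τ ∈ P ×ˢ E.powerset, g τ := by
  rw [avg_eq P E ε hW, Finset.mul_sum]
  refine Finset.sum_le_sum fun τ hτ => mul_le_mul_of_nonneg_right ?_ (hg τ hτ)
  obtain ⟨m1, m2⟩ := Finset.mem_product.1 hτ
  have n0 : (0 : ℝ) < (τ.1 * pr τ.2 : ℕ) := by
    exact_mod_cast Nat.mul_pos (hP _ m1).pos
      (pr_pos fun q hq => hE q (Finset.mem_powerset.1 m2 hq))
  refine (harm_le _ (x := (τ.1 * pr τ.2 : ℕ) / 2) (y := (τ.1 * pr τ.2 : ℕ)) (by positivity)
    (by linarith) fun D hD => ?_).trans ?_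
  · obtain ⟨a, b, c⟩ := Finset.mem_filter.1 hD
    refine ⟨(Finset.mem_Icc.1 a).1, ?_, by exact_mod_cast b⟩
    have : (0 : ℝ) ≤ D := by positivity
    nlinarith
  · rw [div_div_cancel₀ n0.ne']
    have := Real.log_two_lt_d9
    linarith

theorem markov (E : Finset ℕ) (hE : ∀ q ∈ E, q.Prime) :
    ∑ s ∈ E.powerset, (255 : ℝ) ^ s.card / pr s * Real.log (pr s) ≤
      (255 * ∑ q ∈ E, Real.log q / q) * ∏ q ∈ E, (1 + 255 / (q : ℝ)) := by
  induction E using Finset.induction_on with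
  | empty => simp [pr]
  | insert a E ha ih =>
    have hE' : ∀ q ∈ E, q.Prime := fun q hq => hE q (Finset.mem_insert_of_mem hq)
    have ih := ih hE'
    have a0 : (0 : ℝ) < a := by exact_mod_cast (hE a (Finset.mem_insert_self _ _)).pos
    rw [Finset.sum_powerset_insert ha, Finset.sum_insert ha, Finset.prod_insert ha]
    have e : ∑ s ∈ E.powerset, (255 : ℝ) ^ (insert a s).card / pr (insert a s) *
        Real.log (pr (insert a s)) = 255 / a * (Real.log a * ∏ q ∈ E, (1 + 255 / (q : ℝ)) +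
          ∑ s ∈ E.powerset, (255 : ℝ) ^ s.card / pr s * Real.log (pr s)) := by
      rw [← sum_pow_div_pr, Finset.mul_sum, ← Finset.sum_add_distrib, Finset.mul_sum]
      refine Finset.sum_congr rfl fun s hs => ?_
      have hs := Finset.mem_powerset.1 hs
      have na : a ∉ s := fun c => ha (hs c)
      have s0 : (0 : ℝ) < pr s := by exact_mod_cast pr_pos fun q hq => hE' q (hs hq)
      rw [Finset.card_insert_of_notMem na, pr, Finset.prod_insert na, ← pr, Nat.cast_mul,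
        Real.log_mul a0.ne' s0.ne']
      field_simp; ring
    rw [e]
    have b1 : 0 ≤ ∏ q ∈ E, (1 + 255 / (q : ℝ)) := Finset.prod_nonneg fun _ _ => by positivity
    have b2 : 0 ≤ Real.log a := Real.log_natCast_nonneg a
    have b3 : (0 : ℝ) ≤ 255 / a := by positivity
    have b4 := mul_le_mul_of_nonneg_left ih b3
    have b5 := mul_nonneg (mul_nonneg b3 b3) (mul_nonneg b1 b2)
    have e2 : 255 * (Real.log a / a) = 255 / a * Real.log a := by ring
    rw [mul_add (255 : ℝ), e2]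
    nlinarith

theorem half_mass {y z : ℕ} (hz : 14 ≤ Real.log z) :
    let E := (Ioc y z).filter Nat.Prime
    (∏ q ∈ E, (1 + 255 / (q : ℝ))) / 2 ≤
      ∑ s ∈ E.powerset.filter (fun s => pr s ≤ z ^ 1020), (255 : ℝ) ^ s.card / pr s := by
  intro E
  have hE : ∀ q ∈ E, q.Prime := fun q hq => (Finset.mem_filter.1 hq).2
  have z0 : 0 < z := by
    rcases Nat.eq_zero_or_pos z with rfl | h
    · norm_num at hz
    · exact h
  have h1 := markov E hE
  have h2 : ∑ q ∈ E, Real.log q / q ≤ 2 * Real.log z := by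
    have a := (abs_le.1 (Lib.ANT.abs_sum_log_div_prime_sub_log_le z z0)).2
    have b : ∑ q ∈ E, Real.log q / q ≤ ∑ p ∈ (Ioc 0 z).filter Nat.Prime, Real.log p / p :=
      Finset.sum_le_sum_of_subset_of_nonneg
        (Finset.filter_subset_filter _ (Finset.Ioc_subset_Ioc_left (Nat.zero_le _)))
        fun q _ _ => div_nonneg (Real.log_natCast_nonneg q) (by positivity)
    linarith
  have h3 := Finset.sum_filter_add_sum_filter_not E.powerset (fun s => pr s ≤ z ^ 1020)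
    fun s => (255 : ℝ) ^ s.card / pr s
  rw [sum_pow_div_pr] at h3
  have h4 : (∑ s ∈ E.powerset.filter (fun s => ¬ pr s ≤ z ^ 1020), (255 : ℝ) ^ s.card / pr s) *
      (1020 * Real.log z) ≤ ∑ s ∈ E.powerset, (255 : ℝ) ^ s.card / pr s * Real.log (pr s) := by
    rw [Finset.sum_mul]
    refine le_trans (Finset.sum_le_sum fun s hs => ?_) (Finset.sum_le_sum_of_subset_of_nonneg
      (Finset.filter_subset (fun s => ¬ pr s ≤ z ^ 1020) _) fun s _ _ =>
        mul_nonneg (by positivity) (Real.log_natCast_nonneg _))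
    have c : ((z : ℝ)) ^ 1020 ≤ pr s := by exact_mod_cast (not_le.1 (Finset.mem_filter.1 hs).2).le
    have d := Real.log_le_log (by positivity) c
    rw [Real.log_pow] at d
    gcongr
    exact_mod_cast d
  have b1 : 0 ≤ ∏ q ∈ E, (1 + 255 / (q : ℝ)) := Finset.prod_nonneg fun _ _ => by positivity
  have h5 : (∑ s ∈ E.powerset.filter (fun s => ¬ pr s ≤ z ^ 1020), (255 : ℝ) ^ s.card / pr s) *
      (1020 * Real.log z) ≤ (∏ q ∈ E, (1 + 255 / (q : ℝ))) / 2 * (1020 * Real.log z) := by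
    nlinarith
  have := le_of_mul_le_mul_right h5 (by linarith)
  linarith

end Pool.Agent.Work.MP_ca0f09_nt
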