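import Pool.Agent.Work.MP_ca0f09_nt.D4

/-! The divisor system from numerical conditions on its parameters. -/

set_option autoImplicit false
open Filter Topology Finset

namespace Pool.Agent.Work.MP_ca0f09_nt

theorem mean_rho (E : Finset ℕ) (lam : ℝ) :
    ∑ S ∈ E.powerset, law E S * (256 ^ S.card / lam) = (∏ q ∈ E, (1 + 255 / (q : ℝ))) / lam := by
  have h := sum_law_sup (Finset.empty_subset E) 256
  simp only [Finset.empty_subset, Finset.filter_true, Finset.prod_empty, one_mul,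
    Finset.sdiff_empty] at h
  simp only [← mul_div_assoc]
  rw [← Finset.sum_div, h]
  congr 1
  exact Finset.prod_congr rfl fun q _ => by ring

open Classical in
theorem bad_sum (P E : Finset ℕ) :
    ∑ s ∈ E.powerset, (255 : ℝ) ^ s.card * ∑ S ∈ E.powerset.filter (fun S => s ⊆ S),
      law E S * (if ¬ Good3 P S then 1 else 0) =
    ∑ S ∈ E.powerset.filter (fun S => ¬ Good3 P S), law E S * 256 ^ S.card := by
  simp only [Finset.sum_filter, Finset.mul_sum]
  rw [Finset.sum_comm]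
  refine Finset.sum_congr rfl fun S hS => ?_
  by_cases c : Good3 P S
  · simp [c]
  · simp only [c, not_false_eq_true, if_true, mul_one, mul_ite, mul_zero]
    rw [← Finset.sum_filter, ← Finset.sum_mul, mul_comm]
    congr 1
    have e : E.powerset.filter (fun s => s ⊆ S) = S.powerset := by
      ext s
      simp only [Finset.mem_filter, Finset.mem_powerset] at hS ⊢
      exact ⟨fun h => h.2, fun h => ⟨h.trans hS, h⟩⟩
    have := Finset.sum_pow_mul_eq_add_pow (255 : ℝ) 1 S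
    simp only [one_pow, mul_one] at this
    rw [e, this]; norm_num

theorem avg_tot {x y z : ℕ} (hyz : y ≤ z) (hz : 14 ≤ Real.log z) {ε : ℝ} (hε : 0 < ε)
    (hε1 : ε ≤ 1) {W : ℕ} (hW : 1 ≤ W) :
    let P := (Ioc x y).filter Nat.Prime
    let E := (Ioc y z).filter Nat.Prime
    ε / 4 * ((∑ p ∈ P, 1 / (p : ℝ)) * ∏ q ∈ E, (1 + 255 / (q : ℝ))) ≤
      ∑ v ∈ Icc 1 (z ^ 1021) ×ˢ range W, 1 / (v.1 : ℝ) *
        ∑ τ ∈ edges P E ε W v.1 v.2, (255 : ℝ) ^ τ.2.card / (τ.1 * pr τ.2) := by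
  intro P E
  rw [avg_eq P E ε hW]
  have h1 := half_mass (y := y) hz
  simp only at h1
  calc _ = ε / 2 * ((∑ p ∈ P, 1 / (p : ℝ)) * ((∏ q ∈ E, (1 + 255 / (q : ℝ))) / 2)) := by ring
    _ ≤ ε / 2 * ((∑ p ∈ P, 1 / (p : ℝ)) * ∑ s ∈ E.powerset.filter (fun s => pr s ≤ z ^ 1020),
        (255 : ℝ) ^ s.card / pr s) := by clear * - ε P E z h1 hε; gcongr
    _ = ∑ τ ∈ P ×ˢ E.powerset.filter (fun s => pr s ≤ z ^ 1020),
        ε / 2 * ((255 : ℝ) ^ τ.2.card / (τ.1 * pr τ.2)) := by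
        clear * - ε P z E
        rw [← Finset.mul_sum, Finset.sum_product, Finset.sum_mul_sum]
        congr 1
        exact Finset.sum_congr rfl fun _ _ => Finset.sum_congr rfl fun _ _ => by ring
    _ ≤ _ := by
        clear * - P z E ε x y hyz hε hε1
        refine le_trans (Finset.sum_le_sum fun τ hτ => ?_) (Finset.sum_le_sum_of_subset_of_nonneg
          (Finset.product_subset_product_right (Finset.filter_subset (fun s => pr s ≤ z ^ 1020) _))
          fun _ _ _ => by positivity)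
        obtain ⟨m1, m2⟩ := Finset.mem_product.1 hτ
        obtain ⟨m2, m3⟩ := Finset.mem_filter.1 m2
        obtain ⟨m1, m4⟩ := Finset.mem_filter.1 m1
        refine mul_le_mul_of_nonneg_right (harm_ge (Nat.mul_pos m4.pos (pr_pos fun q hq =>
          (Finset.mem_filter.1 (Finset.mem_powerset.1 m2 hq)).2)) ?_ hε hε1) (by positivity)
        rw [pow_succ']
        exact Nat.mul_le_mul ((Finset.mem_Ioc.1 m1).2.trans hyz) m3

theorem edge_ratio {x y : ℕ} {E : Finset ℕ} (hE : ∀ q ∈ E, q.Prime) {ε : ℝ} (hε : ε ≤ 1)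
    {W D a : ℕ} {τ : ℕ × Finset ℕ} (h : τ ∈ edges ((Ioc x y).filter Nat.Prime) E ε W D a) :
    (x : ℝ) / 2 * pr τ.2 ≤ D ∧ (D : ℝ) ≤ y * pr τ.2 := by
  have a1 := edge_le hε h
  obtain ⟨m1, -, m3, -⟩ := mem_edges.1 h
  obtain ⟨b1, b2⟩ := Finset.mem_Ioc.1 (Finset.mem_filter.1 m1).1
  constructor
  · have : x * pr τ.2 ≤ 2 * D := (Nat.mul_le_mul_right _ b1.le).trans a1
    have : (x : ℝ) * pr τ.2 ≤ 2 * D := by exact_mod_cast this
    linarith
  · exact_mod_cast m3.trans (Nat.mul_le_mul_right _ b2)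

theorem avg_free {x y : ℕ} (hx : 48 ≤ Real.log x) (hxy : x ≤ y) {M : ℝ}
    (hM : Real.log y ≤ M * Real.log x) {E : Finset ℕ} (hE : ∀ q ∈ E, q.Prime) {ε : ℝ} (hε : ε ≤ 1)
    (W Dm : ℕ) :
    ∑ v ∈ Icc 1 Dm ×ˢ range W, 1 / (v.1 : ℝ) *
      ∑ s ∈ (edges ((Ioc x y).filter Nat.Prime) E ε W v.1 v.2).image Prod.snd,
        (255 : ℝ) ^ s.card / (pr s * Real.log ((v.1 : ℝ) / pr s)) ≤
      2 * M * W * ∏ q ∈ E, (1 + 255 / (q : ℝ)) := by
  have x0 : (0 : ℝ) < x := by
    rcases Nat.eq_zero_or_pos x with rfl | h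
    · norm_num at hx
    · exact_mod_cast h
  have xy : (x : ℝ) ≤ y := by exact_mod_cast hxy
  have l2 := Real.log_two_lt_d9
  have l0 : 0 < Real.log x := by linarith
  calc _ ≤ ∑ v ∈ Icc 1 Dm ×ˢ range W, ∑ s ∈ E.powerset,
        (if (x : ℝ) / 2 * pr s ≤ v.1 ∧ (v.1 : ℝ) ≤ y * pr s then 1 / (v.1 : ℝ) else 0) *
          (2 / Real.log x * (255 ^ s.card / pr s)) := by
        clear * - x y E ε W Dm hE hε x0 hx l2
        refine Finset.sum_le_sum fun v _ => ?_
        simp only [ite_mul, zero_mul]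
        rw [← Finset.sum_filter, ← Finset.mul_sum]
        refine mul_le_mul_of_nonneg_left (sum_le_of_inj id ?_ (Set.injOn_id _) ?_
          fun _ _ => by positivity) (by positivity)
        · intro s hs
          obtain ⟨τ, hτ, rfl⟩ := Finset.mem_image.1 hs
          exact Finset.mem_filter.2 ⟨Finset.mem_powerset.2 (mem_edges.1 hτ).2.1,
            edge_ratio hE hε hτ⟩
        · intro s hs
          obtain ⟨τ, hτ, rfl⟩ := Finset.mem_image.1 hs
          have s0 : (0 : ℝ) < pr τ.2 := by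
            exact_mod_cast pr_pos fun q hq => hE q ((mem_edges.1 hτ).2.1 hq)
          have a1 := Real.log_le_log (by positivity) ((le_div_iff₀ s0).2 (edge_ratio hE hε hτ).1)
          rw [Real.log_div x0.ne' two_ne_zero] at a1
          calc _ ≤ (255 : ℝ) ^ τ.2.card / (pr τ.2 * (Real.log x / 2)) := by clear * - τ v x s0 hx l2 a1; gcongr; linarith
            _ = _ := by simp only [id]; field_simp
    _ = W * ∑ s ∈ E.powerset, (∑ D ∈ (Icc 1 Dm).filter (fun D : ℕ =>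
          (x : ℝ) / 2 * pr s ≤ D ∧ (D : ℝ) ≤ y * pr s), 1 / (D : ℝ)) *
          (2 / Real.log x * (255 ^ s.card / pr s)) := by
        rw [Finset.sum_product_right, Finset.sum_congr rfl fun _ _ => Finset.sum_comm]
        simp only [Finset.sum_const, Finset.card_range, nsmul_eq_mul, Finset.sum_filter,
          Finset.sum_mul]
    _ ≤ W * ∑ s ∈ E.powerset, (M * Real.log x) * (2 / Real.log x * (255 ^ s.card / pr s)) := by
        gcongr with s hs
        have s0 : (0 : ℝ) < pr s := by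
          exact_mod_cast pr_pos fun q hq => hE q (Finset.mem_powerset.1 hs hq)
        refine (harm_le _ (x := x / 2 * pr s) (y := y * pr s) (by positivity)
          (by gcongr; linarith) fun D hD => ?_).trans ?_
        · obtain ⟨a, b⟩ := Finset.mem_filter.1 hD
          exact ⟨(Finset.mem_Icc.1 a).1, b⟩
        · rw [mul_div_mul_right _ _ s0.ne', Real.log_div (by linarith) (by positivity),
            Real.log_div x0.ne' two_ne_zero]
          linarith
    _ = _ := by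
        clear * - W E M x hx
        rw [← Finset.mul_sum, ← Finset.mul_sum, sum_pow_div_pr]
        field_simp

theorem sys_of (h W : ℕ) (hW : 1 ≤ W) {ε : ℝ} (hε : 0 < ε) (hε1 : ε ≤ 1) {C Q₀ K Y M : ℝ}
    {x y z r Dm : ℕ} (hDm : Dm = z ^ 1021) (hC : 0 < C) (a1 : h ≤ x) (a2 : W ≤ x) (a3 : 2 * r ≤ x) (a4 : 1 ≤ r)
    (a5 : 10000 ≤ x) (a6 : x ≤ y) (a7 : y ≤ z) (a8 : 48 ≤ Real.log x) (a9 : 2 * Q₀ ≤ x)
    (hd : 10800 * Real.log y ^ 3 ≤ Real.log z) (hK1 : 1 ≤ K) (hK2 : 24482 ≤ ε ^ 2 / 48 * K)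
    (hL1 : 1 ≤ ∑ p ∈ (Ioc x y).filter Nat.Prime, 1 / (p : ℝ))
    (hL : 1022 * W * K ≤ ε ^ 2 / 48 * √(∑ p ∈ (Ioc x y).filter Nat.Prime, 1 / (p : ℝ)))
    (hY0 : 0 ≤ Y) (hY : 4 * r * Real.log z ≤ Y ^ 8)
    (h2 : Y * Real.exp ((1 - ∑ q ∈ (Ioc y z).filter Nat.Prime, 1 / (q : ℝ)) / 2) ≤ ε / 3)
    (hB : (2 * h + 1) * (Dm : ℝ) * (2 * Dm) ^ 8 * 3 ≤ 4 ^ r * ε)
    (h4 : 2 * (262144 * (1 + Real.log z) ^ 2 *
      (∏ q ∈ (Ioc y z).filter Nat.Prime, (1 + 4096 / (q : ℝ))) *
      (∑ p ∈ (Ioc x y).filter Nat.Prime, 1 / (p : ℝ)) / x) ≤ ε ^ 2 / 48)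
    (hg : ∀ k : ℕ, 2 ^ k ≤ 2 * Dm → 1 + (k : ℝ) ≤ ε * x)
    (hM : Real.log y ≤ M * Real.log x) (hCM : ε / 3 * (2 * M * W) ≤ ε ^ 2 / 48 * C) :
    Nonempty (Sys h W ε C Q₀) := by
  classical
  have tot := avg_tot (x := x) a7 (by
    clear * - x z a5 y a6 a7 a8 hW hε hε1
    have : Real.log x ≤ Real.log z := Real.log_le_log (by positivity) (by exact_mod_cast a6.trans a7)
    linarith) hε hε1 hW
  have ly : 48 ≤ Real.log y :=
    a8.trans (Real.log_le_log (by positivity) (by exact_mod_cast a6))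
  have lz : 48 ≤ Real.log z :=
    ly.trans (Real.log_le_log (by exact_mod_cast (by omega : 0 < y)) (by exact_mod_cast a7))
  have mom := moment_two (a5.trans a6) ly a7 hd
  simp only at tot mom
  have z1 : 1 ≤ Dm := by rw [hDm]; exact Nat.one_le_pow _ _ (by omega)
  have lD : Real.log Dm = 1021 * Real.log z := by rw [hDm, Nat.cast_pow, Real.log_pow]; norm_num
  rw [← hDm] at tot
  clear hDm
  set P := (Ioc x y).filter Nat.Prime with hPd
  set E := (Ioc y z).filter Nat.Prime with hEd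
  have hP : ∀ q ∈ P, q.Prime ∧ x < q ∧ q ≤ y := fun q hq =>
    ⟨(Finset.mem_filter.1 hq).2, Finset.mem_Ioc.1 (Finset.mem_filter.1 hq).1⟩
  have hE : ∀ q ∈ E, q.Prime ∧ y < q ∧ q ≤ z := fun q hq =>
    ⟨(Finset.mem_filter.1 hq).2, Finset.mem_Ioc.1 (Finset.mem_filter.1 hq).1⟩
  have hP' : ∀ q ∈ P, q.Prime := fun q hq => (hP q hq).1
  have hE' : ∀ q ∈ E, q.Prime := fun q hq => (hE q hq).1
  have fr := avg_free a8 a6 hM hE' hε1 W Dm
  have bad := bad_le P E (x := x) (z := z) (by omega) (by omega)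
    (fun q hq => ⟨hP' q hq, (hP q hq).2.1.le⟩) (fun q hq => ⟨hE' q hq, (hE q hq).2.2⟩)
    fun p hp q hq => (hP p hp).2.2.trans_lt (hE q hq).2.1
  rw [← bad_sum] at bad
  rw [← hPd] at fr
  set L := ∑ p ∈ P, 1 / (p : ℝ) with hLd
  set Pi := ∏ q ∈ E, (1 + 255 / (q : ℝ)) with hPi
  set lam := Real.log z with hlam
  set δ := ε ^ 2 / 48 with hδ
  have Pi1 : 1 ≤ Pi := Finset.one_le_prod fun q _ => by
    clear * - q
    have : (0 : ℝ) ≤ 255 / q := by positivity
    linarith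
  have l0 : 0 < lam := by clear * - lam lz; linarith
  have K0 : 0 < K := by clear * - K hK1; linarith
  have δ0 : 0 < δ := by positivity
  let g : ℕ × Finset ℕ → ℝ := fun τ => 1 / τ.1 * (lam / K * (∑ t ∈ E.powerset,
      if pr τ.2 ≤ 2 * pr t ∧ pr t ≤ 2 * pr τ.2 then wt E τ.2 t else 0) +
      (255 : ℝ) ^ τ.2.card * ∑ S ∈ E.powerset.filter (fun S => τ.2 ⊆ S),
        law E S * (if ¬ Good3 P S then 1 else 0))
  have g0 : ∀ τ, 0 ≤ g τ := fun τ => by
    clear * - τ lam K E P lz hK1 hE'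
    refine mul_nonneg (by positivity) (add_nonneg (mul_nonneg (by positivity)
      (Finset.sum_nonneg fun t _ => ?_)) (mul_nonneg (by positivity)
      (Finset.sum_nonneg fun S _ => mul_nonneg (law_nonneg hE' S) ?_)))
    · split_ifs; exacts [wt_nonneg hE' _ _, le_rfl]
    · split_ifs <;> norm_num
  have hgs : ∑ v ∈ Icc 1 Dm ×ˢ range W, 1 / (v.1 : ℝ) *
      ∑ τ ∈ edges P E ε W v.1 v.2, g τ ≤ 2 * δ * (L * Pi) := by
    clear * - Dm W P E ε g δ L Pi hP' hE' hε1 hW g0 lam K lz Pi1 hK1 K0 hK2 mom l0 hε x bad h4 hL1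
    refine (avg_le hP' hE' hε1 hW _ fun τ _ => g0 τ).trans ?_
    rw [Finset.sum_product]
    simp only [g, ← Finset.mul_sum]
    rw [← Finset.sum_mul, Finset.sum_add_distrib, ← Finset.mul_sum]
    have b1 : lam / K * (12241 * Pi / lam) ≤ δ / 2 * Pi := by
      clear * - lam K Pi δ lz Pi1 hK1 K0 ε hK2
      rw [show lam / K * (12241 * Pi / lam) = 12241 / K * Pi by field_simp]
      refine mul_le_mul_of_nonneg_right ?_ (by linarith)
      rw [div_le_iff₀ K0]; linarith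
    have b2 := mul_le_mul_of_nonneg_left mom (div_pos l0 K0).le
    have b3 : δ / 2 ≤ δ / 2 * Pi := le_mul_of_one_le_right (by positivity) Pi1
    calc _ ≤ 2 * (L * (δ * Pi)) := by clear * - P lam K E L δ Pi x ε bad h4 b1 b2 b3 hL1; gcongr; linarith
      _ = _ := by ring
  have hsp : ∑ v ∈ Icc 1 Dm ×ˢ range W, 1 / (v.1 : ℝ) * (√L * K * (Pi / lam)) ≤
      δ * (L * Pi) := by
    clear * - Dm W L K Pi lam δ z1 lz lD hW hL1 hK1 E Pi1 hL x y
    rw [← Finset.sum_mul, Finset.sum_product_right]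
    simp only [Finset.sum_const, Finset.card_range, nsmul_eq_mul]
    have b1 := harm_le (Icc 1 Dm) (x := 1) (y := Dm) one_pos
      (by exact_mod_cast z1) fun D hD => by
        rw [Finset.mem_Icc] at hD
        exact ⟨hD.1, by exact_mod_cast hD.1, by exact_mod_cast hD.2⟩
    rw [div_one, lD] at b1
    calc _ ≤ W * (1022 * lam) * (√L * K * (Pi / lam)) := by
          clear * - L K Pi lam W Dm lz b1 hW hL1 hK1 E
          gcongr; linarith
      _ = 1022 * W * K * √L * Pi := by field_simp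
      _ ≤ δ * √L * √L * Pi := by clear * - Pi W K L δ hL hL1 E; gcongr
      _ = _ := by rw [mul_assoc δ, Real.mul_self_sqrt (by linarith), mul_assoc]
  obtain ⟨⟨D, a⟩, hv, key⟩ := Finset.exists_le_of_sum_le
    (s := Icc 1 Dm ×ˢ range W)
    (f := fun v => 1 / (v.1 : ℝ) * (√L * K * (Pi / lam) + ∑ τ ∈ edges P E ε W v.1 v.2, g τ +
      ε / 3 / C * ∑ s ∈ (edges P E ε W v.1 v.2).image Prod.snd,
        (255 : ℝ) ^ s.card / (pr s * Real.log ((v.1 : ℝ) / pr s))))
    (g := fun v => 1 / (v.1 : ℝ) * (ε / 3 *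
      ∑ τ ∈ edges P E ε W v.1 v.2, (255 : ℝ) ^ τ.2.card / (τ.1 * pr τ.2)))
    ⟨(1, 0), Finset.mem_product.2 ⟨Finset.mem_Icc.2 ⟨le_rfl, z1⟩, Finset.mem_range.2 hW⟩⟩ (by
      clear * - Dm W L K Pi lam P E ε g C M δ hCM hC Pi1 hL1 hε δ0 fr tot hδ hgs hsp
      simp only [mul_add, Finset.sum_add_distrib, mul_left_comm _ (ε / 3 / C),
        mul_left_comm _ (ε / 3)]
      rw [← Finset.mul_sum, ← Finset.mul_sum]
      have b1 : ε / 3 / C * (2 * M * W * Pi) ≤ δ * (L * Pi) :=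
        calc _ = ε / 3 * (2 * M * W) / C * Pi := by ring
          _ ≤ δ * C / C * (L * Pi) := by
              clear * - ε M W C δ Pi L hCM hC Pi1 hL1 E hε
              gcongr
              exact le_mul_of_one_le_left (by linarith) hL1
          _ = _ := by field_simp
      have b2 := mul_le_mul_of_nonneg_left fr (show 0 ≤ ε / 3 / C by positivity)
      have b3 := mul_le_mul_of_nonneg_left tot (show 0 ≤ ε / 3 by positivity)
      have b4 : ε / 3 * (ε / 4 * (L * Pi)) = 4 * δ * (L * Pi) := by rw [hδ]; ring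
      clear * - Dm W L K Pi lam P E ε g C δ M hgs hsp b1 b2 b3 b4
      linarith)
  obtain ⟨D1, D2⟩ := Finset.mem_Icc.1 (Finset.mem_product.1 hv).1
  simp only at D1 D2 key
  have D0 : (0 : ℝ) < D := by exact_mod_cast D1
  have key := le_of_mul_le_mul_left key (by positivity)
  set Ed := edges P E ε W D a with hEdd
  set Tot := ∑ τ ∈ Ed, (255 : ℝ) ^ τ.2.card / (τ.1 * pr τ.2)
  have x0 : (0 : ℝ) < x := by positivity
  have ratio : ∀ τ ∈ Ed, (x : ℝ) / 2 ≤ D / pr τ.2 := fun τ hτ =>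
    (le_div_iff₀ (by exact_mod_cast pr_pos fun q hq => hE' q ((mem_edges.1 hτ).2.1 hq))).2
      (edge_ratio hE' hε1 hτ).1
  have k1 : 0 < √L * K * (Pi / lam) := by
    clear * - L hL1 Pi Pi1 K lam hK1 E lz
    have := Real.sqrt_pos.2 (show 0 < L by linarith)
    have : 0 < Pi := by linarith
    positivity
  have k2 : 0 ≤ ∑ τ ∈ Ed, g τ := Finset.sum_nonneg fun τ _ => g0 τ
  have k3 : 0 ≤ ε / 3 / C * ∑ s ∈ Ed.image Prod.snd,
      (255 : ℝ) ^ s.card / (pr s * Real.log ((D : ℝ) / pr s)) := by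
    clear * - ε C Ed D hε hC x a5 ratio
    refine mul_nonneg (by positivity) (Finset.sum_nonneg fun s hs => ?_)
    obtain ⟨τ, hτ, rfl⟩ := Finset.mem_image.1 hs
    have : (10000 : ℝ) ≤ x := by exact_mod_cast a5
    have := Real.log_nonneg (show 1 ≤ (D : ℝ) / pr τ.2 by linarith [ratio τ hτ])
    positivity
  have T0 : 0 < Tot := by
    clear * - Tot ε hε L K Pi lam Ed g C D key k1 k2 k3
    by_contra c
    have := mul_nonneg (show 0 ≤ ε / 3 by positivity) (neg_nonneg.2 (not_lt.1 c))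
    linarith
  have gcd : ∀ τ ∈ Ed, 1 / (τ.1 : ℝ) + ∑ q ∈ τ.2, (1 / (q : ℝ)) ≤ ε := by
    clear * - Ed P E D ε W a hE' hε1 hP' x hg Dm h y z r D2 x0 a6 hE hP
    intro τ hτ
    obtain ⟨m1, m2, -⟩ := mem_edges.1 hτ
    have b1 := two_pow_le_pr fun q hq => hE' q (m2 hq)
    have b2 := edge_le hε1 hτ
    have b3 : pr τ.2 ≤ τ.1 * pr τ.2 := Nat.le_mul_of_pos_left _ (hP' _ m1).pos
    have b4 := hg τ.2.card (by omega)
    have b5 := Finset.sum_le_card_nsmul τ.2 (fun q => 1 / (q : ℝ)) (1 / x) fun q hq =>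
      one_div_le_one_div_of_le x0 (by exact_mod_cast (a6.trans (hE q (m2 hq)).2.1.le))
    have b6 : 1 / (τ.1 : ℝ) ≤ 1 / x :=
      one_div_le_one_div_of_le x0 (by exact_mod_cast (hP _ m1).2.1.le)
    rw [nsmul_eq_mul] at b5
    have b7 : (1 + (τ.2.card : ℝ)) * (1 / x) ≤ ε := by
      rw [mul_one_div, div_le_iff₀ x0]; exact b4
    linarith
  have r0 : (0 : ℝ) < r := by exact_mod_cast a4
  have B0 : 0 < (2 * (D : ℝ)) ^ 8 * Pi * 3 / (ε * lam) := by
    clear * - Pi Pi1 D ε lam D1 E hε lz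
    have : 0 < Pi := by linarith
    positivity
  exact ⟨{
    P := P, E := E, Ed := Ed, w := fun s => 255 ^ s.card, ρ := fun S => 256 ^ S.card / lam
    u := uu P Ed lam K (K / (2 * r)) ((2 * (D : ℝ)) ^ 8 * Pi * 3 / (ε * lam))
    D := D, r := r, a := a, L := L, K := K, γ := K / (2 * r)
    B := (2 * (D : ℝ)) ^ 8 * Pi * 3 / (ε * lam)
    hP := fun q hq => by have := hP q hq; exact ⟨this.1, by omega, by omega, by omega⟩
    hE := fun q hq => by have := hE q hq; exact ⟨this.1, by omega⟩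
    hPE := Finset.disjoint_left.2 fun q h1 h2 => by
      have := hP q h1; have := hE q h2; omega
    hD := D1
    hEd := fun τ hτ => mem_edges.1 hτ
    hw := fun s => by positivity
    hρ := fun S => by positivity
    hu := fun S τ => by unfold uu; split_ifs <;> norm_num
    hu' := fun S _ τ _ c => by
      unfold uu at c
      split_ifs at c with k
      · exact ⟨k.1, k.2.2.2.1⟩
      · exact absurd rfl c
    hL := le_rfl
    hL1 := hL1
    hK := K0
    K1 := fun S _ q _ => uu_K1 P Ed _ _ l0 K0 S q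
    K2 := fun S _ q _ q' hq b => uu_K2 P Ed _ _ l0 (by positivity) S q hq b
    hr := a4
    hγ := le_of_eq (by field_simp)
    hB := by
      clear * - h D Pi ε lam r E hPi Dm D2 lz hε Pi1 D1 z1 hB
      rw [mean_rho, ← hPi]
      have b1 : (D : ℝ) ≤ Dm := by exact_mod_cast D2
      calc _ = (2 * h + 1) * (D : ℝ) * (2 * D) ^ 8 * 3 / ε * (Pi / lam) := by field_simp
        _ ≤ (2 * h + 1) * (Dm : ℝ) * (2 * Dm) ^ 8 * 3 / ε * (Pi / lam) := by clear * - Pi lam h D ε Dm b1 D1 z1 hε E lz; gcongr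
        _ ≤ _ := by
          gcongr
          rwa [div_le_iff₀ hε]
    hTot := T0
    spec := by clear * - L K E lam ε Ed Pi hPi g C D Tot key k1 k2 k3 T0 hε; rw [mean_rho, ← hPi]; linarith [mul_pos hε T0]
    removed := by
      clear * - P E ε W D a lam K r Pi Ed hP' hE' hε1 Y l0 K0 B0 hY0 hK1 a4 hY h2 hPi hε lz Pi1 D1
        gcd g Tot L C key k1 k3
      refine (Finset.sum_le_sum fun τ hτ => edge_removed (η := ε / 3) hP' hE' hε1 l0 K0 B0 hY0
        (by positivity) ?_ h2 (le_of_eq ?_) hτ ?_).trans ?_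
      · rw [div_mul_eq_mul_div, le_div_iff₀ (by positivity)]
        linarith [mul_le_mul_of_nonneg_right hK1 (pow_nonneg hY0 8)]
      · rw [← hPi]; field_simp
      · have := gcd τ hτ
        have : (0 : ℝ) ≤ 1 / τ.1 := by positivity
        linarith
      · rw [Finset.sum_add_distrib, ← Finset.mul_sum]
        change ∑ τ ∈ Ed, g τ + 2 * (ε / 3) * Tot ≤ ε * Tot
        linarith
    hgcd := gcd
    hQ := fun τ hτ => by clear * - Q₀ D τ x a9 ratio hτ; linarith [ratio τ hτ]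
    free := by
      clear * - ε C Ed D Tot hC T0 hε L K Pi lam g key k1 k2
      refine le_of_mul_le_mul_left ?_ (show 0 < ε / 3 / C by positivity)
      rw [show ε / 3 / C * (C * Tot) = ε / 3 * Tot by field_simp]
      linarith }⟩

end Pool.Agent.Work.MP_ca0f09_nt
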