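import Mathlib

/-!
Shared definitions for the two-point Chowla theorem at all scales
(weighted divisors, one centred prime, trace method).
-/

set_option autoImplicit false
open Filter Topology Finset

namespace Pool.Agent.Work.MP_ca0f09_nt

/-- The Moebius function with real values. -/
noncomputable def mu (n : ℕ) : ℝ := ((ArithmeticFunction.moebius n : ℤ) : ℝ)

/-- Sarnak's conjecture, in the form of the frozen statement. -/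
def Sarnak : Prop :=
  ∀ (X : Type) [MetricSpace X] [CompactSpace X] (T : X → X), Continuous T →
    Dynamics.coverEntropy T Set.univ = 0 →
    ∀ (f : X → ℝ), Continuous f → ∀ x : X,
      Tendsto (fun N : ℕ => (1 / (N : ℝ)) *
          ∑ n ∈ Finset.range N,
            ((ArithmeticFunction.moebius n : ℤ) : ℝ) * f (T^[n] x))
        atTop (𝓝 0)

/-- Short interval Fourier uniformity of the Moebius function (frequency fixed before `X`). -/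
def Unif : Prop :=
  ∀ ε : ℝ, 0 < ε → ∃ H₀ : ℕ, ∀ H : ℕ, H₀ ≤ H → ∀ α : ℝ, ∀ᶠ X : ℕ in atTop,
    ∑ x ∈ range X, ‖∑ j ∈ range H,
      ((mu (x + j) : ℝ) : ℂ) * Complex.exp (2 * Real.pi * Complex.I * α * j)‖ ≤ ε * H * X

/-- Averaged cancellation of the Moebius function along prime shifts. -/
def Free : Prop :=
  ∀ h : ℕ, 1 ≤ h → ∀ ε : ℝ, 0 < ε → ∃ Q₀ : ℝ, ∀ Q : ℝ, Q₀ ≤ Q → ∀ T : Finset ℕ,
    (∀ p ∈ T, p.Prime ∧ Q ≤ p ∧ (p : ℝ) ≤ 2 * Q) → ∀ c : ℕ → ℝ, (∀ p, |c p| ≤ 1) →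
    ∀ᶠ X : ℕ in atTop,
      ∑ m ∈ range X, |∑ p ∈ T, c p * mu (m + h * p)| ≤ ε * X * Q / Real.log Q

/-- Product of a finite set of primes. -/
def pr (s : Finset ℕ) : ℕ := ∏ q ∈ s, q

/-- Probability that the set of primes of `E` dividing a random integer is `S`. -/
noncomputable def law (E S : Finset ℕ) : ℝ :=
  (∏ q ∈ S, (1 / (q : ℝ))) * ∏ q ∈ E \ S, (1 - 1 / (q : ℝ))

/-- A weighted divisor system.  An edge `τ = (p, s)` stands for the integer `p * pr s`. -/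
structure Sys (h W : ℕ) (ε C Q₀ : ℝ) where
  /-- special (centred) primes -/
  P : Finset ℕ
  /-- filler primes -/
  E : Finset ℕ
  /-- edges -/
  Ed : Finset (ℕ × Finset ℕ)
  /-- weight of a filler -/
  w : Finset ℕ → ℝ
  /-- vertex normalisation -/
  ρ : Finset ℕ → ℝ
  /-- `u S τ` : the edge `τ` is kept at a vertex whose filler prime set is `S` -/
  u : Finset ℕ → ℕ × Finset ℕ → ℝ
  D : ℕ
  r : ℕ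
  a : ℕ
  L : ℝ
  K : ℝ
  γ : ℝ
  B : ℝ
  hP : ∀ q ∈ P, q.Prime ∧ h < q ∧ W < q ∧ 2 * r ≤ q
  hE : ∀ q ∈ E, q.Prime ∧ W < q
  hPE : Disjoint P E
  hD : 1 ≤ D
  hEd : ∀ τ ∈ Ed, τ.1 ∈ P ∧ τ.2 ⊆ E ∧ D ≤ τ.1 * pr τ.2 ∧
    ((τ.1 * pr τ.2 : ℕ) : ℝ) ≤ (1 + ε) * D ∧ τ.1 * pr τ.2 ≡ a [MOD W]
  hw : ∀ s, 0 ≤ w s
  hρ : ∀ S, 0 < ρ S
  hu : ∀ S τ, 0 ≤ u S τ ∧ u S τ ≤ 1
  hu' : ∀ S ⊆ E, ∀ τ ∈ Ed, u S τ ≠ 0 → τ.2 ⊆ S ∧ ρ S ≤ B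
  hL : ∑ q ∈ P, (1 / (q : ℝ)) ≤ L
  hL1 : 1 ≤ L
  hK : 0 < K
  K1 : ∀ S ⊆ E, ∀ q ∈ P, ∑ τ ∈ Ed.filter (fun τ => τ.1 = q), w τ.2 * u S τ ≤ K * ρ S
  K2 : ∀ S ⊆ E, ∀ q ∈ P, ∀ q' ∈ P, ∀ b : ℕ,
    ∑ τ ∈ Ed.filter (fun τ => τ.1 = q ∧ pr τ.2 ≡ b [MOD q']), w τ.2 * u S τ ≤ γ * ρ S
  hr : 1 ≤ r
  hγ : 2 * r * γ ≤ K
  hB : (2 * h + 1) * D * B ≤ 4 ^ r * ∑ S ∈ E.powerset, law E S * ρ S
  hTot : 0 < ∑ τ ∈ Ed, w τ.2 / (τ.1 * pr τ.2)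
  spec : Real.sqrt L * K * ∑ S ∈ E.powerset, law E S * ρ S
    ≤ ε * ∑ τ ∈ Ed, w τ.2 / (τ.1 * pr τ.2)
  removed : ∑ τ ∈ Ed, w τ.2 / τ.1 *
      ∑ S ∈ E.powerset.filter (fun S => τ.2 ⊆ S), law E S * (1 - u S τ)
    ≤ ε * ∑ τ ∈ Ed, w τ.2 / (τ.1 * pr τ.2)
  hgcd : ∀ τ ∈ Ed, 1 / (τ.1 : ℝ) + ∑ q ∈ τ.2, (1 / (q : ℝ)) ≤ ε
  hQ : ∀ τ ∈ Ed, Q₀ ≤ (D : ℝ) / pr τ.2
  free : ∑ s ∈ Ed.image Prod.snd, w s / (pr s * Real.log ((D : ℝ) / pr s))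
    ≤ C * ∑ τ ∈ Ed, w τ.2 / (τ.1 * pr τ.2)

end Pool.Agent.Work.MP_ca0f09_nt
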