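import Mathlib

/-!
# Sarnak's conjecture applied to a bounded real sequence of low word complexity
-/

open Filter Topology Set Dynamics
open scoped Uniformity

namespace Pool.Agent.Work.MP_ca0f09_nt

/-- Sarnak's conjecture, verbatim the left side of the frozen statement. -/
def SarnakHyp : Prop :=
  ∀ (X : Type) [MetricSpace X] [CompactSpace X] (T : X → X), Continuous T →
    Dynamics.coverEntropy T Set.univ = 0 →
    ∀ (f : X → ℝ), Continuous f → ∀ x : X,
      Tendsto (fun N : ℕ => (1 / (N : ℝ)) *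
          ∑ n ∈ Finset.range N,
            ((ArithmeticFunction.moebius n : ℤ) : ℝ) * f (T^[n] x))
        atTop (𝓝 0)

/-- sequences with values in `[-1,1]`. -/
abbrev Seq := ℕ → Set.Icc (-1 : ℝ) 1

def shift (y : Seq) : Seq := fun i => y (i + 1)

lemma continuous_shift : Continuous shift :=
  continuous_pi fun i => continuous_apply (i + 1)

lemma shift_iterate (n : ℕ) (y : Seq) (i : ℕ) : (shift^[n] y) i = y (n + i) := by
  induction n generalizing y with
  | zero => simp
  | succ n ih =>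
    rw [Function.iterate_succ_apply, ih]
    simp only [shift]
    congr 1
    omega

/-- basic entourages -/
def ent (m : ℕ) (η : ℝ) : SetRel Seq Seq :=
  {p | ∀ i < m, |(p.1 i : ℝ) - p.2 i| ≤ η}

instance (m : ℕ) (η : ℝ) : (ent m η).IsSymm where
  symm a b h := fun i hi => by
    have := h i hi
    simpa [abs_sub_comm] using this

lemma ent_comp (m : ℕ) (η : ℝ) : (ent m η).comp (ent m η) ⊆ ent m (2 * η) := by
  rintro ⟨x, z⟩ ⟨y, h1, h2⟩ i hi
  have a := h1 i hi
  have b := h2 i hi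
  simp only at a b ⊢
  calc |(x i : ℝ) - z i| = |((x i : ℝ) - y i) + ((y i : ℝ) - z i)| := by ring_nf
    _ ≤ _ := abs_add_le _ _
    _ ≤ 2 * η := by linarith

lemma ent_mono {m m' : ℕ} {η η' : ℝ} (hm : m ≤ m') (h : η' ≤ η) : ent m' η' ⊆ ent m η :=
  fun _ hp i hi => (hp i (lt_of_lt_of_le hi hm)).trans h

lemma exists_ent_subset (U : SetRel Seq Seq) (hU : U ∈ 𝓤 Seq) :
    ∃ m : ℕ, ∃ η > 0, ent m η ⊆ U := by
  rw [Pi.uniformity] at hU
  refine Filter.iInf_sets_induct hU (p := fun s => ∃ m : ℕ, ∃ η > 0, ent m η ⊆ s)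
    ⟨0, 1, one_pos, subset_univ _⟩ ?_
  rintro i s₁ s₂ h₁ ⟨m, η, hη, h₂⟩
  obtain ⟨t, ht, hts⟩ := Filter.mem_comap.1 h₁
  obtain ⟨δ, hδ, hδt⟩ := Metric.mem_uniformity_dist.1 ht
  refine ⟨max m (i + 1), min η (δ / 2), lt_min hη (by linarith), fun p hp => ⟨?_, ?_⟩⟩
  · apply hts
    apply hδt
    have := hp i (lt_of_lt_of_le (Nat.lt_succ_self i) (le_max_right _ _))
    rw [Subtype.dist_eq, Real.dist_eq]
    have h2 := min_le_right η (δ / 2)
    linarith
  · exact h₂ (ent_mono (le_max_left _ _) (min_le_left _ _) hp)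

lemma entourage_finite_le (F : Finset Seq) (m : ℕ) (η : ℝ) (hη : 0 ≤ η) :
    coverEntropyEntourage shift (F : Set Seq) (ent m η) ≤ 0 := by
  have h1 : ∀ n, coverMincard shift (F : Set Seq) (ent m η) n ≤ (F.card + 1 : ℕ) := by
    intro n
    have : IsDynCoverOf shift (F : Set Seq) (ent m η) n F := by
      intro x hx
      refine ⟨x, hx, ?_⟩
      rw [mem_dynEntourage]
      intro k _ i _
      simpa using hη
    exact this.coverMincard_le_card.trans (by exact_mod_cast Nat.le_succ _)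
  have h2 : ExpGrowth.expGrowthSup (fun _ : ℕ => ((F.card + 1 : ℕ) : ENNReal)) = 0 :=
    ExpGrowth.expGrowthSup_const (by simp) (by simp)
  rw [← h2]
  refine ExpGrowth.expGrowthSup_monotone fun n => ?_
  have := ENat.toENNReal_mono (h1 n)
  simpa using this

/-- low word complexity of the tail -/
def LowCx (a : ℕ → ℝ) : Prop :=
  ∀ η > (0 : ℝ), ∀ ε > (0 : ℝ), ∀ m : ℕ, ∃ L : ℕ, m ≤ L ∧ ∃ n₀ : ℕ, ∃ W : Finset (ℕ → ℝ),
    (W.card : ℝ) ≤ Real.exp (ε * L) ∧ ∀ n, n₀ ≤ n → ∃ w ∈ W, ∀ i < L, |a (n + i) - w i| ≤ η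

lemma abs_sub_proj_le (x : Set.Icc (-1 : ℝ) 1) (w : ℝ) :
    |(x : ℝ) - (Set.projIcc (-1 : ℝ) 1 (by norm_num) w : ℝ)| ≤ |(x : ℝ) - w| := by
  obtain ⟨x, h1, h2⟩ := x
  simp only [Set.projIcc]
  rcases le_total w 1 with h | h <;> rcases le_total (-1) w with h' | h'
  · rw [min_eq_right h, max_eq_right h']
  · rw [min_eq_right h, max_eq_left h']
    rw [abs_of_nonneg (by linarith), abs_of_nonneg (by linarith)]; linarith
  · rw [min_eq_left h, max_eq_right (by norm_num)]
    rw [abs_of_nonpos (by linarith), abs_of_nonpos (by linarith)]; linarith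
  · linarith

lemma entropy_orbit_le (x₀ : Seq) (hc : LowCx fun n => (x₀ n : ℝ)) :
    coverEntropy shift (range fun n : ℕ => shift^[n] x₀) ≤ 0 := by
  classical
  refine iSup₂_le fun U hU => ?_
  obtain ⟨m, η, hη, hsub⟩ := exists_ent_subset U hU
  refine (coverEntropyEntourage_antitone shift _ hsub).trans ?_
  refine EReal.le_of_forall_lt_iff_le.1 ?_
  intro ε hε
  have hε' : (0 : ℝ) < ε := by exact_mod_cast hε
  obtain ⟨L, hL, n₀, W, hW, hcov⟩ := hc (η / 2) (by linarith) (ε / 2) (by linarith) (2 * m + 2)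
  set F₁ : Finset Seq := (Finset.range n₀).image fun n => shift^[n] x₀ with hF₁
  set F₂ : Set Seq := (fun n : ℕ => shift^[n] x₀) '' {n | n₀ ≤ n} with hF₂
  have hFF : (range fun n : ℕ => shift^[n] x₀) ⊆ (F₁ : Set Seq) ∪ F₂ := by
    rintro _ ⟨n, rfl⟩
    rcases lt_or_ge n n₀ with h | h
    · left
      simp only [hF₁, Finset.coe_image, Finset.coe_range]
      exact ⟨n, h, rfl⟩
    · right
      exact ⟨n, h, rfl⟩
  refine (coverEntropyEntourage_monotone shift _ hFF).trans ?_
  simp only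
  rw [coverEntropyEntourage_union]
  refine max_le ((entourage_finite_le F₁ m η hη.le).trans hε.le) ?_
  have hinv : MapsTo shift F₂ F₂ := by
    rintro _ ⟨n, hn, rfl⟩
    refine ⟨n + 1, le_trans hn (Nat.le_succ n), ?_⟩
    simp [Function.iterate_succ_apply']
  set s : Finset Seq := W.image fun w => fun i => Set.projIcc (-1 : ℝ) 1 (by norm_num) (w i)
    with hs
  have hcover : IsDynCoverOf shift F₂ (ent m (η / 2)) (L - m) s := by
    rintro _ ⟨n, hn, rfl⟩
    obtain ⟨w, hw, hwa⟩ := hcov n hn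
    refine ⟨fun i => Set.projIcc (-1 : ℝ) 1 (by norm_num) (w i), ?_, ?_⟩
    · simp only [hs, Finset.coe_image]
      exact ⟨w, hw, rfl⟩
    · rw [mem_dynEntourage]
      intro k hk i hi
      simp only [shift_iterate]
      refine (abs_sub_proj_le _ _).trans ?_
      exact hwa (k + i) (by omega)
  have hn : L - m ≠ 0 := by omega
  have h1 := hcover.coverEntropyEntourage_le_log_card_div hinv hn
  have h2 : (ent m (η / 2)).comp (ent m (η / 2)) ⊆ ent m η := by
    have := ent_comp m (η / 2)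
    rwa [show 2 * (η / 2) = η by ring] at this
  refine ((coverEntropyEntourage_antitone shift F₂ h2).trans h1).trans ?_
  have hcard : (s.card : ℝ) ≤ Real.exp (ε / 2 * L) :=
    le_trans (by exact_mod_cast Finset.card_image_le) hW
  have hlog : ENNReal.log (s.card : ENNReal) ≤ ((ε / 2 * L : ℝ) : EReal) := by
    have : (s.card : ENNReal) ≤ ENNReal.ofReal (Real.exp (ε / 2 * L)) := by
      rw [← ENNReal.ofReal_natCast]
      exact ENNReal.ofReal_le_ofReal hcard
    refine (ENNReal.log_monotone this).trans ?_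
    rw [ENNReal.log_ofReal_of_pos (Real.exp_pos _), Real.log_exp]
  refine (EReal.monotone_div_right_of_nonneg (Nat.cast_nonneg' _) hlog).trans ?_
  have hpos : (0 : ℝ) < ((L - m : ℕ) : ℝ) := by exact_mod_cast Nat.pos_of_ne_zero hn
  have : ((L - m : ℕ) : EReal) = (((L - m : ℕ) : ℝ) : EReal) := by norm_cast
  simp only
  rw [this, ← EReal.coe_div]
  refine EReal.coe_le_coe_iff.2 ?_
  rw [div_le_iff₀ hpos]
  have h3 : (L : ℝ) ≤ 2 * ((L - m : ℕ) : ℝ) := by
    have : L ≤ 2 * (L - m) := by omega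
    exact_mod_cast this
  nlinarith

theorem sarnak_lowCx (hS : SarnakHyp) (a : ℕ → ℝ) (ha : ∀ n, |a n| ≤ 1) (hc : LowCx a) :
    Tendsto (fun N : ℕ => (1 / (N : ℝ)) *
      ∑ n ∈ Finset.range N, ((ArithmeticFunction.moebius n : ℤ) : ℝ) * a n) atTop (𝓝 0) := by
  let x₀ : Seq := fun n => ⟨a n, abs_le.1 (ha n)⟩
  let F : Set Seq := range fun n : ℕ => shift^[n] x₀
  have hF : MapsTo shift F F := by
    rintro _ ⟨n, rfl⟩
    exact ⟨n + 1, by simp [Function.iterate_succ_apply']⟩
  have hG : MapsTo shift (closure F) (closure F) := hF.closure continuous_shift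
  have hx₀ : x₀ ∈ closure F := subset_closure ⟨0, rfl⟩
  have hent : coverEntropy (hG.restrict shift _ _) univ = 0 := by
    rw [coverEntropy_restrict, coverEntropy_closure continuous_shift]
    exact le_antisymm (entropy_orbit_le x₀ hc) (coverEntropy_nonneg _ ⟨x₀, 0, rfl⟩)
  have hcomp : CompactSpace (closure F) := isCompact_iff_compactSpace.1 isClosed_closure.isCompact
  let _ : MetricSpace Seq := PiCountable.metricSpace
  have key := hS (closure F) (hG.restrict shift _ _) (continuous_shift.restrict hG) hent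
    (fun y => (y.1 0 : ℝ))
    (continuous_subtype_val.comp ((continuous_apply 0).comp continuous_subtype_val)) ⟨x₀, hx₀⟩
  refine key.congr fun N => ?_
  congr 1
  refine Finset.sum_congr rfl fun n _ => ?_
  congr 1
  rw [MapsTo.iterate_restrict]
  change (((shift^[n] x₀) 0 : Set.Icc (-1 : ℝ) 1) : ℝ) = a n
  rw [shift_iterate]
  rfl

end Pool.Agent.Work.MP_ca0f09_nt
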