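import Pool.Agent.Lib.LargeSieve.Additive
import Pool.Agent.Lib.ANT.PrimePairs
import Pool.Agent.Lib.ANT.DivisorBound
import Pool.Agent.Lib.ANT.Mertens

/-!
# Finite Parseval identity, the block inequality, and the additive energy of primes
-/

open Finset Real

namespace Pool.Agent.Work.MP_ca0f09_nt

open Pool.Agent.Lib.LargeSieve Pool.Agent.Lib.ANT

lemma sum_ee_orth (M : ℕ) (hM : 0 < M) (t : ℤ) (ht : |t| < M) :
    ∑ a ∈ range M, ee (a * (t / M)) = if t = 0 then (M : ℂ) else 0 := by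
  split_ifs with h
  · simp [h]
  · simp_rw [ee_nat_mul]
    have hM' : (0 : ℝ) < M := by exact_mod_cast hM
    have hne : ee (t / M) ≠ 1 := by
      intro h1
      have h4 := four_dZ_le ((t : ℝ) / M)
      rw [h1, sub_self, norm_zero] at h4
      have h5 : dZ ((t : ℝ) / M) = 0 := le_antisymm (by linarith) (dZ_nonneg _)
      unfold dZ at h5
      rw [abs_eq_zero, sub_eq_zero, div_eq_iff hM'.ne'] at h5
      have h6 : t = round ((t : ℝ) / M) * M := by exact_mod_cast h5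
      have h7 : (M : ℤ) ∣ t := ⟨_, by rw [mul_comm]; exact h6⟩
      have := Int.le_of_dvd (abs_pos.2 h) ((dvd_abs _ _).2 h7)
      omega
    rw [geom_sum_eq hne, ← ee_nat_mul]
    have : (M : ℝ) * (t / M) = t := by field_simp
    rw [this, ee_intCast, sub_self, zero_div]

lemma parseval {ι : Type*} (s : Finset ι) (c : ι → ℝ) (ν : ι → ℤ) (M : ℕ) (hM : 0 < M)
    (hν : ∀ i ∈ s, ∀ j ∈ s, |ν i - ν j| < M) :
    ∑ a ∈ range M, ‖∑ i ∈ s, (c i : ℂ) * ee (a * (ν i / M))‖ ^ 2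
      = M * ∑ i ∈ s, ∑ j ∈ s, if ν i = ν j then c i * c j else 0 := by
  apply Complex.ofReal_injective
  push_cast
  have h1 : ∀ a ∈ range M, ((‖∑ i ∈ s, (c i : ℂ) * ee (a * (ν i / M))‖ : ℂ) ^ 2)
      = ∑ i ∈ s, ∑ j ∈ s, (c i * c j : ℂ) * ee (a * (((ν i - ν j : ℤ) : ℝ) / M)) := by
    intro a _
    have := normSq_sum_eq s fun i => (c i : ℂ) * ee (a * (ν i / M))
    push_cast at this
    rw [this]
    refine sum_congr rfl fun i _ => sum_congr rfl fun j _ => ?_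
    rw [map_mul, Complex.conj_ofReal, conj_ee]
    have e : (a : ℝ) * (((ν i - ν j : ℤ) : ℝ) / M) = a * (ν i / M) + -(a * (ν j / M)) := by
      push_cast; ring
    rw [e, ee_add]; ring
  rw [sum_congr rfl h1, sum_comm, mul_sum]
  refine sum_congr rfl fun i hi => ?_
  rw [sum_comm, mul_sum]
  refine sum_congr rfl fun j hj => ?_
  rw [← mul_sum, sum_ee_orth M hM _ (hν i hi j hj)]
  by_cases h : ν i = ν j
  · simp [h, mul_comm]
  · simp [h, sub_eq_zero]

lemma sum_sq_fiber_le {ι : Type*} (s : Finset ι) (c : ι → ℝ) (ν : ι → ℤ) (T : Finset ℤ) :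
    ∑ t ∈ T, (∑ i ∈ s with ν i = t, c i) ^ 2
      ≤ ∑ i ∈ s, ∑ j ∈ s, if ν i = ν j then c i * c j else 0 := by
  classical
  have h1 : (∑ i ∈ s, ∑ j ∈ s, if ν i = ν j then c i * c j else 0)
      = ∑ t ∈ T ∪ s.image ν, (∑ i ∈ s with ν i = t, c i) ^ 2 := by
    rw [← sum_fiberwise_of_maps_to (s := s) (t := T ∪ s.image ν) (g := ν)
      (fun i hi => mem_union_right _ (mem_image_of_mem _ hi))]
    refine sum_congr rfl fun t _ => ?_
    rw [sq, sum_mul_sum]
    refine sum_congr rfl fun i hi => ?_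
    rw [(mem_filter.1 hi).2, sum_filter]
    refine sum_congr rfl fun j _ => ?_
    simp [eq_comm]
  rw [h1]
  exact sum_le_sum_of_subset_of_nonneg subset_union_left fun _ _ _ => sq_nonneg _

/-- weighted additive energy -/
noncomputable def energy (S : Finset ℕ) (ω : ℕ → ℝ) : ℝ :=
  ∑ x ∈ S ×ˢ S, ∑ y ∈ S ×ˢ S,
    if (x.2 : ℤ) - x.1 = (y.2 : ℤ) - y.1 then (ω x.1 * ω x.2) * (ω y.1 * ω y.2) else 0

lemma block_ineq (H h : ℕ) (hH : 0 < H) (hh : 0 < h) (F : ℕ → ℝ) (hF : ∀ m, |F m| ≤ 1)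
    (S : Finset ℕ) (ω : ℕ → ℝ) (hS : ∀ p ∈ S, p * h ≤ H) (σ : ℝ)
    (hσ : ∀ a ∈ range (4 * H),
      ‖∑ m ∈ range (2 * H), (F m : ℂ) * ee (a * (((m : ℤ) : ℝ) / (4 * H : ℕ)))‖ ≤ σ) :
    ∑ t ∈ range H, (∑ p ∈ S, ω p * F (t + p * h)) ^ 2 ≤ σ * √(2 * H * energy S ω) := by
  classical
  set M := 4 * H with hM
  have hM0 : 0 < M := by omega
  have hMr : (0 : ℝ) < M := by exact_mod_cast hM0
  set A : ℕ → ℂ := fun a => ∑ m ∈ range (2 * H), (F m : ℂ) * ee (a * (((m : ℤ) : ℝ) / M)) with hA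
  set B : ℕ → ℂ := fun a => ∑ p ∈ S, (ω p : ℂ) * ee (a * (((-(p * h : ℕ) : ℤ) : ℝ) / M)) with hB
  have hσ0 : 0 ≤ σ := (norm_nonneg _).trans (hσ 0 (mem_range.2 hM0))
  -- product
  have P1 := parseval (range (2 * H) ×ˢ S) (fun x => F x.1 * ω x.2)
    (fun x => (x.1 : ℤ) - (x.2 * h : ℕ)) M hM0 (by
      rintro ⟨m, p⟩ hx ⟨m', p'⟩ hy
      simp only [mem_product, mem_range] at hx hy
      have := hS p hx.2
      have := hS p' hy.2
      rw [abs_lt]; constructor <;> simp only <;> omega)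
  have e1 : ∀ a : ℕ, ∑ x ∈ range (2 * H) ×ˢ S, ((F x.1 * ω x.2 : ℝ) : ℂ) *
      ee (a * ((((x.1 : ℤ) - (x.2 * h : ℕ) : ℤ) : ℝ) / M)) = A a * B a := by
    intro a
    rw [hA, hB, sum_mul_sum, sum_product]
    refine sum_congr rfl fun m _ => sum_congr rfl fun p _ => ?_
    have e : (a : ℝ) * ((((m : ℤ) - (p * h : ℕ) : ℤ) : ℝ) / M)
        = a * (((m : ℤ) : ℝ) / M) + a * (((-(p * h : ℕ) : ℤ) : ℝ) / M) := by
      push_cast; ring
    simp only
    rw [e, ee_add]; push_cast; ring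
  simp only [e1] at P1
  have L1 := sum_sq_fiber_le (range (2 * H) ×ˢ S) (fun x => F x.1 * ω x.2)
    (fun x => (x.1 : ℤ) - (x.2 * h : ℕ)) ((range H).image (fun t : ℕ => (t : ℤ)))
  rw [sum_image (fun _ _ _ _ h => by exact_mod_cast h)] at L1
  have e2 : ∀ t ∈ range H, (∑ x ∈ range (2 * H) ×ˢ S with (x.1 : ℤ) - (x.2 * h : ℕ) = (t : ℤ),
      F x.1 * ω x.2) = ∑ p ∈ S, ω p * F (t + p * h) := by
    intro t ht
    rw [sum_filter, sum_product, sum_comm]
    refine sum_congr rfl fun p hp => ?_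
    rw [sum_eq_single (t + p * h)]
    · simp [mul_comm]
    · intro m _ hm
      rw [if_neg]
      simp only; omega
    · intro hm
      have := hS p hp
      simp only [mem_range] at hm ht
      omega
  have L2 : ∑ t ∈ range H, (∑ p ∈ S, ω p * F (t + p * h)) ^ 2
      ≤ (∑ a ∈ range M, ‖A a * B a‖ ^ 2) / M := by
    rw [P1, mul_div_cancel_left₀ _ hMr.ne']
    refine le_trans (le_of_eq ?_) L1
    exact sum_congr rfl fun t ht => by rw [e2 t ht]
  -- Parseval for A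
  have P2 := parseval (range (2 * H)) F (fun m => (m : ℤ)) M hM0 (by
    intro m hm m' hm'
    simp only [mem_range] at hm hm'
    rw [abs_lt]; constructor <;> omega)
  have PA : ∑ a ∈ range M, ‖A a‖ ^ 2 ≤ M * (2 * H) := by
    rw [hA]
    simp only
    rw [P2]
    gcongr
    have : ∀ i ∈ range (2 * H), (∑ j ∈ range (2 * H), if (i : ℤ) = (j : ℤ) then F i * F j else 0)
        ≤ 1 := by
      intro i hi
      simp only [Nat.cast_inj, sum_ite_eq, hi, if_true]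
      have := hF i
      rw [← sq, ← sq_abs]
      exact pow_le_one₀ (abs_nonneg _) this
    refine (sum_le_card_nsmul _ _ _ this).trans ?_
    simp
  -- Parseval for B conj B
  have P3 := parseval (S ×ˢ S) (fun x => ω x.1 * ω x.2)
    (fun x => ((x.2 * h : ℕ) : ℤ) - (x.1 * h : ℕ)) M hM0 (by
      rintro ⟨p, q⟩ hx ⟨p', q'⟩ hy
      simp only [mem_product] at hx hy
      have := hS p hx.1
      have := hS q hx.2
      have := hS p' hy.1
      have := hS q' hy.2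
      rw [abs_lt]; constructor <;> simp only <;> omega)
  have e3 : ∀ a : ℕ, ∑ x ∈ S ×ˢ S, ((ω x.1 * ω x.2 : ℝ) : ℂ) *
      ee (a * (((((x.2 * h : ℕ) : ℤ) - (x.1 * h : ℕ) : ℤ) : ℝ) / M))
        = B a * (starRingEnd ℂ) (B a) := by
    intro a
    rw [hB]
    simp only
    rw [map_sum, sum_mul_sum, sum_product]
    refine sum_congr rfl fun p _ => sum_congr rfl fun q _ => ?_
    rw [map_mul, Complex.conj_ofReal, conj_ee]
    have e : (a : ℝ) * (((((q * h : ℕ) : ℤ) - (p * h : ℕ) : ℤ) : ℝ) / M)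
        = a * (((-(p * h : ℕ) : ℤ) : ℝ) / M) + -(a * (((-(q * h : ℕ) : ℤ) : ℝ) / M)) := by
      push_cast; ring
    simp only
    rw [e, ee_add]; push_cast; ring
  simp only [e3] at P3
  have PB : ∑ a ∈ range M, (‖B a‖ ^ 2) ^ 2 = M * energy S ω := by
    have : ∀ a, ‖B a * (starRingEnd ℂ) (B a)‖ = ‖B a‖ ^ 2 := fun a => by
      rw [norm_mul, Complex.norm_conj, sq]
    simp only [this] at P3
    rw [P3, energy]
    congr 1
    refine sum_congr rfl fun x _ => sum_congr rfl fun y _ => ?_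
    have hh' : (h : ℤ) ≠ 0 := by exact_mod_cast hh.ne'
    have : (((x.2 * h : ℕ) : ℤ) - (x.1 * h : ℕ) = ((y.2 * h : ℕ) : ℤ) - (y.1 * h : ℕ)) ↔
        (x.2 : ℤ) - x.1 = (y.2 : ℤ) - y.1 := by
      push_cast
      rw [← sub_mul, ← sub_mul, mul_left_inj' hh']
    simp only [this]
  have hE : 0 ≤ energy S ω := by
    have : 0 ≤ (M : ℝ) * energy S ω := PB ▸ sum_nonneg fun _ _ => sq_nonneg _
    exact nonneg_of_mul_nonneg_right (by rwa [mul_comm] at this) hMr |> fun h => by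
      by_contra hc; push Not at hc; nlinarith
  have CS : ∑ a ∈ range M, ‖A a‖ * ‖B a‖ ^ 2 ≤ M * √(2 * H * energy S ω) := by
    have h1 := sum_mul_sq_le_sq_mul_sq (range M) (fun a => ‖A a‖) (fun a => ‖B a‖ ^ 2)
    rw [PB] at h1
    refine (pow_le_pow_iff_left₀ (by positivity) (by positivity) two_ne_zero).1 ?_
    rw [mul_pow, sq_sqrt (by positivity)]
    calc _ ≤ _ := h1
      _ ≤ (M * (2 * H)) * (M * energy S ω) := by gcongr
      _ = _ := by ring
  refine L2.trans ?_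
  rw [div_le_iff₀ hMr]
  calc ∑ a ∈ range M, ‖A a * B a‖ ^ 2 ≤ ∑ a ∈ range M, σ * (‖A a‖ * ‖B a‖ ^ 2) := by
        refine sum_le_sum fun a ha => ?_
        rw [norm_mul, mul_pow, sq ‖A a‖, mul_assoc]
        gcongr
        exact hσ a ha
    _ = σ * ∑ a ∈ range M, ‖A a‖ * ‖B a‖ ^ 2 := by rw [mul_sum]
    _ ≤ σ * (M * √(2 * H * energy S ω)) := by gcongr
    _ = _ := by ring

lemma sum_sq_div_totient_le (N : ℕ) :
    ∑ n ∈ Ioc 0 N, ((n : ℝ) / n.totient) ^ 2 ≤ 21 * N := by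
  classical
  set Ps := (Ioc 0 N).filter Nat.Prime with hPs
  have hP : ∀ p ∈ Ps, p.Prime := fun p hp => (mem_filter.mp hp).2
  have hg : ∀ p ∈ Ps, (0 : ℝ) ≤ 3 * ((p : ℝ) - 1)⁻¹ := fun p hp => by
    have : (1 : ℝ) < p := by exact_mod_cast (hP p hp).one_lt
    have : (0 : ℝ) ≤ ((p : ℝ) - 1)⁻¹ := inv_nonneg.mpr (by linarith)
    positivity
  have h1 : ∀ n ∈ Ioc 0 N, ((n : ℝ) / n.totient) ^ 2 ≤
      ∑ T ∈ Ps.powerset, if (∏ p ∈ T, p) ∣ n then ∏ p ∈ T, 3 * ((p : ℝ) - 1)⁻¹ else 0 := by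
    intro n hn
    have hn' := mem_Ioc.mp hn
    rw [← prod_primeFactors_one_add_inv n hn'.1, ← prod_pow]
    have h0 : ∏ p ∈ n.primeFactors, (1 + ((p : ℝ) - 1)⁻¹) ^ 2
        ≤ ∏ p ∈ n.primeFactors, (1 + 3 * ((p : ℝ) - 1)⁻¹) := by
      refine prod_le_prod (fun _ _ => sq_nonneg _) fun p hp => ?_
      have : (2 : ℝ) ≤ p := by exact_mod_cast (Nat.prime_of_mem_primeFactors hp).two_le
      have a : (0 : ℝ) ≤ ((p : ℝ) - 1)⁻¹ := inv_nonneg.mpr (by linarith)
      have b : ((p : ℝ) - 1)⁻¹ ≤ 1 := inv_le_one_of_one_le₀ (by linarith)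
      nlinarith
    refine h0.trans ?_
    rw [prod_one_add, ← sum_filter]
    refine sum_le_sum_of_subset_of_nonneg ?_ ?_
    · intro T hT
      have hT' := mem_powerset.mp hT
      refine mem_filter.mpr ⟨mem_powerset.mpr fun p hp => ?_, ?_⟩
      · have hp' := hT' hp
        exact mem_filter.mpr ⟨mem_Ioc.mpr ⟨(Nat.prime_of_mem_primeFactors hp').pos,
          (Nat.le_of_mem_primeFactors hp').trans hn'.2⟩, Nat.prime_of_mem_primeFactors hp'⟩
      · exact (prod_dvd_prod_of_subset _ _ (fun p => p) hT').trans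
          (Nat.prod_primeFactors_dvd n)
    · intro T hT _
      exact prod_nonneg fun p hp => hg p (mem_powerset.mp (mem_filter.mp hT).1 hp)
  refine (sum_le_sum h1).trans ?_
  rw [sum_comm]
  have h2 : ∀ T ∈ Ps.powerset,
      (∑ n ∈ Ioc 0 N, if (∏ p ∈ T, p) ∣ n then ∏ p ∈ T, 3 * ((p : ℝ) - 1)⁻¹ else 0) ≤
        N * ∏ p ∈ T, 3 * ((p : ℝ) * (p - 1))⁻¹ := by
    intro T hT
    have hT' := mem_powerset.mp hT
    rw [← sum_filter, sum_const, Nat.Ioc_filter_dvd_card_eq_div, nsmul_eq_mul]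
    have e : ∀ p : ℕ, 3 * ((p : ℝ) * (p - 1))⁻¹ = (p : ℝ)⁻¹ * (3 * ((p : ℝ) - 1)⁻¹) := fun p => by
      rw [mul_inv]; ring
    simp_rw [e]
    rw [prod_mul_distrib (f := fun p : ℕ => (p : ℝ)⁻¹), ← mul_assoc]
    refine mul_le_mul_of_nonneg_right ?_ (prod_nonneg fun p hp => hg p (hT' hp))
    rw [prod_inv_distrib, ← div_eq_mul_inv, ← Nat.cast_prod]
    exact Nat.cast_div_le
  refine (sum_le_sum h2).trans ?_
  rw [← mul_sum, ← prod_one_add, mul_comm]
  refine mul_le_mul_of_nonneg_right ?_ (Nat.cast_nonneg _)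
  have h3 : ∏ p ∈ Ps, (1 + 3 * ((p : ℝ) * (p - 1))⁻¹)
      ≤ ∏ p ∈ Ps, Real.exp (3 * ((p : ℝ) * (p - 1))⁻¹) := by
    refine prod_le_prod (fun p hp => ?_) fun p _ => ?_
    · have : (1 : ℝ) < p := by exact_mod_cast (hP p hp).one_lt
      have : (0 : ℝ) ≤ ((p : ℝ) * (p - 1))⁻¹ :=
        inv_nonneg.mpr (mul_nonneg (by linarith) (by linarith))
      positivity
    · linarith [Real.add_one_le_exp (3 * ((p : ℝ) * (p - 1))⁻¹)]
  rw [← Real.exp_sum, ← mul_sum] at h3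
  have h4 : ∑ p ∈ Ps, ((p : ℝ) * (p - 1))⁻¹ ≤ 1 := by
    refine le_trans (sum_le_sum_of_subset_of_nonneg ?_ ?_) (sum_inv_mul_pred_le N)
    · intro p hp
      obtain ⟨h1, h2⟩ := mem_filter.mp hp
      exact mem_Ioc.mpr ⟨h2.one_lt, (mem_Ioc.mp h1).2⟩
    · intro n hn _
      have : (1 : ℝ) < n := by exact_mod_cast (mem_Ioc.mp hn).1
      exact inv_nonneg.mpr (mul_nonneg (by linarith) (by linarith))
  have h5 : Real.exp 3 ≤ 21 := by
    have := Real.exp_one_lt_d9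
    have e : Real.exp 3 = Real.exp 1 ^ 3 := by rw [← Real.exp_nat_mul]; norm_num
    rw [e]
    calc Real.exp 1 ^ 3 ≤ 2.7182818286 ^ 3 := by gcongr
      _ ≤ 21 := by norm_num
  have := Real.exp_le_exp.mpr (show 3 * ∑ p ∈ Ps, ((p : ℝ) * (p - 1))⁻¹ ≤ 3 by linarith)
  linarith

lemma energy_le (S : Finset ℕ) (Y : ℕ) (hY : 2 ≤ Y) (hS : ∀ p ∈ S, p.Prime ∧ p ≤ Y)
    (ω : ℕ → ℝ) (w : ℝ) (hω : ∀ p ∈ S, |ω p| ≤ w) :
    energy S ω ≤ w ^ 4 * (6720256 * Y ^ 3 / log Y ^ 4) := by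
  classical
  have hY1 : (1 : ℝ) < Y := by exact_mod_cast hY
  have hl : 0 < log Y := log_pos hY1
  rcases S.eq_empty_or_nonempty with rfl | ⟨p₀, hp₀⟩
  · simp only [energy, empty_product, sum_empty]; positivity
  have hw : 0 ≤ w := (abs_nonneg _).trans (hω p₀ hp₀)
  set r : ℤ → ℝ := fun j => ((S ×ˢ S).filter fun x => (x.2 : ℤ) - x.1 = j).card with hr
  have h1 : energy S ω ≤ w ^ 4 * ∑ j ∈ Icc (-(Y : ℤ)) Y, r j ^ 2 := by
    have e : ∑ j ∈ Icc (-(Y : ℤ)) Y, r j ^ 2 = ∑ x ∈ S ×ˢ S, r ((x.2 : ℤ) - x.1) := by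
      rw [← sum_fiberwise_of_maps_to (s := S ×ˢ S) (t := Icc (-(Y : ℤ)) Y)
        (g := fun x => (x.2 : ℤ) - x.1)]
      · refine sum_congr rfl fun j _ => ?_
        rw [sum_congr rfl (g := fun _ => r j) fun x hx => by rw [(mem_filter.1 hx).2]]
        simp [hr, sq]
      · intro x hx
        have a := (hS _ (mem_product.1 hx).1).2
        have b := (hS _ (mem_product.1 hx).2).2
        simp only [mem_Icc]; omega
    rw [e, mul_sum, energy]
    refine sum_le_sum fun x hx => ?_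
    simp only [hr]
    rw [card_filter]
    push_cast
    rw [mul_sum]
    refine sum_le_sum fun y hy => ?_
    have a2 := hω _ (mem_product.1 hx).1
    have b2 := hω _ (mem_product.1 hx).2
    have c2 := hω _ (mem_product.1 hy).1
    have d2 := hω _ (mem_product.1 hy).2
    by_cases h : (x.2 : ℤ) - x.1 = (y.2 : ℤ) - y.1
    · rw [if_pos h, if_pos h.symm, mul_one]
      refine (le_abs_self _).trans ?_
      rw [abs_mul, abs_mul, abs_mul]
      calc _ ≤ (w * w) * (w * w) := by gcongr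
        _ = _ := by ring
    · rw [if_neg h, if_neg (Ne.symm h), mul_zero]
  refine h1.trans (mul_le_mul_of_nonneg_left ?_ (by positivity))
  set R : ℕ → ℝ := fun j => 400 * ((j : ℝ) / j.totient) * Y / log Y ^ 2 with hR
  have hpos : ∀ j : ℕ, 0 < j → r j ≤ R j := by
    intro j hj
    refine le_trans ?_ (by simpa using card_prime_pairs_le j 0 Y hj hY)
    simp only [hr, Nat.cast_le]
    refine card_le_card_of_injOn (fun x => x.1) ?_ ?_
    · intro x hx
      simp only [coe_filter, mem_product, Set.mem_ofPred_eq, mem_Ioc] at hx ⊢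
      have a := hS _ hx.1.1
      have b := hS _ hx.1.2
      have : x.1 + j = x.2 := by omega
      exact ⟨⟨a.1.pos, a.2⟩, a.1, this ▸ b.1⟩
    · intro x hx y hy h
      simp only [coe_filter, mem_product, Set.mem_ofPred_eq] at hx hy h
      exact Prod.ext h (by omega)
  have hneg : ∀ j : ℤ, r (-j) = r j := by
    intro j
    simp only [hr, Nat.cast_inj]
    refine card_bij (fun x _ => x.swap) ?_ ?_ ?_
    · intro x hx
      simp only [mem_filter, mem_product, Prod.fst_swap, Prod.snd_swap] at hx ⊢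
      exact ⟨⟨hx.1.2, hx.1.1⟩, by omega⟩
    · intro x _ y _ h
      exact Prod.swap_injective h
    · intro y hy
      refine ⟨y.swap, ?_, by simp⟩
      simp only [mem_filter, mem_product, Prod.fst_swap, Prod.snd_swap] at hy ⊢
      exact ⟨⟨hy.1.2, hy.1.1⟩, by omega⟩
  have hzero : r 0 ≤ Y := by
    simp only [hr, Nat.cast_le]
    refine le_trans (card_le_card_of_injOn (t := Ioc 0 Y) (fun x => x.1) ?_ ?_) (by simp)
    · intro x hx
      simp only [coe_filter, mem_product, Set.mem_ofPred_eq, coe_Ioc, Set.mem_Ioc] at hx ⊢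
      have a := hS _ hx.1.1
      exact ⟨a.1.pos, a.2⟩
    · intro x hx y hy h
      simp only [coe_filter, mem_product, Set.mem_ofPred_eq] at hx hy h
      exact Prod.ext h (by omega)
  have hr0 : ∀ j, 0 ≤ r j := fun j => by simp only [hr]; positivity
  have hsub : Icc (-(Y : ℤ)) Y ⊆ insert 0 (((Ioc 0 Y).image fun j : ℕ => (j : ℤ)) ∪
      ((Ioc 0 Y).image fun j : ℕ => -(j : ℤ))) := by
    intro j hj
    simp only [mem_Icc, mem_insert, mem_union, mem_image, mem_Ioc] at hj ⊢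
    rcases lt_trichotomy j 0 with h | h | h
    · exact Or.inr (Or.inr ⟨j.natAbs, by omega, by omega⟩)
    · exact Or.inl h
    · exact Or.inr (Or.inl ⟨j.natAbs, by omega, by omega⟩)
  have hA : ∑ j ∈ Ioc 0 Y, r j ^ 2 ≤ 3360000 * Y ^ 3 / log Y ^ 4 := by
    calc ∑ j ∈ Ioc 0 Y, r j ^ 2 ≤ ∑ j ∈ Ioc 0 Y, R j ^ 2 :=
          sum_le_sum fun j hj => pow_le_pow_left₀ (hr0 _) (hpos j (mem_Ioc.1 hj).1) 2
      _ = 160000 * Y ^ 2 / log Y ^ 4 * ∑ j ∈ Ioc 0 Y, ((j : ℝ) / j.totient) ^ 2 := by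
          rw [mul_sum]
          refine sum_congr rfl fun j _ => ?_
          simp only [hR]; field_simp; ring
      _ ≤ 160000 * Y ^ 2 / log Y ^ 4 * (21 * Y) := by
          gcongr; exact sum_sq_div_totient_le Y
      _ = _ := by ring
  have hB : r 0 ^ 2 ≤ 256 * Y ^ 3 / log Y ^ 4 := by
    have a : log (Y : ℝ) ^ (4 : ℕ) ≤ 256 * (Y : ℝ) := by
      have b := Real.log_le_rpow_div (x := (Y : ℝ)) (by positivity) (ε := 1 / 4) (by norm_num)
      have c : ((Y : ℝ) ^ (1 / 4 : ℝ)) ^ (4 : ℕ) = Y := by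
        rw [← Real.rpow_natCast, ← Real.rpow_mul (by positivity)]; norm_num
      calc log (Y : ℝ) ^ (4 : ℕ) ≤ ((Y : ℝ) ^ (1 / 4 : ℝ) / (1 / 4)) ^ (4 : ℕ) := by gcongr
        _ = 256 * (Y : ℝ) := by rw [div_pow, c]; ring
    rw [le_div_iff₀ (by positivity)]
    calc r 0 ^ 2 * log Y ^ 4 ≤ (Y : ℝ) ^ 2 * (256 * Y) := by gcongr
      _ = _ := by ring
  calc ∑ j ∈ Icc (-(Y : ℤ)) Y, r j ^ 2
      ≤ _ := sum_le_sum_of_subset_of_nonneg hsub fun _ _ _ => sq_nonneg _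
    _ ≤ r 0 ^ 2 + (∑ j ∈ Ioc 0 Y, r j ^ 2 + ∑ j ∈ Ioc 0 Y, r j ^ 2) := by
        rw [sum_insert (by simp)]
        refine add_le_add le_rfl ?_
        refine (le_add_of_nonneg_right (sum_nonneg (s := ((Ioc 0 Y).image fun j : ℕ => (j : ℤ)) ∩
          ((Ioc 0 Y).image fun j : ℕ => -(j : ℤ))) fun j _ => sq_nonneg (r j))).trans (le_of_eq ?_)
        rw [sum_union_inter, sum_image (fun _ _ _ _ h => by exact_mod_cast h),
          sum_image (fun _ _ _ _ h => by simpa using h)]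
        simp only [hneg]
    _ ≤ _ := by
        have : (6720256 : ℝ) * Y ^ 3 / log Y ^ 4 = 256 * Y ^ 3 / log Y ^ 4 +
          (3360000 * Y ^ 3 / log Y ^ 4 + 3360000 * Y ^ 3 / log Y ^ 4) := by ring
        rw [this]; gcongr

end Pool.Agent.Work.MP_ca0f09_nt
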