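import Pool.Agent.Work.MP_ca0f09_nt.Short
import Pool.Agent.Work.MP_ca0f09_nt.Fourier
import Pool.Agent.Work.MP_ca0f09_nt.Defs

/-!
# The free term: correlations averaged over prime shifts are small under Sarnak's conjecture
-/

open Finset Real

namespace Pool.Agent.Work.MP_ca0f09_nt

open Pool.Agent.Lib.LargeSieve

lemma abs_mu_le (n : ℕ) : |mu n| ≤ 1 := by
  unfold mu
  exact_mod_cast ArithmeticFunction.abs_moebius_le_one

lemma sum_range_mul_eq (K H : ℕ) (g : ℕ → ℝ) :
    ∑ n ∈ range (K * H), g n = ∑ k ∈ range K, ∑ t ∈ range H, g (k * H + t) := by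
  induction K with
  | zero => simp
  | succ K ih => rw [Nat.succ_mul, sum_range_add, ih, sum_range_succ]

lemma re_ee (x : ℝ) : (ee x).re = cos (2 * π * x) := by
  unfold ee
  rw [mul_comm, Complex.exp_ofReal_mul_I_re]

lemma exists_phase (z : ℂ) : ∃ β : ℝ, ee β * z = ‖z‖ := by
  refine ⟨-Complex.arg z / (2 * π), ?_⟩
  have h := Complex.norm_mul_exp_arg_mul_I z
  have e : ee (-Complex.arg z / (2 * π)) = Complex.exp (-(Complex.arg z * Complex.I)) := by
    unfold ee
    congr 1
    have : 2 * π * (-Complex.arg z / (2 * π)) = -Complex.arg z := by field_simp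
    rw [this]; push_cast; ring
  rw [e]
  calc _ = Complex.exp (-(Complex.arg z * Complex.I)) *
        (‖z‖ * Complex.exp (Complex.arg z * Complex.I)) := by rw [h]
    _ = _ := by rw [mul_left_comm, ← Complex.exp_add]; simp

/-- local Fourier uniformity on aligned blocks, supremum inside -/
theorem short_ee (hS : SarnakHyp) (ε : ℝ) (hε : 0 < ε) :
    ∃ H₀ : ℕ, ∀ H, H₀ ≤ H → ∃ K₀ : ℕ, ∀ K, K₀ ≤ K → ∀ α : ℕ → ℝ,
      ∑ k ∈ range K, ‖∑ m ∈ range H, (mu (k * H + m) : ℂ) * ee (α k * m)‖ ≤ ε * (K * H) := by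
  obtain ⟨H₀, h⟩ := short_cos hS ε hε
  refine ⟨max H₀ 1, fun H hH => ?_⟩
  obtain ⟨K₀, h⟩ := h H (le_of_max_le_left hH)
  have hH0 : 0 < H := le_of_max_le_right hH
  refine ⟨K₀, fun K hK α => ?_⟩
  choose β hβ using fun k => exists_phase (∑ m ∈ range H, (mu (k * H + m) : ℂ) * ee (α k * m))
  refine le_trans (le_of_eq ?_) (h K hK α fun k => β k - α k * (k * H))
  rw [sum_range_mul_eq]
  refine sum_congr rfl fun k _ => ?_
  have h1 := congrArg Complex.re (hβ k)
  rw [Complex.ofReal_re] at h1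
  rw [← h1, mul_sum, Complex.re_sum]
  refine sum_congr rfl fun m hm => ?_
  have hd : (k * H + m) / H = k := by
    rw [Nat.div_eq_iff hH0]; have := mem_range.1 hm; omega
  rw [mul_left_comm, ← ee_add, Complex.re_ofReal_mul, re_ee, blk, hd, mu]
  congr 3
  push_cast; ring

/-- The free term. -/
theorem free_term (hS : SarnakHyp) (h B : ℕ) (hh : 0 < h) (hB : 0 < B) (ε : ℝ) (hε : 0 < ε) :
    ∃ P₀ : ℕ, ∀ P : ℕ, P₀ ≤ P → ∃ N₀ : ℕ, ∀ N : ℕ, N₀ ≤ N → ∀ S : Finset ℕ,
      (∀ p ∈ S, p.Prime ∧ P ≤ p ∧ p ≤ B * P) → ∀ f : ℕ → ℝ, (∀ n, |f n| ≤ 1) →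
      |∑ p ∈ S, (1 / (p : ℝ)) * ∑ n ∈ range (p * N), f n * mu (n + p * h)|
        ≤ ε * N * P / log P := by
  classical
  have hhr : (1 : ℝ) ≤ h := by exact_mod_cast hh
  have hBr : (1 : ℝ) ≤ B := by exact_mod_cast hB
  set c : ℝ := 4000 * h * B ^ 2 with hc
  have hc0 : 0 < c := by positivity
  obtain ⟨H₀, hU⟩ := short_ee hS (ε ^ 2 / (48 * c * (B * h) ^ 2)) (by positivity)
  refine ⟨max H₀ 2, fun P hP => ?_⟩
  have hP2 : 2 ≤ P := le_of_max_le_right hP
  have hPr : (2 : ℝ) ≤ P := by exact_mod_cast hP2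
  have hlP : 0 < log P := log_pos (by linarith)
  set H := B * P * h with hH
  have hPH : P ≤ H := by
    calc P = 1 * P * 1 := by ring
      _ ≤ B * P * h := by gcongr <;> omega
  have hH0 : 0 < H := by omega
  have hHr : (0 : ℝ) < H := by exact_mod_cast hH0
  obtain ⟨K₀, hU⟩ := hU H ((le_of_max_le_left hP).trans hPH)
  refine ⟨max (max (K₀ * h) 1) ⌈(B + 1) * H * (2 * log P) / (ε * P)⌉₊, fun N hN S hSp f hf => ?_⟩
  have hN1 : 1 ≤ N := le_of_max_le_right (le_of_max_le_left hN)
  have hNr : (1 : ℝ) ≤ N := by exact_mod_cast hN1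
  set K := N / h + 1 with hK
  have hKK : K₀ ≤ K + 1 := by
    have : K₀ ≤ N / h := (Nat.le_div_iff_mul_le hh).2 (le_of_max_le_left (le_of_max_le_left hN))
    omega
  have hKN : (K : ℝ) ≤ 2 * N := by
    have : K ≤ 2 * N := by have := Nat.div_le_self N h; omega
    exact_mod_cast this
  set M := 4 * H with hM
  have hM0 : (range M).Nonempty := ⟨0, mem_range.2 (by omega)⟩
  -- block suprema
  set g : ℕ → ℕ → ℝ := fun k a =>
    ‖∑ m ∈ range H, (mu (k * H + m) : ℂ) * ee ((a : ℝ) / M * m)‖ with hg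
  have hex : ∀ k, ∃ a ∈ range M, ∀ b ∈ range M, g k b ≤ g k a := fun k =>
    exists_max_image _ _ hM0
  choose am _ ham using hex
  have hsum : ∑ k ∈ range (K + 1), g k (am k)
      ≤ ε ^ 2 / (48 * c * (B * h) ^ 2) * (((K + 1 : ℕ) : ℝ) * H) :=
    hU (K + 1) hKK fun k => (am k : ℝ) / M
  have hg0 : ∀ k a, 0 ≤ g k a := fun k a => norm_nonneg _
  -- energy
  have hen : ∀ S' ⊆ S, √(2 * H * energy S' fun p => 1 / (p : ℝ)) ≤ c / log P ^ 2 := by
    clear * - S B P hB hP2 hSp hPr hBr H c h hh hlP hH hhr hc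
    intro S' hS'
    have hY : 2 ≤ B * P := by clear * - B P hB hP2; nlinarith
    have h1 := energy_le S' (B * P) hY (fun p hp => ⟨(hSp p (hS' hp)).1, (hSp p (hS' hp)).2.2⟩)
      (fun p => 1 / (p : ℝ)) (1 / P) (fun p hp => by
        have : (P : ℝ) ≤ p := by exact_mod_cast (hSp p (hS' hp)).2.1
        rw [abs_of_nonneg (by positivity)]
        gcongr)
    have h2 : log P ≤ log ((B * P : ℕ) : ℝ) := by
      clear * - P B hPr hBr
      apply log_le_log (by linarith)
      push_cast; nlinarith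
    refine sqrt_le_iff.2 ⟨by positivity, ?_⟩
    calc 2 * (H : ℝ) * energy S' (fun p => 1 / (p : ℝ))
        ≤ 2 * H * ((1 / P) ^ 4 * (6720256 * ((B * P : ℕ) : ℝ) ^ 3 / log P ^ 4)) := by
          refine mul_le_mul_of_nonneg_left (h1.trans ?_) (by positivity)
          gcongr
      _ = (2 * 6720256 * h * B ^ 4) / log P ^ 4 := by
          rw [hH]; push_cast; field_simp
      _ ≤ (16000000 * h ^ 2 * B ^ 4) / log P ^ 4 := by
          clear * - h B P hhr hB hlP
          gcongr ?_ * _ / _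
          nlinarith
      _ = _ := by rw [hc]; ring
  -- one block
  set Sk : ℕ → Finset ℕ := fun k => S.filter fun p => k < p * N / H with hSk
  set b : ℕ → ℝ := fun k =>
    ∑ t ∈ range H, f (k * H + t) * ∑ p ∈ Sk k, 1 / (p : ℝ) * mu (k * H + (t + p * h)) with hb
  have hblock : ∀ k, b k ^ 2 ≤ H * ((g k (am k) + g (k + 1) (am (k + 1))) * (c / log P ^ 2)) := by
    clear * - H Sk h g am hH0 hh B P hSp S N hH M hg hM ham f hf c hen hg0 hHr
    intro k
    have h1 := block_ineq H h hH0 hh (fun m => mu (k * H + m)) (fun m => abs_mu_le _) (Sk k)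
      (fun p => 1 / (p : ℝ)) (fun p hp => by
        have := (hSp p (mem_filter.1 hp).1).2.2
        rw [hH]; gcongr) (g k (am k) + g (k + 1) (am (k + 1))) (by
        clear * - H k g am M hg hM ham B P h
        intro a ha
        rw [two_mul, sum_range_add]
        refine (norm_add_le _ _).trans (add_le_add ?_ ?_)
        · refine le_trans (le_of_eq ?_) (ham k a ha)
          simp only [hg]
          congr 1
          refine sum_congr rfl fun m _ => ?_
          congr 2
          rw [hM]; push_cast; ring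
        · refine le_trans (le_of_eq ?_) (ham (k + 1) a ha)
          simp only [hg]
          rw [← one_mul ‖∑ m ∈ range H, (mu ((k + 1) * H + m) : ℂ) * _‖,
            ← norm_ee ((a : ℝ) / M * H), ← norm_mul, mul_sum]
          congr 1
          refine sum_congr rfl fun m _ => ?_
          rw [mul_left_comm (ee _), ← ee_add]
          congr 2
          · congr 1; ring
          · rw [hM]; push_cast; ring)
    have h2 := sum_mul_sq_le_sq_mul_sq (range H) (fun t => f (k * H + t))
      (fun t => ∑ p ∈ Sk k, 1 / (p : ℝ) * mu (k * H + (t + p * h)))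
    have h3 : ∑ t ∈ range H, f (k * H + t) ^ 2 ≤ H := by
      clear * - H f k hf
      have : ∀ t ∈ range H, f (k * H + t) ^ 2 ≤ 1 := fun t _ => by
        rw [← sq_abs]; exact pow_le_one₀ (abs_nonneg _) (hf _)
      simpa using sum_le_card_nsmul _ _ _ this
    refine h2.trans (mul_le_mul h3 (h1.trans ?_) (sum_nonneg fun _ _ => sq_nonneg _) hHr.le)
    exact mul_le_mul_of_nonneg_left (hen _ (filter_subset _ _)) (add_nonneg (hg0 _ _) (hg0 _ _))
  have hmain : |∑ k ∈ range K, b k| ≤ ε * N * P / log P / 2 := by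
    clear * - K b ε N P g am hg0 hNr hKN H c B h hblock hsum hB hP2 hh hε hlP M hN1 hH hc0
    refine abs_le_of_sq_le_sq' ?_ (by positivity) |> abs_le.2
    have h1 : ∑ k ∈ range K, (g k (am k) + g (k + 1) (am (k + 1)))
        ≤ 2 * ∑ k ∈ range (K + 1), g k (am k) := by
      rw [sum_add_distrib, two_mul]
      refine add_le_add ?_ ?_
      · rw [sum_range_succ _ K]; exact le_add_of_nonneg_right (hg0 _ _)
      · rw [sum_range_succ' _ K]; exact le_add_of_nonneg_right (hg0 _ _)
    have hK1 : ((K + 1 : ℕ) : ℝ) ≤ 3 * N := by push_cast; linarith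
    calc (∑ k ∈ range K, b k) ^ 2 ≤ #(range K) * ∑ k ∈ range K, b k ^ 2 :=
          sq_sum_le_card_mul_sum_sq
      _ ≤ K * ∑ k ∈ range K, H * ((g k (am k) + g (k + 1) (am (k + 1))) * (c / log P ^ 2)) := by
          rw [card_range]
          gcongr with k _
          exact hblock k
      _ = K * (H * ((∑ k ∈ range K, (g k (am k) + g (k + 1) (am (k + 1)))) * (c / log P ^ 2))) := by
          rw [← mul_sum, ← sum_mul]
      _ ≤ (2 * N) * (H * ((2 * (ε ^ 2 / (48 * c * (B * h) ^ 2) * ((3 * N) * H))) *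
            (c / log P ^ 2))) := by
          have : 0 ≤ ∑ k ∈ range K, (g k (am k) + g (k + 1) (am (k + 1))) :=
            sum_nonneg fun k _ => add_nonneg (hg0 _ _) (hg0 _ _)
          gcongr
          refine h1.trans (mul_le_mul_of_nonneg_left (hsum.trans ?_) (by norm_num))
          gcongr
      _ = (ε * N * P / log P / 2) ^ 2 := by
          rw [hH]; push_cast; field_simp; ring
  -- rounding
  have hround : ∑ p ∈ S, (1 / (p : ℝ)) * ∑ n ∈ range (p * N / H * H), f n * mu (n + p * h)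
      = ∑ k ∈ range K, b k := by
    clear * - S N H f h K b Sk hb hSk B P hSp hh hK hH
    simp only [hb, hSk, sum_range_mul_eq, mul_sum, sum_filter]
    rw [sum_comm (s := range K)]
    conv_rhs => enter [2, t]; rw [sum_comm]
    rw [sum_comm (s := range H)]
    refine sum_congr rfl fun p hp => ?_
    rw [sum_comm (s := range H)]
    have hle : p * N / H ≤ K := by
      clear * - p N B P hSp hp K h hh hK H hH
      have h1 : p * N ≤ B * P * N := by gcongr; exact (hSp p hp).2.2
      have h2 : N < K * h := by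
        have := Nat.lt_div_mul_add (a := N) hh
        rw [hK]; nlinarith
      have h3 : p * N ≤ K * H := by
        rw [hH]
        calc p * N ≤ B * P * N := h1
          _ ≤ B * P * (K * h) := by gcongr
          _ = _ := by ring
      exact Nat.div_le_of_le_mul (by rwa [mul_comm H])
    rw [← sum_range_add_sum_Ico _ hle]
    have z : ∑ k ∈ Ico (p * N / H) K, ∑ t ∈ range H, f (k * H + t) *
        (if k < p * N / H then 1 / (p : ℝ) * mu (k * H + (t + p * h)) else 0) = 0 := by
      refine sum_eq_zero fun k hk => sum_eq_zero fun t _ => ?_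
      rw [if_neg (not_lt.2 (mem_Ico.1 hk).1), mul_zero]
    rw [z, add_zero]
    refine sum_congr rfl fun k hk => sum_congr rfl fun t _ => ?_
    rw [if_pos (mem_range.1 hk), add_assoc]; ring
  have herr : |∑ p ∈ S, (1 / (p : ℝ)) * ∑ n ∈ range (p * N), f n * mu (n + p * h)
      - ∑ p ∈ S, (1 / (p : ℝ)) * ∑ n ∈ range (p * N / H * H), f n * mu (n + p * h)|
      ≤ (B + 1) * H := by
    clear * - S N f h H B P hSp hP2 hf hH0 ε H₀ K₀ hB hh hHr b
    rw [← sum_sub_distrib]
    refine (abs_sum_le_sum_abs _ _).trans ?_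
    have h1 : ∀ p ∈ S, |(1 / (p : ℝ)) * ∑ n ∈ range (p * N), f n * mu (n + p * h)
        - (1 / (p : ℝ)) * ∑ n ∈ range (p * N / H * H), f n * mu (n + p * h)| ≤ H / P := by
      clear * - S N H f h P B hSp hP2 hf hH0 b
      intro p hp
      have hle : p * N / H * H ≤ p * N := Nat.div_mul_le_self _ _
      rw [← mul_sub, ← sum_range_add_sum_Ico _ hle, add_sub_cancel_left, abs_mul]
      have hPp : (P : ℝ) ≤ p := by exact_mod_cast (hSp p hp).2.1
      have a : |1 / (p : ℝ)| ≤ 1 / P := by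
        rw [abs_of_nonneg (by positivity)]; gcongr
      have b : |∑ n ∈ Ico (p * N / H * H) (p * N), f n * mu (n + p * h)| ≤ H := by
        refine (abs_sum_le_sum_abs _ _).trans ?_
        have : ∀ n ∈ Ico (p * N / H * H) (p * N), |f n * mu (n + p * h)| ≤ 1 := fun n _ => by
          rw [abs_mul]; exact mul_le_one₀ (hf n) (abs_nonneg _) (abs_mu_le _)
        refine (sum_le_card_nsmul _ _ _ this).trans ?_
        rw [Nat.card_Ico, nsmul_eq_mul, mul_one]
        have := Nat.lt_div_mul_add (a := p * N) hH0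
        exact_mod_cast (show p * N - p * N / H * H ≤ H by omega)
      calc _ ≤ 1 / (P : ℝ) * H := by gcongr
        _ = _ := by ring
    refine (sum_le_card_nsmul _ _ _ h1).trans ?_
    have hcard : #S ≤ B * P := by
      refine le_trans (card_le_card (t := Ioc 0 (B * P)) fun p hp => ?_) (by simp)
      exact mem_Ioc.2 ⟨(hSp p hp).1.pos, (hSp p hp).2.2⟩
    have : (#S : ℝ) ≤ B * P := by exact_mod_cast hcard
    rw [nsmul_eq_mul]
    calc (#S : ℝ) * (H / P) ≤ (B * P) * (H / P) := by gcongr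
      _ = B * H := by field_simp
      _ ≤ _ := by clear * - B H hHr; nlinarith
  have herr2 : ((B : ℝ) + 1) * H ≤ ε * N * P / log P / 2 := by
    clear * - B H P ε N K₀ h hN hlP hε hP2
    have h1 : ((B : ℝ) + 1) * H * (2 * log P) / (ε * P) ≤ N :=
      (Nat.le_ceil _).trans (by exact_mod_cast le_of_max_le_right hN)
    rw [div_le_iff₀ (by positivity)] at h1
    rw [div_div, le_div_iff₀ (by positivity)]
    nlinarith
  rw [hround] at herr
  have := abs_sub_abs_le_abs_sub
    (∑ p ∈ S, (1 / (p : ℝ)) * ∑ n ∈ range (p * N), f n * mu (n + p * h)) (∑ k ∈ range K, b k)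
  clear * - S N f h ε P K b B H hmain herr herr2 this
  linarith

end Pool.Agent.Work.MP_ca0f09_nt
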