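import Pool.Agent.Work.MP_ca0f09_nt.Free
import Pool.Agent.Lib.ANT.Davenport

/-!
# The free term in `L¹` form, and the one-point case
-/

open Finset Real Filter Topology

namespace Pool.Agent.Work.MP_ca0f09_nt

open Pool.Agent.Lib.LargeSieve

theorem free_abs (hS : SarnakHyp) (h : ℕ) (hh : 1 ≤ h) (ε : ℝ) (hε : 0 < ε) :
    ∃ Q₀ : ℝ, ∀ Q : ℝ, Q₀ ≤ Q → ∀ T : Finset ℕ,
      (∀ p ∈ T, p.Prime ∧ Q ≤ (p : ℝ) ∧ (p : ℝ) ≤ 2 * Q) → ∀ c : ℕ → ℝ, (∀ p, |c p| ≤ 1) →
      ∀ᶠ X : ℕ in atTop, ∑ m ∈ range X, |∑ p ∈ T, c p * mu (m + h * p)|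
        ≤ ε * X * Q / log Q := by
  classical
  have hhr : (1 : ℝ) ≤ h := by exact_mod_cast hh
  obtain ⟨H₀, hU⟩ := short_ee hS (ε ^ 2 / (192000 * h)) (by positivity)
  refine ⟨max (H₀ : ℝ) 2, fun Q hQ T hT c hc => ?_⟩
  have hQ2 : 2 ≤ Q := le_of_max_le_right hQ
  have hlQ : 0 < log Q := log_pos (by linarith)
  set Y := ⌊2 * Q⌋₊ with hY
  have hYQ : (Y : ℝ) ≤ 2 * Q := Nat.floor_le (by linarith)
  have hQY : Q ≤ Y := by have := Nat.lt_floor_add_one (2 * Q); linarith
  have hY2 : 2 ≤ Y := by exact_mod_cast hQ2.trans hQY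
  have hTY : ∀ p ∈ T, p ≤ Y := fun p hp => Nat.le_floor (hT p hp).2.2
  set H := Y * h with hH
  have hYH : Y ≤ H := Nat.le_mul_of_pos_right _ hh
  have hH0 : 0 < H := by omega
  have hHr : (0 : ℝ) < H := by exact_mod_cast hH0
  have hH₀ : H₀ ≤ H := by
    have : (H₀ : ℝ) ≤ Y := (le_of_max_le_left hQ).trans hQY
    exact le_trans (by exact_mod_cast this) hYH
  obtain ⟨K₀, hU⟩ := hU H hH₀
  filter_upwards [eventually_ge_atTop (max (K₀ * H) H)] with X hX
  set K := X / H + 1 with hK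
  have hKK : K₀ ≤ K + 1 := by
    have : K₀ ≤ X / H := (Nat.le_div_iff_mul_le hH0).2 (le_of_max_le_left hX)
    omega
  have hHX : H ≤ X := le_of_max_le_right hX
  have hKH : K * H ≤ 2 * X := by
    have := Nat.div_mul_le_self X H
    rw [hK, Nat.add_mul]; omega
  have hXK : X ≤ K * H := by
    have := Nat.lt_div_mul_add (a := X) hH0
    rw [hK, Nat.add_mul]; omega
  have hKHr : (K : ℝ) * H ≤ 2 * X := by exact_mod_cast hKH
  have hK1 : ((K + 1 : ℕ) : ℝ) * H ≤ 3 * X := by
    have : (H : ℝ) ≤ X := by exact_mod_cast hHX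
    push_cast; linarith
  set M := 4 * H with hM
  have hM0 : (range M).Nonempty := ⟨0, mem_range.2 (by omega)⟩
  set g : ℕ → ℕ → ℝ := fun k a =>
    ‖∑ m ∈ range H, (mu (k * H + m) : ℂ) * ee ((a : ℝ) / M * m)‖ with hg
  have hex : ∀ k, ∃ a ∈ range M, ∀ b ∈ range M, g k b ≤ g k a := fun k =>
    exists_max_image _ _ hM0
  choose am _ ham using hex
  have hsum : ∑ k ∈ range (K + 1), g k (am k)
      ≤ ε ^ 2 / (192000 * h) * (((K + 1 : ℕ) : ℝ) * H) :=
    hU (K + 1) hKK fun k => (am k : ℝ) / M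
  have hg0 : ∀ k a, 0 ≤ g k a := fun k a => norm_nonneg _
  have hen : √(2 * H * energy T c) ≤ 16000 * h * Q ^ 2 / log Q ^ 2 := by
    have h1 := energy_le T Y hY2 (fun p hp => ⟨(hT p hp).1, hTY p hp⟩) c 1 (fun p _ => hc p)
    have h2 : log Q ≤ log (Y : ℝ) := log_le_log (by linarith) hQY
    refine sqrt_le_iff.2 ⟨by positivity, ?_⟩
    calc 2 * (H : ℝ) * energy T c
        ≤ 2 * H * (1 ^ 4 * (6720256 * (Y : ℝ) ^ 3 / log Q ^ 4)) := by
          refine mul_le_mul_of_nonneg_left (h1.trans ?_) (by positivity)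
          gcongr
      _ = (2 * 6720256 * h * (Y : ℝ) ^ 4) / log Q ^ 4 := by
          rw [hH]; push_cast; field_simp
      _ ≤ (16000000 * h ^ 2 * (2 * Q) ^ 4) / log Q ^ 4 := by
          gcongr ?_ * ?_ / _
          · nlinarith
          · gcongr
      _ = _ := by ring
  set G : ℕ → ℝ := fun m => ∑ p ∈ T, c p * mu (m + h * p) with hG
  have hblock : ∀ k, ∑ t ∈ range H, G (k * H + t) ^ 2
      ≤ (g k (am k) + g (k + 1) (am (k + 1))) * (16000 * h * Q ^ 2 / log Q ^ 2) := by
    intro k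
    have h1 := block_ineq H h hH0 hh (fun m => mu (k * H + m)) (fun m => abs_mu_le _) T
      c (fun p hp => by
        have := hTY p hp
        rw [hH]; gcongr) (g k (am k) + g (k + 1) (am (k + 1))) (by
        intro a ha
        rw [two_mul, sum_range_add]
        refine (norm_add_le _ _).trans (add_le_add ?_ ?_)
        · refine le_trans (le_of_eq ?_) (ham k a ha)
          simp only [hg]
          congr 1
          refine sum_congr rfl fun m _ => ?_
          congr 2
          rw [hM]; push_cast; ring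
        · refine le_trans (le_of_eq ?_) (ham (k + 1) a ha)
          simp only [hg]
          rw [← one_mul ‖∑ m ∈ range H, (mu ((k + 1) * H + m) : ℂ) * _‖,
            ← norm_ee ((a : ℝ) / M * H), ← norm_mul, mul_sum]
          congr 1
          refine sum_congr rfl fun m _ => ?_
          rw [mul_left_comm (ee _), ← ee_add]
          congr 2
          · congr 1; ring
          · rw [hM]; push_cast; ring)
    refine le_trans (le_of_eq ?_) (h1.trans
      (mul_le_mul_of_nonneg_left hen (add_nonneg (hg0 _ _) (hg0 _ _))))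
    simp only [hG, add_assoc, mul_comm h]
  have h1 : ∑ k ∈ range K, (g k (am k) + g (k + 1) (am (k + 1)))
      ≤ 2 * ∑ k ∈ range (K + 1), g k (am k) := by
    rw [sum_add_distrib, two_mul]
    refine add_le_add ?_ ?_
    · rw [sum_range_succ _ K]; exact le_add_of_nonneg_right (hg0 _ _)
    · rw [sum_range_succ' _ K]; exact le_add_of_nonneg_right (hg0 _ _)
  refine (sum_le_sum_of_subset_of_nonneg (range_subset_range.2 hXK)
    fun _ _ _ => abs_nonneg _).trans ?_
  refine (pow_le_pow_iff_left₀ (sum_nonneg fun _ _ => abs_nonneg _) (by positivity)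
    two_ne_zero).1 ?_
  calc (∑ m ∈ range (K * H), |G m|) ^ 2 ≤ #(range (K * H)) * ∑ m ∈ range (K * H), |G m| ^ 2 :=
        sq_sum_le_card_mul_sum_sq
    _ = (K * H) * ∑ k ∈ range K, ∑ t ∈ range H, G (k * H + t) ^ 2 := by
        rw [card_range, sum_range_mul_eq]; simp only [sq_abs]; push_cast; ring
    _ ≤ (K * H) * ∑ k ∈ range K,
          (g k (am k) + g (k + 1) (am (k + 1))) * (16000 * h * Q ^ 2 / log Q ^ 2) := by
        gcongr with k _
        exact hblock k
    _ = (K * H) * ((∑ k ∈ range K, (g k (am k) + g (k + 1) (am (k + 1)))) *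
          (16000 * h * Q ^ 2 / log Q ^ 2)) := by rw [← sum_mul]
    _ ≤ (2 * X) * ((2 * (ε ^ 2 / (192000 * h) * (3 * X))) *
          (16000 * h * Q ^ 2 / log Q ^ 2)) := by
        have : 0 ≤ ∑ k ∈ range K, (g k (am k) + g (k + 1) (am (k + 1))) :=
          sum_nonneg fun k _ => add_nonneg (hg0 _ _) (hg0 _ _)
        gcongr
        refine h1.trans (mul_le_mul_of_nonneg_left (hsum.trans ?_) (by norm_num))
        gcongr
    _ = (ε * X * Q / log Q) ^ 2 := by field_simp; ring

theorem free_of_sarnak (hS : Sarnak) : Free := fun h hh ε hε => free_abs hS h hh ε hε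

end Pool.Agent.Work.MP_ca0f09_nt
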