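import Pool.Agent.Work.MP_ca0f09_nt.Free

/-!
# The free term from the averaged short interval bound with the supremum outside
-/

open Finset Real Filter Topology

namespace Pool.Agent.Work.MP_ca0f09_nt

open Pool.Agent.Lib.LargeSieve

/-- short exponential sums of the Moebius function are small on average, uniformly in the
frequency -/
def ShortU : Prop :=
  ∀ ε : ℝ, 0 < ε → ∃ H₀ : ℕ, ∀ H : ℕ, H₀ ≤ H → ∀ α : ℝ, ∀ᶠ X : ℕ in atTop,
    ∑ x ∈ range X, ‖∑ j ∈ range H, (mu (x + j) : ℂ) * ee (α * j)‖ ≤ ε * H * X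

noncomputable def fA (H : ℕ) (F : ℕ → ℝ) (a : ℕ) : ℂ :=
  ∑ m ∈ range (2 * H), (F m : ℂ) * ee (a * (((m : ℤ) : ℝ) / (4 * H : ℕ)))

noncomputable def fB (H h : ℕ) (S : Finset ℕ) (ω : ℕ → ℝ) (a : ℕ) : ℂ :=
  ∑ p ∈ S, (ω p : ℂ) * ee (a * (((-(p * h : ℕ) : ℤ) : ℝ) / (4 * H : ℕ)))

lemma block_parseval (H h : ℕ) (hH : 0 < H) (F : ℕ → ℝ)
    (S : Finset ℕ) (ω : ℕ → ℝ) (hS : ∀ p ∈ S, p * h ≤ H) :
    ∑ t ∈ range H, (∑ p ∈ S, ω p * F (t + p * h)) ^ 2
      ≤ (∑ a ∈ range (4 * H), ‖fA H F a‖ ^ 2 * ‖fB H h S ω a‖ ^ 2) / (4 * H : ℕ) := by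
  classical
  have hM0 : 0 < 4 * H := by omega
  have hMr : (0 : ℝ) < (4 * H : ℕ) := by exact_mod_cast hM0
  have P1 := parseval (range (2 * H) ×ˢ S) (fun x => F x.1 * ω x.2)
    (fun x => (x.1 : ℤ) - (x.2 * h : ℕ)) (4 * H) hM0 (by
      rintro ⟨m, p⟩ hx ⟨m', p'⟩ hy
      simp only [mem_product, mem_range] at hx hy
      have := hS p hx.2
      have := hS p' hy.2
      rw [abs_lt]; constructor <;> simp only <;> omega)
  have e1 : ∀ a : ℕ, ∑ x ∈ range (2 * H) ×ˢ S, ((F x.1 * ω x.2 : ℝ) : ℂ) *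
      ee (a * ((((x.1 : ℤ) - (x.2 * h : ℕ) : ℤ) : ℝ) / (4 * H : ℕ)))
        = fA H F a * fB H h S ω a := by
    intro a
    rw [fA, fB, sum_mul_sum, sum_product]
    refine sum_congr rfl fun m _ => sum_congr rfl fun p _ => ?_
    have e : (a : ℝ) * ((((m : ℤ) - (p * h : ℕ) : ℤ) : ℝ) / (4 * H : ℕ))
        = a * (((m : ℤ) : ℝ) / (4 * H : ℕ)) + a * (((-(p * h : ℕ) : ℤ) : ℝ) / (4 * H : ℕ)) := by
      push_cast; ring
    simp only
    rw [e, ee_add]; push_cast; ring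
  simp only [e1] at P1
  have L1 := sum_sq_fiber_le (range (2 * H) ×ˢ S) (fun x => F x.1 * ω x.2)
    (fun x => (x.1 : ℤ) - (x.2 * h : ℕ)) ((range H).image (fun t : ℕ => (t : ℤ)))
  rw [sum_image (fun _ _ _ _ h => by exact_mod_cast h)] at L1
  have e2 : ∀ t ∈ range H, (∑ x ∈ range (2 * H) ×ˢ S with (x.1 : ℤ) - (x.2 * h : ℕ) = (t : ℤ),
      F x.1 * ω x.2) = ∑ p ∈ S, ω p * F (t + p * h) := by
    intro t ht
    rw [sum_filter, sum_product, sum_comm]
    refine sum_congr rfl fun p hp => ?_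
    rw [sum_eq_single (t + p * h)]
    · simp [mul_comm]
    · intro m _ hm
      rw [if_neg]
      simp only; omega
    · intro hm
      have := hS p hp
      simp only [mem_range] at hm ht
      omega
  simp only [← mul_pow, ← norm_mul]
  rw [P1, mul_div_cancel_left₀ _ hMr.ne']
  refine le_trans (le_of_eq ?_) L1
  exact sum_congr rfl fun t ht => by rw [e2 t ht]

lemma sum_fA_le (H : ℕ) (hH : 0 < H) (F : ℕ → ℝ) (hF : ∀ m, |F m| ≤ 1) :
    ∑ a ∈ range (4 * H), ‖fA H F a‖ ^ 2 ≤ (4 * H : ℕ) * (2 * H) := by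
  have P2 := parseval (range (2 * H)) F (fun m => (m : ℤ)) (4 * H) (by omega) (by
    intro m hm m' hm'
    simp only [mem_range] at hm hm'
    rw [abs_lt]; constructor <;> omega)
  simp only [fA]
  rw [P2]
  gcongr
  have : ∀ i ∈ range (2 * H), (∑ j ∈ range (2 * H), if (i : ℤ) = (j : ℤ) then F i * F j else 0)
      ≤ 1 := by
    intro i hi
    simp only [Nat.cast_inj, sum_ite_eq, hi, if_true]
    have := hF i
    rw [← sq, ← sq_abs]
    exact pow_le_one₀ (abs_nonneg _) this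
  refine (sum_le_card_nsmul _ _ _ this).trans ?_
  simp

lemma norm_fA_le (H : ℕ) (F : ℕ → ℝ) (hF : ∀ m, |F m| ≤ 1) (a : ℕ) : ‖fA H F a‖ ≤ 2 * H := by
  refine (norm_sum_le _ _).trans ?_
  have : ∀ m ∈ range (2 * H), ‖(F m : ℂ) * ee (a * (((m : ℤ) : ℝ) / (4 * H : ℕ)))‖ ≤ 1 := by
    intro m _
    rw [norm_mul, norm_ee, mul_one, Complex.norm_real]
    exact hF m
  simpa using sum_le_card_nsmul _ _ _ this

lemma sum_fB_eq (H h : ℕ) (hH : 0 < H) (hh : 0 < h)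
    (S : Finset ℕ) (ω : ℕ → ℝ) (hS : ∀ p ∈ S, p * h ≤ H) :
    ∑ a ∈ range (4 * H), (‖fB H h S ω a‖ ^ 2) ^ 2 = (4 * H : ℕ) * energy S ω := by
  have P3 := parseval (S ×ˢ S) (fun x => ω x.1 * ω x.2)
    (fun x => ((x.2 * h : ℕ) : ℤ) - (x.1 * h : ℕ)) (4 * H) (by omega) (by
      rintro ⟨p, q⟩ hx ⟨p', q'⟩ hy
      simp only [mem_product] at hx hy
      have := hS p hx.1
      have := hS q hx.2
      have := hS p' hy.1
      have := hS q' hy.2
      rw [abs_lt]; constructor <;> simp only <;> omega)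
  have e3 : ∀ a : ℕ, ∑ x ∈ S ×ˢ S, ((ω x.1 * ω x.2 : ℝ) : ℂ) *
      ee (a * (((((x.2 * h : ℕ) : ℤ) - (x.1 * h : ℕ) : ℤ) : ℝ) / (4 * H : ℕ)))
        = fB H h S ω a * (starRingEnd ℂ) (fB H h S ω a) := by
    intro a
    simp only [fB]
    rw [map_sum, sum_mul_sum, sum_product]
    refine sum_congr rfl fun p _ => sum_congr rfl fun q _ => ?_
    rw [map_mul, Complex.conj_ofReal, conj_ee]
    have e : (a : ℝ) * (((((q * h : ℕ) : ℤ) - (p * h : ℕ) : ℤ) : ℝ) / (4 * H : ℕ))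
        = a * (((-(p * h : ℕ) : ℤ) : ℝ) / (4 * H : ℕ))
          + -(a * (((-(q * h : ℕ) : ℤ) : ℝ) / (4 * H : ℕ))) := by
      push_cast; ring
    simp only
    rw [e, ee_add]; push_cast; ring
  simp only [e3] at P3
  have : ∀ a, ‖fB H h S ω a * (starRingEnd ℂ) (fB H h S ω a)‖ = ‖fB H h S ω a‖ ^ 2 := fun a => by
    rw [norm_mul, Complex.norm_conj, sq]
  simp only [this] at P3
  rw [P3, energy]
  congr 1
  refine sum_congr rfl fun x _ => sum_congr rfl fun y _ => ?_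
  have hh' : (h : ℤ) ≠ 0 := by exact_mod_cast hh.ne'
  have : (((x.2 * h : ℕ) : ℤ) - (x.1 * h : ℕ) = ((y.2 * h : ℕ) : ℤ) - (y.1 * h : ℕ)) ↔
      (x.2 : ℤ) - x.1 = (y.2 : ℤ) - y.1 := by
    push_cast
    rw [← sub_mul, ← sub_mul, mul_left_inj' hh']
  simp only [this]

lemma sum_window_ge (H X : ℕ) (u : ℕ → ℝ) (hu : ∀ m, 0 ≤ u m) :
    H * ∑ m ∈ Ico H X, u m ≤ ∑ x ∈ range X, ∑ t ∈ range H, u (x + t) := by
  rw [sum_comm]
  have : ∀ t ∈ range H, ∑ m ∈ Ico H X, u m ≤ ∑ x ∈ range X, u (x + t) := by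
    intro t ht
    rw [range_eq_Ico, sum_Ico_add' u 0 X t]
    refine sum_le_sum_of_subset_of_nonneg (Ico_subset_Ico ?_ ?_) fun _ _ _ => hu _
    · have := mem_range.1 ht; omega
    · omega
  simpa using card_nsmul_le_sum _ _ _ this

theorem free_abs_of_U (hU : ShortU) (h : ℕ) (hh : 1 ≤ h) (ε : ℝ) (hε : 0 < ε) :
    ∃ Q₀ : ℝ, ∀ Q : ℝ, Q₀ ≤ Q → ∀ T : Finset ℕ,
      (∀ p ∈ T, p.Prime ∧ Q ≤ (p : ℝ) ∧ (p : ℝ) ≤ 2 * Q) → ∀ c : ℕ → ℝ, (∀ p, |c p| ≤ 1) →
      ∀ᶠ X : ℕ in atTop, ∑ m ∈ range X, |∑ p ∈ T, c p * mu (m + h * p)|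
        ≤ ε * X * Q / log Q := by
  classical
  have hhr : (1 : ℝ) ≤ h := by exact_mod_cast hh
  set C : ℝ := 21000 * h with hC
  have hC0 : 0 < C := by positivity
  set η : ℝ := ε ^ 2 / 16 with hη
  have hη0 : 0 < η := by positivity
  obtain ⟨H₀, hU⟩ := hU (ε ^ 2 * η ^ 2 / (8 * C ^ 3)) (by positivity)
  refine ⟨max (H₀ : ℝ) 2, fun Q hQ T hT c hc => ?_⟩
  have hQ2 : 2 ≤ Q := le_of_max_le_right hQ
  have hlQ : 0 < log Q := log_pos (by linarith)
  set Y := ⌊2 * Q⌋₊ with hY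
  have hYQ : (Y : ℝ) ≤ 2 * Q := Nat.floor_le (by linarith)
  have hQY : Q ≤ Y := by have := Nat.lt_floor_add_one (2 * Q); linarith
  have hY2 : 2 ≤ Y := by exact_mod_cast hQ2.trans hQY
  have hTY : ∀ p ∈ T, p ≤ Y := fun p hp => Nat.le_floor (hT p hp).2.2
  set H := Y * h with hH
  have hYH : Y ≤ H := Nat.le_mul_of_pos_right _ hh
  have hH0 : 0 < H := by omega
  have hHr : (0 : ℝ) < H := by exact_mod_cast hH0
  have hH₀ : H₀ ≤ 2 * H := by
    have : (H₀ : ℝ) ≤ Y := (le_of_max_le_left hQ).trans hQY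
    have : H₀ ≤ Y := by exact_mod_cast this
    omega
  have hTH : ∀ p ∈ T, p * h ≤ H := fun p hp => by
    have := hTY p hp
    rw [hH]; gcongr
  set b : ℝ := (Q / log Q) ^ 2 with hb
  have hb0 : 0 < b := by positivity
  set B : ℕ → ℝ := fun a => ‖fB H h T c a‖ ^ 2 with hB
  have hB0 : ∀ a, 0 ≤ B a := fun a => sq_nonneg _
  have hB4 : ∑ a ∈ range (4 * H), B a ^ 2 ≤ (C * b) ^ 2 := by
    clear * - H B C b T c h hH0 hh hTH Y hY2 Q hT hTY hc hQ2 hQY hlQ hH hhr hYQ hC hb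
    rw [sum_fB_eq H h hH0 hh T c hTH]
    have h1 := energy_le T Y hY2 (fun p hp => ⟨(hT p hp).1, hTY p hp⟩) c 1 (fun p _ => hc p)
    have h2 : log Q ≤ log (Y : ℝ) := log_le_log (by linarith) hQY
    calc ((4 * H : ℕ) : ℝ) * energy T c
        ≤ (4 * H : ℕ) * (1 ^ 4 * (6720256 * (Y : ℝ) ^ 3 / log Q ^ 4)) := by
          refine mul_le_mul_of_nonneg_left (h1.trans ?_) (by positivity)
          gcongr
      _ = (4 * 6720256 * h * (Y : ℝ) ^ 4) / log Q ^ 4 := by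
          rw [hH]; push_cast; field_simp
      _ ≤ (27562500 * h ^ 2 * (2 * Q) ^ 4) / log Q ^ 4 := by
          gcongr ?_ * ?_ / _
          · nlinarith
          · gcongr
      _ = _ := by rw [hC, hb]; ring
  have hBle : ∀ a ∈ range (4 * H), B a ≤ C * b := by
    intro a ha
    refine (pow_le_pow_iff_left₀ (hB0 a) (by positivity) two_ne_zero).1 (le_trans ?_ hB4)
    exact single_le_sum (f := fun a => B a ^ 2) (fun _ _ => sq_nonneg _) ha
  set L := (range (4 * H)).filter fun a => η * b < B a with hL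
  have hLcard : (#L : ℝ) ≤ C ^ 2 / η ^ 2 := by
    have h1 : ∀ a ∈ L, (η * b) ^ 2 ≤ B a ^ 2 := fun a ha =>
      pow_le_pow_left₀ (by positivity) (mem_filter.1 ha).2.le 2
    have h2 := (card_nsmul_le_sum _ _ _ h1).trans
      ((sum_le_sum_of_subset_of_nonneg (filter_subset _ _) fun _ _ _ => sq_nonneg _).trans hB4)
    rw [nsmul_eq_mul, mul_pow, mul_pow, ← mul_assoc] at h2
    rw [le_div_iff₀ (by positivity)]
    exact le_of_mul_le_mul_right h2 (by positivity)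
  have hev : ∀ᶠ X : ℕ in atTop, ∀ a ∈ range (4 * H),
      ∑ x ∈ range X, ‖∑ j ∈ range (2 * H), (mu (x + j) : ℂ) * ee ((a : ℝ) / (4 * H : ℕ) * j)‖
        ≤ ε ^ 2 * η ^ 2 / (8 * C ^ 3) * (2 * H : ℕ) * X :=
    (eventually_all_finset _).2 fun a _ => hU (2 * H) hH₀ _
  filter_upwards [hev, eventually_ge_atTop ⌈(H : ℝ) * #T * (2 * log Q) / (ε * Q)⌉₊] with X hX hX2
  set G : ℕ → ℝ := fun m => ∑ p ∈ T, c p * mu (m + h * p) with hG
  set A : ℕ → ℕ → ℂ := fun x a => fA H (fun m => mu (x + m)) a with hA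
  have hAX : ∀ a ∈ range (4 * H), ∑ x ∈ range X, ‖A x a‖
      ≤ ε ^ 2 * η ^ 2 / (8 * C ^ 3) * (2 * H) * X := by
    intro a ha
    refine le_trans (le_of_eq ?_) ((hX a ha).trans (le_of_eq (by push_cast; ring)))
    refine sum_congr rfl fun x _ => ?_
    simp only [hA, fA]
    congr 1
    refine sum_congr rfl fun m _ => ?_
    congr 2
    push_cast; ring
  have hblock : ∀ x, ∑ t ∈ range H, G (x + t) ^ 2
      ≤ η * b * (2 * H) + C * b / 2 * ∑ a ∈ L, ‖A x a‖ := by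
    clear * - H T c h hH0 hTH A B η b C L hL hBle Y hY2 hh ε hε Q hQ2 hlQ G hG
    intro x
    have h1 := block_parseval H h hH0 (fun m => mu (x + m)) T c hTH
    have h2 := sum_fA_le H hH0 (fun m => mu (x + m)) fun m => abs_mu_le _
    have h3 : ∑ a ∈ range (4 * H), ‖A x a‖ ^ 2 * B a
        ≤ η * b * ∑ a ∈ range (4 * H), ‖A x a‖ ^ 2 + (2 * H) * (C * b) * ∑ a ∈ L, ‖A x a‖ := by
      rw [hL, sum_filter, mul_sum, mul_sum, ← sum_add_distrib]
      refine sum_le_sum fun a ha => ?_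
      have hn := norm_nonneg (A x a)
      split_ifs with hab
      · have a1 : ‖A x a‖ ≤ 2 * H := norm_fA_le H _ (fun m => abs_mu_le _) a
        have a2 := hBle a ha
        have : ‖A x a‖ ^ 2 * B a ≤ (2 * H) * (C * b) * ‖A x a‖ := by
          calc ‖A x a‖ ^ 2 * B a = ‖A x a‖ * B a * ‖A x a‖ := by ring
            _ ≤ _ := by gcongr
        have : 0 ≤ η * b * ‖A x a‖ ^ 2 := by positivity
        linarith
      · rw [mul_zero, add_zero, mul_comm]
        gcongr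
        exact not_lt.1 hab
    have e : ∑ t ∈ range H, G (x + t) ^ 2
        = ∑ t ∈ range H, (∑ p ∈ T, c p * mu (x + (t + p * h))) ^ 2 := by
      simp only [hG, add_assoc, mul_comm h]
    rw [e]
    refine h1.trans ?_
    rw [div_le_iff₀ (by positivity)]
    refine h3.trans ?_
    have : η * b * ∑ a ∈ range (4 * H), ‖A x a‖ ^ 2 ≤ η * b * ((4 * H : ℕ) * (2 * H)) := by
      gcongr
    refine (add_le_add this le_rfl).trans (le_of_eq ?_)
    push_cast; ring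
  have hsq : ∑ m ∈ Ico H X, G m ^ 2 ≤ ε ^ 2 / 4 * b * X := by
    clear * - H X G ε b η C L A hblock B hAX hLcard hε h hh Y hY2 Q hQ2 hlQ hη hC0 hH0 hb0 hHr
    have h1 := sum_window_ge H X (fun m => G m ^ 2) fun m => sq_nonneg _
    have h2 : ∑ x ∈ range X, ∑ t ∈ range H, G (x + t) ^ 2 ≤ H * (ε ^ 2 / 4 * b * X) := by
      refine (sum_le_sum fun x _ => hblock x).trans ?_
      rw [sum_add_distrib, sum_const, card_range, nsmul_eq_mul, ← mul_sum, sum_comm]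
      have h3 : ∑ a ∈ L, ∑ x ∈ range X, ‖A x a‖
          ≤ C ^ 2 / η ^ 2 * (ε ^ 2 * η ^ 2 / (8 * C ^ 3) * (2 * H) * X) := by
        refine (sum_le_card_nsmul _ _ _ fun a ha => hAX a (mem_filter.1 ha).1).trans ?_
        rw [nsmul_eq_mul]
        gcongr
      refine (add_le_add le_rfl (mul_le_mul_of_nonneg_left h3 (by positivity))).trans
        (le_of_eq ?_)
      rw [hη]; field_simp; ring
    exact le_of_mul_le_mul_left (h1.trans h2) hHr
  have hmain : ∑ m ∈ Ico H X, |G m| ≤ ε * X * Q / log Q / 2 := by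
    clear * - H X G ε Q hε hQ2 hlQ b hsq hb
    refine (pow_le_pow_iff_left₀ (sum_nonneg fun _ _ => abs_nonneg _) (by positivity)
      two_ne_zero).1 ?_
    calc (∑ m ∈ Ico H X, |G m|) ^ 2 ≤ #(Ico H X) * ∑ m ∈ Ico H X, |G m| ^ 2 :=
          sq_sum_le_card_mul_sum_sq
      _ ≤ X * (ε ^ 2 / 4 * b * X) := by
          simp only [sq_abs]
          gcongr
          rw [Nat.card_Ico]
          exact_mod_cast Nat.sub_le X H
      _ = _ := by rw [hb]; field_simp; ring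
  have hinit : ∑ m ∈ range H, |G m| ≤ ε * X * Q / log Q / 2 := by
    clear * - H G T c h hc ε X Q hX2 hlQ hε hQ2
    have h1 : ∀ m ∈ range H, |G m| ≤ #T := by
      intro m _
      refine (abs_sum_le_sum_abs _ _).trans ?_
      have : ∀ p ∈ T, |c p * mu (m + h * p)| ≤ 1 := fun p _ => by
        rw [abs_mul]; exact mul_le_one₀ (hc p) (abs_nonneg _) (abs_mu_le _)
      simpa using sum_le_card_nsmul _ _ _ this
    refine (sum_le_card_nsmul _ _ _ h1).trans ?_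
    rw [card_range, nsmul_eq_mul]
    have h2 : (H : ℝ) * #T * (2 * log Q) / (ε * Q) ≤ X :=
      (Nat.le_ceil _).trans (by exact_mod_cast hX2)
    rw [div_le_iff₀ (by positivity)] at h2
    rw [div_div, le_div_iff₀ (by positivity)]
    nlinarith
  have hsub : range X ⊆ range H ∪ Ico H X := fun m hm => by
    simp only [mem_union, mem_range, mem_Ico] at hm ⊢; omega
  refine (sum_le_sum_of_subset_of_nonneg hsub fun _ _ _ => abs_nonneg _).trans ?_
  rw [sum_union (by rw [range_eq_Ico]; exact Ico_disjoint_Ico_consecutive 0 H X)]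
  clear * - H T c h X ε Q G hmain hinit
  linarith

theorem free_of_unif (hU : Unif) : Free := by
  refine fun h hh ε hε => free_abs_of_U (fun δ hδ => ?_) h hh ε hε
  obtain ⟨H₀, hH⟩ := hU δ hδ
  refine ⟨H₀, fun H hH' α => (hH H hH' α).mono fun X hX => le_trans (le_of_eq ?_) hX⟩
  refine sum_congr rfl fun x _ => ?_
  congr 1
  refine sum_congr rfl fun j _ => ?_
  congr 1
  unfold ee
  congr 1
  push_cast; ring

end Pool.Agent.Work.MP_ca0f09_nt
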