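import Pool.Agent.Work.MP_ca0f09_nt.Entropy

/-!
# Sarnak's conjecture implies local Fourier uniformity of the Moebius function
-/

open Filter Topology Real

namespace Pool.Agent.Work.MP_ca0f09_nt

/-- `W` approximates `u` on `[0, L)`. -/
def Appr (W : Finset (ℕ → ℝ)) (L : ℕ) (η : ℝ) (u : ℕ → ℝ) : Prop :=
  ∃ w ∈ W, ∀ i < L, |u i - w i| ≤ η

open Classical in
noncomputable def glue (W : Finset (ℕ → ℝ)) (L : ℕ) : Finset (ℕ → ℝ) :=
  (Finset.range (L + 1) ×ˢ W ×ˢ W).image fun t => fun i => if i < t.1 then t.2.1 i else t.2.2 i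

lemma card_glue (W : Finset (ℕ → ℝ)) (L : ℕ) : (glue W L).card ≤ (L + 1) * W.card ^ 2 := by
  classical
  refine Finset.card_image_le.trans ?_
  simp [sq]

lemma Appr.glue {W : Finset (ℕ → ℝ)} {L : ℕ} {η : ℝ} {u u₁ u₂ : ℕ → ℝ} (c : ℕ)
    (h₁ : Appr W L η u₁) (h₂ : Appr W L η u₂) (hu₁ : ∀ i < L, i < c → u i = u₁ i)
    (hu₂ : ∀ i < L, c ≤ i → u i = u₂ i) : Appr (glue W L) L η u := by
  classical
  obtain ⟨w₁, hw₁, h₁⟩ := h₁
  obtain ⟨w₂, hw₂, h₂⟩ := h₂
  refine ⟨fun i => if i < min c L then w₁ i else w₂ i, ?_, fun i hi => ?_⟩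
  · refine Finset.mem_image.2 ⟨(min c L, w₁, w₂), ?_, rfl⟩
    simp only [Finset.mem_product, Finset.mem_range]
    exact ⟨by omega, hw₁, hw₂⟩
  · by_cases h : i < c
    · have : i < min c L := by omega
      simp only [this, if_true]
      rw [hu₁ i hi h]; exact h₁ i hi
    · have : ¬ i < min c L := by omega
      simp only [this, if_false]
      rw [hu₂ i hi (by omega)]; exact h₂ i hi

open Classical in
noncomputable def grid (G : ℕ) : Finset (ℕ → ℝ) :=
  (Finset.range G ×ˢ Finset.range G).image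
    fun t => fun i => cos (2 * π * (((t.1 : ℝ) * i + t.2) / G))

lemma card_grid (G : ℕ) : (grid G).card ≤ G ^ 2 := by
  classical
  refine Finset.card_image_le.trans ?_
  simp [sq]

lemma exists_mod (G : ℕ) (hG : 0 < G) (x : ℝ) :
    ∃ s < G, ∃ z : ℤ, |x - z - (s : ℝ) / G| ≤ 1 / G := by
  have hG' : (0 : ℝ) < G := by exact_mod_cast hG
  have h0 := Int.fract_nonneg x
  have h1 := Int.fract_lt_one x
  refine ⟨⌊Int.fract x * G⌋₊, ?_, ⌊x⌋, ?_⟩
  · rw [Nat.floor_lt (by positivity)]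
    nlinarith
  · have a := Nat.floor_le (a := Int.fract x * G) (by positivity)
    have b := Nat.lt_floor_add_one (Int.fract x * G)
    have e : x - ⌊x⌋ - (⌊Int.fract x * G⌋₊ : ℝ) / G = (Int.fract x * G - ⌊Int.fract x * G⌋₊) / G := by
      rw [Int.fract]; field_simp
    rw [e, abs_div, abs_of_pos hG']
    gcongr
    rw [abs_le]; constructor <;> linarith

lemma appr_grid (G L : ℕ) (hG : 0 < G) (η : ℝ) (hη : 7 * (L + 1) ≤ η * G) (α β : ℝ) :
    Appr (grid G) L η fun i => cos (2 * π * (α * i + β)) := by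
  classical
  have hG' : (0 : ℝ) < G := by exact_mod_cast hG
  obtain ⟨s, hs, z, hz⟩ := exists_mod G hG α
  obtain ⟨t, ht, z', hz'⟩ := exists_mod G hG β
  refine ⟨fun i => cos (2 * π * (((s : ℝ) * i + t) / G)), ?_, fun i hi => ?_⟩
  · refine Finset.mem_image.2 ⟨(s, t), ?_, rfl⟩
    simp [hs, ht]
  · have e : cos (2 * π * (α * i + β)) = cos (2 * π * ((α - z) * i + (β - z'))) := by
      rw [← cos_add_int_mul_two_pi (2 * π * ((α - z) * i + (β - z'))) (z * i + z')]
      congr 1
      push_cast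
      ring
    simp only
    rw [e]
    refine (abs_cos_sub_cos_le _ _).trans ?_
    have e2 : 2 * π * ((α - z) * i + (β - z')) - 2 * π * (((s : ℝ) * i + t) / G)
        = 2 * π * ((α - z - s / G) * i + (β - z' - t / G)) := by ring
    rw [e2, abs_mul, abs_of_pos (by positivity : 0 < 2 * π)]
    have hi' : (i : ℝ) ≤ L := by exact_mod_cast hi.le
    have h3 : |(α - z - s / G) * i + (β - z' - t / G)| ≤ (L + 1) / G := by
      refine (abs_add_le _ _).trans ?_
      rw [abs_mul, Nat.abs_cast]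
      have : |α - z - s / G| * i ≤ 1 / G * L := by gcongr
      have e3 : ((L : ℝ) + 1) / G = 1 / G * L + 1 / G := by ring
      linarith
    have hpi : 2 * π ≤ 7 := by have := pi_lt_d2; linarith
    calc 2 * π * |(α - z - s / G) * i + (β - z' - t / G)| ≤ 7 * ((L + 1) / G) := by gcongr
      _ ≤ η := by
        rw [← mul_div_assoc, div_le_iff₀ hG']; exact hη

/-- a block sequence -/
noncomputable def blk (H : ℕ) (α β : ℕ → ℝ) (n : ℕ) : ℝ :=
  cos (2 * π * (α (n / H) * n + β (n / H)))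

lemma appr_blk (G L : ℕ) (hG : 0 < G) (η : ℝ) (hη : 7 * (L + 1) ≤ η * G) (H : ℕ) (hH : L ≤ H)
    (hH0 : 0 < H) (α β : ℕ → ℝ) (n : ℕ) :
    Appr (glue (grid G) L) L η fun i => blk H α β (n + i) := by
  refine Appr.glue (H - n % H)
    (appr_grid G L hG η hη (α (n / H)) (α (n / H) * n + β (n / H)))
    (appr_grid G L hG η hη (α (n / H + 1)) (α (n / H + 1) * n + β (n / H + 1))) ?_ ?_
  · intro i _ hi
    have h1 := Nat.mod_lt n hH0
    have : (n + i) / H = n / H := by
      have := Nat.div_add_mod n H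
      rw [Nat.div_eq_iff hH0]
      constructor
      · rw [Nat.mul_comm]; omega
      · rw [Nat.mul_comm]; omega
    simp only [blk, this]
    congr 1; push_cast; ring
  · intro i hiL hi
    have h1 := Nat.mod_lt n hH0
    have : (n + i) / H = n / H + 1 := by
      have := Nat.div_add_mod n H
      rw [Nat.div_eq_iff hH0, Nat.add_mul, Nat.mul_comm (n / H) H]
      constructor <;> omega
    simp only [blk, this]
    congr 1; push_cast; ring

lemma exists_poly_le_exp (C ε : ℝ) (hε : 0 < ε) (m : ℕ) :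
    ∃ L : ℕ, m ≤ L ∧ C * ((L : ℝ) + 1) ^ 11 ≤ exp (ε * L) := by
  have h1 : Tendsto (fun L : ℕ => exp (ε * ((L : ℝ) + 1)) / (ε * ((L : ℝ) + 1)) ^ 11) atTop atTop :=
    (tendsto_exp_div_pow_atTop 11).comp
      ((tendsto_atTop_add_const_right _ 1 tendsto_natCast_atTop_atTop).const_mul_atTop hε)
  obtain ⟨L, hL, hm⟩ := ((h1.eventually_ge_atTop (|C| * exp ε / ε ^ 11)).and
    (eventually_ge_atTop m)).exists
  refine ⟨L, hm, ?_⟩
  rw [div_le_div_iff₀ (by positivity) (by positivity), mul_pow, mul_add ε, exp_add, mul_one] at hL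
  have he := exp_pos ε
  have h2 : |C| * ((L : ℝ) + 1) ^ 11 * (exp ε * ε ^ 11) ≤ exp (ε * L) * (exp ε * ε ^ 11) := by
    calc _ = |C| * exp ε * (ε ^ 11 * ((L : ℝ) + 1) ^ 11) := by ring
      _ ≤ _ := hL
      _ = _ := by ring
  have h3 := le_of_mul_le_mul_right h2 (by positivity)
  exact le_trans (by gcongr; exact le_abs_self C) h3

theorem short_cos (hS : SarnakHyp) (ε : ℝ) (hε : 0 < ε) :
    ∃ H₀ : ℕ, ∀ H, H₀ ≤ H → ∃ K₀ : ℕ, ∀ K, K₀ ≤ K → ∀ α β : ℕ → ℝ,
      ∑ n ∈ Finset.range (K * H), ((ArithmeticFunction.moebius n : ℤ) : ℝ) * blk H α β n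
        ≤ ε * (K * H) := by
  classical
  by_contra hcon
  push Not at hcon
  have step : ∀ j x : ℕ, ∃ H K : ℕ, ∃ α β : ℕ → ℝ, j + 1 ≤ H ∧ x + j + 1 ≤ K * H ∧
      4 * (x : ℝ) ≤ ε * (K * H) ∧ ε * (K * H) <
      ∑ n ∈ Finset.range (K * H), ((ArithmeticFunction.moebius n : ℤ) : ℝ) * blk H α β n := by
    intro j x
    obtain ⟨H, hH, h⟩ := hcon (j + 1)
    obtain ⟨K, hK, α, β, h⟩ := h (x + j + 1 + ⌈4 * (x : ℝ) / ε⌉₊)
    have hKH : K ≤ K * H := Nat.le_mul_of_pos_right _ (by omega)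
    refine ⟨H, K, α, β, hH, by omega, ?_, h⟩
    have h1 : 4 * (x : ℝ) / ε ≤ K * H := by
      refine (Nat.le_ceil _).trans ?_
      have : ⌈4 * (x : ℝ) / ε⌉₊ ≤ K * H := by omega
      exact_mod_cast this
    rwa [div_le_iff₀ hε, mul_comm _ ε] at h1
  choose Hf Kf αf βf h1 h2 h3 h4 using step
  let X : ℕ → ℕ := fun j => Nat.rec 0 (fun j x => Kf j x * Hf j x) j
  have hX : ∀ j, X (j + 1) = Kf j (X j) * Hf j (X j) := fun j => rfl
  have hXs : ∀ j, X j + j + 1 ≤ X (j + 1) := fun j => h2 j (X j)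
  have hmono : StrictMono X := strictMono_nat_of_lt_succ fun j => by have := hXs j; omega
  have hex : ∀ n, ∃ j, n < X (j + 1) := fun n => ⟨n, by have := hXs n; omega⟩
  let u : ℕ → ℕ → ℝ := fun j => blk (Hf j (X j)) (αf j (X j)) (βf j (X j))
  let a : ℕ → ℝ := fun n => u (Nat.find (hex n)) n
  have hfind : ∀ j n, X j ≤ n → n < X (j + 1) → Nat.find (hex n) = j := by
    intro j n h h'
    rw [Nat.find_eq_iff]
    refine ⟨h', fun i hi => ?_⟩
    have := hmono.monotone (show i + 1 ≤ j from hi)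
    omega
  have hu : ∀ j n, |u j n| ≤ 1 := fun j n => abs_cos_le_one _
  have ha : ∀ n, |a n| ≤ 1 := fun n => hu _ _
  have hlow : LowCx a := by
    intro η hη δ hδ m
    obtain ⟨L, hL, hC⟩ := exists_poly_le_exp ((7 / η + 1) ^ 8) δ hδ m
    set G : ℕ := ⌈7 * ((L : ℝ) + 1) / η⌉₊ with hG
    have hGpos : 0 < G := Nat.ceil_pos.2 (by positivity)
    have hG1 : 7 * ((L : ℝ) + 1) ≤ η * G := by
      have := Nat.le_ceil (7 * ((L : ℝ) + 1) / η)
      rwa [div_le_iff₀ hη, mul_comm _ η] at this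
    have hG2 : (G : ℝ) ≤ (7 / η + 1) * (L + 1) := by
      have := (Nat.ceil_lt_add_one (a := 7 * ((L : ℝ) + 1) / η) (by positivity)).le
      have e : (7 / η + 1) * ((L : ℝ) + 1) = 7 * (L + 1) / η + (L + 1) := by ring
      have : (0 : ℝ) ≤ L := by positivity
      linarith
    refine ⟨L, hL, X L, glue (glue (grid G) L) L, ?_, fun n hn => ?_⟩
    · refine le_trans ?_ hC
      have c1 : (glue (glue (grid G) L) L).card ≤ (L + 1) * ((L + 1) * (G ^ 2) ^ 2) ^ 2 := by
        refine (card_glue _ _).trans ?_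
        gcongr
        refine (card_glue _ _).trans ?_
        gcongr
        exact card_grid G
      have c2 : ((glue (glue (grid G) L) L).card : ℝ)
          ≤ (L + 1) * ((L + 1) * ((G : ℝ) ^ 2) ^ 2) ^ 2 := by exact_mod_cast c1
      refine c2.trans ?_
      calc ((L : ℝ) + 1) * ((L + 1) * ((G : ℝ) ^ 2) ^ 2) ^ 2 = (L + 1) ^ 3 * (G : ℝ) ^ 8 := by ring
        _ ≤ (L + 1) ^ 3 * ((7 / η + 1) * (L + 1)) ^ 8 := by gcongr
        _ = _ := by ring
    · set j := Nat.find (hex n) with hj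
      have hj1 : n < X (j + 1) := Nat.find_spec (hex n)
      have hjL : L ≤ j := by
        by_contra hlt
        have := hmono.monotone (show j + 1 ≤ L by omega)
        omega
      have hj0 : X j ≤ n := by
        rcases Nat.eq_zero_or_pos j with h | h
        · rw [h]; exact Nat.zero_le _
        · have := Nat.find_min (hex n) (show j - 1 < j by omega)
          rw [show j - 1 + 1 = j by omega] at this
          omega
      have A1 := appr_blk G L hGpos η hG1 (Hf j (X j)) (by have := h1 j (X j); omega)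
        (by have := h1 j (X j); omega) (αf j (X j)) (βf j (X j)) n
      have A2 := appr_blk G L hGpos η hG1 (Hf (j + 1) (X (j + 1)))
        (by have := h1 (j + 1) (X (j + 1)); omega)
        (by have := h1 (j + 1) (X (j + 1)); omega) (αf (j + 1) (X (j + 1)))
        (βf (j + 1) (X (j + 1))) n
      refine Appr.glue (X (j + 1) - n) A1 A2 (u := fun i => a (n + i)) ?_ ?_
      · intro i _ hi
        simp only [a]
        rw [hfind j (n + i) (by omega) (by omega)]
      · intro i hiL hi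
        simp only [a]
        have := hXs (j + 1)
        rw [hfind (j + 1) (n + i) (by omega) (by omega)]
  have hlim := (sarnak_lowCx hS a ha hlow).comp
    (hmono.tendsto_atTop.comp (tendsto_add_atTop_nat 1))
  obtain ⟨j, hj⟩ := (hlim.eventually (gt_mem_nhds (show (0 : ℝ) < ε / 2 by linarith))).exists
  simp only [Function.comp] at hj
  have hpos : (0 : ℝ) < X (j + 1) := by
    have := hXs j
    exact_mod_cast (show 0 < X (j + 1) by omega)
  have hcast : ((X (j + 1) : ℕ) : ℝ) = Kf j (X j) * Hf j (X j) := by rw [hX]; push_cast; rfl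
  have g3 := h3 j (X j)
  have g4 := h4 j (X j)
  rw [← hcast] at g3 g4
  rw [← hX] at g4
  have hle : X j ≤ X (j + 1) := (hmono (Nat.lt_succ_self j)).le
  have hdiff : ∑ n ∈ Finset.range (X (j + 1)), ((ArithmeticFunction.moebius n : ℤ) : ℝ) * u j n
      - ∑ n ∈ Finset.range (X (j + 1)), ((ArithmeticFunction.moebius n : ℤ) : ℝ) * a n
      ≤ 2 * (Nat.cast (X j) : ℝ) := by
    rw [← Finset.sum_sub_distrib, ← Finset.sum_range_add_sum_Ico _ hle]
    have z : ∑ n ∈ Finset.Ico (X j) (X (j + 1)),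
        (((ArithmeticFunction.moebius n : ℤ) : ℝ) * u j n
          - ((ArithmeticFunction.moebius n : ℤ) : ℝ) * a n) = 0 := by
      refine Finset.sum_eq_zero fun n hn => ?_
      rw [Finset.mem_Ico] at hn
      simp only [a]
      rw [hfind j n hn.1 hn.2, sub_self]
    rw [z, add_zero]
    have : ∀ n ∈ Finset.range (X j), ((ArithmeticFunction.moebius n : ℤ) : ℝ) * u j n
          - ((ArithmeticFunction.moebius n : ℤ) : ℝ) * a n ≤ 2 := by
      intro n _
      have hm : |((ArithmeticFunction.moebius n : ℤ) : ℝ)| ≤ 1 := by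
        exact_mod_cast ArithmeticFunction.abs_moebius_le_one
      have b1 : |((ArithmeticFunction.moebius n : ℤ) : ℝ) * u j n| ≤ 1 := by
        rw [abs_mul]; exact mul_le_one₀ hm (abs_nonneg _) (hu j n)
      have b2 : |((ArithmeticFunction.moebius n : ℤ) : ℝ) * a n| ≤ 1 := by
        rw [abs_mul]; exact mul_le_one₀ hm (abs_nonneg _) (ha n)
      linarith [abs_le.1 b1, abs_le.1 b2]
    refine (Finset.sum_le_card_nsmul _ _ _ this).trans ?_
    simp [mul_comm]
  rw [one_div, inv_mul_lt_iff₀ hpos] at hj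
  simp only [u] at hdiff
  nlinarith

end Pool.Agent.Work.MP_ca0f09_nt
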