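import Pool.Agent.Work.MP_ca0f09_nt.Transfer1

/-! Transfer from averaged cancellation along prime shifts to two-point correlations. -/

set_option autoImplicit false
open Filter Topology Finset

namespace Pool.Agent.Work.MP_ca0f09_nt

lemma exists_fin_bound {κ : Type} (s : Finset κ) (A : κ → ℝ → Prop)
    (hA : ∀ k ∈ s, ∃ c, A k c) : ∃ c : κ → ℝ, ∀ k ∈ s, A k (c k) := by
  classical
  choose! c hc using hA
  exact ⟨c, hc⟩

namespace Sys
variable {h W : ℕ} {ε C Q₀ : ℝ} (σ : Sys h W ε C Q₀)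

lemma pr_insert {τ : ℕ × Finset ℕ} (hτ : τ ∈ σ.Ed) : pr (insert τ.1 τ.2) = τ.1 * pr τ.2 :=
  Finset.prod_insert (σ.notMem2 hτ)

lemma prime12 {τ : ℕ × Finset ℕ} (hτ : τ ∈ σ.Ed) : ∀ q ∈ insert τ.1 τ.2, q.Prime := by
  intro q hq
  rcases Finset.mem_insert.1 hq with rfl | hq
  · exact σ.prime1 hτ
  · exact σ.prime2 hτ q hq

lemma ind_mul_ind {τ : ℕ × Finset ℕ} (hτ : τ ∈ σ.Ed) (n : ℤ) :
    ind (pr τ.2) n * ind τ.1 n = ind (τ.1 * pr τ.2) n := by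
  have hc := coprime_prod_primes (σ.prime2 hτ) (σ.prime1 hτ) (σ.notMem2 hτ)
  unfold ind
  push_cast
  by_cases h1 : (pr τ.2 : ℤ) ∣ n <;> by_cases h2 : (τ.1 : ℤ) ∣ n
  · simp [h1, h2, (Nat.isCoprime_iff_coprime.2 hc).mul_dvd h2 h1]
  · have : ¬ (τ.1 : ℤ) * pr τ.2 ∣ n := fun h => h2 (dvd_of_mul_right_dvd h)
    simp [h2, this]
  · have : ¬ (τ.1 : ℤ) * pr τ.2 ∣ n := fun h => h1 (dvd_of_mul_left_dvd h)
    simp [h1, this]
  · have : ¬ (τ.1 : ℤ) * pr τ.2 ∣ n := fun h => h1 (dvd_of_mul_left_dvd h)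
    simp [h1, this]

lemma coprime_a (hW : 1 ≤ W) : Nat.Coprime σ.a W := by
  obtain ⟨τ, hτ⟩ := σ.Ed_nonempty
  obtain ⟨h1, h2, -, -, h3⟩ := σ.hEd τ hτ
  have h4 : Nat.Coprime (τ.1 * pr τ.2) W := by
    refine Nat.Coprime.mul_left ?_ (Nat.Coprime.prod_left fun q hq => ?_)
    · exact (Nat.Prime.coprime_iff_not_dvd (σ.prime1 hτ)).2 fun hd =>
        absurd (Nat.le_of_dvd hW hd) (not_le.2 (σ.hP _ h1).2.2.1)
    · exact (Nat.Prime.coprime_iff_not_dvd (σ.prime2 hτ q hq)).2 fun hd =>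
        absurd (Nat.le_of_dvd hW hd) (not_le.2 (σ.hE _ (h2 hq)).2)
  unfold Nat.Coprime at h4 ⊢
  rw [← h4]; exact h3.symm.gcd_eq

/-- The full term reproduces the correlation. -/
lemma s1_edge (hε : 0 < ε) {τ : ℕ × Finset ℕ} (hτ : τ ∈ σ.Ed) : ∃ C₁ : ℝ, ∀ N : ℕ,
    ∀ f f' : ℕ → ℝ, (∀ m, |f m| ≤ 1) → (∀ m, |f' m| ≤ 1) →
    (∀ m, Nat.Coprime (τ.1 * pr τ.2) m → Nat.Coprime (τ.1 * pr τ.2) (m + h) →
      f' (τ.1 * pr τ.2 * m) = f m) →
    |∑ n ∈ range (σ.D * N), ind (τ.1 * pr τ.2) n * f' n - ∑ m ∈ range N, f m| ≤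
      5 * ε * N + C₁ := by
  obtain ⟨c1, h1⟩ := sum_bad_le (σ.prime12 hτ) 0
  obtain ⟨c2, h2⟩ := sum_bad_le (σ.prime12 hτ) h
  refine ⟨2 * (c1 + c2), fun N f f' hf hf' hinv => ?_⟩
  obtain ⟨-, -, hd1, hd2, -⟩ := σ.hEd τ hτ
  set d := τ.1 * pr τ.2 with hd
  have hD := σ.hD
  have hd0 : 0 < d := by omega
  rw [sum_ind_mul hd0]
  set X := cd (σ.D * N) d
  have hXN : X ≤ N := by
    by_contra hlt
    have h3 := (lt_cd hd0).1 (not_le.1 hlt)
    exact absurd (Nat.mul_le_mul_right N hd1) (not_le.2 h3)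
  have hXN' : (X : ℝ) ≤ N := by exact_mod_cast hXN
  have hNX : (N : ℝ) - X ≤ ε * N := by
    have h3 : ((σ.D * N : ℕ) : ℝ) ≤ (d * X : ℕ) := by exact_mod_cast le_cd hd0
    have hD' : (0 : ℝ) < σ.D := by exact_mod_cast hD
    push_cast at h3
    have h4 : (σ.D : ℝ) * N ≤ σ.D * ((1 + ε) * X) := by
      have := mul_le_mul_of_nonneg_right hd2 (Nat.cast_nonneg (α := ℝ) X)
      linarith
    have h5 := le_of_mul_le_mul_left h4 hD'
    nlinarith
  have h3 : |∑ m ∈ range N, f m - ∑ m ∈ range X, f m| ≤ N - X := by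
    rw [← Finset.sum_Ico_eq_sub _ hXN]
    refine (Finset.abs_sum_le_sum_abs _ _).trans
      ((Finset.sum_le_card_nsmul _ _ 1 fun m _ => hf m).trans ?_)
    simp [Nat.cast_sub hXN]
  have h4 : |∑ m ∈ range X, f' (d * m) - ∑ m ∈ range X, f m| ≤
      2 * (∑ m ∈ range X, bad (insert τ.1 τ.2) ((m + 0 : ℕ) : ℤ) +
        ∑ m ∈ range X, bad (insert τ.1 τ.2) ((m + h : ℕ) : ℤ)) := by
    rw [← Finset.sum_sub_distrib, ← Finset.sum_add_distrib, Finset.mul_sum]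
    refine (Finset.abs_sum_le_sum_abs _ _).trans (Finset.sum_le_sum fun m _ => ?_)
    have b1 := bad_nonneg (insert τ.1 τ.2) ((m + 0 : ℕ) : ℤ)
    have b2 := bad_nonneg (insert τ.1 τ.2) ((m + h : ℕ) : ℤ)
    have b3 : |f' (d * m) - f m| ≤ 2 := by
      have := abs_le.1 (hf m)
      have := abs_le.1 (hf' (d * m))
      rw [abs_le]; constructor <;> linarith [this.1, this.2]
    by_cases k1 : Nat.Coprime d m
    · by_cases k2 : Nat.Coprime d (m + h)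
      · rw [hinv m k1 k2, sub_self, abs_zero]; positivity
      · have := one_le_bad (σ.prime12 hτ) (n := m + h) (by rwa [σ.pr_insert hτ])
        linarith
    · have := one_le_bad (σ.prime12 hτ) (n := m + 0) (by rwa [σ.pr_insert hτ])
      linarith
  have h5 : ∑ q ∈ insert τ.1 τ.2, (1 / (q : ℝ)) ≤ ε := by
    rw [Finset.sum_insert (σ.notMem2 hτ)]; exact σ.hgcd τ hτ
  have h6 : (X : ℝ) * ∑ q ∈ insert τ.1 τ.2, (1 / (q : ℝ)) ≤ N * ε :=
    mul_le_mul hXN' h5 (Finset.sum_nonneg fun q _ => by positivity) (Nat.cast_nonneg _)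
  have h7 := h1 X
  have h8 := h2 X
  have h9 := abs_le.1 h3
  have h10 := abs_le.1 h4
  rw [abs_le]
  constructor <;> linarith [h9.1, h9.2, h10.1, h10.2]

/-- special primes attached to a filler -/
def fib (s : Finset ℕ) : Finset ℕ := (σ.Ed.filter fun τ => τ.2 = s).image Prod.fst

lemma sum_fib (s : Finset ℕ) (f : ℕ × Finset ℕ → ℝ) :
    ∑ τ ∈ σ.Ed.filter (fun τ => τ.2 = s), f τ = ∑ p ∈ σ.fib s, f (p, s) := by
  unfold fib
  rw [Finset.sum_image]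
  · refine Finset.sum_congr rfl fun τ hτ => ?_
    rw [← (Finset.mem_filter.1 hτ).2]
  · intro τ hτ τ' hτ' he
    exact Prod.ext he (((Finset.mem_filter.1 hτ).2).trans (Finset.mem_filter.1 hτ').2.symm)

lemma mem_fib {s : Finset ℕ} {p : ℕ} (hp : p ∈ σ.fib s) : (p, s) ∈ σ.Ed := by
  obtain ⟨τ, hτ, rfl⟩ := Finset.mem_image.1 hp
  obtain ⟨h1, rfl⟩ := Finset.mem_filter.1 hτ
  exact h1

lemma fib_bounds (hε1 : ε ≤ 1) {s : Finset ℕ} {p : ℕ} (hp : p ∈ σ.fib s) :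
    p.Prime ∧ (σ.D : ℝ) / pr s ≤ p ∧ (p : ℝ) ≤ 2 * ((σ.D : ℝ) / pr s) := by
  have hτ := σ.mem_fib hp
  obtain ⟨-, -, h1, h2, -⟩ := σ.hEd _ hτ
  have h0 : (0 : ℝ) < pr s := by exact_mod_cast prod_primes_pos (σ.prime2 hτ)
  refine ⟨σ.prime1 hτ, ?_, ?_⟩
  · rw [div_le_iff₀ h0]; exact_mod_cast h1
  · rw [← mul_div_assoc, le_div_iff₀ h0]
    push_cast at h2
    exact h2.trans (mul_le_mul_of_nonneg_right (by linarith) (Nat.cast_nonneg _))

/-- The free term for one filler. -/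
lemma s2_filler {ε' : ℝ} (hε' : 0 < ε') (hQ : 2 ≤ Q₀) {s : Finset ℕ}
    (hs : s ∈ σ.Ed.image Prod.snd) : ∃ C₂ : ℝ, ∀ M : ℕ, ∀ a G : ℕ → ℝ, (∀ m, |a m| ≤ 1) →
    (∀ m, |G m| ≤ 1) → (∃ c : ℝ, |c| ≤ 1 ∧ ∀ m, Nat.Coprime (pr s) m → G (pr s * m) = c * G m) →
    (∑ m ∈ range (cd M (pr s)), |∑ p ∈ σ.fib s, (1 / (p : ℝ)) * G (m + h * p)| ≤
      ε' * cd M (pr s) / Real.log (σ.D / pr s)) →
    |∑ n ∈ range M, ind (pr s) n *
        ∑ p ∈ σ.fib s, (1 / (p : ℝ)) * (a n * G (n + h * (p * pr s)))| ≤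
      M * (ε' * (1 / (pr s * Real.log (σ.D / pr s))) +
        2 * ε * ∑ p ∈ σ.fib s, 1 / ((p : ℝ) * pr s)) + C₂ := by
  obtain ⟨τ, hτ, rfl⟩ := Finset.mem_image.1 hs
  have hps := σ.prime2 hτ
  obtain ⟨c1, h1⟩ := exists_fin_bound (σ.fib τ.2) _ fun p _ => sum_bad_le hps (h * p)
  refine ⟨ε' / Real.log (σ.D / pr τ.2) + ∑ p ∈ σ.fib τ.2, 2 / (p : ℝ) * (ε + c1 p),
    fun M a G ha hG ⟨c, hc, hinv⟩ hfree => ?_⟩
  have he : 0 < pr τ.2 := prod_primes_pos hps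
  have he' : (0 : ℝ) < pr τ.2 := by exact_mod_cast he
  have hlog : 0 < Real.log (σ.D / pr τ.2) := Real.log_pos (by linarith [σ.hQ τ hτ])
  rw [sum_ind_mul he]
  have hX := cd_le (M := M) he
  set X := cd M (pr τ.2)
  have h2 : ∀ m : ℕ, |∑ p ∈ σ.fib τ.2, (1 / (p : ℝ)) *
      (a (pr τ.2 * m) * G (pr τ.2 * m + h * (p * pr τ.2)))| ≤
      |∑ p ∈ σ.fib τ.2, (1 / (p : ℝ)) * G (m + h * p)| +
        ∑ p ∈ σ.fib τ.2, 2 / (p : ℝ) * bad τ.2 ((m + h * p : ℕ) : ℤ) := by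
    intro m
    have e1 : ∑ p ∈ σ.fib τ.2, (1 / (p : ℝ)) *
        (a (pr τ.2 * m) * G (pr τ.2 * m + h * (p * pr τ.2))) =
        a (pr τ.2 * m) * (c * ∑ p ∈ σ.fib τ.2, (1 / (p : ℝ)) * G (m + h * p) +
          ∑ p ∈ σ.fib τ.2, (1 / (p : ℝ)) *
            (G (pr τ.2 * (m + h * p)) - c * G (m + h * p))) := by
      rw [Finset.mul_sum, ← Finset.sum_add_distrib, Finset.mul_sum]
      refine Finset.sum_congr rfl fun p _ => ?_
      rw [show pr τ.2 * m + h * (p * pr τ.2) = pr τ.2 * (m + h * p) by ring]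
      ring
    rw [e1, abs_mul]
    refine (mul_le_of_le_one_left (abs_nonneg _) (ha _)).trans ((abs_add_le _ _).trans ?_)
    refine add_le_add ?_ ((Finset.abs_sum_le_sum_abs _ _).trans (Finset.sum_le_sum fun p _ => ?_))
    · rw [abs_mul]; exact mul_le_of_le_one_left (abs_nonneg _) hc
    · rw [abs_mul, abs_of_nonneg (by positivity : (0 : ℝ) ≤ 1 / p)]
      have b0 := bad_nonneg τ.2 ((m + h * p : ℕ) : ℤ)
      have b1 : |G (pr τ.2 * (m + h * p)) - c * G (m + h * p)| ≤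
          2 * bad τ.2 ((m + h * p : ℕ) : ℤ) := by
        by_cases k : Nat.Coprime (pr τ.2) (m + h * p)
        · rw [hinv _ k, sub_self, abs_zero]; positivity
        · have b2 := one_le_bad hps k
          have b3 : |c * G (m + h * p)| ≤ 1 := by
            rw [abs_mul]; exact mul_le_one₀ hc (abs_nonneg _) (hG _)
          have b4 := abs_sub (G (pr τ.2 * (m + h * p))) (c * G (m + h * p))
          have b5 := hG (pr τ.2 * (m + h * p))
          linarith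
      calc _ ≤ 1 / (p : ℝ) * (2 * bad τ.2 ((m + h * p : ℕ) : ℤ)) :=
            mul_le_mul_of_nonneg_left b1 (by positivity)
        _ = _ := by ring
  refine (Finset.abs_sum_le_sum_abs _ _).trans ((Finset.sum_le_sum fun m _ => h2 m).trans ?_)
  rw [Finset.sum_add_distrib, Finset.sum_comm]
  have h3 : ∑ q ∈ τ.2, (1 / (q : ℝ)) ≤ ε := by
    have := σ.hgcd τ hτ
    have : (0 : ℝ) ≤ 1 / τ.1 := by positivity
    linarith
  have h4 : ∑ p ∈ σ.fib τ.2, ∑ m ∈ range X, 2 / (p : ℝ) * bad τ.2 ((m + h * p : ℕ) : ℤ) ≤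
      ∑ p ∈ σ.fib τ.2, (M * (2 * ε * (1 / ((p : ℝ) * pr τ.2))) + 2 / (p : ℝ) * (ε + c1 p)) := by
    refine Finset.sum_le_sum fun p hp => ?_
    rw [← Finset.mul_sum]
    have h5 := h1 p hp X
    have h6 : (X : ℝ) * ∑ q ∈ τ.2, (1 / (q : ℝ)) ≤ (M / pr τ.2 + 1) * ε :=
      mul_le_mul hX h3 (Finset.sum_nonneg fun q _ => by positivity) (by positivity)
    calc _ ≤ 2 / (p : ℝ) * ((M / pr τ.2 + 1) * ε + c1 p) :=
          mul_le_mul_of_nonneg_left (by linarith) (by positivity)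
      _ = _ := by ring
  rw [Finset.sum_add_distrib, ← Finset.mul_sum, ← Finset.mul_sum] at h4
  have h5 : ε' * X / Real.log (σ.D / pr τ.2) ≤
      M * (ε' * (1 / (pr τ.2 * Real.log (σ.D / pr τ.2)))) + ε' / Real.log (σ.D / pr τ.2) := by
    calc _ ≤ ε' * (M / pr τ.2 + 1) / Real.log (σ.D / pr τ.2) := by gcongr
      _ = _ := by field_simp
  linarith

theorem det (hh : 1 ≤ h) (hW : 1 ≤ W) (hε : 0 < ε) (hε1 : ε ≤ 1) (hC : 0 < C) (hQ : 2 ≤ Q₀) :
    ∃ C₀ : ℝ, ∀ N : ℕ, ∀ g F G : ℕ → ℝ, (∀ n, |g n| ≤ 1) → (∀ n, |F n| ≤ 1) →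
      (∀ n, |G n| ≤ 1) → (∀ n, g (n + W) = g n) →
      (∀ τ ∈ σ.Ed, ∀ m k, Nat.Coprime (τ.1 * pr τ.2) m → Nat.Coprime (τ.1 * pr τ.2) k →
        F (τ.1 * pr τ.2 * m) * G (τ.1 * pr τ.2 * k) = F m * G k) →
      (∀ s ∈ σ.Ed.image Prod.snd,
        ∃ c : ℝ, |c| ≤ 1 ∧ ∀ m, Nat.Coprime (pr s) m → G (pr s * m) = c * G m) →
      (∀ s ∈ σ.Ed.image Prod.snd, ∑ m ∈ range (cd (σ.D * N) (pr s)),
        |∑ p ∈ σ.fib s, (1 / (p : ℝ)) * G (m + h * p)| ≤
          ε / C * cd (σ.D * N) (pr s) / Real.log (σ.D / pr s)) →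
      |∑ n ∈ range N, g n * F n * G (n + h)| ≤ (96 * (2 * h + 1) + 12) * ε * N + C₀ := by
  obtain ⟨C₀, h0⟩ := σ.s1_sub_s2 hh hε1
  obtain ⟨C₁, h1⟩ := exists_fin_bound σ.Ed _ fun τ hτ => σ.s1_edge hε hτ
  obtain ⟨C₂, h2⟩ := exists_fin_bound (σ.Ed.image Prod.snd) _ fun s hs =>
    σ.s2_filler (div_pos hε hC) hQ hs
  have hD : (0 : ℝ) < σ.D := by exact_mod_cast σ.hD
  have htot : 0 < σ.tot := σ.hTot
  have hw : σ.D * σ.tot ≤ ∑ τ ∈ σ.Ed, σ.w τ.2 := by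
    unfold tot
    rw [Finset.mul_sum]
    refine Finset.sum_le_sum fun τ hτ => ?_
    have h3 : (σ.D : ℝ) ≤ τ.1 * pr τ.2 := by exact_mod_cast (σ.hEd τ hτ).2.2.1
    rw [← mul_div_assoc, div_le_iff₀ (by linarith), mul_comm]
    exact mul_le_mul_of_nonneg_left h3 (σ.hw _)
  set Sw := ∑ τ ∈ σ.Ed, σ.w τ.2 with hSw
  have hSw0 : 0 < Sw := lt_of_lt_of_le (by positivity) hw
  refine ⟨|C₀ + ∑ τ ∈ σ.Ed, σ.w τ.2 * C₁ τ + ∑ s ∈ σ.Ed.image Prod.snd, σ.w s * C₂ s| / Sw,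
    fun N g F G hg hF hG hper inv1 inv2 hfree => ?_⟩
  have hgm : ∀ x y, x ≡ y [MOD W] → g x = g y := fun x y hxy => by
    rw [← Function.Periodic.map_mod_nat hper x, ← Function.Periodic.map_mod_nat hper y, hxy]
  set a' := σ.a ^ (Nat.totient W - 1) with ha'
  have hinvs : a' * σ.a ≡ 1 [MOD W] := by
    rw [ha', ← pow_succ, Nat.sub_add_cancel (Nat.totient_pos.2 hW)]
    exact Nat.ModEq.pow_totient (σ.coprime_a hW)
  set a : ℕ → ℝ := fun n => g (a' * n) * F n with ha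
  have ha1 : ∀ n, |a n| ≤ 1 := fun n => by
    rw [ha, abs_mul]; exact mul_le_one₀ (hg _) (abs_nonneg _) (hF _)
  have k0 := h0 (fun z => a z.toNat) (fun z => G z.toNat) (fun _ => ha1 _) (fun _ => hG _)
    (σ.D * N)
  set A := ∑ n ∈ range N, g n * F n * G (n + h)
  have k1 : |∑ n ∈ range (σ.D * N), σ.s1 (fun z => a z.toNat) (fun z => G z.toNat) n - Sw * A| ≤
      Sw * (5 * ε * N) + ∑ τ ∈ σ.Ed, σ.w τ.2 * C₁ τ := by
    unfold s1
    rw [Finset.sum_comm, hSw, Finset.sum_mul, Finset.sum_mul, ← Finset.sum_sub_distrib,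
      ← Finset.sum_add_distrib]
    refine (Finset.abs_sum_le_sum_abs _ _).trans (Finset.sum_le_sum fun τ hτ => ?_)
    rw [← Finset.mul_sum, ← mul_sub, abs_mul, abs_of_nonneg (σ.hw _), ← mul_add]
    refine mul_le_mul_of_nonneg_left ?_ (σ.hw _)
    have k2 := h1 τ hτ N (fun n => g n * F n * G (n + h)) (fun n => a n * G (n + lg h τ))
      (fun n => by
        rw [abs_mul, abs_mul]
        exact mul_le_one₀ (mul_le_one₀ (hg _) (abs_nonneg _) (hF _)) (abs_nonneg _) (hG _))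
      (fun n => by rw [abs_mul]; exact mul_le_one₀ (ha1 _) (abs_nonneg _) (hG _))
      (fun m c1 c2 => by
        have e1 : τ.1 * pr τ.2 * m + lg h τ = τ.1 * pr τ.2 * (m + h) := by unfold lg; ring
        have e2 : g (a' * (τ.1 * pr τ.2 * m)) = g m := by
          apply hgm
          have := (((σ.hEd τ hτ).2.2.2.2.mul_left a').trans hinvs).mul_right m
          rwa [one_mul, mul_assoc] at this
        simp only [ha]
        rw [e1, e2, mul_assoc, inv1 τ hτ m (m + h) c1 c2, mul_assoc])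
    refine le_trans (le_of_eq ?_) k2
    congr 2
    refine Finset.sum_congr rfl fun n _ => ?_
    simp only [σ.ind_mul_ind hτ, ← Nat.cast_add, Int.toNat_natCast]
  have k2 : |∑ n ∈ range (σ.D * N), σ.s2 (fun z => a z.toNat) (fun z => G z.toNat) n| ≤
      (σ.D * N : ℕ) * (3 * (ε * σ.tot)) + ∑ s ∈ σ.Ed.image Prod.snd, σ.w s * C₂ s := by
    have e1 : ∑ n ∈ range (σ.D * N), σ.s2 (fun z => a z.toNat) (fun z => G z.toNat) n =
        ∑ s ∈ σ.Ed.image Prod.snd, σ.w s * ∑ n ∈ range (σ.D * N), ind (pr s) n *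
          ∑ p ∈ σ.fib s, (1 / (p : ℝ)) * (a n * G (n + h * (p * pr s))) := by
      simp only [Finset.mul_sum]
      rw [Finset.sum_comm]
      refine Finset.sum_congr rfl fun n _ => ?_
      unfold s2
      rw [← Finset.sum_fiberwise_of_maps_to (g := Prod.snd) (t := σ.Ed.image Prod.snd)
        (fun τ hτ => Finset.mem_image_of_mem _ hτ)]
      refine Finset.sum_congr rfl fun s _ => ?_
      rw [σ.sum_fib]
      refine Finset.sum_congr rfl fun p _ => ?_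
      simp only [lg]
      rw [← Nat.cast_add, Int.toNat_natCast, Int.toNat_natCast]; ring
    have e2 : σ.tot = ∑ s ∈ σ.Ed.image Prod.snd, σ.w s * ∑ p ∈ σ.fib s, 1 / ((p : ℝ) * pr s) := by
      unfold tot
      rw [← Finset.sum_fiberwise_of_maps_to (g := Prod.snd) (t := σ.Ed.image Prod.snd)
        (fun τ hτ => Finset.mem_image_of_mem _ hτ)]
      refine Finset.sum_congr rfl fun s _ => ?_
      rw [σ.sum_fib, Finset.mul_sum]
      refine Finset.sum_congr rfl fun p _ => ?_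
      ring
    rw [e1]
    refine (Finset.abs_sum_le_sum_abs _ _).trans ((Finset.sum_le_sum fun s hs =>
      (le_of_eq (by rw [abs_mul, abs_of_nonneg (σ.hw s)])).trans
        (mul_le_mul_of_nonneg_left (h2 s hs (σ.D * N) a G ha1 hG (inv2 s hs) (hfree s hs))
          (σ.hw s))).trans ?_)
    have e3 : ∀ s ∈ σ.Ed.image Prod.snd, σ.w s * (((σ.D * N : ℕ) : ℝ) *
        (ε / C * (1 / (pr s * Real.log (σ.D / pr s))) +
          2 * ε * ∑ p ∈ σ.fib s, 1 / ((p : ℝ) * pr s)) + C₂ s) =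
        ((σ.D * N : ℕ) : ℝ) * (ε / C) * (σ.w s / (pr s * Real.log (σ.D / pr s))) +
          ((σ.D * N : ℕ) : ℝ) * (2 * ε) * (σ.w s * ∑ p ∈ σ.fib s, 1 / ((p : ℝ) * pr s)) +
            σ.w s * C₂ s := fun s _ => by ring
    rw [Finset.sum_congr rfl e3, Finset.sum_add_distrib, Finset.sum_add_distrib,
      ← Finset.mul_sum, ← Finset.mul_sum, ← e2]
    have k3 := mul_le_mul_of_nonneg_left σ.free
      (by positivity : (0 : ℝ) ≤ ((σ.D * N : ℕ) : ℝ) * (ε / C))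
    have e4 : ((σ.D * N : ℕ) : ℝ) * (ε / C) * (C * σ.tot) = ((σ.D * N : ℕ) : ℝ) * (ε * σ.tot) := by
      field_simp
    change _ ≤ ((σ.D * N : ℕ) : ℝ) * (ε / C) * (C * σ.tot) at k3
    linarith
  have k3 : Sw * |A| ≤ (96 * (2 * h + 1) + 7) * ε * N * (σ.D * σ.tot) + Sw * (5 * ε * N) +
      |C₀ + ∑ τ ∈ σ.Ed, σ.w τ.2 * C₁ τ + ∑ s ∈ σ.Ed.image Prod.snd, σ.w s * C₂ s| := by
    rw [← abs_of_pos hSw0, ← abs_mul, abs_of_pos hSw0]
    have l0 := abs_le.1 k0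
    have l1 := abs_le.1 k1
    have l2 := abs_le.1 k2
    have l3 := le_abs_self
      (C₀ + ∑ τ ∈ σ.Ed, σ.w τ.2 * C₁ τ + ∑ s ∈ σ.Ed.image Prod.snd, σ.w s * C₂ s)
    push_cast at l0 l2
    rw [abs_le]
    constructor <;> linarith [l0.1, l0.2, l1.1, l1.2, l2.1, l2.2]
  have k4 := mul_le_mul_of_nonneg_left hw
    (by positivity : (0 : ℝ) ≤ (96 * (2 * h + 1) + 7) * ε * N)
  rw [← sub_le_iff_le_add', le_div_iff₀ hSw0]
  linarith

end Sys

/-- Averaged cancellation along prime shifts, weakest form (set of primes and weights fixed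
before the scale). -/
def FreeW (G : ℕ → ℕ → ℝ) : Prop :=
  ∀ h : ℕ, 1 ≤ h → ∀ ε : ℝ, 0 < ε → ∃ Q₀ : ℝ, ∀ Q : ℝ, Q₀ ≤ Q → ∀ q : ℕ, ∀ T : Finset ℕ,
    (∀ p ∈ T, p.Prime ∧ Q ≤ p ∧ (p : ℝ) ≤ 2 * Q) → ∀ c : ℕ → ℝ, (∀ p, |c p| ≤ 1) →
    ∀ᶠ N : ℕ in atTop, ∀ X : ℕ, N ≤ X → X ≤ q * N →
      ∑ m ∈ range X, |∑ p ∈ T, c p * G N (m + h * p)| ≤ ε * X * Q / Real.log Q

/-- Existence of weighted divisor systems. -/
def SysExists : Prop :=
  ∀ h W : ℕ, 1 ≤ h → 1 ≤ W → ∀ ε : ℝ, 0 < ε → ε ≤ 1 →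
    ∃ C : ℝ, 0 < C ∧ ∀ Q₀ : ℝ, Nonempty (Sys h W ε C Q₀)

/-- Two-point correlations of nearly dilation invariant families. -/
theorem transfer (hsys : SysExists) (h W : ℕ) (hh : 1 ≤ h) (hW : 1 ≤ W) (g F G : ℕ → ℕ → ℝ)
    (hg : ∀ N n, |g N n| ≤ 1) (hF : ∀ N n, |F N n| ≤ 1) (hG : ∀ N n, |G N n| ≤ 1)
    (hper : ∀ N n, g N (n + W) = g N n)
    (inv1 : ∀ d : ℕ, Squarefree d → ∀ᶠ N : ℕ in atTop, ∀ m k, Nat.Coprime d m →
      Nat.Coprime d k → F N (d * m) * G N (d * k) = F N m * G N k)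
    (inv2 : ∀ d : ℕ, Squarefree d → ∀ᶠ N : ℕ in atTop, ∃ c : ℝ, |c| ≤ 1 ∧
      ∀ m, Nat.Coprime d m → G N (d * m) = c * G N m)
    (hfree : FreeW G) :
    Tendsto (fun N : ℕ => (1 / (N : ℝ)) * ∑ n ∈ range N, g N n * F N n * G N (n + h))
      atTop (𝓝 0) := by
  rw [Metric.tendsto_nhds]
  intro δ hδ
  set κ : ℝ := 96 * (2 * h + 1) + 12 with hκ
  have hκ0 : 0 < κ := by positivity
  set ε : ℝ := min 1 (δ / (3 * κ)) with hεd
  have hε : 0 < ε := lt_min one_pos (by positivity)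
  have hε1 : ε ≤ 1 := min_le_left _ _
  have hε2 : κ * ε ≤ δ / 3 := by
    calc κ * ε ≤ κ * (δ / (3 * κ)) := mul_le_mul_of_nonneg_left (min_le_right _ _) hκ0.le
      _ = _ := by field_simp
  obtain ⟨C, hC, hσ⟩ := hsys h W hh hW ε hε hε1
  obtain ⟨Q₀, hQ₀⟩ := hfree h hh (ε / C) (div_pos hε hC)
  obtain ⟨σ⟩ := hσ (max Q₀ 2)
  obtain ⟨C₀, hdet⟩ := σ.det hh hW hε hε1 hC (le_max_right _ _)
  have e1 := (Finset.eventually_all σ.Ed).2 fun τ hτ =>
    inv1 (τ.1 * pr τ.2) (σ.pr_insert hτ ▸ squarefree_pr (σ.prime12 hτ))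
  have e2 := (Finset.eventually_all (σ.Ed.image Prod.snd)).2 fun s hs =>
    inv2 (pr s) (by
      obtain ⟨τ, hτ, rfl⟩ := Finset.mem_image.1 hs
      exact squarefree_pr (σ.prime2 hτ))
  have e3 : ∀ᶠ N : ℕ in atTop, ∀ s ∈ σ.Ed.image Prod.snd, ∑ m ∈ range (cd (σ.D * N) (pr s)),
      |∑ p ∈ σ.fib s, (1 / (p : ℝ)) * G N (m + h * p)| ≤
        ε / C * cd (σ.D * N) (pr s) / Real.log (σ.D / pr s) := by
    refine (Finset.eventually_all _).2 fun s hs => ?_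
    obtain ⟨τ, hτ, rfl⟩ := Finset.mem_image.1 hs
    have he : 0 < pr τ.2 := prod_primes_pos (σ.prime2 hτ)
    have he' : (0 : ℝ) < pr τ.2 := by exact_mod_cast he
    have hQ := σ.hQ τ hτ
    have hQ2 : (2 : ℝ) ≤ σ.D / pr τ.2 := (le_max_right _ _).trans hQ
    have heD : pr τ.2 ≤ σ.D := by
      rw [le_div_iff₀ he'] at hQ2
      have : (pr τ.2 : ℝ) ≤ σ.D := by linarith
      exact_mod_cast this
    set Q : ℝ := σ.D / pr τ.2
    have hQ0 : 0 < Q := by linarith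
    filter_upwards [hQ₀ Q ((le_max_left _ _).trans hQ) σ.D (σ.fib τ.2)
      (fun p hp => σ.fib_bounds hε1 hp) (fun p => if p ∈ σ.fib τ.2 then Q / p else 0)
      (fun p => by
        split_ifs with hp
        · have h1 := (σ.fib_bounds hε1 hp).2.1
          rw [abs_of_nonneg (by positivity), div_le_one (by linarith)]
          exact h1
        · simp)] with N hN
    have h1 := hN (cd (σ.D * N) (pr τ.2)) (by
        by_contra hlt
        have h2 := le_cd (M := σ.D * N) he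
        have h3 := Nat.mul_lt_mul_of_le_of_lt heD (not_le.1 hlt) (by omega)
        omega) (by
        by_contra hlt
        have h2 := (lt_cd he).1 (not_le.1 hlt)
        have h3 : σ.D * N ≤ pr τ.2 * (σ.D * N) := Nat.le_mul_of_pos_left _ he
        omega)
    have h2 : ∀ m : ℕ, |∑ p ∈ σ.fib τ.2, (if p ∈ σ.fib τ.2 then Q / p else 0) *
        G N (m + h * p)| = Q * |∑ p ∈ σ.fib τ.2, (1 / (p : ℝ)) * G N (m + h * p)| := by
      intro m
      rw [← abs_of_pos hQ0, ← abs_mul, abs_of_pos hQ0, Finset.mul_sum]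
      congr 1
      refine Finset.sum_congr rfl fun p hp => ?_
      rw [if_pos hp]; ring
    simp only [h2] at h1
    rw [← Finset.mul_sum] at h1
    refine le_of_mul_le_mul_left (h1.trans (le_of_eq ?_)) hQ0
    ring
  have e4 : ∀ᶠ N : ℕ in atTop, 3 * C₀ / δ + 1 ≤ N :=
    tendsto_natCast_atTop_atTop.eventually_ge_atTop _
  filter_upwards [e1, e2, e3, e4, eventually_gt_atTop 0] with N n1 n2 n3 n4 n5
  have h1 := hdet N (g N) (F N) (G N) (hg N) (hF N) (hG N) (hper N) n1 n2 n3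
  have hN : (0 : ℝ) < N := by exact_mod_cast n5
  rw [Real.dist_eq, sub_zero, abs_mul, abs_of_pos (by positivity : (0 : ℝ) < 1 / N), one_div,
    inv_mul_lt_iff₀ hN]
  have h2 : C₀ ≤ δ / 3 * N := by
    have : 3 * C₀ / δ ≤ N := by linarith
    rw [div_le_iff₀ hδ] at this
    linarith
  have h3 := mul_le_mul_of_nonneg_right hε2 hN.le
  nlinarith

lemma freeW_of_free (hF : Free) : FreeW fun _ => mu := by
  intro h hh ε hε
  obtain ⟨Q₀, hQ⟩ := hF h hh ε hε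
  refine ⟨Q₀, fun Q hQ' q T hT c hc => ?_⟩
  obtain ⟨X₀, hX⟩ := eventually_atTop.1 (hQ Q hQ' T hT c hc)
  filter_upwards [eventually_ge_atTop X₀] with N hN X h1 _
  exact hX X (hN.trans h1)

lemma mu_mul {d m : ℕ} (h : Nat.Coprime d m) : mu (d * m) = mu d * mu m := by
  unfold mu
  rw [ArithmeticFunction.isMultiplicative_moebius.map_mul_of_coprime h]; push_cast; ring

lemma abs_mu_le_one (n : ℕ) : |mu n| ≤ 1 := by
  unfold mu
  have := ArithmeticFunction.abs_moebius_le_one (n := n)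
  exact_mod_cast this

/-- Two-point correlations of the Moebius function with a periodic weight. -/
theorem transfer_mu (hsys : SysExists) (hF : Free) (h : ℕ) (hh : 1 ≤ h) (W : ℕ) (hW : 1 ≤ W)
    (g : ℕ → ℝ) (hg : ∀ n, |g n| ≤ 1) (hper : ∀ n, g (n + W) = g n) :
    Tendsto (fun N : ℕ => (1 / (N : ℝ)) * ∑ n ∈ range N, g n * mu n * mu (n + h))
      atTop (𝓝 0) := by
  refine transfer hsys h W hh hW (fun _ => g) (fun _ => mu) (fun _ => mu) (fun _ => hg)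
    (fun _ => abs_mu_le_one) (fun _ => abs_mu_le_one) (fun _ => hper) ?_ ?_ (freeW_of_free hF)
  · intro d hd
    refine Eventually.of_forall fun N m k h1 h2 => ?_
    have h3 : mu d ^ 2 = 1 := by
      unfold mu
      have := ArithmeticFunction.moebius_sq_eq_one_of_squarefree hd
      exact_mod_cast this
    simp only [mu_mul h1, mu_mul h2]
    linear_combination (mu m * mu k) * h3
  · intro d _
    exact Eventually.of_forall fun N => ⟨mu d, abs_mu_le_one d, fun m h1 => mu_mul h1⟩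

end Pool.Agent.Work.MP_ca0f09_nt
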