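import Pool.Agent.Work.MP_ca0f09_nt.CLaw

/-! Replacing the indicator of the special prime by its mean. -/

set_option autoImplicit false
open Filter Topology Finset

namespace Pool.Agent.Work.MP_ca0f09_nt

namespace Sys
variable {h W : ℕ} {ε C Q₀ : ℝ} (σ : Sys h W ε C Q₀)

/-- length of an edge -/
def lg (h : ℕ) (τ : ℕ × Finset ℕ) : ℕ := h * (τ.1 * pr τ.2)

noncomputable def s1 (a b : ℤ → ℝ) (n : ℤ) : ℝ :=
  ∑ τ ∈ σ.Ed, σ.w τ.2 * (ind (pr τ.2) n * ind τ.1 n * (a n * b (n + lg h τ)))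

noncomputable def s2 (a b : ℤ → ℝ) (n : ℤ) : ℝ :=
  ∑ τ ∈ σ.Ed, σ.w τ.2 * (ind (pr τ.2) n * (1 / τ.1) * (a n * b (n + lg h τ)))

noncomputable def lost (τ : ℕ × Finset ℕ) (n : ℤ) : ℝ :=
  ind (pr τ.2) n * (1 - σ.u (dv σ.E n) τ)

noncomputable def rem (n : ℤ) : ℝ :=
  ∑ τ ∈ σ.Ed, σ.w τ.2 * ((σ.lost τ n + σ.lost τ (n + lg h τ)) * (ind τ.1 (n + 0) + 1 / τ.1))

lemma lost_eq {τ : ℕ × Finset ℕ} (hτ : τ ∈ σ.Ed) (n : ℤ) : σ.lost τ n =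
    (fun S => if τ.2 ⊆ S then 1 - σ.u S τ else 0) (dv σ.E n) := by
  simp only [lost, ind, subset_dv_iff σ.primeE (σ.hEd τ hτ).2.1]
  split_ifs <;> simp

lemma dep_lost {τ : ℕ × Finset ℕ} (hτ : τ ∈ σ.Ed) : Dep (pr σ.E) (σ.lost τ) := by
  have : σ.lost τ = fun n => (fun S => if τ.2 ⊆ S then 1 - σ.u S τ else 0) (dv σ.E n) :=
    funext (σ.lost_eq hτ)
  rw [this]; exact dep_dv σ.E (fun S => if τ.2 ⊆ S then 1 - σ.u S τ else 0)

lemma split_le (hh : 1 ≤ h) (hε1 : ε ≤ 1) (a b : ℤ → ℝ) (ha : ∀ n, |a n| ≤ 1)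
    (hb : ∀ n, |b n| ≤ 1) (n : ℤ) :
    |σ.s1 a b n - σ.s2 a b n - (σ.toCD hh hε1).tm a b n| ≤ σ.rem n := by
  have e : (σ.toCD hh hε1).tm a b n = ∑ τ ∈ σ.Ed, σ.w τ.2 * σ.u (dv σ.E n) τ *
      σ.u (dv σ.E (n + lg h τ)) τ * (ind τ.1 n - 1 / τ.1) * (a n * b (n + lg h τ)) := rfl
  rw [e]
  unfold s1 s2 rem
  rw [← Finset.sum_sub_distrib, ← Finset.sum_sub_distrib]
  refine (Finset.abs_sum_le_sum_abs _ _).trans (Finset.sum_le_sum fun τ hτ => ?_)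
  have e2 : σ.w τ.2 * (ind (pr τ.2) n * ind τ.1 n * (a n * b (n + lg h τ))) -
      σ.w τ.2 * (ind (pr τ.2) n * (1 / τ.1) * (a n * b (n + lg h τ))) -
      σ.w τ.2 * σ.u (dv σ.E n) τ * σ.u (dv σ.E (n + lg h τ)) τ * (ind τ.1 n - 1 / τ.1) *
        (a n * b (n + lg h τ)) =
      σ.w τ.2 * ((ind (pr τ.2) n - σ.u (dv σ.E n) τ * σ.u (dv σ.E (n + lg h τ)) τ) *
        (ind τ.1 n - 1 / τ.1)) * (a n * b (n + lg h τ)) := by ring
  rw [e2, abs_mul, abs_mul, abs_mul, abs_of_nonneg (σ.hw _), add_zero]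
  have h1 : |a n * b (n + lg h τ)| ≤ 1 := by
    rw [abs_mul]; exact mul_le_one₀ (ha _) (abs_nonneg _) (hb _)
  have h2 : |ind τ.1 n - 1 / τ.1| ≤ ind τ.1 n + 1 / τ.1 := by
    have h3 := ind_nonneg τ.1 n
    have h4 : (0 : ℝ) ≤ 1 / τ.1 := by positivity
    rw [abs_le]; constructor <;> linarith
  have h3 : |ind (pr τ.2) n - σ.u (dv σ.E n) τ * σ.u (dv σ.E (n + lg h τ)) τ| ≤
      σ.lost τ n + σ.lost τ (n + lg h τ) := by
    have h4 : ind (pr τ.2) (n + lg h τ) = ind (pr τ.2) n := by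
      apply ind_congr
      unfold lg; push_cast
      simpa using Dvd.dvd.mul_left (Dvd.intro_left _ rfl) _
    unfold lost
    rw [h4]
    have h5 := σ.hu (dv σ.E n) τ
    have h6 := σ.hu (dv σ.E (n + lg h τ)) τ
    unfold ind
    split_ifs with hd
    · rw [abs_of_nonneg (by nlinarith)]; nlinarith
    · have h7 : σ.u (dv σ.E n) τ = 0 := by
        by_contra hu
        exact hd ((subset_dv_iff σ.primeE (σ.hEd τ hτ).2.1 n).1
          (σ.hu' _ (dv_subset _ _) τ hτ hu).1)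
      simp [h7]
  have hw := σ.hw τ.2
  calc _ ≤ σ.w τ.2 * (|ind (pr τ.2) n - σ.u (dv σ.E n) τ * σ.u (dv σ.E (n + lg h τ)) τ| *
        |ind τ.1 n - 1 / τ.1|) := mul_le_of_le_one_right (by positivity) h1
    _ ≤ _ := mul_le_mul_of_nonneg_left
        (mul_le_mul h3 h2 (abs_nonneg _) ((abs_nonneg _).trans h3)) hw

lemma sum_rem_le (hh : 1 ≤ h) (hε1 : ε ≤ 1) :
    ∃ C₀ : ℝ, ∀ M : ℕ, ∑ n ∈ range M, σ.rem n ≤ 4 * (ε * σ.tot) * M + C₀ := by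
  set c := σ.toCD hh hε1
  have hQ : pr σ.E ∣ c.N := c.Q_dvd_N
  have hd1 : ∀ τ ∈ σ.Ed, Dep (pr σ.E) (fun n => σ.lost τ n + σ.lost τ (n + lg h τ)) :=
    fun τ hτ => (σ.dep_lost hτ).add ((σ.dep_lost hτ).shift _)
  have hd : Dep c.N σ.rem := Dep.sum _ fun τ hτ => (Dep.const _ _).mul
    (((hd1 τ hτ).mono hQ).mul ((dep_ind (c.p_dvd_N (σ.hEd τ hτ).1) _).add (Dep.const _ _)))
  obtain ⟨C₀, hC⟩ := sum_sub_mean_le c.N_pos hd
  refine ⟨C₀, fun M => ?_⟩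
  have hm : mean c.N σ.rem = 4 * ∑ τ ∈ σ.Ed, σ.w τ.2 / τ.1 *
      ∑ S ∈ σ.E.powerset.filter (fun S => τ.2 ⊆ S), law σ.E S * (1 - σ.u S τ) := by
    unfold rem
    rw [mean_sum, Finset.mul_sum]
    refine Finset.sum_congr rfl fun τ hτ => ?_
    have h1 : mean c.N (σ.lost τ) =
        ∑ S ∈ σ.E.powerset.filter (fun S => τ.2 ⊆ S), law σ.E S * (1 - σ.u S τ) := by
      rw [funext (σ.lost_eq hτ), mean_dv _ σ.primeE c.N_pos hQ
        (fun S => if τ.2 ⊆ S then 1 - σ.u S τ else 0), Finset.sum_filter]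
      refine Finset.sum_congr rfl fun S _ => ?_
      split_ifs <;> simp
    have h2 : mean c.N (fun n => σ.lost τ n + σ.lost τ (n + lg h τ)) =
        2 * mean c.N (σ.lost τ) := by
      rw [mean_add, mean_shift ((σ.dep_lost hτ).mono hQ)]; ring
    rw [mean_const_mul]
    simp only [mul_add _ (ind _ _)]
    rw [mean_add, mean_mul_ind (σ.prime1 hτ).pos (c.hP _ (σ.hEd τ hτ).1).2.2.2
      (c.p_dvd_N (σ.hEd τ hτ).1) hQ (hd1 τ hτ), mean_mul_const, h2, h1]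
    ring
  have h1 := (abs_le.1 (hC M)).2
  have h2 := mul_le_mul_of_nonneg_left σ.removed (Nat.cast_nonneg (α := ℝ) M)
  rw [hm] at h1
  unfold tot
  linarith

theorem s1_sub_s2 (hh : 1 ≤ h) (hε1 : ε ≤ 1) :
    ∃ C₀ : ℝ, ∀ a b : ℤ → ℝ, (∀ n, |a n| ≤ 1) → (∀ n, |b n| ≤ 1) → ∀ M : ℕ,
      |∑ n ∈ range M, σ.s1 a b n - ∑ n ∈ range M, σ.s2 a b n| ≤
        (96 * (2 * h + 1) + 4) * (ε * σ.tot) * M + C₀ := by
  obtain ⟨C₁, h1⟩ := (σ.toCD hh hε1).centred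
  obtain ⟨C₂, h2⟩ := σ.sum_rem_le hh hε1
  refine ⟨C₁ + C₂, fun a b ha hb M => ?_⟩
  have h3 := h1 a b ha hb M
  have e : Real.sqrt (σ.toCD hh hε1).L * (σ.toCD hh hε1).K *
      mean (σ.toCD hh hε1).Q (σ.toCD hh hε1).ρ ≤ ε * σ.tot := by
    have := σ.spec
    rw [← σ.mean_rho] at this
    exact this
  have e2 : (σ.toCD hh hε1).h = h := rfl
  rw [e2] at h3
  have h4 : |∑ n ∈ range M, σ.s1 a b n - ∑ n ∈ range M, σ.s2 a b n -
      ∑ n ∈ range M, (σ.toCD hh hε1).tm a b n| ≤ ∑ n ∈ range M, σ.rem n := by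
    rw [← Finset.sum_sub_distrib, ← Finset.sum_sub_distrib]
    exact (Finset.abs_sum_le_sum_abs _ _).trans
      (Finset.sum_le_sum fun n _ => σ.split_le hh hε1 a b ha hb n)
  have h5 := mul_le_mul_of_nonneg_right (mul_le_mul_of_nonneg_left e
    (by positivity : (0 : ℝ) ≤ 96 * (2 * h + 1))) (Nat.cast_nonneg (α := ℝ) M)
  have h6 := h2 M
  have h7 := abs_le.1 h3
  have h8 := abs_le.1 h4
  rw [abs_le]
  constructor <;> linarith [h7.1, h7.2, h8.1, h8.2]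

end Sys

end Pool.Agent.Work.MP_ca0f09_nt
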